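import Pool.Agent.UltPos.EightRoots
import Pool.Agent.UltPos.Critical
import Pool.Agent.UltPos.Positive

/-! Regular sequences: every residue class of some modulus is narrow, or has the exact growth
`ρ^n n^d`, `d ≥ 1`, with a margin. -/

set_option autoImplicit false

namespace Pool.Agent.UltPos

open Filter Topology

/-- The values of `v` along `n = Nm + J`, divided by `ρ^n n^d`. -/
noncomputable def normVal (v : ℕ → ℝ) (N J : ℕ) (ρ : ℝ) (d m : ℕ) : ℝ :=
  v (N * m + J) / (ρ ^ (N * m + J) * ((N * m + J : ℕ) : ℝ) ^ d)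

/-- The residue class `J` modulo `N` is *narrow* with respect to a set `S` of complex numbers: there
is `ρ > 0` such that `v(Nm+J) / ρ^m` is bounded and either its liminf is not `0`, or there are `a`,
`b` in `S` with `|a| = |b|` and `a/b` not a root of unity such that the set of contact values of
`a/b` is finite. -/
def ClassNarrow (v : ℕ → ℝ) (S : Set ℂ) (N J : ℕ) : Prop :=
  ∃ ρ : ℝ, 0 < ρ ∧ (∃ B : ℝ, ∀ m : ℕ, |v (N * m + J)| ≤ B * ρ ^ m) ∧
    (liminf (fun m : ℕ => v (N * m + J) / ρ ^ m) atTop ≠ 0 ∨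
      ∃ a ∈ S, ∃ b ∈ S, ‖a‖ = ‖b‖ ∧ (∀ n : ℕ, 0 < n → a ^ n ≠ b ^ n) ∧
        (contactSet v N J ρ (a / b)).Finite)

/-- The residue class `J` modulo `N` has *margin* `μ`: for some `ρ > 0` and `d ≥ 1` the quotient
`v(n) / (ρ^n n^d)`, `n = Nm + J`, is bounded and its liminf is at least `μ`. -/
def ClassMargin (μ : ℝ) (v : ℕ → ℝ) (N J : ℕ) : Prop :=
  ∃ (ρ : ℝ) (d : ℕ), 0 < ρ ∧ 0 < d ∧ (∃ B : ℝ, ∀ m : ℕ, 0 < m → |normVal v N J ρ d m| ≤ B) ∧
    μ ≤ liminf (normVal v N J ρ d) atTop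

/-- For some modulus every residue class is narrow or has margin `μ`. -/
def IsRegular (μ : ℝ) (v : ℕ → ℝ) (S : Set ℂ) : Prop :=
  ∃ N : ℕ, 0 < N ∧ ∀ J : ℕ, J < N → ClassNarrow v S N J ∨ ClassMargin μ v N J

/-- The sequence of the instance is regular with margin `μ`. -/
def Inst.RegularWith (I : Inst) (μ : ℝ) : Prop :=
  ∃ v : ℕ → ℚ, I.IsSeq v ∧ IsRegular μ (fun n => (v n : ℝ)) I.rootSet

/-- The sequence of the instance is regular with some positive margin. -/
def Inst.Regular (I : Inst) : Prop := ∃ μ : ℝ, 0 < μ ∧ I.RegularWith μ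

/-- Each circle around `0` contains at most `s` characteristic roots. -/
def Inst.AtMostPerCircle (I : Inst) (s : ℕ) : Prop :=
  ∀ r : ℝ, Set.encard {z : ℂ | z ∈ I.rootSet ∧ ‖z‖ = r} ≤ s

/-- Each circle around `0` contains at most two multiple characteristic roots. -/
def Inst.TwoMultiple (I : Inst) : Prop :=
  ∀ r : ℝ, Set.encard {z : ℂ | z ∈ I.rootSet ∧
    Polynomial.aeval z (Polynomial.derivative I.charPoly) = 0 ∧ ‖z‖ = r} ≤ 2

end Pool.Agent.UltPos
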