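import Pool.Agent.DD7719.NComplete
import Pool.Agent.MX.Defs

/-! Certificates for sequences that are not regular. -/

set_option autoImplicit false

namespace Pool.Agent.DD7719.M

open Complex Filter Topology GS

variable {k : ℕ}

/-- the last clause of a certificate for a class with `d = 0` that is not narrow -/
def NNF0 (t : ℝ) (l : Fin k → ℂ) (n0 : ℕ) (A : Fin k → Fin k → ℤ) (s : ℕ) (ρ : ℝ) (d : ℕ)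
    (F : (Fin k → ℂ) → ℝ) (z z' : Fin k → ℂ) : Prop :=
  ρ = 0 ∨ (F z' ≠ 0 ∧ d = 0 ∧ (F z < 0 ∨ (F z ≤ 0 ∧ ∀ i i', ‖l i‖ = ‖l i'‖ →
    l i ^ n0 ≠ l i' ^ n0 → ∃ z1 z2 : Fin k → ℂ, (∀ t, ‖z1 t‖ = 1) ∧ (∀ t, ‖z2 t‖ = 1) ∧
      F z1 ≤ 0 ∧ F z2 ≤ 0 ∧ Wt A s z1 i / Wt A s z1 i' ≠ Wt A s z2 i / Wt A s z2 i' ∧
      t * ‖Wt A s z1 i / Wt A s z1 i' - Wt A s z2 i / Wt A s z2 i'‖ ≤ 1)))

/-- certificate with the clause `NNF0` -/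
def CertNF0 (k : ℕ) (l c : Fin k → ℂ) (ex : Fin k → ℕ) (M Nb : ℕ) (ε δ : ℝ) (t : ℝ) : Prop :=
  ∃ (n0 j : ℕ) (A H : Fin k → Fin k → ℤ) (D : ℤ) (s : ℕ) (w : Fin k → Fin k → ℝ)
    (τ : Fin k → ℝ) (ρ : ℝ) (d : ℕ) (z z' : Fin k → ℂ),
    BaseF k l c ex M Nb ε δ n0 j A H D s w τ ρ d ∧ (∀ t, ‖z t‖ = 1) ∧ (∀ t, ‖z' t‖ = 1) ∧
    NNF0 t l n0 A s ρ d (fun z => (LevF l c ex A s j d ρ z).re) z z'

/-- certificate for a class with `d ≥ 1` whose margin is less than `μ` -/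
def CertMF (k : ℕ) (l c : Fin k → ℂ) (ex : Fin k → ℕ) (M Nb : ℕ) (ε δ : ℝ) (μ : ℝ) : Prop :=
  ∃ (n0 j : ℕ) (A H : Fin k → Fin k → ℤ) (D : ℤ) (s : ℕ) (w : Fin k → Fin k → ℝ)
    (τ : Fin k → ℝ) (ρ : ℝ) (d : ℕ) (z z' : Fin k → ℂ),
    BaseF k l c ex M Nb ε δ n0 j A H D s w τ ρ d ∧ (∀ t, ‖z t‖ = 1) ∧ (∀ t, ‖z' t‖ = 1) ∧
    0 < ρ ∧ 0 < d ∧ (LevF l c ex A s j d ρ z').re ≠ 0 ∧
    (LevF l c ex A s j d ρ z).re < μ * d.factorial * ρ ^ j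

/-- the data of a class of level `(ρ, d)`, `d ≥ 1`, with margin `μ` -/
def ClsM (k : ℕ) (l c : Fin k → ℂ) (ex : Fin k → ℕ) (M Nb : ℕ) (ε δ : ℝ) (n0 j : ℕ) (μ : ℝ) :
    Prop :=
  ∃ (A H : Fin k → Fin k → ℤ) (D : ℤ) (s : ℕ) (w : Fin k → Fin k → ℝ)
    (τ : Fin k → ℝ) (x : Fin k → ℝ) (i0 : Fin k), Rep l n0 A s x ∧
    BaseF k l c ex M Nb ε δ n0 j A H D s w τ ‖l i0‖ (ex i0) ∧ l i0 ≠ 0 ∧ 0 < ex i0 ∧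
    (∃ z' : Fin k → ℂ, (∀ t, ‖z' t‖ = 1) ∧ (LevF l c ex A s j (ex i0) ‖l i0‖ z').re ≠ 0) ∧
    (∀ z : Fin k → ℂ, (∀ t, ‖z t‖ = 1) →
      μ * (ex i0).factorial * ‖l i0‖ ^ j ≤ (LevF l c ex A s j (ex i0) ‖l i0‖ z).re) ∧
    (open scoped Classical in ∀ m, ∑ i, (if Above ‖l i0‖ (ex i0) (l i) (ex i) then
            c i * ((j + n0 * m).choose (ex i) : ℂ) * l i ^ (j + n0 * m - ex i) else 0) = 0)

/-- eventually between two positive multiples of `ρ^m`, or of exact order `ρ^n n^d`, along each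
residue class of a modulus -/
def Tm2 (v : ℕ → ℝ) : Prop := ∃ N : ℕ, 0 < N ∧ ∀ J : ℕ, J < N →
  (∃ ρ b B : ℝ, 0 < ρ ∧ 0 < b ∧
    ∀ᶠ m : ℕ in atTop, b * ρ ^ m ≤ v (N * m + J) ∧ v (N * m + J) ≤ B * ρ ^ m) ∨
  ∃ μ : ℝ, 0 < μ ∧ UltPos.ClassMargin μ v N J

end Pool.Agent.DD7719.M
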