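import Pool.Agent.DD7719.TArith

/-! Sizes. -/

set_option autoImplicit false

namespace Pool.Agent.DD7719.M

/-- number of bits for the coefficients -/
def pcf (L : ℕ) : ℕ := 20 * (L + 1) ^ 4

/-- number of bits for the inverse of a power of the modulus of a nonzero root -/
def pw (L : ℕ) : ℕ := (L * L + 1) * L

/-- number of bits of the threshold of the classes with margin `1 / 2 ^ p` -/
def pthM (L p : ℕ) : ℕ :=
  pg L + 3 + (p + pcf L + L + pw L + L * pq2 L + 2 * L + pbn L + 4)

end Pool.Agent.DD7719.M
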