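import Pool.Agent.DD7719.NPos
import Pool.Agent.MX.CertDefs
import Pool.Agent.MX.Sizes

/-! `ℕ`-indexed certificates for sequences that are not regular. -/

set_option autoImplicit false

namespace Pool.Agent.DD7719.M

open Complex Filter Topology GS

/-! ### `ℕ`-indexed last clauses -/

/-- the last clause for classes with `d = 0` that are not narrow -/
def QNN0 (k : ℕ) (tt : ℝ) : QT := fun l c ex n0 j A s d ρ z z' Z1 Z2 =>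
  ρ = 0 ∨ ((Lev k s d l c z' ex A j ρ).re ≠ 0 ∧ d = 0 ∧ ((Lev k s d l c z ex A j ρ).re < 0 ∨
    ((Lev k s d l c z ex A j ρ).re ≤ 0 ∧ ∀ i, i < k → ∀ i', i' < k →
      (‖l i‖ ≠ ‖l i'‖ ∨ l i ^ n0 = l i' ^ n0 ∨
      ((∀ t, t < k → ‖Z1 (Nat.pair i i') t‖ = 1) ∧ (∀ t, t < k → ‖Z2 (Nat.pair i i') t‖ = 1) ∧
      (Lev k s d l c (Z1 (Nat.pair i i')) ex A j ρ).re ≤ 0 ∧
      (Lev k s d l c (Z2 (Nat.pair i i')) ex A j ρ).re ≤ 0 ∧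
      WtN k s A (Z1 (Nat.pair i i')) i / WtN k s A (Z1 (Nat.pair i i')) i' ≠
        WtN k s A (Z2 (Nat.pair i i')) i / WtN k s A (Z2 (Nat.pair i i')) i' ∧
      tt * ‖WtN k s A (Z1 (Nat.pair i i')) i / WtN k s A (Z1 (Nat.pair i i')) i' -
        WtN k s A (Z2 (Nat.pair i i')) i / WtN k s A (Z2 (Nat.pair i i')) i'‖ ≤ 1)))))

/-- the last clause for classes with `d ≥ 1` whose margin is less than `μ` -/
def QMG (k : ℕ) (μ : ℝ) : QT := fun l c ex _ j A s d ρ z z' _ _ =>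
  0 < ρ ∧ 0 < d ∧ (Lev k s d l c z' ex A j ρ).re ≠ 0 ∧
    (Lev k s d l c z ex A j ρ).re < μ * d.factorial * ρ ^ j

end Pool.Agent.DD7719.M

namespace Pool.Agent.UltPos

open Pool.Agent.PT Pool.Agent.AllR Pool.Agent.DD7719.M Pool.Agent.DD7719 Finset

/-- the certificates of non-narrowness for the classes with `d = 0` -/
def Inst.NN0 (I : Inst) (L : ℕ) (aR uR : ℕ → ℝ) (t : ℝ) : Prop :=
  ∃ (l c : ℕ → ℂ) (ex : ℕ → ℕ), RootData I.k aR uR l c ex ∧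
    CertQN I.k l c ex (pbm L) (pbn L) (2 / ((2 ^ pq L : ℕ) : ℝ)) (1 / 2 ^ pdl L) (QNN0 I.k t)

/-- the certificates for classes with `d ≥ 1` whose margin is less than `μ` -/
def Inst.MG (I : Inst) (L : ℕ) (aR uR : ℕ → ℝ) (μ : ℝ) : Prop :=
  ∃ (l c : ℕ → ℂ) (ex : ℕ → ℕ), RootData I.k aR uR l c ex ∧
    CertQN I.k l c ex (pbm L) (pbn L) (2 / ((2 ^ pq L : ℕ) : ℝ)) (1 / 2 ^ pdl L) (QMG I.k μ)

/-- `m` characteristic roots on one circle -/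
def ManyRoots (m k : ℕ) (a : ℕ → ℝ) : Prop := ∃ z : ℕ → ℂ,
  (∀ i, i < m → z i ^ k = ∑ t ∈ range k, (a t : ℂ) * z i ^ (k - 1 - t)) ∧
  (∀ i, i < m → ‖z i‖ = ‖z 0‖) ∧ ∀ i, i < m → ∀ i', i' < m → i < i' → z i ≠ z i'

/-- three multiple characteristic roots on one circle -/
def ThreeMultiple (k : ℕ) (a : ℕ → ℝ) : Prop := ∃ z : ℕ → ℂ,
  (∀ i, i < 3 → z i ^ k = ∑ t ∈ range k, (a t : ℂ) * z i ^ (k - 1 - t)) ∧
  (∀ i, i < 3 → (k : ℂ) * z i ^ (k - 1) =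
    ∑ t ∈ range k, (a t : ℂ) * ((k - 1 - t : ℕ) : ℂ) * z i ^ (k - 1 - t - 1)) ∧
  (∀ i, i < 3 → ‖z i‖ = ‖z 0‖) ∧ ∀ i, i < 3 → ∀ i', i' < 3 → i < i' → z i ≠ z i'

end Pool.Agent.UltPos
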