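import Pool.Agent.DD7719.N3Lang
import Pool.Agent.MX.Defs2

/-! P22. The conditions on the number of roots and multiple roots on circles (adapt
`DD7719/N3Lang.lean`). -/

set_option autoImplicit false

namespace Pool.Agent.UltPos

open Pool.Agent.PT Pool.Agent.AllR Pool.Agent.DD7719.M Pool.Agent.DD7719 Finset

theorem re_many {Γ : Type} (m : ℕ) (kk : List Γ → ℕ) (aR : List Γ → ℕ → ℝ)
    (hk : UF (fun x _ => kk x)) (ha : RF (fun x e _ => aR x (e 0))) :
    RE (fun x _ _ => ManyRoots m (kk x) (aR x)) := by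
  have h1 : RE (fun x _ _ => ∃ α : ℕ → ℝ,
      (∀ i, i < m → rl α i ^ kk x = ∑ t ∈ range (kk x), (aR x t : ℂ) * rl α i ^ (kk x - 1 - t)) ∧
      (∀ i, i < m → ‖rl α i‖ = ‖rl α 0‖) ∧
      ∀ i, i < m → ∀ i', i' < m → i < i' → rl α i ≠ rl α i') := by
    refine RE.exb ?_
    refine RE.aff (R := fun x e α =>
      (∀ i, i < m → rl α i ^ kk x = ∑ t ∈ range (kk x), (aR x t : ℂ) * rl α i ^ (kk x - 1 - t)) ∧
      (∀ i, i < m → ‖rl α i‖ = ‖rl α 0‖) ∧
      ∀ i, i < m → ∀ i', i' < m → i < i' → rl α i ≠ rl α i') ?_ 2 1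
    refine RE.and (RE.ball (UF.const m) (RE.ceq ((cf_rl (UF.var 0)).pow hk) (CF.sum hk ?_)))
      (RE.and (RE.ball (UF.const m) (RE.eq (cf_rl (UF.var 0)).norm (cf_rl (UF.const 0)).norm))
      (RE.ball (UF.const m) (RE.ball (UF.const m) (RE.guard (UP.lt (UF.var 1) (UF.var 0))
        (RE.cne (cf_rl (UF.var 1)) (cf_rl (UF.var 0)))))))
    refine (CF.ofReal ?_).mul ((cf_rl (UF.var 1)).pow ((hk.sub (UF.const 1)).sub (UF.var 0)))
    exact ha
  refine h1.congr fun x e α => ?_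
  constructor
  · rintro ⟨α, h⟩
    exact ⟨rl α, h⟩
  · rintro ⟨z, h⟩
    refine ⟨encAll z 0 0 0 0 0 0 0 0 0 0 0 0, ?_⟩
    rw [rl_enc]
    exact h

theorem re_threeMultiple {Γ : Type} (kk : List Γ → ℕ) (aR : List Γ → ℕ → ℝ)
    (hk : UF (fun x _ => kk x)) (ha : RF (fun x e _ => aR x (e 0))) :
    RE (fun x _ _ => ThreeMultiple (kk x) (aR x)) := by
  have h1 : RE (fun x _ _ => ∃ α : ℕ → ℝ,
      (∀ i, i < 3 → rl α i ^ kk x = ∑ t ∈ range (kk x), (aR x t : ℂ) * rl α i ^ (kk x - 1 - t)) ∧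
      (∀ i, i < 3 → (kk x : ℂ) * rl α i ^ (kk x - 1) =
        ∑ t ∈ range (kk x), (aR x t : ℂ) * ((kk x - 1 - t : ℕ) : ℂ) * rl α i ^ (kk x - 1 - t - 1)) ∧
      (∀ i, i < 3 → ‖rl α i‖ = ‖rl α 0‖) ∧
      ∀ i, i < 3 → ∀ i', i' < 3 → i < i' → rl α i ≠ rl α i') := by
    refine RE.exb ?_
    refine RE.aff (R := fun x e α =>
      (∀ i, i < 3 → rl α i ^ kk x = ∑ t ∈ range (kk x), (aR x t : ℂ) * rl α i ^ (kk x - 1 - t)) ∧
      (∀ i, i < 3 → (kk x : ℂ) * rl α i ^ (kk x - 1) =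
        ∑ t ∈ range (kk x), (aR x t : ℂ) * ((kk x - 1 - t : ℕ) : ℂ) * rl α i ^ (kk x - 1 - t - 1)) ∧
      (∀ i, i < 3 → ‖rl α i‖ = ‖rl α 0‖) ∧
      ∀ i, i < 3 → ∀ i', i' < 3 → i < i' → rl α i ≠ rl α i') ?_ 2 1
    refine RE.and (RE.ball (UF.const 3) (RE.ceq ((cf_rl (UF.var 0)).pow hk) (CF.sum hk ?_)))
      (RE.and (RE.ball (UF.const 3) (RE.ceq ((CF.nat hk).mul ((cf_rl (UF.var 0)).pow
        (hk.sub (UF.const 1)))) (CF.sum hk ?_)))
      (RE.and (RE.ball (UF.const 3) (RE.eq (cf_rl (UF.var 0)).norm (cf_rl (UF.const 0)).norm))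
      (RE.ball (UF.const 3) (RE.ball (UF.const 3) (RE.guard (UP.lt (UF.var 1) (UF.var 0))
        (RE.cne (cf_rl (UF.var 1)) (cf_rl (UF.var 0))))))))
    · refine (CF.ofReal ?_).mul ((cf_rl (UF.var 1)).pow ((hk.sub (UF.const 1)).sub (UF.var 0)))
      exact ha
    · refine ((CF.ofReal ?_).mul (CF.nat ((hk.sub (UF.const 1)).sub (UF.var 0)))).mul
        ((cf_rl (UF.var 1)).pow (((hk.sub (UF.const 1)).sub (UF.var 0)).sub (UF.const 1)))
      exact ha
  refine h1.congr fun x e α => ?_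
  constructor
  · rintro ⟨α, h⟩
    exact ⟨rl α, h⟩
  · rintro ⟨z, h⟩
    refine ⟨encAll z 0 0 0 0 0 0 0 0 0 0 0 0, ?_⟩
    rw [rl_enc]
    exact h

private lemma mxIff_circle (P : ℂ → Prop) (s : ℕ) :
    (∀ r : ℝ, Set.encard {z : ℂ | P z ∧ ‖z‖ = r} ≤ s) ↔
      ¬ ∃ z : ℕ → ℂ, (∀ i, i < s + 1 → P (z i)) ∧ (∀ i, i < s + 1 → ‖z i‖ = ‖z 0‖) ∧
        ∀ i, i < s + 1 → ∀ i', i' < s + 1 → i < i' → z i ≠ z i' := by
  classical
  constructor
  · rintro h ⟨z, h1, h2, h3⟩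
    have h4 := h ‖z 0‖
    set S := (Finset.range (s + 1)).image z with hS
    have hcard : S.card = s + 1 := by
      rw [hS, Finset.card_image_of_injOn, Finset.card_range]
      intro i hi i' hi' hii
      rw [Finset.coe_range, Set.mem_Iio] at hi hi'
      by_contra hne
      rcases lt_or_gt_of_ne hne with h5 | h5
      · exact h3 i hi i' hi' h5 hii
      · exact h3 i' hi' i hi h5 hii.symm
    have hsub : (S : Set ℂ) ⊆ {z' | P z' ∧ ‖z'‖ = ‖z 0‖} := by
      intro z' hz'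
      rw [hS, Finset.coe_image] at hz'
      obtain ⟨i, hi, rfl⟩ := hz'
      rw [Finset.coe_range, Set.mem_Iio] at hi
      exact ⟨h1 i hi, h2 i hi⟩
    have h5 := (Set.encard_le_encard hsub).trans h4
    rw [Set.encard_coe_eq_coe_finsetCard, hcard] at h5
    have h6 : s + 1 ≤ s := by exact_mod_cast h5
    omega
  · intro h r
    by_contra hcon
    push Not at hcon
    apply h
    have h4 : ((s + 1 : ℕ) : ℕ∞) ≤ Set.encard {z : ℂ | P z ∧ ‖z‖ = r} := by
      have h5 := Order.add_one_le_of_lt hcon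
      push_cast
      exact h5
    obtain ⟨T, hT, hTc⟩ := Set.exists_subset_encard_eq h4
    have hTf : T.Finite := Set.finite_of_encard_eq_coe hTc
    have hTc' : hTf.toFinset.card = s + 1 := by
      rw [hTf.encard_eq_coe_toFinset_card] at hTc
      exact_mod_cast hTc
    obtain ⟨e⟩ : Nonempty (Fin (s + 1) ≃ hTf.toFinset) := by
      refine ⟨(Fintype.equivFinOfCardEq ?_).symm⟩
      rw [Fintype.card_coe, hTc']
    refine ⟨fun i => if hi : i < s + 1 then (e ⟨i, hi⟩ : ℂ) else 0, ?_, ?_, ?_⟩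
    · intro i hi
      simp only [hi, dif_pos]
      exact (hT (hTf.mem_toFinset.mp (e ⟨i, hi⟩).2)).1
    · intro i hi
      simp only [hi, dif_pos, show (0 : ℕ) < s + 1 by omega]
      have h5 := hT (hTf.mem_toFinset.mp (e ⟨i, hi⟩).2)
      have h6 := hT (hTf.mem_toFinset.mp (e ⟨0, by omega⟩).2)
      exact h5.2.trans h6.2.symm
    · intro i hi i' hi' hii heq
      simp only [hi, hi', dif_pos] at heq
      have h5 := e.injective (Subtype.ext heq)
      rw [Fin.mk.injEq] at h5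
      omega

theorem Inst.perCircle_iff (I : Inst) (s : ℕ) (aR : ℕ → ℝ)
    (ha : ∀ t (h : t < I.k), aR t = (I.a ⟨t, h⟩ : ℝ)) :
    I.AtMostPerCircle s ↔ ¬ ManyRoots (s + 1) I.k aR := by
  unfold Inst.AtMostPerCircle ManyRoots
  rw [mxIff_circle (fun z => z ∈ I.rootSet) s]
  simp only [I.mem_rootSet_iff aR ha]

private lemma mxIff_deriv (I : Inst) (aR : ℕ → ℝ)
    (ha : ∀ t (h : t < I.k), aR t = (I.a ⟨t, h⟩ : ℝ)) (z : ℂ) :
    Polynomial.aeval z (Polynomial.derivative I.charPoly) = 0 ↔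
      (I.k : ℂ) * z ^ (I.k - 1) =
        ∑ t ∈ range I.k, (aR t : ℂ) * ((I.k - 1 - t : ℕ) : ℂ) * z ^ (I.k - 1 - t - 1) := by
  unfold Inst.charPoly
  rw [Polynomial.derivative_sub, Polynomial.derivative_X_pow, Polynomial.derivative_sum, map_sub,
    map_sum, sub_eq_zero]
  have h1 : Polynomial.aeval z (Polynomial.C (I.k : ℚ) * Polynomial.X ^ (I.k - 1)) =
      (I.k : ℂ) * z ^ (I.k - 1) := by
    rw [map_mul, Polynomial.aeval_C, map_pow, Polynomial.aeval_X]
    simp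
  rw [h1, Finset.sum_range]
  have h2 : ∀ t : Fin I.k, Polynomial.aeval z (Polynomial.derivative
      (Polynomial.C (I.a t) * Polynomial.X ^ (I.k - 1 - (t : ℕ)))) =
      (aR t : ℂ) * ((I.k - 1 - t : ℕ) : ℂ) * z ^ (I.k - 1 - t - 1) := by
    intro t
    rw [Polynomial.derivative_C_mul, Polynomial.derivative_X_pow, map_mul, map_mul,
      Polynomial.aeval_C, Polynomial.aeval_C, map_pow, Polynomial.aeval_X, ha t t.2]
    simp
    ring
  rw [Finset.sum_congr rfl fun t _ => h2 t]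

theorem Inst.twoMultiple_iff (I : Inst) (aR : ℕ → ℝ)
    (ha : ∀ t (h : t < I.k), aR t = (I.a ⟨t, h⟩ : ℝ)) :
    I.TwoMultiple ↔ ¬ ThreeMultiple I.k aR := by
  have h0 := mxIff_circle (fun z => z ∈ I.rootSet ∧
    Polynomial.aeval z (Polynomial.derivative I.charPoly) = 0) 2
  unfold Inst.TwoMultiple ThreeMultiple
  have h1 : (∀ r : ℝ, Set.encard {z : ℂ | z ∈ I.rootSet ∧
      Polynomial.aeval z (Polynomial.derivative I.charPoly) = 0 ∧ ‖z‖ = r} ≤ 2) ↔
      ∀ r : ℝ, Set.encard {z : ℂ | (z ∈ I.rootSet ∧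
      Polynomial.aeval z (Polynomial.derivative I.charPoly) = 0) ∧ ‖z‖ = r} ≤ ((2 : ℕ) : ℕ∞) := by
    simp only [and_assoc, Nat.cast_ofNat]
  rw [h1, h0]
  simp only [I.mem_rootSet_iff aR ha, mxIff_deriv I aR ha]
  apply not_congr
  constructor
  · rintro ⟨z, h2, h3, h4⟩
    exact ⟨z, fun i hi => (h2 i hi).1, fun i hi => (h2 i hi).2, h3, h4⟩
  · rintro ⟨z, h2, h2', h3, h4⟩
    exact ⟨z, fun i hi => ⟨h2 i hi, h2' i hi⟩, h3, h4⟩

theorem Inst.eight_iff_perCircle (I : Inst) : I.EightPerCircle ↔ I.AtMostPerCircle 8 := Iff.rfl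

/-- instances of order at most `5` -/
theorem Inst.twoMultiple_of_order {I : Inst} (hk : I.k ≤ 5) : I.TwoMultiple := by
  classical
  intro r
  set p : Polynomial ℂ := I.charPoly.map (algebraMap ℚ ℂ) with hp
  have hpc : p = DD7719.M.cp I.k (fun t => ((I.aQ t : ℚ) : ℂ)) := I.charPoly_map
  have hp0 : p ≠ 0 := by
    rw [hpc]
    exact (cp_monic _ _).ne_zero
  have hdeg : p.natDegree = I.k := by
    rw [hpc]
    exact cp_natDegree _ _
  by_contra hcon
  push Not at hcon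
  have h4 : ((3 : ℕ) : ℕ∞) ≤ Set.encard {z : ℂ | z ∈ I.rootSet ∧
      Polynomial.aeval z (Polynomial.derivative I.charPoly) = 0 ∧ ‖z‖ = r} := by
    have h5 := Order.add_one_le_of_lt hcon
    norm_num at h5 ⊢
    exact h5
  obtain ⟨T, hT, hTc⟩ := Set.exists_subset_encard_eq h4
  have hTf : T.Finite := Set.finite_of_encard_eq_coe hTc
  have hTc' : hTf.toFinset.card = 3 := by
    rw [hTf.encard_eq_coe_toFinset_card] at hTc
    exact_mod_cast hTc
  have hmult : ∀ z ∈ hTf.toFinset, 2 ≤ p.roots.count z := by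
    intro z hz
    obtain ⟨h5, h6, -⟩ := hT (hTf.mem_toFinset.mp hz)
    rw [Polynomial.count_roots]
    have h7 : 1 < p.rootMultiplicity z := by
      rw [Polynomial.one_lt_rootMultiplicity_iff_isRoot hp0]
      constructor
      · rw [Polynomial.IsRoot.def, hp, Polynomial.eval_map_algebraMap]
        exact h5
      · rw [Polynomial.IsRoot.def, hp, Polynomial.derivative_map, Polynomial.eval_map_algebraMap]
        exact h6
    exact h7
  have hsub : hTf.toFinset ⊆ p.roots.toFinset := by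
    intro z hz
    rw [Multiset.mem_toFinset, ← Multiset.count_pos]
    have := hmult z hz
    omega
  have h8 : 2 * hTf.toFinset.card ≤ ∑ z ∈ hTf.toFinset, p.roots.count z := by
    rw [mul_comm, ← smul_eq_mul]
    exact Finset.card_nsmul_le_sum _ _ _ hmult
  have h9 : ∑ z ∈ hTf.toFinset, p.roots.count z ≤ ∑ z ∈ p.roots.toFinset, p.roots.count z :=
    Finset.sum_le_sum_of_subset hsub
  rw [Multiset.toFinset_sum_count_eq] at h9
  have h10 := Polynomial.card_roots' p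
  omega

end Pool.Agent.UltPos
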