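import Pool.Agent.MX.CertDefs
import Pool.Agent.DD7719.GSimple

/-! P10. Soundness: classes with margin. -/

set_option autoImplicit false

namespace Pool.Agent.DD7719.M

open Complex Filter Topology GS

variable {k : ℕ}

/-- comparison of growth rates -/
private lemma growth_zero (q : ℝ) (hq : 0 < q) (d d1 : ℕ) (h : q < 1 ∨ (q = 1 ∧ d < d1)) :
    Tendsto (fun n : ℕ => q ^ n * ((n : ℝ) ^ d / (n : ℝ) ^ d1)) atTop (𝓝 0) := by
  rcases h with h | ⟨rfl, h⟩
  · have h1 := tendsto_pow_const_mul_const_pow_of_lt_one d hq.le h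
    refine squeeze_zero' (Eventually.of_forall fun n => by positivity) ?_ h1
    filter_upwards [eventually_ge_atTop 1] with n hn
    have hn' : (1 : ℝ) ≤ n := by exact_mod_cast hn
    rw [mul_comm]
    refine mul_le_mul_of_nonneg_right ?_ (by positivity)
    exact div_le_self (by positivity) (one_le_pow₀ hn')
  · obtain ⟨r, rfl⟩ := Nat.exists_eq_add_of_lt h
    have h1 : Tendsto (fun n : ℕ => (1 : ℝ) / (n : ℝ) ^ (r + 1)) atTop (𝓝 0) := by
      have := (tendsto_one_div_atTop_nhds_zero_nat (𝕜 := ℝ)).pow (r + 1)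
      rw [zero_pow (by omega)] at this
      refine this.congr fun n => ?_
      rw [div_pow, one_pow]
    refine h1.congr' ?_
    filter_upwards [eventually_ge_atTop 1] with n hn
    have hn' : (0 : ℝ) < n := by exact_mod_cast hn
    rw [one_pow, one_mul, show d + r + 1 = d + (r + 1) from by ring, pow_add]
    field_simp
    ring

/-- **A certified class inside a residue class with margin `μ`** has the same level and its values
on the torus are at least `μ d! ρ^j`. (Use `nar_core`.) -/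
theorem margin_sound (l c : Fin k → ℂ) (ex : Fin k → ℕ) (R M Nb : ℕ) (ε δ : ℝ) (v : ℕ → ℝ)
    (hg : GoodD k l c ex R M ε δ v)
    (n0 j : ℕ) (A H : Fin k → Fin k → ℤ) (D : ℤ) (s : ℕ) (w : Fin k → Fin k → ℝ)
    (τ : Fin k → ℝ) (ρ : ℝ) (d : ℕ)
    (hbase : BaseF k l c ex M Nb ε δ n0 j A H D s w τ ρ d) (hρpos : 0 < ρ) (z' : Fin k → ℂ)
    (hz' : ∀ t, ‖z' t‖ = 1) (hne : (LevF l c ex A s j d ρ z').re ≠ 0)
    (N : ℕ) (hN : 0 < N) (μ : ℝ) (hμ : 0 < μ) (hm : UltPos.ClassMargin μ v N (j % N)) :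
    0 < d ∧ ∀ z : Fin k → ℂ, (∀ t, ‖z t‖ = 1) →
      μ * d.factorial * ρ ^ j ≤ (LevF l c ex A s j d ρ z).re := by
  obtain ⟨u, hu, ⟨U, hU⟩, happ⟩ := nar_core l c ex R M Nb ε δ hg.hk hg.hex hg.hdc hg.hR hg.hM hg.hrb
    hg.hε hg.hδ v hg.hv n0 j A H D s w τ ρ d hbase hρpos N hN
  have hn0 : 0 < n0 := hbase.1
  obtain ⟨ρ1, d1, hρ1, hd1, ⟨B, hB⟩, hlim⟩ := hm
  set a : ℝ := |(LevF l c ex A s j d ρ z').re| / 2 with ha
  have ha0 : 0 < a := half_pos (abs_pos.mpr hne)
  have hbig : ∀ N1, ∃ n, N1 ≤ n ∧ a ≤ |u n| := by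
    intro N1
    obtain ⟨n, hn, h1, -⟩ := happ z' hz' a ha0 N1
    refine ⟨n, hn, ?_⟩
    have h2 := abs_sub_abs_le_abs_sub (LevF l c ex A s j d ρ z').re (u n)
    rw [abs_sub_comm] at h2
    linarith
  have hU0 : 0 ≤ U := (abs_nonneg _).trans (hU 0)
  have hfac : (0 : ℝ) < d.factorial := by exact_mod_cast d.factorial_pos
  -- the indices
  have hidx : ∀ n, j + n0 * (N * n) = N * (j / N + n0 * n) + j % N := by
    intro n
    have := Nat.div_add_mod j N
    calc j + n0 * (N * n) = (N * (j / N) + j % N) + n0 * (N * n) := by rw [this]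
      _ = _ := by ring
  have hnt : ∀ n, n ≤ j + n0 * (N * n) := by
    intro n
    have h1 : n ≤ n0 * (N * n) := by
      rw [← mul_assoc]
      exact Nat.le_mul_of_pos_left _ (Nat.mul_pos hn0 hN)
    omega
  have hntend : Tendsto (fun n : ℕ => j + n0 * (N * n)) atTop atTop :=
    tendsto_atTop_mono hnt tendsto_id
  have hmt : ∀ n, n ≤ j / N + n0 * n := fun n =>
    (Nat.le_mul_of_pos_left _ hn0).trans (Nat.le_add_left _ _)
  -- the normalised binomial coefficient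
  set h : ℕ → ℝ := fun n => ((j + n0 * (N * n)).choose d : ℝ) / ((j + n0 * (N * n) : ℕ) : ℝ) ^ d
    with hh
  have hhlim : Tendsto h atTop (𝓝 (1 / d.factorial)) := by
    have h1 := (isEquivalent_choose d).comp_tendsto hntend
    have h2 : Asymptotics.IsEquivalent atTop h (fun n : ℕ =>
        (((j + n0 * (N * n) : ℕ) : ℝ) ^ d / d.factorial) / ((j + n0 * (N * n) : ℕ) : ℝ) ^ d) :=
      h1.div Asymptotics.IsEquivalent.refl
    refine h2.symm.tendsto_nhds ?_
    refine tendsto_const_nhds.congr' ?_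
    filter_upwards [eventually_gt_atTop 0] with n hn
    have h3 : (0 : ℝ) < ((j + n0 * (N * n) : ℕ) : ℝ) := by
      have := hnt n
      have h4 : 0 < j + n0 * (N * n) := by omega
      exact_mod_cast h4
    field_simp
  -- the normalised values
  set g : ℕ → ℝ := fun n => h n * u n / ρ ^ j with hgd
  have hval : ∀ n, 0 < n → UltPos.normVal v N (j % N) ρ1 d1 (j / N + n0 * n) =
      g n * ((ρ / ρ1) ^ (j + n0 * (N * n)) * (((j + n0 * (N * n) : ℕ) : ℝ) ^ d /
        ((j + n0 * (N * n) : ℕ) : ℝ) ^ d1)) := by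
    intro n hn
    have h3 : (0 : ℝ) < ((j + n0 * (N * n) : ℕ) : ℝ) := by
      have := hnt n
      have h4 : 0 < j + n0 * (N * n) := by omega
      exact_mod_cast h4
    rw [UltPos.normVal, ← hidx, hu, hgd, hh]
    simp only
    rw [div_pow, pow_add ρ]
    field_simp
  have hgbd : ∃ G : ℝ, ∀ n, |g n| ≤ G := by
    obtain ⟨Hm, hHm⟩ := hhlim.norm.bddAbove_range
    have hHm' : ∀ n, |h n| ≤ Hm := fun n => hHm ⟨n, rfl⟩
    refine ⟨Hm * U / ρ ^ j, fun n => ?_⟩
    rw [hgd]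
    simp only
    rw [abs_div, abs_mul, abs_of_pos (show 0 < ρ ^ j by positivity)]
    refine div_le_div_of_nonneg_right ?_ (by positivity)
    exact mul_le_mul (hHm' n) (hU n) (abs_nonneg _) ((abs_nonneg _).trans (hHm' 0))
  have hbelow : IsBoundedUnder (· ≥ ·) atTop (UltPos.normVal v N (j % N) ρ1 d1) := by
    refine ⟨-B, ?_⟩
    rw [eventually_map]
    filter_upwards [eventually_gt_atTop 0] with m hm
    exact (abs_le.mp (hB m hm)).1
  have hev : ∀ κ : ℝ, κ < μ → ∀ᶠ n : ℕ in atTop,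
      κ < UltPos.normVal v N (j % N) ρ1 d1 (j / N + n0 * n) := by
    intro κ hκ
    have h1 := eventually_lt_of_lt_liminf (hκ.trans_le hlim) hbelow
    exact (tendsto_atTop_mono hmt tendsto_id).eventually h1
  -- the level is the same
  have hcase1 : ¬ (ρ < ρ1 ∨ (ρ = ρ1 ∧ d < d1)) := by
    intro hc
    have hq : ρ / ρ1 < 1 ∨ (ρ / ρ1 = 1 ∧ d < d1) := by
      rcases hc with hc | ⟨hc, hd⟩
      · left
        rw [div_lt_one hρ1]
        exact hc
      · right
        exact ⟨by rw [hc, div_self hρ1.ne'], hd⟩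
    have h1 := (growth_zero (ρ / ρ1) (by positivity) d d1 hq).comp hntend
    obtain ⟨G, hG⟩ := hgbd
    have h2 := bdd_le_mul_tendsto_zero' G (Eventually.of_forall hG) h1
    have h3 := h2.eventually_lt_const (half_pos hμ)
    obtain ⟨n, h4, h5, h6⟩ := (h3.and ((hev (μ / 2) (half_lt_self hμ)).and
      (eventually_gt_atTop 0))).exists
    rw [hval n h6] at h5
    simp only [Function.comp] at h4
    linarith
  have hcase2 : ¬ (ρ1 < ρ ∨ (ρ1 = ρ ∧ d1 < d)) := by
    intro hc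
    have hq : ρ1 / ρ < 1 ∨ (ρ1 / ρ = 1 ∧ d1 < d) := by
      rcases hc with hc | ⟨hc, hd⟩
      · left
        rw [div_lt_one hρpos]
        exact hc
      · right
        exact ⟨by rw [hc, div_self hρpos.ne'], hd⟩
    have h1 := (growth_zero (ρ1 / ρ) (by positivity) d1 d hq).comp hntend
    have h2 := h1.const_mul |B|
    rw [mul_zero] at h2
    have hpos : 0 < 1 / (2 * d.factorial) * a / ρ ^ j := by positivity
    have h3 := h2.eventually_lt_const hpos
    have h4 : ∀ᶠ n in atTop, 1 / (2 * d.factorial) < h n :=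
      hhlim.eventually_const_lt (by
        rw [div_lt_div_iff₀ (by positivity) hfac]
        linarith)
    obtain ⟨N1, hN1⟩ := eventually_atTop.mp (h3.and (h4.and (eventually_gt_atTop 0)))
    obtain ⟨n, hn, hun⟩ := hbig N1
    obtain ⟨h5, h6, h7⟩ := hN1 n hn
    have h8 := hB (j / N + n0 * n) (lt_of_lt_of_le h7 (hmt n))
    have h3' : (0 : ℝ) < ((j + n0 * (N * n) : ℕ) : ℝ) := by
      have := hnt n
      have h4 : 0 < j + n0 * (N * n) := by omega
      exact_mod_cast h4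
    rw [hval n h7, abs_mul, abs_of_nonneg (show 0 ≤ (ρ / ρ1) ^ (j + n0 * (N * n)) *
      (((j + n0 * (N * n) : ℕ) : ℝ) ^ d / ((j + n0 * (N * n) : ℕ) : ℝ) ^ d1) by positivity)] at h8
    simp only [Function.comp] at h5
    have h9 : |g n| ≤ |B| * ((ρ1 / ρ) ^ (j + n0 * (N * n)) *
        (((j + n0 * (N * n) : ℕ) : ℝ) ^ d1 / ((j + n0 * (N * n) : ℕ) : ℝ) ^ d)) := by
      have h10 : ((ρ / ρ1) ^ (j + n0 * (N * n)) *
          (((j + n0 * (N * n) : ℕ) : ℝ) ^ d / ((j + n0 * (N * n) : ℕ) : ℝ) ^ d1)) *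
          ((ρ1 / ρ) ^ (j + n0 * (N * n)) *
          (((j + n0 * (N * n) : ℕ) : ℝ) ^ d1 / ((j + n0 * (N * n) : ℕ) : ℝ) ^ d)) = 1 := by
        rw [div_pow, div_pow]
        field_simp
      calc |g n| = |g n| * (((ρ / ρ1) ^ (j + n0 * (N * n)) *
          (((j + n0 * (N * n) : ℕ) : ℝ) ^ d / ((j + n0 * (N * n) : ℕ) : ℝ) ^ d1)) *
          ((ρ1 / ρ) ^ (j + n0 * (N * n)) *
          (((j + n0 * (N * n) : ℕ) : ℝ) ^ d1 / ((j + n0 * (N * n) : ℕ) : ℝ) ^ d))) := by
            rw [h10, mul_one]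
        _ = (|g n| * ((ρ / ρ1) ^ (j + n0 * (N * n)) *
          (((j + n0 * (N * n) : ℕ) : ℝ) ^ d / ((j + n0 * (N * n) : ℕ) : ℝ) ^ d1))) *
          ((ρ1 / ρ) ^ (j + n0 * (N * n)) *
          (((j + n0 * (N * n) : ℕ) : ℝ) ^ d1 / ((j + n0 * (N * n) : ℕ) : ℝ) ^ d)) := by ring
        _ ≤ |B| * _ := mul_le_mul_of_nonneg_right (h8.trans (le_abs_self B)) (by positivity)
    have h11 : 1 / (2 * d.factorial) * a / ρ ^ j ≤ |g n| := by
      rw [hgd]
      simp only
      rw [abs_div, abs_mul, abs_of_pos (show 0 < ρ ^ j by positivity)]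
      refine div_le_div_of_nonneg_right ?_ (by positivity)
      exact mul_le_mul (h6.le.trans (le_abs_self _)) hun ha0.le (abs_nonneg _)
    linarith
  have hρeq : ρ1 = ρ := by
    rcases lt_trichotomy ρ ρ1 with h1 | h1 | h1
    · exact absurd (Or.inl h1) hcase1
    · exact h1.symm
    · exact absurd (Or.inl h1) hcase2
  have hdeq : d1 = d := by
    rcases lt_trichotomy d d1 with h1 | h1 | h1
    · exact absurd (Or.inr ⟨hρeq.symm, h1⟩) hcase1
    · exact h1.symm
    · exact absurd (Or.inr ⟨hρeq, h1⟩) hcase2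
  subst hρeq hdeq
  refine ⟨hd1, fun z hz => ?_⟩
  by_contra hcon
  push Not at hcon
  set F : ℝ := (LevF l c ex A s j d1 ρ1 z).re with hF
  set X : ℝ := F / (d1.factorial * ρ1 ^ j) with hX
  have hXμ : X < μ := by
    rw [hX, div_lt_iff₀ (by positivity)]
    linarith
  -- along a subsequence the values tend to `X`
  have hdiff : Tendsto (fun n => (h n - 1 / d1.factorial) * u n / ρ1 ^ j) atTop (𝓝 0) := by
    have h1 : Tendsto (fun n => h n - 1 / d1.factorial) atTop (𝓝 0) := by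
      have := hhlim.sub_const (1 / (d1.factorial : ℝ))
      rwa [sub_self] at this
    have h2 := (bdd_le_mul_tendsto_zero' U (Eventually.of_forall hU) h1).div_const (ρ1 ^ j)
    rw [zero_div] at h2
    refine h2.congr fun n => ?_
    ring
  have h1 := hdiff.abs
  rw [abs_zero] at h1
  have h2 := h1.eventually_lt_const (show (0 : ℝ) < (μ - X) / 4 by linarith)
  obtain ⟨N1, hN1⟩ := eventually_atTop.mp (h2.and ((hev ((μ + X) / 2) (by linarith)).and
    (eventually_gt_atTop 0)))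
  obtain ⟨n, hn, h3, -⟩ := happ z hz ((μ - X) / 4 * (d1.factorial * ρ1 ^ j)) (by
    have : 0 < μ - X := by linarith
    positivity) N1
  obtain ⟨h4, h5, h6⟩ := hN1 n hn
  rw [hval n h6] at h5
  have h3' : (0 : ℝ) < ((j + n0 * (N * n) : ℕ) : ℝ) := by
    have := hnt n
    have h4 : 0 < j + n0 * (N * n) := by omega
    exact_mod_cast h4
  rw [div_self hρ1.ne', one_pow, one_mul, div_self (by positivity), mul_one] at h5
  have h7 : g n = (h n - 1 / d1.factorial) * u n / ρ1 ^ j + u n / (d1.factorial * ρ1 ^ j) := by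
    rw [hgd]
    simp only
    field_simp
    ring
  have h8 : |u n / (d1.factorial * ρ1 ^ j) - X| ≤ (μ - X) / 4 := by
    rw [hX, ← sub_div, abs_div, abs_of_pos (show (0 : ℝ) < d1.factorial * ρ1 ^ j by positivity),
      div_le_iff₀ (by positivity)]
    exact h3
  rw [h7] at h5
  have h9 := (abs_lt.mp h4).2
  have h10 := (abs_le.mp h8).2
  linarith

/-- the level of a certificate is not zero -/
theorem base_rho_ne_zero (l c : Fin k → ℂ) (ex : Fin k → ℕ) (R M Nb : ℕ) (ε δ : ℝ) (v : ℕ → ℝ)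
    (hpos : ∀ n, 0 < v n) (hg : GoodD k l c ex R M ε δ v)
    (n0 j : ℕ) (A H : Fin k → Fin k → ℤ) (D : ℤ) (s : ℕ) (w : Fin k → Fin k → ℝ)
    (τ : Fin k → ℝ) (ρ : ℝ) (d : ℕ) (hbase : BaseF k l c ex M Nb ε δ n0 j A H D s w τ ρ d) :
    0 < ρ := by
  classical
  obtain ⟨hn0, _, hj, _, hs, hD, hDM, hHA, hA, hH, hδ', hw, hwε, hρ, hd, hvan⟩ := hbase
  refine lt_of_le_of_ne hρ (Ne.symm ?_)
  intro h0
  have hvan' : ∀ m, ∑ i, (if Above ρ d (l i) (ex i) then
      c i * ((j + n0 * m).choose (ex i) : ℂ) * l i ^ (j + n0 * m - ex i) else 0) = 0 :=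
    vanish_gen l c ex hg.hdc (fun i => Above ρ d (l i) (ex i)) j n0 hvan
  have h2 : ∑ i, c i * ((j + n0 * 0).choose (ex i) : ℂ) * l i ^ (j + n0 * 0 - ex i) =
      ∑ i, (if Above ρ d (l i) (ex i) then c i * ((j + n0 * 0).choose (ex i) : ℂ) *
        l i ^ (j + n0 * 0 - ex i) else 0) := by
    apply Finset.sum_congr rfl
    intro i _
    split_ifs with h
    · rfl
    · have h3 : l i = 0 := by
        by_contra h4
        apply h
        left
        rw [h0]
        exact norm_pos_iff.mpr h4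
      rw [h3, zero_pow, mul_zero]
      have := hg.hex i
      omega
  rw [hg.hv, hvan' 0] at h2
  have h3 : v (j + n0 * 0) = 0 := by exact_mod_cast h2
  have h4 := hpos (j + n0 * 0)
  linarith

/-- **Soundness**: the parameters of the certificates are bounded for a positive regular
sequence (`nn_sound_cls` for the narrow classes, `margin_sound` excludes the others). -/
theorem regular_sound (v : ℕ → ℝ) (hpos : ∀ n, 0 < v n) (S : Set ℂ) (μ : ℝ) (hμ : 0 < μ)
    (hreg : UltPos.IsRegular μ v S) (R M Nb : ℕ) (ε δ : ℝ) :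
    ∃ X : ℝ, ∀ (t : ℝ) (l c : Fin k → ℂ) (ex : Fin k → ℕ), GoodD k l c ex R M ε δ v →
      (∀ a ∈ S, ∃ i, l i = a) → CertNF0 k l c ex M Nb ε δ t → t ≤ X := by
  obtain ⟨N, hN, hT⟩ := hreg
  have h1 : ∀ J, ∃ X : ℝ, J < N → ∀ (t : ℝ) (l c : Fin k → ℂ) (ex : Fin k → ℕ),
      GoodD k l c ex R M ε δ v → (∀ a ∈ S, ∃ i, l i = a) →
      ∀ (n0 j : ℕ) (A H : Fin k → Fin k → ℤ) (D : ℤ) (s : ℕ) (w : Fin k → Fin k → ℝ)
      (τ : Fin k → ℝ) (ρ : ℝ) (d : ℕ) (z z' : Fin k → ℂ),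
      BaseF k l c ex M Nb ε δ n0 j A H D s w τ ρ d → (∀ t, ‖z t‖ = 1) → (∀ t, ‖z' t‖ = 1) →
      NNF0 t l n0 A s ρ d (fun z => (LevF l c ex A s j d ρ z).re) z z' → j % N = J → t ≤ X := by
    intro J
    by_cases hJ : J < N
    · rcases hT J hJ with ⟨ρJ, hρJ, ⟨B, hB⟩, hn⟩ | hmg
      · obtain ⟨X, hX⟩ := nn_sound_cls (k := k) v hpos S R M Nb ε δ N hN J ρJ hρJ B hB hn
        refine ⟨X, fun _ t l c ex hg hS n0 j A H D s w τ ρ d z z' hbase hz hz' hP hJ' =>
          hX t l c ex hg hS n0 j A H D s w τ ρ d z z' hbase hz hz' ?_ hJ'⟩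
        rcases hP with h | ⟨h1, -, h3⟩
        · exact Or.inl h
        · exact Or.inr ⟨h1, Or.inr h3⟩
      · refine ⟨0, fun _ t l c ex hg hS n0 j A H D s w τ ρ d z z' hbase hz hz' hP hJ' => ?_⟩
        exfalso
        have hρ := base_rho_ne_zero l c ex R M Nb ε δ v hpos hg n0 j A H D s w τ ρ d hbase
        obtain ⟨h1, h2, -⟩ := hP.resolve_left hρ.ne'
        subst hJ'
        have h3 := margin_sound l c ex R M Nb ε δ v hg n0 j A H D s w τ ρ d hbase hρ z' hz' h1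
          N hN μ hμ hmg
        omega
    · exact ⟨0, fun h => absurd h hJ⟩
  choose X hX using h1
  refine ⟨∑ J ∈ Finset.range N, |X J|, ?_⟩
  rintro t l c ex hg hS ⟨n0, j, A, H, D, s, w, τ, ρ, d, z, z', hbase, hz, hz', hP⟩
  have hJ : j % N < N := Nat.mod_lt _ hN
  have h2 := hX (j % N) hJ t l c ex hg hS n0 j A H D s w τ ρ d z z' hbase hz hz' hP rfl
  refine h2.trans ((le_abs_self _).trans ?_)
  exact Finset.single_le_sum (f := fun J => |X J|) (fun _ _ => abs_nonneg _)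
    (Finset.mem_range.mpr hJ)

/-- **Soundness**: no certificate of a small margin. -/
theorem regular_not_mg (v : ℕ → ℝ) (hpos : ∀ n, 0 < v n) (S : Set ℂ) (μ : ℝ) (hμ : 0 < μ)
    (hreg : UltPos.IsRegular μ v S) (R M Nb : ℕ) (ε δ : ℝ) (l c : Fin k → ℂ) (ex : Fin k → ℕ)
    (hg : GoodD k l c ex R M ε δ v) (hS : ∀ a ∈ S, ∃ i, l i = a) :
    ¬ CertMF k l c ex M Nb ε δ μ := by
  obtain ⟨N, hN, hT⟩ := hreg
  rintro ⟨n0, j, A, H, D, s, w, τ, ρ, d, z, z', hbase, hz, hz', hρ, hd, hne, hlt⟩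
  rcases hT (j % N) (Nat.mod_lt _ hN) with ⟨ρJ, hρJ, ⟨B, hB⟩, hn⟩ | hmg
  · obtain ⟨X, hX⟩ := nn_sound_cls (k := k) v hpos S R M Nb ε δ N hN (j % N) ρJ hρJ B hB hn
    have h1 := hX (X + 1) l c ex hg hS n0 j A H D s w τ ρ d z z' hbase hz hz'
      (Or.inr ⟨hne, Or.inl hd⟩) rfl
    linarith
  · have h3 := (margin_sound l c ex R M Nb ε δ v hg n0 j A H D s w τ ρ d hbase hρ z' hz' hne
      N hN μ hμ hmg).2 z hz
    linarith

end Pool.Agent.DD7719.M
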