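import Pool.Agent.DD7719.TAssemble
import Pool.Agent.MX.Sound

/-! P15. The certified minima of the classes with `d = 0` are bounded below when each residue class
is tame or has positive margin (adapt `TBound.tm_bounded`). -/

set_option autoImplicit false

namespace Pool.Agent.DD7719.M

open Complex Filter Topology

variable {k : ℕ}

theorem tm2_bounded (v : ℕ → ℝ) (hT : Tm2 v) (R M Nb : ℕ) (ε δ : ℝ) : ∃ X : ℝ,
    ∀ (t : ℝ) (l c : Fin k → ℂ) (ex : Fin k → ℕ), GoodD k l c ex R M ε δ v →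
    CertBF k l c ex M Nb ε δ (PR t) → t ≤ X := by
  classical
  obtain ⟨N, hN, hT⟩ := hT
  have hT' : ∀ J : ℕ, J < N → ∃ ρ b B : ℝ, 0 < ρ ∧ 0 < b ∧
      ((∀ᶠ m : ℕ in atTop, b * ρ ^ m ≤ v (N * m + J) ∧ v (N * m + J) ≤ B * ρ ^ m) ∨
        ∃ μ : ℝ, 0 < μ ∧ UltPos.ClassMargin μ v N J) := by
    intro J hJ
    rcases hT J hJ with ⟨ρ, b, B, hρ, hb, hev⟩ | hm
    · exact ⟨ρ, b, B, hρ, hb, Or.inl hev⟩
    · exact ⟨1, 1, 1, one_pos, one_pos, Or.inr hm⟩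
  choose! ρJ b B hρJ hb hev using hT'
  -- the minimum
  obtain ⟨m0, hm0, hmin⟩ : ∃ m0 : ℝ, 0 < m0 ∧
      ∀ J < N, ∀ q ≤ k + Nb, m0 ≤ b J * ρJ J ^ q := by
    have hne : ((Finset.range N ×ˢ Finset.range (k + Nb + 1)).Nonempty) :=
      ⟨(0, 0), by simp [hN]⟩
    obtain ⟨p, hp, hpmin⟩ := Finset.exists_min_image (Finset.range N ×ˢ Finset.range (k + Nb + 1))
      (fun p => b p.1 * ρJ p.1 ^ p.2) hne
    rw [Finset.mem_product, Finset.mem_range, Finset.mem_range] at hp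
    have h1 := hρJ p.1 hp.1
    have h2 := hb p.1 hp.1
    refine ⟨b p.1 * ρJ p.1 ^ p.2, by positivity, fun J hJ q hq => ?_⟩
    exact hpmin (J, q) (by simp; omega)
  refine ⟨1 / m0, ?_⟩
  rintro t l c ex hg ⟨n0, j, A, H, D, s, w, τ, ρ, d, z, z', hbase, hz, hz', hρpos, hd0, hne, hle⟩
  have hjK : j / N ≤ k + Nb := by
    obtain ⟨hn0, hn0', hj, hj', -⟩ := hbase
    have := Nat.div_le_self j N
    omega
  have hJ := Nat.mod_lt j hN
  rcases hev _ hJ with hev' | ⟨μ, hμ, hm⟩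
  · obtain ⟨hk, hex, hdc, hR, hM, hrb, hε, hδ, hv⟩ := hg
    obtain ⟨-, hb'⟩ := tame_sound l c ex R M Nb ε δ hk hex hdc hR hM hrb hε hδ v hv n0 j A H D s w
      τ ρ d hbase hρpos z' hz' hne N hN (ρJ (j % N)) (b (j % N)) (B (j % N)) (hρJ _ hJ) (hb _ hJ)
      hev'
    have h1 := (hmin _ hJ _ hjK).trans (hb' z hz)
    rw [le_div_iff₀ hm0]
    by_cases ht : t ≤ 0
    · nlinarith
    · push Not at ht
      calc t * m0 ≤ t * (LevF l c ex A s j d ρ z).re := mul_le_mul_of_nonneg_left h1 ht.le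
        _ ≤ 1 := hle
  · obtain ⟨h1, -⟩ := margin_sound l c ex R M Nb ε δ v hg n0 j A H D s w τ ρ d hbase hρpos z' hz'
      hne N hN μ hμ hm
    omega

end Pool.Agent.DD7719.M
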