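import Pool.Agent.DD7719.NNar
import Pool.Agent.MX.CertDefs

/-! P11. Completeness: class data in the absence of certificates (adapt `NComplete.lean`,
`NNar.lean`). -/

set_option autoImplicit false

namespace Pool.Agent.DD7719.M

open Complex Filter Topology GS

variable {k : ℕ}

/-- **Class data in the absence of certificates.** -/
theorem regular_class_data (l c : Fin k → ℂ) (ex : Fin k → ℕ) (R Q MH Q' e Nb : ℕ) (hk : 0 < k)
    (hex : ∀ i, ex i < k)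
    (hR : 1 ≤ R)
    (hQ : 2 * k * R ≤ Q) (hMH : k.factorial * (Q ^ k + 1) ^ k ≤ MH) (δ : ℝ)
    (hδ0 : 0 ≤ δ) (hδ1 : 2 * k * MH * δ ≤ 1)
    (hδ2 : (k : ℝ) ^ 4 * (Q ^ k + 1) * Q ^ (k + 1) * MH ^ 3 * δ ^ 2 ≤ 1)
    (hδ3 : 2 * (k : ℝ) * R * δ ≤ 1)
    (hQ' : 0 < Q') (hδQ' : 7 / (Q' : ℝ) ≤ δ) (he : 0 < e) (hNb : e * Q' ^ k ≤ Nb)
    (hrb : RelBound k l R)
    (v : ℕ → ℝ)
    (hv : ∀ n, ∑ i, c i * (n.choose (ex i) : ℂ) * l i ^ (n - ex i) = (v n : ℂ))
    (t0 : ℝ) (ht0 : 0 < t0) (hno : ¬ CertNF0 k l c ex MH Nb (2 / Q) δ t0)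
    (μ : ℝ) (hno2 : ¬ CertMF k l c ex MH Nb (2 / Q) δ μ) :
    ∃ n0 : ℕ, 0 < n0 ∧ n0 ≤ Nb ∧ e ∣ n0 ∧ ∀ j, k ≤ j → j < k + n0 →
      ClsD k l c ex MH Nb (2 / Q) δ n0 j ∨ ClsM k l c ex MH Nb (2 / Q) δ n0 j μ := by
  classical
  obtain ⟨n0, hn0, hn0Nb, hen0, h⟩ := class_data0 l c ex R Q MH Q' e Nb hk hex hR hQ hMH δ hδ0 hδ1
    hδ2 hδ3 hQ' hδQ' he hNb hrb v hv
  refine ⟨n0, hn0, hn0Nb, hen0, fun j hj hj' => ?_⟩
  obtain ⟨A, H, D, s, w, τ, x, hrep, hcase⟩ := h j hj hj'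
  rcases hcase with hbase | ⟨i0, hbase, hi0, ⟨z', hz', hne⟩, hvan⟩
  · exact absurd ⟨n0, j, A, H, D, s, w, τ, 0, 0, fun _ => 1, fun _ => 1, hbase, fun _ => norm_one,
      fun _ => norm_one, Or.inl rfl⟩ hno
  rcases Nat.eq_zero_or_pos (ex i0) with hd | hd
  · left
    rw [hd] at hbase hne hvan
    have hF : ∀ z : Fin k → ℂ, (∀ t, ‖z t‖ = 1) → 0 ≤ (LevF l c ex A s j 0 ‖l i0‖ z).re := by
      intro z hz
      by_contra hcon
      push Not at hcon
      exact hno ⟨n0, j, A, H, D, s, w, τ, ‖l i0‖, 0, z, z', hbase, hz, hz',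
        Or.inr ⟨hne, rfl, Or.inl hcon⟩⟩
    refine ⟨A, H, D, s, w, τ, x, i0, hrep, hbase, hi0, ⟨z', hz', hne⟩, hF, ?_, hvan⟩
    by_cases hpos : ∀ z : Fin k → ℂ, (∀ t, ‖z t‖ = 1) → 0 < (LevF l c ex A s j 0 ‖l i0‖ z).re
    · exact Or.inl hpos
    · right
      push Not at hpos
      obtain ⟨z, hz, hz0⟩ := hpos
      by_contra hcon
      push Not at hcon
      apply hno
      refine ⟨n0, j, A, H, D, s, w, τ, ‖l i0‖, 0, z, z', hbase, hz, hz',
        Or.inr ⟨hne, rfl, Or.inr ⟨hz0, ?_⟩⟩⟩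
      intro i i' hii hne'
      by_contra hc
      push Not at hc
      have hi' : l i' ≠ 0 := by
        intro h0
        rw [h0, norm_zero, norm_eq_zero] at hii
        apply hne'
        rw [hii, h0]
      have hγ : ‖l i / l i'‖ = 1 := unit_of_ratio _ _ hii hi'
      apply hcon i i' hii hne'
      apply finite_of_sep _ _ (1 / t0) (by positivity)
      · rintro _ ⟨z1, ⟨hz1, h01⟩, rfl⟩ _ ⟨z2, ⟨hz2, h02⟩, rfl⟩ hne12
        simp only at hne12 ⊢
        have h3 := hc z1 z2 hz1 hz2 h01.le h02.le (by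
          intro h4
          apply hne12
          rw [h4])
        rw [← mul_sub, norm_mul, norm_pow, hγ, one_pow, one_mul, div_lt_iff₀ ht0]
        linarith
      · rintro _ ⟨z1, ⟨hz1, h01⟩, rfl⟩
        rw [mem_sphere_zero_iff_norm, norm_mul, norm_pow, hγ, one_pow, one_mul, norm_div,
          norm_Wt A s z1 hz1, norm_Wt A s z1 hz1, div_one]
  · right
    refine ⟨A, H, D, s, w, τ, x, i0, hrep, hbase, hi0, hd, ⟨z', hz', hne⟩, ?_, hvan⟩
    intro z hz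
    by_contra hcon
    push Not at hcon
    exact hno2 ⟨n0, j, A, H, D, s, w, τ, ‖l i0‖, ex i0, z, z', hbase, hz, hz',
      norm_pos_iff.mpr hi0, hd, hne, hcon⟩

/-- the values divided by `ρ^n n^d` and the level sum -/
lemma normVal_asym (l c : Fin k → ℂ) (ex : Fin k → ℕ) (n0 j : ℕ) (hn0 : 0 < n0)
    (hj : ∀ i, ex i ≤ j) (v : ℕ → ℝ)
    (hv : ∀ n, ∑ i, c i * (n.choose (ex i) : ℂ) * l i ^ (n - ex i) = (v n : ℂ))
    (ρ : ℝ) (d : ℕ) (hρ : 0 < ρ)
    (hvan : open scoped Classical in ∀ m, ∑ i, (if Above ρ d (l i) (ex i) then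
      c i * ((j + n0 * m).choose (ex i) : ℂ) * l i ^ (j + n0 * m - ex i) else 0) = 0)
    (J q : ℕ) (hJ : j = J + n0 * q) :
    Tendsto (fun M : ℕ => UltPos.normVal v n0 J ρ d (M + q) -
      (levelSum l c ex n0 j ρ d M).re / (d.factorial * ρ ^ j)) atTop (𝓝 0) := by
  classical
  have hlev := level_asym l c ex n0 j hn0 hj ρ d hρ hvan
  have hre : Tendsto (fun M : ℕ => v (j + n0 * M) / (ρ ^ (n0 * M) * (M : ℝ) ^ d) -
      ((j + n0 * M).choose d : ℝ) / (M : ℝ) ^ d * (levelSum l c ex n0 j ρ d M).re) atTop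
      (𝓝 0) := by
    have h1 := (Complex.continuous_re.tendsto 0).comp hlev
    rw [Complex.zero_re] at h1
    refine h1.congr fun M => ?_
    simp only [Function.comp_apply]
    rw [hv, Complex.sub_re, Complex.re_ofReal_mul, ← Complex.ofReal_div, Complex.ofReal_re]
  have hn0R : (0 : ℝ) < n0 := by exact_mod_cast hn0
  have hfac : (0 : ℝ) < d.factorial := by exact_mod_cast d.factorial_pos
  -- the ratio `M^d / n^d`
  have hrat : Tendsto (fun M : ℕ => ((M : ℝ) / ((j + n0 * M : ℕ) : ℝ)) ^ d) atTop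
      (𝓝 ((1 / (n0 : ℝ)) ^ d)) := by
    apply Tendsto.pow
    have h2 : Tendsto (fun M : ℕ => 1 / ((j : ℝ) / M + n0)) atTop (𝓝 (1 / (0 + (n0 : ℝ)))) := by
      refine Tendsto.div tendsto_const_nhds
        ((tendsto_const_div_atTop_nhds_zero_nat (j : ℝ)).add_const _) ?_
      rw [zero_add]
      exact hn0R.ne'
    rw [zero_add] at h2
    refine h2.congr' ?_
    filter_upwards [eventually_gt_atTop 0] with M hM
    have hM' : (0 : ℝ) < M := by exact_mod_cast hM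
    push_cast
    field_simp
  have hA : Tendsto (fun M : ℕ => (v (j + n0 * M) / (ρ ^ (n0 * M) * (M : ℝ) ^ d) -
      ((j + n0 * M).choose d : ℝ) / (M : ℝ) ^ d * (levelSum l c ex n0 j ρ d M).re) *
      (((M : ℝ) / ((j + n0 * M : ℕ) : ℝ)) ^ d / ρ ^ j)) atTop (𝓝 0) := by
    have h3 := hre.mul (hrat.div_const (ρ ^ j))
    rwa [zero_mul] at h3
  have hB : Tendsto (fun M : ℕ => (((j + n0 * M).choose d : ℝ) / (M : ℝ) ^ d *
      (((M : ℝ) / ((j + n0 * M : ℕ) : ℝ)) ^ d / ρ ^ j) - 1 / (d.factorial * ρ ^ j)) *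
      (levelSum l c ex n0 j ρ d M).re) atTop (𝓝 0) := by
    have h3 := (choose_asym j n0 d hn0).mul (hrat.div_const (ρ ^ j))
    have h4 : (n0 : ℝ) ^ d / d.factorial * ((1 / (n0 : ℝ)) ^ d / ρ ^ j) =
        1 / (d.factorial * ρ ^ j) := by
      rw [one_div, inv_pow]
      field_simp
    rw [h4] at h3
    have h5 := h3.sub_const (1 / (d.factorial * ρ ^ j))
    rw [sub_self] at h5
    have h6 := bdd_le_mul_tendsto_zero' (f := fun M : ℕ => (levelSum l c ex n0 j ρ d M).re)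
      (∑ i, ‖c i * l i ^ (j - d)‖) (Eventually.of_forall fun M => (abs_re_le_norm _).trans
        (levelSum_bound l c ex n0 j ρ d M)) h5
    exact h6.congr fun M => mul_comm _ _
  have hsum := hA.add hB
  rw [add_zero] at hsum
  refine hsum.congr' ?_
  filter_upwards [eventually_gt_atTop 0] with M hM
  have hM' : (0 : ℝ) < M := by exact_mod_cast hM
  have e1 : n0 * (M + q) + J = j + n0 * M := by
    rw [hJ]
    ring
  have hpos : (0 : ℝ) < ((j + n0 * M : ℕ) : ℝ) := by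
    have : 0 < j + n0 * M := by positivity
    exact_mod_cast this
  rw [UltPos.normVal, e1, pow_add, div_pow]
  field_simp
  ring

/-- **The margin of a class.** -/
theorem classMargin_of_clsM (l c : Fin k → ℂ) (ex : Fin k → ℕ) (hex : ∀ i, ex i < k) (M Nb : ℕ)
    (ε δ : ℝ) (n0 : ℕ) (hn0 : 0 < n0) (v : ℕ → ℝ)
    (hv : ∀ n, ∑ i, c i * (n.choose (ex i) : ℂ) * l i ^ (n - ex i) = (v n : ℂ))
    (J q : ℕ) (hq : k ≤ J + n0 * q) (μ : ℝ) (h : ClsM k l c ex M Nb ε δ n0 (J + n0 * q) μ) :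
    UltPos.ClassMargin μ v n0 J := by
  classical
  obtain ⟨A, H, D, s, w, τ, x, i0, hrep, hbase, hi0, hd, -, hF, hvan⟩ := h
  have hρ : 0 < ‖l i0‖ := norm_pos_iff.mpr hi0
  have hexj : ∀ i, ex i ≤ J + n0 * q := fun i => ((hex i).le.trans hq)
  have hasym := normVal_asym l c ex n0 (J + n0 * q) hn0 hexj v hv ‖l i0‖ (ex i0) hρ hvan J q rfl
  set g : ℕ → ℝ := UltPos.normVal v n0 J ‖l i0‖ (ex i0) with hg
  have hfac : (0 : ℝ) < (ex i0).factorial := by exact_mod_cast (ex i0).factorial_pos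
  have hden : (0 : ℝ) < (ex i0).factorial * ‖l i0‖ ^ (J + n0 * q) := by positivity
  have hlow : ∀ m : ℕ, μ ≤ (levelSum l c ex n0 (J + n0 * q) ‖l i0‖ (ex i0) m).re /
      ((ex i0).factorial * ‖l i0‖ ^ (J + n0 * q)) := by
    intro m
    rw [le_div_iff₀ hden, ← mul_assoc]
    rw [levelSum_eq l c ex n0 (J + n0 * q) (ex i0) ‖l i0‖ s A x hrep.1 hrep.2 m]
    exact hF _ (norm_orb x m)
  set C : ℝ := (∑ i, ‖c i * l i ^ (J + n0 * q - ex i0)‖) /
      ((ex i0).factorial * ‖l i0‖ ^ (J + n0 * q)) with hC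
  have hupp : ∀ m : ℕ, |(levelSum l c ex n0 (J + n0 * q) ‖l i0‖ (ex i0) m).re /
      ((ex i0).factorial * ‖l i0‖ ^ (J + n0 * q))| ≤ C := by
    intro m
    rw [abs_div, abs_of_pos hden]
    exact div_le_div_of_nonneg_right ((abs_re_le_norm _).trans
      (levelSum_bound l c ex n0 (J + n0 * q) ‖l i0‖ (ex i0) m)) hden.le
  have hclose : ∀ κ : ℝ, 0 < κ → ∀ᶠ m : ℕ in atTop, μ - κ ≤ g m ∧ |g m| ≤ C + κ := by
    intro κ hκ
    have h1 := hasym.abs
    rw [abs_zero] at h1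
    have h2 := (tendsto_sub_atTop_nat q).eventually (h1.eventually_lt_const hκ)
    filter_upwards [h2, eventually_ge_atTop q] with m h3 hm
    rw [Nat.sub_add_cancel hm] at h3
    have h4 := hlow (m - q)
    have h5 := hupp (m - q)
    rw [abs_lt] at h3
    rw [abs_le] at h5
    refine ⟨by linarith [h3.1], ?_⟩
    rw [abs_le]
    constructor
    · linarith [h3.1, h5.1]
    · linarith [h3.2, h5.2]
  have hbdd : ∃ B : ℝ, ∀ m : ℕ, 0 < m → |g m| ≤ B := by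
    obtain ⟨N0, hN0⟩ := eventually_atTop.mp (hclose 1 one_pos)
    refine ⟨|C + 1| + ∑ m ∈ Finset.range N0, |g m|, fun m _ => ?_⟩
    have hs : 0 ≤ ∑ m ∈ Finset.range N0, |g m| := Finset.sum_nonneg fun _ _ => abs_nonneg _
    rcases lt_or_ge m N0 with h1 | h1
    · have h2 : |g m| ≤ ∑ m ∈ Finset.range N0, |g m| :=
        Finset.single_le_sum (f := fun m => |g m|) (fun i _ => abs_nonneg _)
          (Finset.mem_range.mpr h1)
      linarith [abs_nonneg (C + 1)]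
    · have h2 := (hN0 m h1).2
      linarith [le_abs_self (C + 1)]
  refine ⟨‖l i0‖, ex i0, hρ, hd, hbdd, ?_⟩
  apply le_of_forall_pos_sub_le
  intro κ hκ
  refine le_liminf_of_le ?_ ((hclose κ hκ).mono fun m hm => hm.1)
  refine IsBoundedUnder.isCoboundedUnder_ge ⟨C + 1, ?_⟩
  rw [eventually_map]
  exact (hclose 1 one_pos).mono fun m hm => (le_abs_self _).trans hm.2

/-- **Regularity from the class data.** -/
theorem isRegular_of_cls (l c : Fin k → ℂ) (ex : Fin k → ℕ) (hex : ∀ i, ex i < k) (M Nb : ℕ)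
    (ε δ : ℝ) (n0 : ℕ) (hn0 : 0 < n0) (v : ℕ → ℝ)
    (hv : ∀ n, ∑ i, c i * (n.choose (ex i) : ℂ) * l i ^ (n - ex i) = (v n : ℂ))
    (htor : ∀ i i', ‖l i‖ = ‖l i'‖ → l i ^ n0 ≠ l i' ^ n0 → ∀ n : ℕ, 0 < n → l i ^ n ≠ l i' ^ n)
    (μ : ℝ) (hcls : ∀ j, k ≤ j → j < k + n0 →
      ClsD k l c ex M Nb ε δ n0 j ∨ ClsM k l c ex M Nb ε δ n0 j μ) :
    UltPos.IsRegular μ v (Set.range l) := by
  classical
  refine ⟨n0, hn0, fun J hJ => ?_⟩
  obtain ⟨q, hq1, hq2⟩ := exists_cls_rep k n0 J hn0 hJ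
  rcases hcls (J + n0 * q) hq1 hq2 with hD | hM
  · left
    obtain ⟨A, H, D, s, w, τ, x, i0, hrep, hbase, hi0, -, hF, hcase, hvan⟩ := hD
    have hρ : 0 < ‖l i0‖ := norm_pos_iff.mpr hi0
    have hexj : ∀ i, ex i ≤ J + n0 * q := fun i => ((hex i).le.trans hq1)
    refine ⟨‖l i0‖ ^ n0, by positivity,
      cls_bound l c ex n0 (J + n0 * q) hn0 hexj v hv ‖l i0‖ hρ hvan J q rfl, ?_⟩
    rcases hcase with hpos | ⟨i, i', hii, hne, hfin⟩
    · left
      exact cls_liminf l c ex n0 (J + n0 * q) hn0 hexj v hv ‖l i0‖ hρ hvan A s x hrep hpos J q rfl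
    · right
      have hi' : l i' ≠ 0 := by
        intro h0
        rw [h0, norm_zero, norm_eq_zero] at hii
        apply hne
        rw [hii, h0]
      exact ⟨l i, ⟨i, rfl⟩, l i', ⟨i', rfl⟩, hii, htor i i' hii hne,
        hfin.subset (contact_subset l c ex n0 (J + n0 * q) hn0 hexj v hv ‖l i0‖ hρ hvan A s x hrep
          i i' hii hi' J q rfl)⟩
  · right
    exact classMargin_of_clsM l c ex hex M Nb ε δ n0 hn0 v hv J q hq1 μ hM

end Pool.Agent.DD7719.M
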