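import Pool.Agent.MX.QQ
import Pool.Agent.MX.Sound
import Pool.Agent.MX.Complete
import Pool.Agent.MX.Bd2

/-! P16. Assembly for instances (adapt `DD7719/NAssemble.lean`). -/

set_option autoImplicit false
set_option linter.unusedSectionVars false

namespace Pool.Agent.UltPos

open Pool.Agent.PT Pool.Agent.AllR Pool.Agent.DD7719.M Pool.Agent.DD7719 Finset

section
variable (I : Inst) (L : ℕ) (hkL : I.k ≤ L)
    (hb : ∀ i, (I.aNum i).natAbs ≤ 2 ^ L ∧ I.aDen i ≤ 2 ^ L) (aR uR : ℕ → ℝ)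
    (ha : ∀ t (h : t < I.k), aR t = (I.a ⟨t, h⟩ : ℝ)) (hu : ∀ t (h : t < I.k), uR t = (I.u ⟨t, h⟩ : ℝ))
    (v : ℕ → ℚ) (hv : I.IsSeq v)

include hkL hb ha hu hv in
/-- soundness -/
theorem Inst.bounded_NN0 (hpos : ∀ n, 0 < v n) (μ : ℝ) (hμ : 0 < μ)
    (h : IsRegular μ (fun n => ((v n : ℚ) : ℝ)) I.rootSet) :
    ∃ X : ℝ, ∀ t, I.NN0 L aR uR t → t ≤ X := by
  obtain ⟨X, hX⟩ := regular_sound (k := I.k) (fun n => ((v n : ℚ) : ℝ))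
    (fun n => by exact_mod_cast hpos n) I.rootSet μ hμ h (2 ^ pr L) (2 ^ pbm L) (2 ^ pbn L)
    (2 / ((2 ^ pq L : ℕ) : ℝ)) (1 / 2 ^ pdl L)
  refine ⟨X, ?_⟩
  rintro t ⟨l, c, ex, hrd, hcert⟩
  exact hX t _ _ _ (I.goodD L hkL hb aR uR ha hu v hv hrd) (I.root_surj aR uR ha hrd)
    (certQNN0_toF hcert)

include hkL hb ha hu hv in
/-- soundness -/
theorem Inst.not_MG (hpos : ∀ n, 0 < v n) (μ : ℝ) (hμ : 0 < μ)
    (h : IsRegular μ (fun n => ((v n : ℚ) : ℝ)) I.rootSet) : ¬ I.MG L aR uR μ := by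
  rintro ⟨l, c, ex, hrd, hcert⟩
  exact regular_not_mg (k := I.k) (fun n => ((v n : ℚ) : ℝ))
    (fun n => by exact_mod_cast hpos n) I.rootSet μ hμ h (2 ^ pr L) (2 ^ pbm L) (2 ^ pbn L)
    (2 / ((2 ^ pq L : ℕ) : ℝ)) (1 / 2 ^ pdl L) _ _ _ (I.goodD L hkL hb aR uR ha hu v hv hrd)
    (I.root_surj aR uR ha hrd) (certQMG_toF hcert)

include hkL hb ha hu hv in
/-- the class data -/
theorem Inst.exists_cls2 {l c : ℕ → ℂ} {ex : ℕ → ℕ} (hrd : RootData I.k aR uR l c ex) (t0 : ℝ)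
    (ht0 : 0 < t0) (hno : ¬ I.NN0 L aR uR t0) (μ : ℝ) (hno2 : ¬ I.MG L aR uR μ) :
    ∃ n0 : ℕ, 0 < n0 ∧ n0 ≤ 2 ^ (1 + 2 * L * L + (pdl L + 3) * L) ∧
      (∀ i i' : Fin I.k, ‖l i‖ = ‖l i'‖ → l i ^ n0 ≠ l i' ^ n0 →
        ∀ n : ℕ, 0 < n → l i ^ n ≠ l i' ^ n) ∧
      ∀ j, I.k ≤ j → j < I.k + n0 → ClsD I.k (fun i => l i) (fun i => c i) (fun i => ex i)
        (2 ^ pmh L) (2 ^ (1 + 2 * L * L + (pdl L + 3) * L)) (2 / ((2 ^ pq L : ℕ) : ℝ))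
        (1 / 2 ^ pdl L) n0 j ∨ ClsM I.k (fun i => l i) (fun i => c i) (fun i => ex i)
        (2 ^ pmh L) (2 ^ (1 + 2 * L * L + (pdl L + 3) * L)) (2 / ((2 ^ pq L : ℕ) : ℝ))
        (1 / 2 ^ pdl L) n0 j μ := by
  obtain ⟨e, he0, hele, htor⟩ := torsion_of_roots I.k I.num I.den I.den_pos' (fun i => l i)
    (I.root_eq' aR uR ha hrd)
  obtain ⟨n0, hn0, hn0Nb, hen0, hcls⟩ := regular_class_data (k := I.k) (fun i => l i)
      (fun i => c i) (fun i => ex i) (2 ^ pr L)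
      (2 ^ pq L) (2 ^ pmh L) (2 ^ (pdl L + 3)) e (2 ^ (1 + 2 * L * L + (pdl L + 3) * L)) I.kpos
      (fun i => hrd.1 i i.2) Nat.one_le_two_pow
      (le_trans (by
        have : 2 * I.k * 2 ^ pr L ≤ 8 * I.k * 2 ^ pr L := by
          gcongr
          norm_num
        exact this) (pQ_le hkL)) (pMH_le hkL) (1 / 2 ^ pdl L) (by positivity) (pd2 hkL) (pd4 hkL)
      (pd3 hkL) (by positivity) (pd5 L) he0 (pNb_le hkL hele) (I.relBound' L hkL hb aR uR ha hrd)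
      (fun n => ((v n : ℚ) : ℝ)) (I.all' aR uR ha hu v hv hrd) t0 ht0 (fun hF =>
        hno ⟨l, c, ex, hrd, hF.toN (two_pow_lt_pbm L) (two_pow_lt_pbn L)⟩) μ (fun hF =>
        hno2 ⟨l, c, ex, hrd, hF.toN (two_pow_lt_pbm L) (two_pow_lt_pbn L)⟩)
  refine ⟨n0, hn0, hn0Nb, ?_, hcls⟩
  intro i i' hii hne n hn heq
  have hi' : l i' ≠ 0 := by
    intro h0
    rw [h0, norm_zero, norm_eq_zero] at hii
    apply hne
    rw [hii, h0]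
  have hi : l i ≠ 0 := by
    intro h0
    rw [h0, norm_zero] at hii
    exact hi' (norm_eq_zero.mp hii.symm)
  have h1 := htor i i' hi hi' ⟨n, hn, by rw [div_pow, heq, div_self (pow_ne_zero _ hi')]⟩
  apply hne
  obtain ⟨r, hr⟩ := hen0
  rw [div_pow, div_eq_one_iff_eq (pow_ne_zero _ hi')] at h1
  rw [hr, pow_mul, pow_mul, h1]

include hkL hb ha hu hv in
/-- regularity from the class data -/
theorem Inst.regular_of_cls {l c : ℕ → ℂ} {ex : ℕ → ℕ} (hrd : RootData I.k aR uR l c ex)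
    (n0 : ℕ) (hn0 : 0 < n0)
    (htor : ∀ i i' : Fin I.k, ‖l i‖ = ‖l i'‖ → l i ^ n0 ≠ l i' ^ n0 →
        ∀ n : ℕ, 0 < n → l i ^ n ≠ l i' ^ n) (M Nb : ℕ) (ε δ : ℝ) (μ : ℝ)
    (hcls : ∀ j, I.k ≤ j → j < I.k + n0 →
      ClsD I.k (fun i => l i) (fun i => c i) (fun i => ex i) M Nb ε δ n0 j ∨
      ClsM I.k (fun i => l i) (fun i => c i) (fun i => ex i) M Nb ε δ n0 j μ) :
    IsRegular μ (fun n => ((v n : ℚ) : ℝ)) I.rootSet := by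
  have h1 := isRegular_of_cls (k := I.k) (fun i => l i) (fun i => c i) (fun i => ex i)
    (fun i => hrd.1 i i.2) M Nb ε δ n0 hn0 (fun n => ((v n : ℚ) : ℝ))
    (I.all' aR uR ha hu v hv hrd) htor μ hcls
  obtain ⟨N, hN, h2⟩ := h1
  refine ⟨N, hN, fun J hJ => ?_⟩
  rcases h2 J hJ with h2 | h2
  · left
    obtain ⟨ρ, hρ, hB, h3⟩ := h2
    refine ⟨ρ, hρ, hB, ?_⟩
    rcases h3 with h3 | ⟨a, ⟨i, rfl⟩, b, ⟨i', rfl⟩, h4⟩
    · exact Or.inl h3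
    · exact Or.inr ⟨_, I.root_mem aR uR ha hrd i, _, I.root_mem aR uR ha hrd i', h4⟩
  · exact Or.inr h2

include hkL hb ha hu hv in
/-- completeness -/
theorem Inst.regular_of_no (t0 : ℝ) (ht0 : 0 < t0) (hno : ¬ I.NN0 L aR uR t0) (μ : ℝ)
    (hno2 : ¬ I.MG L aR uR μ) : IsRegular μ (fun n => ((v n : ℚ) : ℝ)) I.rootSet := by
  obtain ⟨l, c, ex, hrd⟩ := I.exists_rootData' aR uR ha hu
  obtain ⟨n0, hn0, -, htor, hcls⟩ :=
    I.exists_cls2 L hkL hb aR uR ha hu v hv hrd t0 ht0 hno μ hno2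
  exact I.regular_of_cls L hkL hb aR uR ha hu v hv hrd n0 hn0 htor _ _ _ _ μ hcls

include hkL hb ha hu hv in
/-- the certified minima of the classes with `d = 0` -/
theorem Inst.bounded_PR2 (h : Tm2 (fun n => ((v n : ℚ) : ℝ))) : ∃ X : ℝ, ∀ t,
    (∃ (l c : ℕ → ℂ) (ex : ℕ → ℕ), RootData I.k aR uR l c ex ∧
      CertBN I.k l c ex (pbm L) (pbn L) (2 / ((2 ^ pq L : ℕ) : ℝ)) (1 / 2 ^ pdl L) (PR t)) →
    t ≤ X := by
  obtain ⟨X, hX⟩ := tm2_bounded (k := I.k) (fun n => ((v n : ℚ) : ℝ)) h (2 ^ pr L) (2 ^ pbm L)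
    (2 ^ pbn L) (2 / ((2 ^ pq L : ℕ) : ℝ)) (1 / 2 ^ pdl L)
  refine ⟨X, ?_⟩
  rintro t ⟨l, c, ex, hrd, hcert⟩
  exact hX t _ _ _ (I.goodD L hkL hb aR uR ha hu v hv hrd) hcert.toF

/-- the level function is nonnegative in the absence of certificates -/
theorem Inst.nonneg_of_no_NN0 (t0 : ℝ) (hno : ¬ I.NN0 L aR uR t0) {l c : ℕ → ℂ} {ex : ℕ → ℕ}
    (hrd : RootData I.k aR uR l c ex) {n0 j : ℕ} {A H : ℕ → ℕ → ℤ} {D : ℤ} {s : ℕ}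
    {w : ℕ → ℕ → ℝ} {τ : ℕ → ℝ} {ρ : ℝ}
    (hbase : BaseN I.k l c ex (pbm L) (pbn L) (2 / ((2 ^ pq L : ℕ) : ℝ)) (1 / 2 ^ pdl L) n0 j
      A H D s w τ ρ 0) (z' : ℕ → ℂ) (hz' : ∀ t, t < I.k → ‖z' t‖ = 1)
    (hne : (Lev I.k s 0 l c z' ex A j ρ).re ≠ 0) (z : Fin I.k → ℂ) (hz : ∀ t, ‖z t‖ = 1) :
    0 ≤ (LevF (fun i : Fin I.k => l i) (fun i => c i) (fun i => ex i) (fun i t => A i t) s j 0 ρ
      z).re := by
  by_contra hcon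
  push Not at hcon
  apply hno
  refine ⟨l, c, ex, hrd, n0, j, A, H, D, s, w, τ, ext1 1 z, z', fun _ _ => 1, fun _ _ => 1, ρ, 0,
    hbase, ?_, hz', Or.inr ⟨hne, rfl, Or.inl ?_⟩⟩
  · rw [forall_fin]
    intro t
    rw [ext1_fin]
    exact hz t
  · rw [lev_eq_levF]
    have e1 : (fun t : Fin I.k => ext1 1 z (t : ℕ)) = z := by
      funext t
      exact ext1_fin 1 z t
    rw [e1]
    exact hcon

end

end Pool.Agent.UltPos
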