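import Pool.Agent.MX.Margin
import Pool.Agent.MX.Asm
import Pool.Agent.DD7719.N3Inst

/-! P21. Regular positive instances with at most `s` roots on each circle have margin
`2 ^ (-poly)`. -/

set_option autoImplicit false

namespace Pool.Agent.UltPos

open Pool.Agent.PT Pool.Agent.AllR Pool.Agent.DD7719.M Pool.Agent.DD7719 Pool.Agent.MX Finset

open scoped Classical in
private lemma poly2_card {I : Inst} {s : ℕ} (hs : I.AtMostPerCircle s) (aR uR : ℕ → ℝ)
    (ha : ∀ t (h : t < I.k), aR t = (I.a ⟨t, h⟩ : ℝ)) {l c : ℕ → ℂ} {ex : ℕ → ℕ}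
    (hrd : RootData I.k aR uR l c ex) (ρ : ℝ) (d : ℕ) :
    (univ.filter fun i : Fin I.k => ‖l i‖ = ρ ∧ ex i = d).card ≤ s := by
  have hinj : Set.InjOn (fun i : Fin I.k => l i)
      (univ.filter fun i : Fin I.k => ‖l i‖ = ρ ∧ ex i = d : Finset (Fin I.k)) := by
    intro i hi i' hi' hii
    rw [Finset.coe_filter] at hi hi'
    by_contra hne
    have h1 : (i : ℕ) ≠ (i' : ℕ) := fun h => hne (Fin.ext h)
    rcases hrd.2.1 i i.2 i' i'.2 h1 with h2 | h2
    · exact h2 hii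
    · exact h2 (hi.2.2.trans hi'.2.2.symm)
  rw [← Finset.card_image_of_injOn hinj]
  have h1 : (((univ.filter fun i : Fin I.k => ‖l i‖ = ρ ∧ ex i = d).image
      (fun i : Fin I.k => l i) : Finset ℂ) : Set ℂ) ⊆ {z : ℂ | z ∈ I.rootSet ∧ ‖z‖ = ρ} := by
    intro z hz
    rw [Finset.coe_image] at hz
    obtain ⟨i, hi, rfl⟩ := hz
    rw [Finset.coe_filter] at hi
    exact ⟨I.root_mem aR uR ha hrd i, hi.2.1⟩
  have h2 := (Set.encard_le_encard h1).trans (hs ρ)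
  rw [Set.encard_coe_eq_coe_finsetCard] at h2
  exact_mod_cast h2

theorem Inst.regularWith_of_perCircle (s : ℕ) : ∃ E : ℕ, ∀ I : Inst, I.Positive → I.Regular →
    I.AtMostPerCircle s → I.RegularWith (1 / 2 ^ ((2 + I.enc.length) ^ E)) := by
  classical
  obtain ⟨E, hE⟩ := level_margin s
  refine ⟨E, fun I hP hReg hs => ?_⟩
  obtain ⟨μ, hμ, v, hv, hreg⟩ := hReg
  obtain ⟨kk, sg, nb, db, -, -, -, -, hI⟩ := exists_parser
  obtain ⟨-, hkL, -, -, -, -, hbb⟩ := hI I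
  set L := I.enc.length with hL
  have hb : ∀ i, (I.aNum i).natAbs ≤ 2 ^ L ∧ I.aDen i ≤ 2 ^ L := fun i =>
    ⟨(hbb i).1.le, (hbb i).2.1.le⟩
  have hbu : ∀ i, (I.uNum i).natAbs ≤ 2 ^ L ∧ I.uDen i ≤ 2 ^ L := fun i =>
    ⟨(hbb i).2.2.1.le, (hbb i).2.2.2.le⟩
  set aR : ℕ → ℝ := fun t => ((I.aQ t : ℚ) : ℝ) with haR
  set uR : ℕ → ℝ := fun t => ((I.uQ t : ℚ) : ℝ) with huR
  have ha : ∀ t (h : t < I.k), aR t = (I.a ⟨t, h⟩ : ℝ) := fun t h => by
    simp only [haR, Inst.aQ, h, dif_pos]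
  have hu : ∀ t (h : t < I.k), uR t = (I.u ⟨t, h⟩ : ℝ) := fun t h => by
    simp only [huR, Inst.uQ, h, dif_pos]
  have hpos : ∀ n, 0 < v n := hP v hv
  obtain ⟨X, hX⟩ := I.bounded_NN0 L hkL hb aR uR ha hu v hv hpos μ hμ hreg
  have hno2 := I.not_MG L hkL hb aR uR ha hu v hv hpos μ hμ hreg
  obtain ⟨l, c, ex, hrd⟩ := I.exists_rootData' aR uR ha hu
  have hno : ¬ I.NN0 L aR uR (max X 0 + 1) := by
    intro h
    have h1 := hX _ h
    have h2 := le_max_left X 0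
    linarith
  have ht0 : 0 < max X 0 + 1 := by
    have h2 := le_max_right X 0
    linarith
  obtain ⟨n0, hn0, -, htor, hcls⟩ :=
    I.exists_cls2 L hkL hb aR uR ha hu v hv hrd _ ht0 hno μ hno2
  refine ⟨v, hv, I.regular_of_cls L hkL hb aR uR ha hu v hv hrd n0 hn0 htor (2 ^ pmh L)
    (2 ^ (1 + 2 * L * L + (pdl L + 3) * L)) (2 / ((2 ^ pq L : ℕ) : ℝ)) (1 / 2 ^ pdl L) _ ?_⟩
  intro j hj hj'
  rcases hcls j hj hj' with h | h
  · exact Or.inl h
  · right
    obtain ⟨A, H, D, s', w, τ, x, i0, hrep, hbase, hi0, hd0, hz', hlow, hvan⟩ := h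
    have hρ : 0 < ‖l i0‖ := norm_pos_iff.mpr hi0
    refine ⟨A, H, D, s', w, τ, x, i0, hrep, hbase, hi0, hd0, hz', ?_, hvan⟩
    have hg := (I.goodD L hkL hb aR uR ha hu v hv hrd).mono (M' := 2 ^ pmh L) Nat.one_le_two_pow
      (Nat.pow_le_pow_right (by norm_num) (by unfold pbm; omega)) (by positivity)
    have hnumu : ∀ t, t < I.k →
        ((if h : t < I.k then I.uNum ⟨t, h⟩ else 0 : ℤ)).natAbs ≤ 2 ^ L := by
      intro t ht
      simp only [ht, dif_pos]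
      exact (hbu _).1
    have hdenu : ∀ t, t < I.k → (if h : t < I.k then I.uDen ⟨t, h⟩ else 1 : ℕ) ≤ 2 ^ L := by
      intro t ht
      simp only [ht, dif_pos]
      exact (hbu _).2
    have hdenu0 : ∀ t, t < I.k → 0 < (if h : t < I.k then I.uDen ⟨t, h⟩ else 1 : ℕ) := by
      intro t ht
      simp only [ht, dif_pos]
      exact I.uDen_pos _
    exact hE I.k L hkL I.num (fun t => if h : t < I.k then I.uNum ⟨t, h⟩ else 0) I.den
      (fun t => if h : t < I.k then I.uDen ⟨t, h⟩ else 1) I.den_pos' hdenu0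
      (I.num_le' L hb) (I.den_le' L hb) hnumu hdenu aR uR
      (by
        intro t ht
        rw [ha t ht]
        simp only [Inst.num, Inst.den, ht, dif_pos, Inst.a]
        push_cast
        rfl)
      (by
        intro t ht
        rw [hu t ht]
        simp only [ht, dif_pos, Inst.u]
        push_cast
        rfl) l c ex hrd (2 ^ pr L) (2 ^ pmh L) (2 ^ (1 + 2 * L * L + (pdl L + 3) * L))
      (2 / ((2 ^ pq L : ℕ) : ℝ)) (1 / 2 ^ pdl L) (fun n => ((v n : ℚ) : ℝ)) hg n0 j A H D s' w τ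
      ‖l i0‖ (ex i0) hbase hρ x hrep (poly2_card hs aR uR ha hrd _ _)
      (fun z hz => lt_of_lt_of_le (by positivity) (hlow z hz))

end Pool.Agent.UltPos
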