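import Pool.Agent.MX.Crit

/-! P24. Positive instances with at most eight roots and at most two multiple roots on each circle
are regular. -/

set_option autoImplicit false

namespace Pool.Agent.DD7719.M

open Complex Filter Topology

variable {k : ℕ}

/-- A level whose roots are all real, or all equal to one root up to conjugation. -/
private theorem pos_two (l c : Fin k → ℂ) (ex : Fin k → ℕ) (R M Nb : ℕ) (ε δ : ℝ) (v : ℕ → ℝ)
    (hg : GoodD k l c ex R M ε δ v) (hpos : ∀ n, 0 < v n)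
    (n0 j : ℕ) (A H : Fin k → Fin k → ℤ) (D : ℤ) (s : ℕ) (w : Fin k → Fin k → ℝ)
    (τ : Fin k → ℝ) (ρ : ℝ) (d : ℕ) (hbase : BaseF k l c ex M Nb ε δ n0 j A H D s w τ ρ d)
    (hρ : 0 < ρ)
    (h2 : ∀ i i', ‖l i‖ = ρ → ex i = d → ‖l i'‖ = ρ → ex i' = d → (l i).im ≠ 0 →
      l i' = l i ∨ l i' = (starRingEnd ℂ) (l i))
    (z' : Fin k → ℂ) (hz' : ∀ t, ‖z' t‖ = 1) (hne : (LevF l c ex A s j d ρ z').re ≠ 0)
    (z : Fin k → ℂ) (hz : ∀ t, ‖z t‖ = 1) : 0 < (LevF l c ex A s j d ρ z).re := by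
  classical
  obtain ⟨u, hu, -, happ⟩ := nar_core l c ex R M Nb ε δ hg.hk hg.hex hg.hdc hg.hR hg.hM hg.hrb
    hg.hε hg.hδ v hg.hv n0 j A H D s w τ ρ d hbase hρ 2 two_pos
  have hkj : k ≤ j := hbase.2.2.1
  have hdk : d < k := hbase.2.2.2.2.2.2.2.2.2.2.2.2.2.2.1
  have hupos : ∀ n, 0 < u n := by
    intro n
    have h1 := hu n
    have h3 := hpos (j + n0 * (2 * n))
    have h4 : (0 : ℝ) < (((j + n0 * (2 * n)).choose d : ℕ) : ℝ) := by
      exact_mod_cast Nat.choose_pos (by omega)
    rw [h1] at h3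
    exact (pos_iff_pos_of_mul_pos h3).mp (by positivity)
  have hFnn : ∀ z : Fin k → ℂ, (∀ t, ‖z t‖ = 1) → 0 ≤ (LevF l c ex A s j d ρ z).re := by
    intro z hz
    by_contra hcon
    push Not at hcon
    obtain ⟨n, -, h1, -⟩ := happ z hz (-((LevF l c ex A s j d ρ z).re) / 2) (by linarith) 0
    have h2 := (abs_le.mp h1).2
    have h3 := hupos n
    linarith
  have hFz' : 0 < (LevF l c ex A s j d ρ z').re := lt_of_le_of_ne (hFnn z' hz') hne.symm
  -- real roots
  have hreal : ∀ i, (l i).im = 0 → ∀ z : Fin k → ℂ, (∀ t, ‖z t‖ = 1) → Wt A s z i = 1 := by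
    intro i hi z hz
    refine (eq_of_forall_dist_le fun κ hκ => ?_).symm
    obtain ⟨n, -, -, h1⟩ := happ z hz κ hκ 0
    have h2 := h1 i
    have e1 : nz (l i) ^ (n0 * (2 * n)) = 1 := by
      rw [show n0 * (2 * n) = 2 * (n0 * n) by ring, pow_mul, nz_sq_of_real _ hi, one_pow]
    rw [e1] at h2
    rw [dist_eq_norm]
    exact h2
  -- conjugate roots
  have hcj : ∀ i i', l i' = (starRingEnd ℂ) (l i) → ∀ z : Fin k → ℂ, (∀ t, ‖z t‖ = 1) →
      Wt A s z i' = (starRingEnd ℂ) (Wt A s z i) := by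
    intro i i' hi z hz
    refine eq_of_forall_dist_le fun κ hκ => ?_
    obtain ⟨n, -, -, h1⟩ := happ z hz (κ / 2) (half_pos hκ) 0
    have h2 := h1 i
    have h3 := h1 i'
    rw [hi, nz_conj, ← map_pow] at h3
    have h4 : ‖(starRingEnd ℂ) (nz (l i) ^ (n0 * (2 * n))) - (starRingEnd ℂ) (Wt A s z i)‖ ≤
        κ / 2 := by
      rw [← map_sub, norm_conj]
      exact h2
    rw [dist_eq_norm]
    have h5 : Wt A s z i' - (starRingEnd ℂ) (Wt A s z i) =
        ((starRingEnd ℂ) (nz (l i) ^ (n0 * (2 * n))) - (starRingEnd ℂ) (Wt A s z i)) -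
        ((starRingEnd ℂ) (nz (l i) ^ (n0 * (2 * n))) - Wt A s z i') := by ring
    rw [h5]
    refine (norm_sub_le _ _).trans ?_
    linarith
  -- equal roots
  have heq : ∀ i i', l i' = l i → ∀ z : Fin k → ℂ, (∀ t, ‖z t‖ = 1) →
      Wt A s z i' = Wt A s z i := by
    intro i i' hi z hz
    refine eq_of_forall_dist_le fun κ hκ => ?_
    obtain ⟨n, -, -, h1⟩ := happ z hz (κ / 2) (half_pos hκ) 0
    have h2 := h1 i
    have h3 := h1 i'
    rw [hi] at h3
    rw [dist_eq_norm]
    have h5 : Wt A s z i' - Wt A s z i =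
        (nz (l i) ^ (n0 * (2 * n)) - Wt A s z i) - (nz (l i) ^ (n0 * (2 * n)) - Wt A s z i') := by
      ring
    rw [h5]
    refine (norm_sub_le _ _).trans ?_
    linarith
  by_cases hex1 : ∃ i1, ‖l i1‖ = ρ ∧ ex i1 = d ∧ (l i1).im ≠ 0
  · obtain ⟨i1, hn1, he1, him1⟩ := hex1
    set C : ℂ := ∑ i, (if ‖l i‖ = ρ ∧ ex i = d then
      (if l i = l i1 then c i * l i ^ (j - d) else (starRingEnd ℂ) (c i * l i ^ (j - d))) else 0)
      with hC
    have hF : ∀ z : Fin k → ℂ, (∀ t, ‖z t‖ = 1) →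
        (LevF l c ex A s j d ρ z).re = (C * Wt A s z i1).re := by
      intro z hz
      rw [hC, Finset.sum_mul, re_sum]
      unfold LevF
      rw [re_sum]
      refine Finset.sum_congr rfl fun i _ => ?_
      have h1 : (∏ t : Fin k, (if (t : ℕ) < s then z t ^ A t i else 1)) = Wt A s z i := rfl
      rw [h1]
      by_cases h3 : ‖l i‖ = ρ ∧ ex i = d
      · rw [if_pos h3, if_pos h3]
        by_cases h4 : l i = l i1
        · rw [if_pos h4, heq i1 i h4 z hz]
        · rw [if_neg h4]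
          have h5 : l i = (starRingEnd ℂ) (l i1) :=
            (h2 i1 i hn1 he1 h3.1 h3.2 him1).resolve_left h4
          rw [hcj i1 i h5 z hz]
          generalize c i * l i ^ (j - d) = a
          generalize Wt A s z i1 = b
          simp only [mul_re, conj_re, conj_im]
          ring
      · rw [if_neg h3, if_neg h3, zero_mul]
    by_cases hA : ∀ t : Fin k, (t : ℕ) < s → A t i1 = 0
    · have hW : ∀ z : Fin k → ℂ, Wt A s z i1 = 1 := by
        intro z
        unfold Wt
        refine Finset.prod_eq_one fun t _ => ?_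
        by_cases ht : (t : ℕ) < s
        · rw [if_pos ht, hA t ht, zpow_zero]
        · rw [if_neg ht]
      rw [hF z hz, hW z]
      rw [hF z' hz', hW z'] at hFz'
      exact hFz'
    · exfalso
      push Not at hA
      obtain ⟨t0, ht0, hA0⟩ := hA
      set e0 : ℂ := exp (Real.pi * I / (A t0 i1 : ℂ)) with he0
      have hA0' : (A t0 i1 : ℂ) ≠ 0 := by exact_mod_cast hA0
      have hne0 : ‖e0‖ = 1 := by
        have h6 : (Real.pi * I / (A t0 i1 : ℂ) : ℂ) = ((Real.pi / (A t0 i1 : ℝ) : ℝ) : ℂ) * I := by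
          push_cast
          ring
        rw [he0, h6, norm_exp_ofReal_mul_I]
      have hpe : e0 ^ (A t0 i1) = -1 := by
        rw [he0, ← exp_int_mul, mul_div_cancel₀ _ hA0', exp_pi_mul_I]
      set z'' : Fin k → ℂ := fun t => z' t * (if t = t0 then e0 else 1) with hz''
      have hz''1 : ∀ t, ‖z'' t‖ = 1 := by
        intro t
        simp only [hz'']
        rw [norm_mul, hz']
        split_ifs
        · rw [hne0, one_mul]
        · rw [norm_one, one_mul]
      have hW : Wt A s z'' i1 = -Wt A s z' i1 := by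
        unfold Wt
        have h6 : ∀ t : Fin k, (if (t : ℕ) < s then z'' t ^ A t i1 else 1) =
            (if (t : ℕ) < s then z' t ^ A t i1 else 1) * (if t = t0 then (-1 : ℂ) else 1) := by
          intro t
          simp only [hz'']
          by_cases h7 : t = t0
          · subst h7
            rw [if_pos ht0, if_pos ht0, if_pos rfl, if_pos rfl, mul_zpow, hpe]
          · rw [if_neg h7, if_neg h7, mul_one, mul_one]
        rw [Finset.prod_congr rfl fun t _ => h6 t, Finset.prod_mul_distrib,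
          Finset.prod_ite_eq' Finset.univ t0 (fun _ => (-1 : ℂ))]
        simp
      have h7 := hFnn z'' hz''1
      rw [hF z'' hz''1, hW, mul_neg, neg_re, ← hF z' hz'] at h7
      linarith
  · push Not at hex1
    have hF : ∀ z : Fin k → ℂ, (∀ t, ‖z t‖ = 1) → LevF l c ex A s j d ρ z =
        ∑ i, (if ‖l i‖ = ρ ∧ ex i = d then c i * l i ^ (j - d) else 0) := by
      intro z hz
      unfold LevF
      refine Finset.sum_congr rfl fun i _ => ?_
      by_cases h3 : ‖l i‖ = ρ ∧ ex i = d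
      · rw [if_pos h3, if_pos h3]
        have h4 := hreal i (hex1 i h3.1 h3.2) z hz
        unfold Wt at h4
        rw [h4, mul_one]
      · rw [if_neg h3, if_neg h3]
    rw [hF z hz]
    rwa [hF z' hz'] at hFz'

end Pool.Agent.DD7719.M

namespace Pool.Agent.UltPos

open Pool.Agent.PT Pool.Agent.AllR Pool.Agent.DD7719.M Pool.Agent.DD7719 Finset

private lemma aeval_conj_rat (p : Polynomial ℚ) (z : ℂ) :
    Polynomial.aeval ((starRingEnd ℂ) z) p = (starRingEnd ℂ) (Polynomial.aeval z p) := by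
  rw [Polynomial.aeval_def, Polynomial.aeval_def, Polynomial.hom_eval₂]
  congr 1
  exact Subsingleton.elim _ _

/-- A root with a positive exponent is a multiple root. -/
private lemma Inst.multiple_root (I : Inst) (aR uR : ℕ → ℝ)
    (ha : ∀ t (h : t < I.k), aR t = (I.a ⟨t, h⟩ : ℝ))
    {l c : ℕ → ℂ} {ex : ℕ → ℕ} (hrd : RootData I.k aR uR l c ex) (i : Fin I.k)
    (h : 1 ≤ ex i) : Polynomial.aeval (l i) (Polynomial.derivative I.charPoly) = 0 := by
  have h1 := hrd.2.2.1 i i.2 1 h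
  rw [Nat.choose_one_right, Finset.sum_range] at h1
  unfold Inst.charPoly
  rw [Polynomial.derivative_sub, Polynomial.derivative_X_pow, Polynomial.derivative_sum, map_sub,
    map_sum, sub_eq_zero, map_mul, map_pow, Polynomial.aeval_X]
  have h2 : (Polynomial.aeval (l i)) (Polynomial.C (I.k : ℚ)) = (I.k : ℂ) := by
    rw [Polynomial.aeval_C]
    simp
  rw [h2, h1]
  refine Finset.sum_congr rfl fun t _ => ?_
  rw [Polynomial.derivative_C_mul, Polynomial.derivative_X_pow, map_mul, map_mul, map_pow,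
    Polynomial.aeval_X, Polynomial.aeval_C, Polynomial.aeval_C, ha t t.2, Nat.choose_one_right]
  simp [mul_assoc]

/-- (Use `Inst.regular_of_eight`; a level with `d ≥ 1` has at most two roots, which are either both
real or conjugate; `mean_zeroT`.) -/
theorem Inst.regular_of_twoMultiple {I : Inst} (hP : I.Positive) (h8 : I.EightPerCircle)
    (h2 : I.TwoMultiple) : I.Regular := by
  classical
  obtain ⟨v, hv, -⟩ := I.exists_unique_seq
  set L : ℕ := I.k + ∑ i, ((I.aNum i).natAbs + I.aDen i) with hL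
  have hkL : I.k ≤ L := by omega
  have hb : ∀ i, (I.aNum i).natAbs ≤ 2 ^ L ∧ I.aDen i ≤ 2 ^ L := by
    intro i
    have h1 : (I.aNum i).natAbs + I.aDen i ≤ ∑ i, ((I.aNum i).natAbs + I.aDen i) :=
      Finset.single_le_sum (f := fun i => (I.aNum i).natAbs + I.aDen i)
        (fun _ _ => Nat.zero_le _) (Finset.mem_univ i)
    have h2 : L ≤ 2 ^ L := Nat.lt_two_pow_self.le
    constructor <;> omega
  set aR : ℕ → ℝ := fun t => ((I.aQ t : ℚ) : ℝ) with haR
  set uR : ℕ → ℝ := fun t => ((I.uQ t : ℚ) : ℝ) with huR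
  have ha : ∀ t (h : t < I.k), aR t = (I.a ⟨t, h⟩ : ℝ) := fun t h => by
    simp only [haR, Inst.aQ, h, dif_pos]
  have hu : ∀ t (h : t < I.k), uR t = (I.u ⟨t, h⟩ : ℝ) := fun t h => by
    simp only [huR, Inst.uQ, h, dif_pos]
  obtain ⟨l, c, ex, hrd⟩ := I.exists_rootData' aR uR ha hu
  have hvpos : ∀ n, (0 : ℝ) < ((v n : ℚ) : ℝ) := fun n => by exact_mod_cast hP v hv n
  have hg := (I.goodD L hkL hb aR uR ha hu v hv hrd).mono (M' := 2 ^ pmh L) Nat.one_le_two_pow
    (Nat.pow_le_pow_right (by norm_num) (by unfold pbm; omega)) (by positivity)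
  obtain ⟨μ, hμ, hreg⟩ := I.regular_of_eight L hkL hb aR uR ha hu v hv (hP v hv) h8 hrd (by
    intro n0 j A H D s w τ ρ d hbase hρ hd ⟨z', hz', hne⟩ z hz
    refine pos_two (fun i : Fin I.k => l i) (fun i => c i) (fun i => ex i) _ _ _ _ _ _ hg hvpos
      n0 j A H D s w τ ρ d hbase hρ ?_ z' hz' hne z hz
    intro i i' hi hie hi' hie' him
    by_contra hcon
    push Not at hcon
    have hm : ∀ i : Fin I.k, ‖l i‖ = ρ → ex i = d → l i ∈ {z : ℂ | z ∈ I.rootSet ∧
        Polynomial.aeval z (Polynomial.derivative I.charPoly) = 0 ∧ ‖z‖ = ρ} := fun i hi hie =>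
      ⟨I.root_mem aR uR ha hrd i, I.multiple_root aR uR ha hrd i (by omega), hi⟩
    have h3 := hm i hi hie
    have h4 := hm i' hi' hie'
    have h5 : (starRingEnd ℂ) (l i) ∈ {z : ℂ | z ∈ I.rootSet ∧
        Polynomial.aeval z (Polynomial.derivative I.charPoly) = 0 ∧ ‖z‖ = ρ} := by
      refine ⟨?_, ?_, ?_⟩
      · have h6 : Polynomial.aeval (l i) I.charPoly = 0 := h3.1
        change Polynomial.aeval _ I.charPoly = 0
        rw [aeval_conj_rat, h6, map_zero]
      · rw [aeval_conj_rat, h3.2.1, map_zero]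
      · rw [Complex.norm_conj]
        exact hi
    have h6 : l i ≠ (starRingEnd ℂ) (l i) := by
      intro h7
      exact him (Complex.conj_eq_iff_im.mp h7.symm)
    have h7 : (({l i, (starRingEnd ℂ) (l i), l i'} : Finset ℂ) : Set ℂ) ⊆
        {z : ℂ | z ∈ I.rootSet ∧
          Polynomial.aeval z (Polynomial.derivative I.charPoly) = 0 ∧ ‖z‖ = ρ} := by
      intro x hx
      simp only [coe_insert, coe_singleton, Set.mem_insert_iff, Set.mem_singleton_iff] at hx
      rcases hx with rfl | rfl | rfl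
      · exact h3
      · exact h5
      · exact h4
    have h8 := Set.encard_le_encard h7
    rw [Set.encard_coe_eq_coe_finsetCard] at h8
    have h9 : ({l i, (starRingEnd ℂ) (l i), l i'} : Finset ℂ).card = 3 :=
      Finset.card_eq_three.mpr ⟨_, _, _, h6, hcon.1.symm, hcon.2.symm, rfl⟩
    rw [h9] at h8
    have h10 := h8.trans (h2 ρ)
    norm_cast at h10)
  exact ⟨μ, hμ, v, hv, hreg⟩

end Pool.Agent.UltPos
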