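import Pool.Agent.MX.Lang2
import Pool.Agent.MX.Poly2
import Pool.Agent.MX.Iff
import Pool.Agent.MX.TwoM

/-! The final results. -/

set_option autoImplicit false

namespace Pool.Agent.UltPos

open Pool.Agent.PT Pool.Agent.AllR Pool.Agent.DD7719.M Pool.Agent.DD7719 Pool.Agent.MX Finset

/-- regular with margin `2 ^ (-(len ^ c + c))` -/
theorem inForallR_regularWith (c : ℕ) :
    InForallR {w : List ISym | ∃ I : Inst, w = I.enc ∧ I.Positive ∧
      I.RegularWith (1 / 2 ^ (w.length ^ c + c))} := by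
  have h := inForallR_regular_and (fun w => w.length ^ c + c) ((UF.len.pow c).add (UF.const c))
    (fun _ => False) ((RE.up (UP.lt (UF.const 0) (UF.const 0))).congr fun x e α => by simp)
  simpa using h

section

/-- the coefficients read from the code -/
theorem exists_coefR : ∃ (kk : List ISym → ℕ) (fR : List ISym → ℕ → ℝ),
    UF (Γ := ISym) (fun x _ => kk x) ∧ RF (Γ := ISym) (fun x e _ => fR x (e 0)) ∧
    (∀ I : Inst, kk I.enc = I.k) ∧
    ∀ (I : Inst) (t : ℕ) (ht : t < I.k), fR I.enc t = (I.a ⟨t, ht⟩ : ℝ) := by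
  obtain ⟨kk, sg, nb, db, hkk, hsg, hnb, hdb, hI⟩ := exists_parser
  refine ⟨kk, fieldR sg nb db 0, hkk, rf_fieldR 0 hsg hnb hdb, fun I => (hI I).1, ?_⟩
  intro I t ht
  obtain ⟨e1, e2, e3, e4, e5, e6, e7⟩ := hI I
  rw [Inst.a, fieldR]
  push_cast
  have h3 := congrArg (fun z : ℤ => (z : ℝ)) (e3 ⟨t, ht⟩)
  have h4 := congrArg (fun z : ℤ => (z : ℝ)) (e4 ⟨t, ht⟩)
  simp only at h3 h4
  push_cast at h3 h4
  rw [h3, h4]

end

theorem Inst.RegularWith.regular {I : Inst} {p : ℕ} (h : I.RegularWith (1 / 2 ^ p)) : I.Regular :=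
  ⟨_, by positivity, h⟩

/-- regular with at most `s` roots on each circle -/
theorem inForallR_perCircle (s : ℕ) :
    InForallR {w : List ISym | ∃ I : Inst, w = I.enc ∧ I.Positive ∧ I.Regular ∧
      I.AtMostPerCircle s} := by
  obtain ⟨kk, fR, hkk, hfR, hk, hf⟩ := exists_coefR
  obtain ⟨E, hE⟩ := Inst.regularWith_of_perCircle s
  have hiff : ∀ I : Inst, I.AtMostPerCircle s ↔ ¬ ManyRoots (s + 1) (kk I.enc) (fR I.enc) := by
    intro I
    rw [hk]
    exact I.perCircle_iff s _ (hf I)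
  have h := inForallR_regular_and (fun w => (2 + w.length) ^ E)
    (((UF.const 2).add UF.len).pow E) (fun x => ManyRoots (s + 1) (kk x) (fR x))
    (re_many (s + 1) kk fR hkk hfR)
  have hset : {w : List ISym | ∃ I : Inst, w = I.enc ∧ I.Positive ∧ I.Regular ∧
      I.AtMostPerCircle s} = {w : List ISym | ∃ I : Inst, w = I.enc ∧ I.Positive ∧
        I.RegularWith (1 / 2 ^ (2 + w.length) ^ E) ∧ ¬ ManyRoots (s + 1) (kk w) (fR w)} := by
    ext w
    constructor
    · rintro ⟨I, rfl, h1, h2, h3⟩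
      exact ⟨I, rfl, h1, hE I h1 h2 h3, (hiff I).mp h3⟩
    · rintro ⟨I, rfl, h1, h2, h3⟩
      exact ⟨I, rfl, h1, h2.regular, (hiff I).mpr h3⟩
  rw [hset]
  exact h

/-- not critical, at most eight roots on each circle -/
theorem inForallR_eight_noncritical :
    InForallR {w : List ISym | ∃ I : Inst, w = I.enc ∧ I.Positive ∧ ¬ I.Critical ∧
      I.EightPerCircle} := by
  have hset : {w : List ISym | ∃ I : Inst, w = I.enc ∧ I.Positive ∧ ¬ I.Critical ∧
      I.EightPerCircle} = {w : List ISym | ∃ I : Inst, w = I.enc ∧ I.Positive ∧ I.Regular ∧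
      I.AtMostPerCircle 8} := by
    ext w
    constructor
    · rintro ⟨I, rfl, h1, h2, h3⟩
      exact ⟨I, rfl, h1, (Inst.regular_iff_of_eight h1 h3).mpr h2, I.eight_iff_perCircle.mp h3⟩
    · rintro ⟨I, rfl, h1, h2, h3⟩
      have h4 := I.eight_iff_perCircle.mpr h3
      exact ⟨I, rfl, h1, (Inst.regular_iff_of_eight h1 h4).mp h2, h4⟩
  rw [hset]
  exact inForallR_perCircle 8

/-- at most eight roots and at most two multiple roots on each circle -/
theorem inForallR_twoMultiple :
    InForallR {w : List ISym | ∃ I : Inst, w = I.enc ∧ I.Positive ∧ I.EightPerCircle ∧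
      I.TwoMultiple} := by
  obtain ⟨kk, fR, hkk, hfR, hk, hf⟩ := exists_coefR
  obtain ⟨E, hE⟩ := Inst.regularWith_of_perCircle 8
  have hiff : ∀ I : Inst, I.EightPerCircle ↔ ¬ ManyRoots (8 + 1) (kk I.enc) (fR I.enc) := by
    intro I
    rw [hk, I.eight_iff_perCircle]
    exact I.perCircle_iff 8 _ (hf I)
  have hiff2 : ∀ I : Inst, I.TwoMultiple ↔ ¬ ThreeMultiple (kk I.enc) (fR I.enc) := by
    intro I
    rw [hk]
    exact I.twoMultiple_iff _ (hf I)
  have h := inForallR_regular_and (fun w => (2 + w.length) ^ E)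
    (((UF.const 2).add UF.len).pow E)
    (fun x => ManyRoots (8 + 1) (kk x) (fR x) ∨ ThreeMultiple (kk x) (fR x))
    (RE.or (re_many (8 + 1) kk fR hkk hfR) (re_threeMultiple kk fR hkk hfR))
  have hset : {w : List ISym | ∃ I : Inst, w = I.enc ∧ I.Positive ∧ I.EightPerCircle ∧
      I.TwoMultiple} = {w : List ISym | ∃ I : Inst, w = I.enc ∧ I.Positive ∧
        I.RegularWith (1 / 2 ^ (2 + w.length) ^ E) ∧
        ¬ (ManyRoots (8 + 1) (kk w) (fR w) ∨ ThreeMultiple (kk w) (fR w))} := by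
    ext w
    constructor
    · rintro ⟨I, rfl, h1, h2, h3⟩
      exact ⟨I, rfl, h1, hE I h1 (Inst.regular_of_twoMultiple h1 h2 h3)
        (I.eight_iff_perCircle.mp h2), not_or.mpr ⟨(hiff I).mp h2, (hiff2 I).mp h3⟩⟩
    · rintro ⟨I, rfl, h1, h2, h3⟩
      obtain ⟨h4, h5⟩ := not_or.mp h3
      exact ⟨I, rfl, h1, (hiff I).mpr h4, (hiff2 I).mpr h5⟩
  rw [hset]
  exact h

/-- simple instances have no multiple root -/
theorem Inst.Simple.twoMultiple {I : Inst} (h : I.Simple) : I.TwoMultiple := by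
  intro r
  have h1 : {z : ℂ | z ∈ I.rootSet ∧
    Polynomial.aeval z (Polynomial.derivative I.charPoly) = 0 ∧ ‖z‖ = r} = ∅ := by
    rw [Set.eq_empty_iff_forall_notMem]
    rintro z ⟨hz1, hz2, -⟩
    have hne : I.charPoly.map (algebraMap ℚ ℂ) ≠ 0 := by
      rw [Ne, Polynomial.map_eq_zero]
      intro h0
      have hc := congrArg (fun p => Polynomial.coeff p I.k) h0
      simp only [Inst.charPoly, Polynomial.coeff_sub, Polynomial.coeff_X_pow, if_true,
        Polynomial.finsetSum_coeff, Polynomial.coeff_C_mul, Polynomial.coeff_zero] at hc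
      rw [Finset.sum_eq_zero] at hc
      · norm_num at hc
      · intro i _
        rw [if_neg, mul_zero]
        have := i.2
        omega
    have h2 : 1 < (I.charPoly.map (algebraMap ℚ ℂ)).rootMultiplicity z := by
      rw [Polynomial.one_lt_rootMultiplicity_iff_isRoot hne]
      constructor
      · rw [Polynomial.IsRoot, Polynomial.eval_map_algebraMap]
        exact hz1
      · rw [Polynomial.derivative_map, Polynomial.IsRoot, Polynomial.eval_map_algebraMap]
        exact hz2
    have h3 := Multiset.nodup_iff_count_le_one.mp h z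
    rw [Polynomial.count_roots] at h3
    omega
  rw [h1]
  simp

end Pool.Agent.UltPos
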