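import Pool.Agent.DD7719.TCoef
import Pool.Agent.DD7719.TGap
import Pool.Agent.MX.Sizes

/-! P7. Bounds for the coefficients of root data. -/

set_option autoImplicit false

namespace Pool.Agent.MX

open Pool.Agent.DD7719 Pool.Agent.DD7719.M Finset

/-- a determinant with entries bounded by a power of two -/
lemma det_bound (k b : ℕ) (N : Matrix (Fin k) (Fin k) ℂ) (h : ∀ i j, ‖N i j‖ ≤ 2 ^ b) :
    ‖N.det‖ ≤ 2 ^ (k * k + b * k) := by
  have h1 : ‖N.det‖ ≤ (Nat.factorial (Fintype.card (Fin k))) • ((2 : ℝ) ^ b) ^ (Fintype.card (Fin k)) :=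
    Matrix.det_le (A := N) (abv := NormedField.toAbsoluteValue ℂ) (x := (2 : ℝ) ^ b)
      (fun i j => h i j)
  rw [Fintype.card_fin, nsmul_eq_mul, ← pow_mul] at h1
  refine h1.trans ?_
  rw [pow_add]
  apply mul_le_mul_of_nonneg_right _ (by positivity)
  have h2 : k.factorial ≤ 2 ^ (k * k) := by
    calc k.factorial ≤ k ^ k := Nat.factorial_le_pow k
      _ ≤ (2 ^ k) ^ k := Nat.pow_le_pow_left Nat.lt_two_pow_self.le k
      _ = 2 ^ (k * k) := by rw [← pow_mul]
  exact_mod_cast h2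

/-- the determinant of a matrix of algebraic integers is an algebraic integer -/
lemma det_integral (k : ℕ) (N : Matrix (Fin k) (Fin k) ℂ) (h : ∀ i j, IsIntegral ℤ (N i j)) :
    IsIntegral ℤ N.det := by
  rw [Matrix.det_apply]
  apply IsIntegral.sum
  intro σ _
  have h1 : IsIntegral ℤ (∏ i, N (σ i) i) := by
    apply IsIntegral.prod
    intro i _
    exact h _ _
  rcases Int.units_eq_one_or (Equiv.Perm.sign σ) with h' | h' <;> rw [h']
  · rw [one_smul]
    exact h1
  · rw [Units.neg_smul, one_smul]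
    exact h1.neg

/-- scaling -/
lemma scaled_det_integral (k : ℕ) (T : ℕ) (N : Matrix (Fin k) (Fin k) ℂ)
    (h : ∀ i j, IsIntegral ℤ ((T : ℂ) * N i j)) :
    IsIntegral ℤ ((T : ℂ) ^ k * N.det) := by
  have h1 : ((T : ℂ) • N).det = (T : ℂ) ^ k * N.det := by
    rw [Matrix.det_smul, Fintype.card_fin]
  rw [← h1]
  apply det_integral
  intro i j
  exact h i j

/-- the square of the determinant of a root datum with rational recurrence coefficients is rational -/
lemma det_sq_rat (k : ℕ) (a u : ℕ → ℝ) (q : ℕ → ℚ) (ha : ∀ t, t < k → a t = (q t : ℝ))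
    (l c : ℕ → ℂ) (ex : ℕ → ℕ) (hrd : RootData k a u l c ex) :
    ∃ r : ℚ, (vmat k fun i => (l i, ex i)).det ^ 2 = (r : ℂ) := by
  classical
  have haC : ∀ t, t < k → (a t : ℂ) = ((q t : ℚ) : ℂ) := by
    intro t ht
    rw [ha t ht]
    push_cast
    rfl
  -- the roots are algebraic
  have hroot : ∀ i : Fin k, (l i) ∈ algebraicClosure ℚ ℂ := by
    intro i
    rw [mem_algebraicClosure_iff']
    refine ⟨cp k q, cp_monic k q, ?_⟩
    have h0 := hrd.2.2.1 i i.2 0 (Nat.zero_le _)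
    have h1 := hasse_cp k (fun t => (a t : ℂ)) 0 (l i)
    rw [h0, sub_self] at h1
    simp only [cp, Polynomial.eval₂_sub, Polynomial.eval₂_pow, Polynomial.eval₂_X,
      Polynomial.eval₂_finsetSum, Polynomial.eval₂_mul, Polynomial.eval₂_C]
    simp only [Nat.choose_zero_right, Nat.cast_one, one_mul, mul_one, Nat.sub_zero] at h0
    rw [h0, sub_eq_zero]
    apply Finset.sum_congr rfl
    intro t ht
    rw [haC t (Finset.mem_range.mp ht)]
    rfl
  set K := algebraicClosure ℚ ℂ with hK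
  let lk : Fin k → K := fun i => ⟨l i, hroot i⟩
  let N : Matrix (Fin k) (Fin k) K :=
    fun n i => ((n : ℕ).choose (ex i) : K) * (lk i) ^ ((n : ℕ) - (ex i))
  have hN : (N.map (algebraMap K ℂ)) = vmat k fun i => (l i, ex i) := by
    ext n i
    simp only [Matrix.map_apply, N, vmat, map_mul, map_pow, map_natCast]
    rfl
  have hdet : (vmat k fun i => (l i, ex i)).det = algebraMap K ℂ N.det := by
    rw [← hN, RingHom.map_det]
    rfl
  have hfix : ∀ σ : K ≃ₐ[ℚ] K, σ (N.det ^ 2) = N.det ^ 2 := by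
    intro σ
    have hex : ∀ i : Fin k, ∃ i' : Fin k, l i' = ((σ (lk i) : K) : ℂ) ∧ ex i' = ex i := by
      intro i
      apply hrd.surj
      rw [Polynomial.count_roots, ← Nat.succ_le_iff,
        Polynomial.le_rootMultiplicity_iff (cp_monic k _).ne_zero]
      apply pow_dvd_of_hasse
      intro e he
      rw [hasse_cp, sub_eq_zero]
      have h1 := hrd.2.2.1 i i.2 e (by omega)
      have h2 : ((k.choose e : ℕ) : K) * (lk i) ^ (k - e) =
          ∑ t ∈ Finset.range k, ((q t : ℚ) : K) * ((k - 1 - t).choose e : K) *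
            (lk i) ^ (k - 1 - t - e) := by
        apply (algebraMap K ℂ).injective
        rw [map_mul, map_pow, map_natCast, map_sum]
        refine h1.trans ?_
        apply Finset.sum_congr rfl
        intro t ht
        rw [map_mul, map_mul, map_pow, map_natCast, map_ratCast, haC t (Finset.mem_range.mp ht)]
        rfl
      have h3 := congrArg (fun x : K => algebraMap K ℂ (σ x)) h2
      simp only [map_mul, map_pow, map_natCast, map_sum, map_ratCast] at h3
      refine h3.trans ?_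
      apply Finset.sum_congr rfl
      intro t ht
      rw [haC t (Finset.mem_range.mp ht)]
      rfl
    choose π hπ1 hπ2 using hex
    have hinj : Function.Injective π := by
      intro i j hij
      by_contra hne
      have hne' : (i : ℕ) ≠ j := fun h => hne (Fin.ext h)
      have h1 : lk i = lk j := by
        apply σ.injective
        apply Subtype.ext
        rw [← hπ1 i, ← hπ1 j, hij]
      have h2 : ex i = ex j := by rw [← hπ2 i, ← hπ2 j, hij]
      rcases hrd.2.1 i i.2 j j.2 hne' with h' | h'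
      · exact h' (congrArg (fun x : K => (x : ℂ)) h1)
      · exact h' h2
    let p : Equiv.Perm (Fin k) := Equiv.ofBijective π (Finite.injective_iff_bijective.mp hinj)
    have hmap : N.map σ = N.submatrix id p := by
      ext n i
      have e1 : σ (lk i) = lk (p i) := by
        apply Subtype.ext
        exact (hπ1 i).symm
      have e2 : ex (p i) = ex i := hπ2 i
      have e3 : (N.map σ) n i = ((n : ℕ).choose (ex (p i)) : K) * (lk (p i)) ^ ((n : ℕ) - ex (p i)) := by
        rw [e2, ← e1]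
        simp only [Matrix.map_apply, N, map_mul, map_pow, map_natCast]
      rw [e3]
      rfl
    have h4 : σ N.det = (Equiv.Perm.sign p : K) * N.det := by
      have := RingHom.map_det (σ : K →+* K) N
      have h5 : σ N.det = (N.map σ).det := this
      rw [h5, hmap, Matrix.det_permute']
    rw [map_pow, h4, mul_pow]
    have h6 : ((Equiv.Perm.sign p : K)) ^ 2 = 1 := by
      rcases Int.units_eq_one_or (Equiv.Perm.sign p) with h | h <;> rw [h] <;> simp
    rw [h6, one_mul]
  have : IsAlgClosure ℚ K := algebraicClosure.isAlgClosure ℚ ℂ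
  have : IsGalois ℚ K := IsAlgClosure.isGalois ℚ K
  have hbot : N.det ^ 2 ∈ (⊥ : IntermediateField ℚ K) := by
    rw [InfiniteGalois.mem_bot_iff_fixed]
    exact hfix
  rw [IntermediateField.mem_bot] at hbot
  obtain ⟨r, hr⟩ := hbot
  refine ⟨r, ?_⟩
  rw [hdet, ← map_pow, ← hr]
  simp

section
variable (k L : ℕ) (hkL : k ≤ L) (num numu : ℕ → ℤ) (den denu : ℕ → ℕ)
    (hden0 : ∀ t, t < k → 0 < den t) (hdenu0 : ∀ t, t < k → 0 < denu t)
    (hnum : ∀ t, t < k → (num t).natAbs ≤ 2 ^ L) (hden : ∀ t, t < k → den t ≤ 2 ^ L)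
    (hnumu : ∀ t, t < k → (numu t).natAbs ≤ 2 ^ L) (hdenu : ∀ t, t < k → denu t ≤ 2 ^ L)
    (a u : ℕ → ℝ) (ha : ∀ t, t < k → a t = (num t : ℝ) / (den t : ℝ))
    (hu : ∀ t, t < k → u t = (numu t : ℝ) / (denu t : ℝ))
    (l c : ℕ → ℂ) (ex : ℕ → ℕ) (hrd : RootData k a u l c ex)

include hkL hden0 hdenu0 hnum hden hnumu hdenu ha hu hrd in
theorem coef_bound : (∀ i, i < k → ‖c i‖ ≤ 2 ^ pcf L) ∧
    ∃ D0 : ℕ, 0 < D0 ∧ D0 ≤ 2 ^ pcf L ∧ ∀ i, i < k → IsIntegral ℤ ((D0 : ℂ) * c i) := by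
  classical
  -- the roots
  have hrt : ∀ i : Fin k, (l i) ^ k =
      ∑ t ∈ Finset.range k, ((num t : ℂ) / (den t : ℂ)) * (l i) ^ (k - 1 - t) := by
    intro i
    have h0 := hrd.2.2.1 i i.2 0 (Nat.zero_le _)
    simp only [Nat.choose_zero_right, Nat.cast_one, one_mul, mul_one, Nat.sub_zero] at h0
    rw [h0]
    apply Finset.sum_congr rfl
    intro t ht
    rw [ha t (Finset.mem_range.mp ht)]
    push_cast
    rfl
  have hln : ∀ i : Fin k, ‖l i‖ ≤ 2 ^ (2 * L) := fun i =>
    root_norm_le k num den L hkL hden0 hnum (l i) (hrt i)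
  set A0 : ℕ := ∏ s ∈ Finset.range k, den s with hA0
  have hA0pos : 0 < A0 := Finset.prod_pos fun s hs => hden0 s (Finset.mem_range.mp hs)
  have hA0le : A0 ≤ 2 ^ (L * k) := by
    have := prod_den_le (range k) den L (fun i hi => hden i (Finset.mem_range.mp hi))
    rwa [Finset.card_range] at this
  set A1 : ℕ := ∏ s ∈ Finset.range k, denu s with hA1
  have hA1pos : 0 < A1 := Finset.prod_pos fun s hs => hdenu0 s (Finset.mem_range.mp hs)
  have hA1le : A1 ≤ 2 ^ (L * k) := by
    have := prod_den_le (range k) denu L (fun i hi => hdenu i (Finset.mem_range.mp hi))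
    rwa [Finset.card_range] at this
  -- integrality of the roots
  have hint : ∀ i : Fin k, IsIntegral ℤ ((A0 : ℂ) * l i) := by
    intro i
    have h1 := isIntegral_leadingCoeff_smul _ _ (ipoly_aeval k num den hden0 (l i) (hrt i))
    have hlc : (ipoly k num den).leadingCoeff = (A0 : ℤ) := by
      have hck : (ipoly k num den).coeff k = (A0 : ℤ) := by
        rw [ipoly_coeff, if_pos rfl, hA0]
        push_cast
        rfl
      have hnd : (ipoly k num den).natDegree = k := by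
        apply le_antisymm (ipoly_natDegree k num den)
        apply Polynomial.le_natDegree_of_ne_zero
        rw [hck]
        exact_mod_cast hA0pos.ne'
      rw [Polynomial.leadingCoeff, hnd, hck]
    rw [hlc, zsmul_eq_mul] at h1
    exact_mod_cast h1
  set M := vmat k fun i => (l i, ex i) with hM
  set S : ℕ := A0 ^ k * A1 with hS
  have hSpos : 0 < S := by positivity
  have hSle : S ≤ 2 ^ (L * k * k + L * k) := by
    rw [hS, pow_add, pow_mul]
    exact Nat.mul_le_mul (Nat.pow_le_pow_left hA0le k) hA1le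
  -- entries
  have hMint : ∀ n i, IsIntegral ℤ ((S : ℂ) * M n i) := by
    intro n i
    have e1 : (S : ℂ) * M n i = (((A1 * (n : ℕ).choose (ex i) * A0 ^ (k - ((n : ℕ) - ex i)) : ℕ) : ℤ) : ℂ) *
        ((A0 : ℂ) * l i) ^ ((n : ℕ) - ex i) := by
      have e2 : (A0 : ℂ) ^ k = (A0 : ℂ) ^ (k - ((n : ℕ) - ex i)) * (A0 : ℂ) ^ ((n : ℕ) - ex i) := by
        rw [← pow_add]
        congr 1
        have := n.2
        omega
      simp only [hS, hM, vmat]
      push_cast
      rw [e2, mul_pow]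
      ring
    rw [e1]
    exact (isIntegral_algebraMap (R := ℤ) (A := ℂ)).mul ((hint i).pow _)
  have hMb : ∀ n i, ‖M n i‖ ≤ 2 ^ (L + 2 * L * L) := by
    intro n i
    simp only [hM, vmat]
    rw [norm_mul, norm_pow, Complex.norm_natCast, pow_add]
    apply mul_le_mul _ _ (by positivity) (by positivity)
    · have h1 : (n : ℕ).choose (ex i) ≤ 2 ^ (n : ℕ) := Nat.choose_le_two_pow _ _
      have h2 : (2 : ℕ) ^ (n : ℕ) ≤ 2 ^ L := Nat.pow_le_pow_right (by norm_num) (by have := n.2; omega)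
      exact_mod_cast h1.trans h2
    · calc ‖l i‖ ^ ((n : ℕ) - ex i) ≤ ((2 : ℝ) ^ (2 * L)) ^ ((n : ℕ) - ex i) :=
            pow_le_pow_left₀ (norm_nonneg _) (hln i) _
        _ ≤ ((2 : ℝ) ^ (2 * L)) ^ L := pow_le_pow_right₀ (one_le_pow₀ (by norm_num))
            (by have := n.2; omega)
        _ = 2 ^ (2 * L * L) := by rw [← pow_mul]
  have huint : ∀ n : Fin k, IsIntegral ℤ ((S : ℂ) * (u n : ℂ)) := by
    intro n
    have hd : denu n ≠ 0 := (hdenu0 n n.2).ne'
    have e0 : A1 = denu n * ∏ s ∈ (Finset.range k).erase n, denu s := by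
      rw [hA1, Finset.mul_prod_erase _ _ (Finset.mem_range.mpr n.2)]
    have e1 : (S : ℂ) * (u n : ℂ) =
        (((A0 : ℤ) ^ k * (∏ s ∈ (Finset.range k).erase n, denu s : ℕ) * numu n : ℤ) : ℂ) := by
      rw [hu n n.2, hS, e0]
      push_cast
      have hd' : (denu n : ℂ) ≠ 0 := by exact_mod_cast hd
      field_simp
    rw [e1]
    exact isIntegral_algebraMap (R := ℤ) (A := ℂ)
  have hub : ∀ n : Fin k, ‖(u n : ℂ)‖ ≤ 2 ^ (L + 2 * L * L) := by
    intro n
    rw [hu n n.2, Complex.norm_real, Real.norm_eq_abs, abs_div, Nat.abs_cast]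
    have h1 : (1 : ℝ) ≤ denu n := by exact_mod_cast hdenu0 n n.2
    have h2 : |(numu n : ℝ)| ≤ 2 ^ L := by
      have := hnumu n n.2
      rw [← Int.cast_abs, Int.abs_eq_natAbs]
      exact_mod_cast this
    calc |(numu n : ℝ)| / (denu n : ℝ) ≤ |(numu n : ℝ)| := div_le_self (abs_nonneg _) h1
      _ ≤ 2 ^ L := h2
      _ ≤ 2 ^ (L + 2 * L * L) := pow_le_pow_right₀ (by norm_num) (by omega)
  -- the numerators
  let Nm : Fin k → Matrix (Fin k) (Fin k) ℂ := fun i => M.updateCol i fun n : Fin k => (u n : ℂ)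
  have hNint : ∀ i n j, IsIntegral ℤ ((S : ℂ) * Nm i n j) := by
    intro i n j
    simp only [Nm, Matrix.updateCol_apply]
    split_ifs
    · exact huint n
    · exact hMint n j
  have hNb : ∀ i n j, ‖Nm i n j‖ ≤ 2 ^ (L + 2 * L * L) := by
    intro i n j
    simp only [Nm, Matrix.updateCol_apply]
    split_ifs
    · exact hub n
    · exact hMb n j
  -- Cramer
  have hdet0 : M.det ≠ 0 := hrd.det_ne_zero
  have hcr : ∀ i : Fin k, M.det * c i = (Nm i).det := by
    intro i
    have h2 : M.mulVec (fun i : Fin k => c i) = fun n : Fin k => (u n : ℂ) := by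
      ext n
      have h3 := hrd.2.2.2 n n.2
      rw [Finset.sum_range] at h3
      rw [← h3]
      simp only [Matrix.mulVec, dotProduct, vmat, hM]
      apply Finset.sum_congr rfl
      intro i _
      ring
    have h3 : (Nm i).det = (M.cramer fun n : Fin k => (u n : ℂ)) i := (Matrix.cramer_apply _ _ _).symm
    rw [h3, ← h2, Matrix.cramer_eq_adjugate_mulVec, Matrix.mulVec_mulVec, Matrix.adjugate_mul,
      Matrix.smul_mulVec, Matrix.one_mulVec]
    rfl
  -- sizes
  set E : ℕ := L ^ 4 + 3 * L ^ 3 + 2 * L ^ 2 with hE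
  have hexp : (L * k * k + L * k) * k + (k * k + (L + 2 * L * L) * k) ≤ E + L ^ 2 := by
    have h1 : L * k * k ≤ L * L * L := by gcongr
    have h2 : L * k ≤ L * L := by gcongr
    have h3 : (L * k * k + L * k) * k ≤ (L * L * L + L * L) * L := by gcongr
    have h4 : k * k ≤ L * L := by gcongr
    have h5 : (L + 2 * L * L) * k ≤ (L + 2 * L * L) * L := by gcongr
    rw [hE]
    nlinarith [h3, h4, h5]
  have hsize : ∀ N : Matrix (Fin k) (Fin k) ℂ, (∀ n j, ‖N n j‖ ≤ 2 ^ (L + 2 * L * L)) →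
      ‖(S : ℂ) ^ k * N.det‖ ≤ 2 ^ (E + L ^ 2) := by
    intro N hN
    rw [norm_mul, norm_pow, Complex.norm_natCast]
    have h1 : (S : ℝ) ≤ 2 ^ (L * k * k + L * k) := by exact_mod_cast hSle
    calc (S : ℝ) ^ k * ‖N.det‖
        ≤ ((2 : ℝ) ^ (L * k * k + L * k)) ^ k * 2 ^ (k * k + (L + 2 * L * L) * k) :=
          mul_le_mul (pow_le_pow_left₀ (by positivity) h1 k) (det_bound k _ N hN)
            (norm_nonneg _) (by positivity)
      _ = 2 ^ ((L * k * k + L * k) * k + (k * k + (L + 2 * L * L) * k)) := by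
          rw [← pow_mul, ← pow_add]
      _ ≤ 2 ^ (E + L ^ 2) := pow_le_pow_right₀ (by norm_num) hexp
  -- the integer
  set X : ℂ := (S : ℂ) ^ k * M.det with hX
  have hXint : IsIntegral ℤ X := scaled_det_integral k S M hMint
  have hX0 : X ≠ 0 := mul_ne_zero (pow_ne_zero _ (by exact_mod_cast hSpos.ne')) hdet0
  obtain ⟨r, hr⟩ := det_sq_rat k a u (fun t => (num t : ℚ) / (den t : ℚ)) (by
    intro t ht
    rw [ha t ht]
    push_cast
    rfl) l c ex hrd
  have hX2 : X ^ 2 = (((S : ℚ) ^ k) ^ 2 * r : ℚ) := by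
    rw [hX, mul_pow, hM, hr]
    push_cast
    rfl
  obtain ⟨z, hz⟩ : ∃ z : ℤ, X ^ 2 = (z : ℂ) := by
    have h1 : IsIntegral ℤ (algebraMap ℚ ℂ (((S : ℚ) ^ k) ^ 2 * r)) := by
      have := hXint.pow 2
      rw [hX2] at this
      exact this
    have h2 : IsIntegral ℤ (((S : ℚ) ^ k) ^ 2 * r) :=
      (isIntegral_algebraMap_iff (algebraMap ℚ ℂ).injective).mp h1
    obtain ⟨z, hz⟩ := IsIntegrallyClosed.isIntegral_iff.mp h2
    refine ⟨z, ?_⟩
    rw [hX2, ← hz]
    simp
  have hz0 : z ≠ 0 := by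
    intro h
    rw [h, Int.cast_zero] at hz
    exact hX0 (pow_eq_zero_iff (by norm_num) |>.mp hz)
  have hzabs : (z.natAbs : ℝ) = ‖X‖ ^ 2 := by
    rw [← norm_pow, hz, Complex.norm_intCast, ← Int.cast_abs, Int.abs_eq_natAbs, Int.cast_natCast]
  have hz1 : (1 : ℝ) ≤ z.natAbs := by
    have : 1 ≤ z.natAbs := Nat.one_le_iff_ne_zero.mpr (Int.natAbs_ne_zero.mpr hz0)
    exact_mod_cast this
  have hkey : ∀ i : Fin k, (z : ℂ) * c i = ((S : ℂ) ^ k * (Nm i).det) * X := by
    intro i
    rw [← hz, ← hcr i, hX]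
    ring
  have hpcf : (E + L ^ 2) + (E + L ^ 2) ≤ pcf L := by
    rw [pcf, hE]
    have e : 20 * (L + 1) ^ 4 = (L ^ 4 + 3 * L ^ 3 + 2 * L ^ 2 + L ^ 2 +
        (L ^ 4 + 3 * L ^ 3 + 2 * L ^ 2 + L ^ 2)) + (18 * L ^ 4 + 74 * L ^ 3 + 114 * L ^ 2 + 80 * L + 20) := by
      ring
    omega
  refine ⟨?_, z.natAbs, Int.natAbs_pos.mpr hz0, ?_, ?_⟩
  · intro i hi
    have h1 := congrArg norm (hkey ⟨i, hi⟩)
    rw [norm_mul, norm_mul _ X] at h1
    have h2 : ‖(z : ℂ)‖ = (z.natAbs : ℝ) := by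
      rw [Complex.norm_intCast, ← Int.cast_abs, Int.abs_eq_natAbs, Int.cast_natCast]
    rw [h2] at h1
    have h3 : ‖c i‖ ≤ (z.natAbs : ℝ) * ‖c i‖ := le_mul_of_one_le_left (norm_nonneg _) hz1
    refine h3.trans (h1.le.trans ?_)
    calc ‖(S : ℂ) ^ k * (Nm ⟨i, hi⟩).det‖ * ‖X‖ ≤ 2 ^ (E + L ^ 2) * 2 ^ (E + L ^ 2) :=
          mul_le_mul (hsize _ (hNb _)) (hsize _ hMb) (norm_nonneg _) (by positivity)
      _ = 2 ^ ((E + L ^ 2) + (E + L ^ 2)) := by rw [← pow_add]
      _ ≤ 2 ^ pcf L := pow_le_pow_right₀ (by norm_num) hpcf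
  · have h1 : (z.natAbs : ℝ) ≤ 2 ^ pcf L := by
      rw [hzabs, sq]
      calc ‖X‖ * ‖X‖ ≤ 2 ^ (E + L ^ 2) * 2 ^ (E + L ^ 2) :=
            mul_le_mul (hsize _ hMb) (hsize _ hMb) (norm_nonneg _) (by positivity)
        _ = 2 ^ ((E + L ^ 2) + (E + L ^ 2)) := by rw [← pow_add]
        _ ≤ 2 ^ pcf L := pow_le_pow_right₀ (by norm_num) hpcf
    exact_mod_cast h1
  · intro i hi
    have h1 : IsIntegral ℤ ((z : ℂ) * c i) := by
      have := hkey ⟨i, hi⟩
      simp only at this
      rw [this]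
      exact (scaled_det_integral k S _ (hNint _)).mul hXint
    rcases Int.natAbs_eq z with h | h
    · have e : ((z.natAbs : ℕ) : ℂ) = (z : ℂ) := by
        conv_rhs => rw [h]
        rw [Int.cast_natCast]
      rw [e]
      exact h1
    · have e : ((z.natAbs : ℕ) : ℂ) = -(z : ℂ) := by
        conv_rhs => rw [h]
        rw [Int.cast_neg, Int.cast_natCast, neg_neg]
      rw [e, neg_mul]
      exact h1.neg

end

end Pool.Agent.MX
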