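import Pool.Agent.MX.House

/-! P4. The polynomial system for the minimum of a linear form on a torsion coset of a torus. -/

set_option autoImplicit false

namespace Pool.Agent.MX

open Pool.Agent.RElim Complex

/-- the point with real and imaginary parts given by `v` -/
noncomputable def ptx {p : ℕ} (v : Option (Fin p ⊕ Fin p) → ℝ) (i : Fin p) : ℂ :=
  (v (some (Sum.inl i)) : ℂ) + (v (some (Sum.inr i)) : ℂ) * I

section sys

variable {F : IntermediateField ℚ ℂ}

/-- twice the real part -/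
private noncomputable def sysRe (hconj : ∀ z ∈ F, (starRingEnd ℂ) z ∈ F) (z : F)
    (hz : IsIntegral ℤ (z : ℂ)) : RA F :=
  ⟨2 * (z : ℂ).re, by
    have h : ((2 * (z : ℂ).re : ℝ) : ℂ) = (z : ℂ) + (starRingEnd ℂ) (z : ℂ) := by
      rw [Complex.add_conj]
    refine ⟨?_, ?_⟩
    · rw [h]
      exact F.add_mem z.2 (hconj _ z.2)
    · rw [h]
      exact hz.add (hz.map ((starRingEnd ℂ).toIntAlgHom))⟩

/-- twice the imaginary part -/
private noncomputable def sysIm (hconj : ∀ z ∈ F, (starRingEnd ℂ) z ∈ F) (hI : I ∈ F) (z : F)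
    (hz : IsIntegral ℤ (z : ℂ)) : RA F :=
  ⟨2 * (z : ℂ).im, by
    have h : ((2 * (z : ℂ).im : ℝ) : ℂ) = -I * ((z : ℂ) - (starRingEnd ℂ) (z : ℂ)) := by
      rw [Complex.sub_conj]
      have h2 := Complex.I_mul_I
      push_cast
      linear_combination (2 * ((z : ℂ).im : ℂ)) * h2
    have hII : IsIntegral ℤ I := by
      refine ⟨Polynomial.X ^ 2 + 1, ?_, ?_⟩
      · monicity!
      · simp
    refine ⟨?_, ?_⟩
    · rw [h]
      exact F.mul_mem (F.neg_mem hI) (F.sub_mem z.2 (hconj _ z.2))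
    · rw [h]
      exact hII.neg.mul (hz.sub (hz.map ((starRingEnd ℂ).toIntAlgHom)))⟩

/-- complex conjugation on `F` -/
private noncomputable def sysConj (hconj : ∀ z ∈ F, (starRingEnd ℂ) z ∈ F) : F →ₐ[ℚ] F :=
  RingHom.toRatAlgHom
    { toFun := fun x => ⟨(starRingEnd ℂ) x, hconj _ x.2⟩
      map_one' := by ext; simp
      map_mul' := fun x y => by ext; simp
      map_zero' := by ext; simp
      map_add' := fun x y => by ext; simp }

private theorem sysConj_coe (hconj : ∀ z ∈ F, (starRingEnd ℂ) z ∈ F) (x : F) :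
    ((sysConj hconj x : F) : ℂ) = (starRingEnd ℂ) (x : ℂ) := rfl

variable [FiniteDimensional ℚ F]

private theorem NR_sysRe (hconj : ∀ z ∈ F, (starRingEnd ℂ) z ∈ F) (z : F)
    (hz : IsIntegral ℤ (z : ℂ)) (b : ℕ) (hb : ∀ φ : F →ₐ[ℚ] ℂ, ‖φ z‖ ≤ b) :
    NR F (sysRe hconj z hz) ≤ 2 * b := by
  apply NR_le
  intro φ
  have h : toF (sysRe hconj z hz) = z + sysConj hconj z := by
    apply Subtype.ext
    show ((2 * (z : ℂ).re : ℝ) : ℂ) = (z : ℂ) + (starRingEnd ℂ) (z : ℂ)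
    rw [Complex.add_conj]
  rw [h, map_add]
  have h1 := hb φ
  have h2 := hb (φ.comp (sysConj hconj))
  rw [AlgHom.comp_apply] at h2
  refine (norm_add_le _ _).trans ?_
  push_cast
  linarith

private theorem NR_sysIm (hconj : ∀ z ∈ F, (starRingEnd ℂ) z ∈ F) (hI : I ∈ F) (z : F)
    (hz : IsIntegral ℤ (z : ℂ)) (b : ℕ) (hb : ∀ φ : F →ₐ[ℚ] ℂ, ‖φ z‖ ≤ b) :
    NR F (sysIm hconj hI z hz) ≤ 2 * b := by
  apply NR_le
  intro φ
  have h : toF (sysIm hconj hI z hz) = -(⟨I, hI⟩ : F) * (z - sysConj hconj z) := by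
    apply Subtype.ext
    show ((2 * (z : ℂ).im : ℝ) : ℂ) = -I * ((z : ℂ) - (starRingEnd ℂ) (z : ℂ))
    rw [Complex.sub_conj]
    have h2 := Complex.I_mul_I
    push_cast
    linear_combination (2 * ((z : ℂ).im : ℂ)) * h2
  have hφI : ‖φ ⟨I, hI⟩‖ = 1 := by
    have h3 : (φ ⟨I, hI⟩) ^ 2 = -1 := by
      rw [← map_pow]
      have h4 : (⟨I, hI⟩ : F) ^ 2 = -1 := by
        apply Subtype.ext
        show I ^ 2 = -1
        exact Complex.I_sq
      rw [h4, map_neg, map_one]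
    have h5 : ‖φ ⟨I, hI⟩‖ ^ 2 = 1 := by
      rw [← norm_pow, h3, norm_neg, norm_one]
    nlinarith [norm_nonneg (φ ⟨I, hI⟩)]
  rw [h, map_mul, map_neg, map_sub, norm_mul, norm_neg, hφI, one_mul]
  have h1 := hb φ
  have h2 := hb (φ.comp (sysConj hconj))
  rw [AlgHom.comp_apply] at h2
  refine (norm_sub_le _ _).trans ?_
  push_cast
  linarith

end sys

section crep

variable {F : IntermediateField ℚ ℂ} {σ : Type}

open MvPolynomial

/-- complex polynomial functions with real and imaginary parts over `RA F` -/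
private def CRep (F : IntermediateField ℚ ℂ) (n W : ℕ) (f : (σ → ℝ) → ℂ) : Prop :=
  ∃ U V : MvPolynomial σ (RA F), U.totalDegree ≤ n ∧ V.totalDegree ≤ n ∧ mn (NR F) U ≤ W ∧
    mn (NR F) V ≤ W ∧ ∀ v, f v = ((U.eval₂ (RA F).subtype v : ℝ) : ℂ) +
      ((V.eval₂ (RA F).subtype v : ℝ) : ℂ) * I

private theorem CRep.mono {n n' W W' : ℕ} {f : (σ → ℝ) → ℂ} (h : CRep F n W f) (hn : n ≤ n')
    (hW : W ≤ W') : CRep F n' W' f := by
  obtain ⟨U, V, h1, h2, h3, h4, h5⟩ := h
  exact ⟨U, V, h1.trans hn, h2.trans hn, h3.trans hW, h4.trans hW, h5⟩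

variable [FiniteDimensional ℚ F]

private theorem mn_zero' : mn (NR F) (0 : MvPolynomial σ (RA F)) = 0 :=
  (isNrm_NR (F := F)).mn.zero

private theorem CRep.one : CRep F 0 1 (fun _ : σ → ℝ => 1) := by
  refine ⟨1, 0, ?_, ?_, (isNrm_NR (F := F)).mn.one, ?_, ?_⟩
  · simp
  · simp
  · rw [mn_zero']; exact Nat.zero_le _
  · intro v; simp

private theorem CRep.mul {n n' W W' : ℕ} {f g : (σ → ℝ) → ℂ} (h : CRep F n W f)
    (h' : CRep F n' W' g) : CRep F (n + n') (2 * W * W') (fun v => f v * g v) := by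
  obtain ⟨U, V, h1, h2, h3, h4, h5⟩ := h
  obtain ⟨U', V', h1', h2', h3', h4', h5'⟩ := h'
  have hN := (isNrm_NR (F := F)).mn (σ := σ)
  have hm : ∀ P Q : MvPolynomial σ (RA F), mn (NR F) P ≤ W → mn (NR F) Q ≤ W' →
      mn (NR F) (P * Q) ≤ W * W' := fun P Q hP hQ => (hN.mul P Q).trans (Nat.mul_le_mul hP hQ)
  have hd : ∀ P Q : MvPolynomial σ (RA F), P.totalDegree ≤ n → Q.totalDegree ≤ n' →
      (P * Q).totalDegree ≤ n + n' := fun P Q hP hQ =>
    (totalDegree_mul P Q).trans (Nat.add_le_add hP hQ)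
  refine ⟨U * U' - V * V', U * V' + V * U', ?_, ?_, ?_, ?_, ?_⟩
  · exact (totalDegree_sub _ _).trans (max_le (hd _ _ h1 h1') (hd _ _ h2 h2'))
  · exact (totalDegree_add _ _).trans (max_le (hd _ _ h1 h2') (hd _ _ h2 h1'))
  · rw [sub_eq_add_neg]
    refine (hN.add _ _).trans ?_
    have e1 := hm _ _ h3 h3'
    have e2 := (hN.neg (V * V')).trans (hm _ _ h4 h4')
    nlinarith
  · refine (hN.add _ _).trans ?_
    have e1 := hm _ _ h3 h4'
    have e2 := hm _ _ h4 h3'
    nlinarith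
  · intro v
    show f v * g v = _
    rw [h5 v, h5' v]
    simp only [eval₂_sub, eval₂_mul, eval₂_add]
    push_cast
    have h2 := Complex.I_mul_I
    linear_combination (((V.eval₂ (RA F).subtype v : ℝ) : ℂ) *
      ((V'.eval₂ (RA F).subtype v : ℝ) : ℂ)) * h2

private theorem CRep.sub {n W W' : ℕ} {f g : (σ → ℝ) → ℂ} (h : CRep F n W f)
    (h' : CRep F n W' g) : CRep F n (W + W') (fun v => f v - g v) := by
  obtain ⟨U, V, h1, h2, h3, h4, h5⟩ := h
  obtain ⟨U', V', h1', h2', h3', h4', h5'⟩ := h'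
  have hN := (isNrm_NR (F := F)).mn (σ := σ)
  refine ⟨U - U', V - V', ?_, ?_, ?_, ?_, ?_⟩
  · exact (totalDegree_sub _ _).trans (max_le h1 h1')
  · exact (totalDegree_sub _ _).trans (max_le h2 h2')
  · rw [sub_eq_add_neg]
    exact (hN.add _ _).trans (Nat.add_le_add h3 ((hN.neg _).trans h3'))
  · rw [sub_eq_add_neg]
    exact (hN.add _ _).trans (Nat.add_le_add h4 ((hN.neg _).trans h4'))
  · intro v
    show f v - g v = _
    rw [h5 v, h5' v]
    simp only [eval₂_sub]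
    push_cast
    ring

/-- twice a constant -/
private theorem CRep.const (hconj : ∀ z ∈ F, (starRingEnd ℂ) z ∈ F) (hI : I ∈ F) (z : F)
    (hz : IsIntegral ℤ (z : ℂ)) (b : ℕ) (hb : ∀ φ : F →ₐ[ℚ] ℂ, ‖φ z‖ ≤ b) :
    CRep F 0 (2 * b) (fun _ : σ → ℝ => 2 * (z : ℂ)) := by
  refine ⟨C (sysRe hconj z hz), C (sysIm hconj hI z hz), ?_, ?_, ?_, ?_, ?_⟩
  · rw [totalDegree_C]
  · rw [totalDegree_C]
  · exact (mn_C isNrm_NR _).trans (NR_sysRe hconj z hz b hb)
  · exact (mn_C isNrm_NR _).trans (NR_sysIm hconj hI z hz b hb)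
  · intro v
    rw [eval₂_C, eval₂_C]
    show 2 * (z : ℂ) = ((2 * (z : ℂ).re : ℝ) : ℂ) + ((2 * (z : ℂ).im : ℝ) : ℂ) * I
    conv_lhs => rw [← Complex.re_add_im (z : ℂ)]
    push_cast
    ring

/-- the square of the absolute value -/
private theorem CRep.normSq {n W : ℕ} {f : (σ → ℝ) → ℂ} (h : CRep F n W f) :
    ∃ P : MvPolynomial σ (RA F), P.totalDegree ≤ 2 * n ∧ mn (NR F) P ≤ 2 * W ^ 2 ∧
      ∀ v, P.eval₂ (RA F).subtype v = Complex.normSq (f v) := by
  obtain ⟨U, V, h1, h2, h3, h4, h5⟩ := h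
  have hN := (isNrm_NR (F := F)).mn (σ := σ)
  refine ⟨U * U + V * V, ?_, ?_, ?_⟩
  · refine (totalDegree_add _ _).trans (max_le ?_ ?_)
    · exact (totalDegree_mul _ _).trans (by omega)
    · exact (totalDegree_mul _ _).trans (by omega)
  · refine (hN.add _ _).trans ?_
    have e1 := (hN.mul U U).trans (Nat.mul_le_mul h3 h3)
    have e2 := (hN.mul V V).trans (Nat.mul_le_mul h4 h4)
    nlinarith
  · intro v
    rw [h5 v, Complex.normSq_apply]
    simp only [eval₂_add, eval₂_mul]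
    simp

variable {p : ℕ}

private theorem CRep.ptx (i : Fin p) :
    CRep F 1 1 (fun v : Option (Fin p ⊕ Fin p) → ℝ => MX.ptx v i) := by
  refine ⟨X (some (Sum.inl i)), X (some (Sum.inr i)), ?_, ?_, mn_X isNrm_NR _, mn_X isNrm_NR _, ?_⟩
  · exact (totalDegree_X _).le
  · exact (totalDegree_X _).le
  · intro v
    rw [eval₂_X, eval₂_X]
    rfl

private theorem CRep.ptx_pow (i : Fin p) (k : ℕ) :
    CRep F k (2 ^ k) (fun v : Option (Fin p ⊕ Fin p) → ℝ => MX.ptx v i ^ k) := by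
  induction k with
  | zero => simpa using CRep.one (F := F) (σ := Option (Fin p ⊕ Fin p))
  | succ k ih =>
    have h := ih.mul (CRep.ptx (F := F) i)
    refine CRep.mono ?_ (le_refl (k + 1)) (le_of_eq (by ring : 2 * 2 ^ k * 1 = 2 ^ (k + 1)))
    simpa only [pow_succ] using h

private theorem CRep.ptx_prod (k : Fin p → ℕ) (T : Finset (Fin p)) :
    CRep F (∑ i ∈ T, k i) (2 ^ (∑ i ∈ T, (k i + 1)))
      (fun v : Option (Fin p ⊕ Fin p) → ℝ => ∏ i ∈ T, MX.ptx v i ^ k i) := by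
  classical
  induction T using Finset.induction_on with
  | empty => simpa using CRep.one (F := F) (σ := Option (Fin p ⊕ Fin p))
  | insert a s ha ih =>
    simp only [Finset.sum_insert ha, Finset.prod_insert ha]
    refine CRep.mono ((CRep.ptx_pow (F := F) a (k a)).mul ih) le_rfl (le_of_eq ?_)
    rw [pow_add, pow_succ]
    ring

end crep

/-- a relation -/
private theorem rel_iff {p : ℕ} (x : Fin p → ℂ) (hx : ∀ i, x i ≠ 0) (g : Fin p → ℤ) (ζ : ℂ) :
    ∏ i, x i ^ g i = ζ ↔ ∏ i, x i ^ (g i).toNat = ζ * ∏ i, x i ^ (-g i).toNat := by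
  have h1 : ∀ i, x i ^ g i = x i ^ (g i).toNat / x i ^ (-g i).toNat := by
    intro i
    rw [eq_div_iff (pow_ne_zero _ (hx i)), ← zpow_natCast, ← zpow_natCast, ← zpow_add₀ (hx i)]
    congr 1
    omega
  have h2 : ∏ i, x i ^ (-g i).toNat ≠ 0 :=
    Finset.prod_ne_zero_iff.mpr fun i _ => pow_ne_zero _ (hx i)
  rw [Finset.prod_congr rfl fun i _ => h1 i, Finset.prod_div_distrib, div_eq_iff h2]

open MvPolynomial in
theorem exists_system (F : IntermediateField ℚ ℂ) [FiniteDimensional ℚ F]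
    (hconj : ∀ z ∈ F, (starRingEnd ℂ) z ∈ F) (hI : I ∈ F) (p B Hc D0 : ℕ) (hD0 : 0 < D0)
    (hD0' : D0 ≤ 2 ^ Hc) (c : Fin p → F) (hcI : ∀ i, IsIntegral ℤ ((D0 : ℂ) * (c i : ℂ)))
    (hcb : ∀ i, ∀ φ : F →ₐ[ℚ] ℂ, ‖φ (c i)‖ ≤ 2 ^ Hc) (S : Finset (Fin p → ℤ))
    (hS : ∀ g ∈ S, ∀ i, |g i| ≤ B) (ζ : (Fin p → ℤ) → F)
    (hζ : ∀ g ∈ S, ∃ n : ℕ, 0 < n ∧ ζ g ^ n = 1) :
    ∃ h : MvPolynomial (Option (Fin p ⊕ Fin p)) (RA F),
      (∀ b ∈ h.support, b.degree ≤ 4 * (p * B + 1)) ∧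
      mn (NR F) h ≤ 2 ^ (20 * (p + 1) * (B + 1) + 4 * Hc) ∧
      (∀ v : Option (Fin p ⊕ Fin p) → ℝ, 0 ≤ h.eval₂ (RA F).subtype v) ∧
      ∀ v : Option (Fin p ⊕ Fin p) → ℝ, h.eval₂ (RA F).subtype v = 0 ↔
        (∀ i, ‖ptx v i‖ = 1) ∧ (∀ g ∈ S, ∏ i, ptx v i ^ g i = (ζ g : ℂ)) ∧
        v none * (2 * D0 * (∑ i, (c i : ℂ) * ptx v i).re) = 1 := by
  classical
  have hN := (isNrm_NR (F := F)).mn (σ := Option (Fin p ⊕ Fin p))
  -- the circle conditions
  set Q : Fin p → MvPolynomial (Option (Fin p ⊕ Fin p)) (RA F) := fun i =>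
    X (some (Sum.inl i)) * X (some (Sum.inl i)) + X (some (Sum.inr i)) * X (some (Sum.inr i)) - 1
    with hQ
  have hQd : ∀ i, (Q i).totalDegree ≤ 2 := by
    intro i
    rw [hQ]
    refine (totalDegree_sub _ _).trans (max_le ((totalDegree_add _ _).trans (max_le ?_ ?_)) ?_)
    · refine (totalDegree_mul _ _).trans ?_
      rw [totalDegree_X]
    · refine (totalDegree_mul _ _).trans ?_
      rw [totalDegree_X]
    · rw [totalDegree_one]; omega
  have hQm : ∀ i, mn (NR F) (Q i) ≤ 3 := by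
    intro i
    have e1 : ∀ s : Option (Fin p ⊕ Fin p), mn (NR F) (X s * X s) ≤ 1 := fun s =>
      (hN.mul _ _).trans (Nat.mul_le_mul (mn_X isNrm_NR s) (mn_X isNrm_NR s))
    rw [hQ]
    show mn (NR F) (X (some (Sum.inl i)) * X (some (Sum.inl i)) +
      X (some (Sum.inr i)) * X (some (Sum.inr i)) - 1) ≤ 3
    rw [sub_eq_add_neg]
    have e2 := hN.add (X (some (Sum.inl i)) * X (some (Sum.inl i)) +
      X (some (Sum.inr i)) * X (some (Sum.inr i))) (-1)
    have e3 := hN.add (X (some (Sum.inl i)) * X (some (Sum.inl i)))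
      (X (some (Sum.inr i)) * X (some (Sum.inr i)))
    have e4 := (hN.neg 1).trans hN.one
    have e5 := e1 (some (Sum.inl i))
    have e6 := e1 (some (Sum.inr i))
    omega
  have hQe : ∀ i v, (Q i).eval₂ (RA F).subtype v = ‖ptx v i‖ ^ 2 - 1 := by
    intro i v
    have h1 : ‖ptx v i‖ ^ 2 = v (some (Sum.inl i)) ^ 2 + v (some (Sum.inr i)) ^ 2 := by
      rw [← Complex.normSq_eq_norm_sq, ptx, Complex.normSq_add_mul_I]
    rw [h1]
    rw [hQ]
    simp only [eval₂_sub, eval₂_add, eval₂_mul, eval₂_X, eval₂_one]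
    ring
  -- the linear form
  have hci : ∀ i, IsIntegral ℤ ((((D0 : F) * c i : F)) : ℂ) := by
    intro i
    have : ((((D0 : F) * c i : F)) : ℂ) = (D0 : ℂ) * (c i : ℂ) := by push_cast; rfl
    rw [this]
    exact hcI i
  have hcb' : ∀ i, ∀ φ : F →ₐ[ℚ] ℂ, ‖φ ((D0 : F) * c i)‖ ≤ ((4 ^ Hc : ℕ) : ℝ) := by
    intro i φ
    rw [map_mul, map_natCast, norm_mul, Complex.norm_natCast]
    have e1 : (D0 : ℝ) ≤ 2 ^ Hc := by exact_mod_cast hD0'
    have e2 := hcb i φ
    calc (D0 : ℝ) * ‖φ (c i)‖ ≤ 2 ^ Hc * 2 ^ Hc :=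
          mul_le_mul e1 e2 (norm_nonneg _) (by positivity)
      _ = ((4 ^ Hc : ℕ) : ℝ) := by
          push_cast
          rw [← mul_pow]
          norm_num
  set Lf : MvPolynomial (Option (Fin p ⊕ Fin p)) (RA F) := ∑ i,
    (C (sysRe hconj ((D0 : F) * c i) (hci i)) * X (some (Sum.inl i)) -
      C (sysIm hconj hI ((D0 : F) * c i) (hci i)) * X (some (Sum.inr i))) with hLf
  have hLd : Lf.totalDegree ≤ 1 := by
    rw [hLf]
    refine totalDegree_finsetSum_le fun i _ => (totalDegree_sub _ _).trans (max_le ?_ ?_)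
    · refine (totalDegree_mul _ _).trans ?_
      rw [totalDegree_C, totalDegree_X]
    · refine (totalDegree_mul _ _).trans ?_
      rw [totalDegree_C, totalDegree_X]
  have hLm : mn (NR F) Lf ≤ p * (4 * 4 ^ Hc) := by
    rw [hLf]
    refine (mn_sum isNrm_NR _ _).trans ?_
    refine (Finset.sum_le_card_nsmul _ _ (4 * 4 ^ Hc) fun i _ => ?_).trans ?_
    · rw [sub_eq_add_neg]
      refine (hN.add _ _).trans ?_
      have e1 := (hN.mul (C (sysRe hconj ((D0 : F) * c i) (hci i))) (X (some (Sum.inl i)))).trans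
        (Nat.mul_le_mul ((mn_C isNrm_NR _).trans (NR_sysRe hconj _ (hci i) _ (hcb' i)))
          (mn_X isNrm_NR _))
      have e2 := ((hN.neg _).trans (hN.mul (C (sysIm hconj hI ((D0 : F) * c i) (hci i)))
        (X (some (Sum.inr i))))).trans
        (Nat.mul_le_mul ((mn_C isNrm_NR _).trans (NR_sysIm hconj hI _ (hci i) _ (hcb' i)))
          (mn_X isNrm_NR _))
      omega
    · simp
  have hLe : ∀ v, Lf.eval₂ (RA F).subtype v = 2 * D0 * (∑ i, (c i : ℂ) * ptx v i).re := by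
    intro v
    rw [hLf, eval₂_sum, Complex.re_sum, Finset.mul_sum]
    refine Finset.sum_congr rfl fun i _ => ?_
    simp only [eval₂_sub, eval₂_mul, eval₂_C, eval₂_X]
    show 2 * (((D0 : F) * c i : F) : ℂ).re * v (some (Sum.inl i)) -
      2 * (((D0 : F) * c i : F) : ℂ).im * v (some (Sum.inr i)) = _
    have e1 : ((((D0 : F) * c i : F)) : ℂ) = (D0 : ℂ) * (c i : ℂ) := by push_cast; rfl
    rw [e1, ptx]
    simp
    ring
  set R : MvPolynomial (Option (Fin p ⊕ Fin p)) (RA F) := X none * Lf - 1 with hR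
  have hRd : R.totalDegree ≤ 2 := by
    rw [hR]
    refine (totalDegree_sub _ _).trans (max_le ?_ ?_)
    · refine (totalDegree_mul _ _).trans ?_
      rw [totalDegree_X]
      omega
    · rw [totalDegree_one]; omega
  have hRm : mn (NR F) R ≤ p * (4 * 4 ^ Hc) + 1 := by
    rw [hR, sub_eq_add_neg]
    refine (hN.add _ _).trans ?_
    have e1 := (hN.mul (X none) Lf).trans (Nat.mul_le_mul (mn_X isNrm_NR none) hLm)
    have e2 := (hN.neg 1).trans hN.one
    omega
  have hRe : ∀ v, R.eval₂ (RA F).subtype v =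
      v none * (2 * D0 * (∑ i, (c i : ℂ) * ptx v i).re) - 1 := by
    intro v
    rw [hR]
    simp only [eval₂_sub, eval₂_mul, eval₂_X, eval₂_one]
    rw [hLe]
  -- the relations
  have hrel : ∀ g ∈ S, ∃ P : MvPolynomial (Option (Fin p ⊕ Fin p)) (RA F),
      P.totalDegree ≤ 2 * (p * B) ∧ mn (NR F) P ≤ 2 * (8 * 2 ^ (p * (B + 1))) ^ 2 ∧
      ∀ v, P.eval₂ (RA F).subtype v = Complex.normSq (2 * ∏ i, ptx v i ^ (g i).toNat -
        2 * (ζ g : ℂ) * ∏ i, ptx v i ^ (-g i).toNat) := by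
    intro g hg
    obtain ⟨m, hm0, hm⟩ := hζ g hg
    have hζn : ∀ φ : F →ₐ[ℚ] ℂ, ‖φ (ζ g)‖ ≤ ((1 : ℕ) : ℝ) := by
      intro φ
      have e1 : φ (ζ g) ^ m = 1 := by rw [← map_pow, hm, map_one]
      have e2 : ‖φ (ζ g)‖ ^ m = 1 := by rw [← norm_pow, e1, norm_one]
      rw [(pow_eq_one_iff_of_nonneg (norm_nonneg _) hm0.ne').mp e2]
      simp
    have hζi : IsIntegral ℤ ((ζ g : F) : ℂ) := by
      refine IsIntegral.of_pow hm0 ?_
      have e1 : ((ζ g : F) : ℂ) ^ m = 1 := by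
        have := congrArg (fun x : F => (x : ℂ)) hm
        simpa using this
      rw [e1]
      exact isIntegral_one
    have h1n : ∀ φ : F →ₐ[ℚ] ℂ, ‖φ (1 : F)‖ ≤ ((1 : ℕ) : ℝ) := by
      intro φ
      simp
    have h1i : IsIntegral ℤ ((1 : F) : ℂ) := by
      simpa using (isIntegral_one (R := ℤ) (B := ℂ))
    have hsum : ∀ k : Fin p → ℕ, (∀ i, k i ≤ B) →
        CRep F (p * B) (2 ^ (p * (B + 1)))
          (fun v : Option (Fin p ⊕ Fin p) → ℝ => ∏ i, ptx v i ^ k i) := by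
      intro k hk
      refine (CRep.ptx_prod (F := F) k Finset.univ).mono ?_ ?_
      · refine (Finset.sum_le_card_nsmul _ _ B fun i _ => hk i).trans ?_
        simp
      · apply Nat.pow_le_pow_right (by norm_num)
        refine (Finset.sum_le_card_nsmul _ _ (B + 1) fun i _ => Nat.add_le_add_right (hk i) 1).trans
          ?_
        simp
    have hB := hS g hg
    have hp := hsum (fun i => (g i).toNat) (fun i => by
      have := hB i
      have := le_abs_self (g i)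
      omega)
    have hm' := hsum (fun i => (-g i).toNat) (fun i => by
      have := hB i
      have := neg_le_abs (g i)
      omega)
    have hone := CRep.const (F := F) (σ := Option (Fin p ⊕ Fin p)) hconj hI 1 h1i 1 h1n
    have hz := CRep.const (F := F) (σ := Option (Fin p ⊕ Fin p)) hconj hI (ζ g) hζi 1 hζn
    have hdiff := ((hone.mul hp).mono (Nat.zero_add (p * B)).le
      (le_refl _)).sub ((hz.mul hm').mono (Nat.zero_add (p * B)).le (le_refl _))
    obtain ⟨P, hP1, hP2, hP3⟩ := hdiff.normSq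
    refine ⟨P, hP1, ?_, ?_⟩
    · refine hP2.trans (le_of_eq ?_)
      ring
    · intro v
      rw [hP3 v]
      simp
  choose! P hPd hPm hPe using hrel
  set H : MvPolynomial (Option (Fin p ⊕ Fin p)) (RA F) :=
    (∑ i, Q i * Q i) + (∑ g ∈ S, P g) + R * R with hH
  have hHe : ∀ v, H.eval₂ (RA F).subtype v = (∑ i, (‖ptx v i‖ ^ 2 - 1) ^ 2) +
      (∑ g ∈ S, Complex.normSq (2 * ∏ i, ptx v i ^ (g i).toNat -
        2 * (ζ g : ℂ) * ∏ i, ptx v i ^ (-g i).toNat)) +
      (v none * (2 * D0 * (∑ i, (c i : ℂ) * ptx v i).re) - 1) ^ 2 := by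
    intro v
    rw [hH]
    simp only [eval₂_add, eval₂_mul, eval₂_sum]
    rw [hRe, Finset.sum_congr rfl fun g hg => hPe g hg v]
    simp only [hQe, ← sq]
  have hs1 : ∀ v : Option (Fin p ⊕ Fin p) → ℝ, 0 ≤ ∑ i, (‖ptx v i‖ ^ 2 - 1) ^ 2 :=
    fun v => Finset.sum_nonneg fun i _ => sq_nonneg _
  have hs2 : ∀ v : Option (Fin p ⊕ Fin p) → ℝ, 0 ≤ ∑ g ∈ S,
      Complex.normSq (2 * ∏ i, ptx v i ^ (g i).toNat -
        2 * (ζ g : ℂ) * ∏ i, ptx v i ^ (-g i).toNat) :=
    fun v => Finset.sum_nonneg fun g _ => Complex.normSq_nonneg _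
  refine ⟨H, ?_, ?_, ?_, ?_⟩
  · -- the degree
    have hd : H.totalDegree ≤ 4 * (p * B + 1) := by
      rw [hH]
      refine (totalDegree_add _ _).trans (max_le ((totalDegree_add _ _).trans (max_le ?_ ?_)) ?_)
      · refine totalDegree_finsetSum_le fun i _ => (totalDegree_mul _ _).trans ?_
        have := hQd i
        omega
      · refine totalDegree_finsetSum_le fun g hg => (hPd g hg).trans ?_
        omega
      · refine (totalDegree_mul _ _).trans ?_
        omega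
    intro b hb
    have h1 := (le_totalDegree hb).trans hd
    rwa [Finsupp.degree_apply]
  · -- the size
    have hcard : S.card ≤ 2 ^ (p * (B + 1)) := by
      have h1 : S ⊆ Fintype.piFinset fun _ : Fin p => Finset.Icc (-(B : ℤ)) B := by
        intro g hg
        rw [Fintype.mem_piFinset]
        intro i
        rw [Finset.mem_Icc]
        exact abs_le.mp (hS g hg i)
      refine (Finset.card_le_card h1).trans ?_
      rw [Fintype.card_piFinset]
      simp only [Int.card_Icc, Finset.prod_const, Finset.card_univ, Fintype.card_fin]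
      have h2 : ((B : ℤ) + 1 - -(B : ℤ)).toNat = 2 * B + 1 := by omega
      rw [h2, mul_comm p, pow_mul]
      apply Nat.pow_le_pow_left
      have h3 : ∀ n : ℕ, 2 * n + 1 ≤ 2 ^ (n + 1) := by
        intro n
        induction n with
        | zero => norm_num
        | succ n ih => rw [pow_succ]; omega
      exact h3 B
    have e1 : mn (NR F) (∑ i, Q i * Q i) ≤ p * 9 := by
      refine (mn_sum isNrm_NR _ _).trans ?_
      refine (Finset.sum_le_card_nsmul _ _ 9 fun i _ => ?_).trans ?_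
      · exact (hN.mul _ _).trans (Nat.mul_le_mul (hQm i) (hQm i))
      · simp
    have e2 : mn (NR F) (∑ g ∈ S, P g) ≤ 2 ^ (7 + 3 * (p * (B + 1))) := by
      refine (mn_sum isNrm_NR _ _).trans ?_
      refine (Finset.sum_le_card_nsmul _ _ _ fun g hg => hPm g hg).trans ?_
      rw [smul_eq_mul]
      refine (Nat.mul_le_mul_right _ hcard).trans (le_of_eq ?_)
      rw [pow_add, show 3 * (p * (B + 1)) = p * (B + 1) + (p * (B + 1) + p * (B + 1)) by ring,
        pow_add, pow_add]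
      ring
    have e3 : mn (NR F) (R * R) ≤ (p * (4 * 4 ^ Hc) + 1) * (p * (4 * 4 ^ Hc) + 1) :=
      (hN.mul _ _).trans (Nat.mul_le_mul hRm hRm)
    have e4 : mn (NR F) H ≤ p * 9 + 2 ^ (7 + 3 * (p * (B + 1))) +
        (p * (4 * 4 ^ Hc) + 1) * (p * (4 * 4 ^ Hc) + 1) := by
      rw [hH]
      exact (hN.add _ _).trans (Nat.add_le_add ((hN.add _ _).trans (Nat.add_le_add e1 e2)) e3)
    refine e4.trans ?_
    set E : ℕ := (p + 1) * (B + 1) with hE
    have hEp : p + 1 ≤ E := by rw [hE]; nlinarith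
    have hEpB : p * (B + 1) ≤ E := by rw [hE]; nlinarith
    have hE1 : 1 ≤ E := by omega
    have h2p : ∀ n : ℕ, n + 1 ≤ 2 ^ n := by
      intro n
      induction n with
      | zero => norm_num
      | succ n ih => rw [pow_succ]; omega
    have hgoal : 20 * (p + 1) * (B + 1) + 4 * Hc = 20 * E + 4 * Hc := by rw [hE]; ring
    rw [hgoal]
    have f1 : p * 9 ≤ 2 ^ (18 * E + 4 * Hc) := by
      have : p * 9 ≤ 2 ^ 4 * 2 ^ E := by
        have h1 : p + 1 ≤ 2 ^ E := (h2p p).trans (Nat.pow_le_pow_right (by norm_num) (by omega))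
        omega
      refine this.trans ?_
      rw [← pow_add]
      exact Nat.pow_le_pow_right (by norm_num) (by omega)
    have f2 : 2 ^ (7 + 3 * (p * (B + 1))) ≤ 2 ^ (18 * E + 4 * Hc) :=
      Nat.pow_le_pow_right (by norm_num) (by omega)
    have f3 : (p * (4 * 4 ^ Hc) + 1) * (p * (4 * 4 ^ Hc) + 1) ≤ 2 ^ (18 * E + 4 * Hc) := by
      have h4 : 1 ≤ 4 ^ Hc := Nat.one_le_pow _ _ (by norm_num)
      have h1 : p * (4 * 4 ^ Hc) + 1 ≤ 4 * (p + 1) * 4 ^ Hc := by nlinarith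
      have h5 : 4 * (p + 1) * 4 ^ Hc ≤ 2 ^ (2 + E + 2 * Hc) := by
        have h6 : p + 1 ≤ 2 ^ E := (h2p p).trans (Nat.pow_le_pow_right (by norm_num) (by omega))
        have h7 : (4 : ℕ) ^ Hc = 2 ^ (2 * Hc) := by rw [pow_mul]; norm_num
        rw [pow_add, pow_add, h7]
        exact Nat.mul_le_mul_right _ (Nat.mul_le_mul_left _ h6)
      refine (Nat.mul_le_mul (h1.trans h5) (h1.trans h5)).trans ?_
      rw [← pow_add]
      exact Nat.pow_le_pow_right (by norm_num) (by omega)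
    have f4 : 2 ^ (20 * E + 4 * Hc) = 2 ^ (2 * E) * 2 ^ (18 * E + 4 * Hc) := by
      rw [← pow_add]
      congr 1
      ring
    have f5 : 4 ≤ 2 ^ (2 * E) := by
      have : 2 ^ 2 ≤ 2 ^ (2 * E) := Nat.pow_le_pow_right (by norm_num) (by omega)
      omega
    rw [f4]
    have f6 := Nat.mul_le_mul_right (2 ^ (18 * E + 4 * Hc)) f5
    omega
  · intro v
    rw [hHe]
    have := hs1 v
    have := hs2 v
    positivity
  · intro v
    rw [hHe]
    have hz1 : (∑ i, (‖ptx v i‖ ^ 2 - 1) ^ 2) = 0 ↔ ∀ i, ‖ptx v i‖ = 1 := by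
      rw [Finset.sum_eq_zero_iff_of_nonneg fun i _ => sq_nonneg _]
      constructor
      · intro h i
        have h1 := h i (Finset.mem_univ i)
        have h2 : ‖ptx v i‖ ^ 2 - 1 = 0 := by
          exact pow_eq_zero_iff (two_ne_zero) |>.mp h1
        have h3 : ‖ptx v i‖ ^ 2 = 1 := by linarith
        exact (pow_eq_one_iff_of_nonneg (norm_nonneg _) two_ne_zero).mp h3
      · intro h i _
        rw [h i]
        norm_num
    have hz2 : (∀ i, ‖ptx v i‖ = 1) → ((∑ g ∈ S, Complex.normSq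
        (2 * ∏ i, ptx v i ^ (g i).toNat - 2 * (ζ g : ℂ) * ∏ i, ptx v i ^ (-g i).toNat)) = 0 ↔
        ∀ g ∈ S, ∏ i, ptx v i ^ g i = (ζ g : ℂ)) := by
      intro hn
      have hne : ∀ i, ptx v i ≠ 0 := fun i h0 => by
        have := hn i
        rw [h0, norm_zero] at this
        exact zero_ne_one this
      rw [Finset.sum_eq_zero_iff_of_nonneg fun g _ => Complex.normSq_nonneg _]
      refine forall₂_congr fun g _ => ?_
      rw [rel_iff _ hne, Complex.normSq_eq_zero, mul_assoc, ← mul_sub, mul_eq_zero]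
      constructor
      · rintro (h | h)
        · exact absurd h two_ne_zero
        · exact sub_eq_zero.mp h
      · intro h
        exact Or.inr (sub_eq_zero.mpr h)
    constructor
    · intro h
      have h1 := hs1 v
      have h2 := hs2 v
      have h3 : 0 ≤ (v none * (2 * D0 * (∑ i, (c i : ℂ) * ptx v i).re) - 1) ^ 2 := sq_nonneg _
      have g1 : ∑ i, (‖ptx v i‖ ^ 2 - 1) ^ 2 = 0 := by linarith
      have g2 : (∑ g ∈ S, Complex.normSq
        (2 * ∏ i, ptx v i ^ (g i).toNat - 2 * (ζ g : ℂ) * ∏ i, ptx v i ^ (-g i).toNat)) = 0 := by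
        linarith
      have g3 : (v none * (2 * D0 * (∑ i, (c i : ℂ) * ptx v i).re) - 1) ^ 2 = 0 := by linarith
      have k1 := hz1.mp g1
      refine ⟨k1, (hz2 k1).mp g2, ?_⟩
      have k3 := pow_eq_zero_iff (two_ne_zero) |>.mp g3
      linarith
    · rintro ⟨k1, k2, k3⟩
      rw [hz1.mpr k1, (hz2 k1).mpr k2, k3]
      norm_num

end Pool.Agent.MX
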