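import Pool.Agent.MX.ElimD
import Pool.Agent.MX.Sys

/-! P5. A lower bound for the minimum of a linear form on a torsion coset of a torus. -/

set_option autoImplicit false

namespace Pool.Agent.MX

open Pool.Agent.RElim Complex

theorem BdD_le (D n a E : ℕ) (ha : a ≤ 2 ^ E) :
    BdD D n a ≤ 2 ^ ((D + 1) ^ n * (D + 1) ^ n +
      ((D + E + 1) * (D * n + 1) + 1) * (D + 1) ^ n) := by
  unfold BdD
  set N := (D + 1) ^ n with hN
  have h1 : N.factorial ≤ 2 ^ (N * N) := by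
    calc N.factorial ≤ N ^ N := Nat.factorial_le_pow N
      _ ≤ (2 ^ N) ^ N := Nat.pow_le_pow_left Nat.lt_two_pow_self.le _
      _ = 2 ^ (N * N) := by rw [← pow_mul]
  have h2 : 1 + D * a ≤ 2 ^ (D + E + 1) := by
    have h3 : D * a ≤ 2 ^ D * 2 ^ E := Nat.mul_le_mul Nat.lt_two_pow_self.le ha
    have h4 : 1 ≤ 2 ^ D * 2 ^ E := Nat.one_le_iff_ne_zero.mpr (by positivity)
    calc 1 + D * a ≤ 2 ^ D * 2 ^ E + 2 ^ D * 2 ^ E := add_le_add h4 h3
      _ = 2 ^ (D + E + 1) := by rw [pow_add, pow_add]; ring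
  have h3 : 1 + (1 + D * a) ^ (D * n + 1) ≤ 2 ^ ((D + E + 1) * (D * n + 1) + 1) := by
    have h4 : (1 + D * a) ^ (D * n + 1) ≤ 2 ^ ((D + E + 1) * (D * n + 1)) := by
      rw [pow_mul]
      exact Nat.pow_le_pow_left h2 _
    have h5 : 1 ≤ 2 ^ ((D + E + 1) * (D * n + 1)) := Nat.one_le_two_pow
    calc 1 + (1 + D * a) ^ (D * n + 1)
        ≤ 2 ^ ((D + E + 1) * (D * n + 1)) + 2 ^ ((D + E + 1) * (D * n + 1)) := add_le_add h5 h4
      _ = 2 ^ ((D + E + 1) * (D * n + 1) + 1) := by rw [pow_succ]; ring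
  calc N.factorial * (1 + (1 + D * a) ^ (D * n + 1)) ^ N
      ≤ 2 ^ (N * N) * (2 ^ ((D + E + 1) * (D * n + 1) + 1)) ^ N :=
        Nat.mul_le_mul h1 (Nat.pow_le_pow_left h3 _)
    _ = 2 ^ (N * N + ((D + E + 1) * (D * n + 1) + 1) * N) := by
        rw [← pow_mul, ← pow_add]

theorem total_le (D n N E Hc Dg Z : ℕ) (hZ : 2 ≤ Z) (hD : D + 1 ≤ Z) (hn : n ≤ Z) (hN : N ≤ Z)
    (hE : E ≤ Z) (hH : Hc + 1 ≤ Z) (hDg : Dg ≤ Z) :
    Hc + 1 + (N * N + ((D + E + 1) * (D * n + 1) + 1) * N) * Dg ≤ Z ^ 8 := by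
  have h1 : D * n + 1 ≤ Z * Z := by
    have : D * n ≤ D * Z := Nat.mul_le_mul_left _ hn
    nlinarith
  have h2 : (D + E + 1) * (D * n + 1) + 1 ≤ 3 * Z ^ 3 := by
    have h3 : (D + E + 1) * (D * n + 1) ≤ (2 * Z) * (Z * Z) := Nat.mul_le_mul (by omega) h1
    have h4 : 1 ≤ Z ^ 3 := Nat.one_le_iff_ne_zero.mpr (by positivity)
    nlinarith
  have h3 : N * N + ((D + E + 1) * (D * n + 1) + 1) * N ≤ 4 * Z ^ 4 := by
    have h4 : N * N ≤ Z ^ 4 := by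
      calc N * N ≤ Z * Z := Nat.mul_le_mul hN hN
        _ = Z ^ 2 := by ring
        _ ≤ Z ^ 4 := Nat.pow_le_pow_right (by omega) (by norm_num)
    have h5 : ((D + E + 1) * (D * n + 1) + 1) * N ≤ 3 * Z ^ 3 * Z := Nat.mul_le_mul h2 hN
    nlinarith
  have h6 : (N * N + ((D + E + 1) * (D * n + 1) + 1) * N) * Dg ≤ 4 * Z ^ 4 * Z :=
    Nat.mul_le_mul h3 hDg
  have h7 : Z ≤ Z ^ 5 := Nat.le_self_pow (by norm_num) Z
  have h8 : 5 ≤ Z ^ 3 := by
    calc 5 ≤ 2 ^ 3 := by norm_num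
      _ ≤ Z ^ 3 := Nat.pow_le_pow_left hZ _
  calc Hc + 1 + (N * N + ((D + E + 1) * (D * n + 1) + 1) * N) * Dg ≤ Z + 4 * Z ^ 4 * Z :=
        add_le_add hH h6
    _ ≤ 5 * Z ^ 5 := by nlinarith
    _ ≤ Z ^ 3 * Z ^ 5 := Nat.mul_le_mul_right _ h8
    _ = Z ^ 8 := by rw [← pow_add]

theorem final_exp (s : ℕ) : ∃ C : ℕ, ∀ p B Dg Hc a : ℕ, p ≤ s →
    a ≤ 2 ^ (20 * (p + 1) * (B + 1) + 4 * Hc) →
    2 ^ (Hc + 1) * BdD (4 * (p * B + 1)) (2 * p + 1) a ^ Dg ≤ 2 ^ ((2 + B + Dg + Hc) ^ C) := by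
  refine ⟨((s + 4) * (2 * s + 1) + s + 8) * 8, ?_⟩
  intro p B Dg Hc a hp ha
  set M := 2 + B + Dg + Hc with hM
  set K := (s + 4) * (2 * s + 1) + s + 8 with hK
  set D := 4 * (p * B + 1) with hD
  set n := 2 * p + 1 with hn
  set E := 20 * (p + 1) * (B + 1) + 4 * Hc with hE
  have hM2 : 2 ≤ M := by omega
  have hpow : ∀ i j : ℕ, i ≤ j → M ^ i ≤ M ^ j := fun i j h => Nat.pow_le_pow_right (by omega) h
  have hs2 : s + 1 ≤ M ^ s := by
    calc s + 1 ≤ 2 ^ s := Nat.lt_two_pow_self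
      _ ≤ M ^ s := Nat.pow_le_pow_left hM2 _
  have hZ : 2 ≤ M ^ K := by
    calc 2 ≤ M := hM2
      _ ≤ M ^ K := Nat.le_self_pow (by omega) M
  have hD1 : D + 1 ≤ M ^ (s + 4) := by
    have h1 : p * B ≤ s * M := Nat.mul_le_mul hp (by omega)
    have h2 : D + 1 ≤ 8 * ((s + 1) * M) := by
      rw [hD]
      nlinarith
    calc D + 1 ≤ 8 * ((s + 1) * M) := h2
      _ ≤ M ^ 3 * (M ^ s * M) := by
          refine Nat.mul_le_mul ?_ (Nat.mul_le_mul_right _ hs2)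
          calc 8 = 2 ^ 3 := by norm_num
            _ ≤ M ^ 3 := Nat.pow_le_pow_left hM2 _
      _ = M ^ (s + 4) := by ring
  have hn1 : n ≤ 2 * s + 1 := by omega
  have hN1 : (D + 1) ^ n ≤ M ^ ((s + 4) * (2 * s + 1)) := by
    calc (D + 1) ^ n ≤ (D + 1) ^ (2 * s + 1) := Nat.pow_le_pow_right (by omega) hn1
      _ ≤ (M ^ (s + 4)) ^ (2 * s + 1) := Nat.pow_le_pow_left hD1 _
      _ = M ^ ((s + 4) * (2 * s + 1)) := by rw [← pow_mul]
  have hE1 : E ≤ M ^ (s + 8) := by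
    have h1 : (p + 1) * (B + 1) ≤ (s + 1) * M := Nat.mul_le_mul (by omega) (by omega)
    have h2 : Hc ≤ (s + 1) * M := by
      calc Hc ≤ M := by omega
        _ ≤ (s + 1) * M := Nat.le_mul_of_pos_left _ (by omega)
    have h3 : E ≤ 32 * ((s + 1) * M) := by
      rw [hE]
      nlinarith
    calc E ≤ 32 * ((s + 1) * M) := h3
      _ ≤ M ^ 5 * (M ^ s * M) := by
          refine Nat.mul_le_mul ?_ (Nat.mul_le_mul_right _ hs2)
          calc 32 = 2 ^ 5 := by norm_num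
            _ ≤ M ^ 5 := Nat.pow_le_pow_left hM2 _
      _ = M ^ (s + 6) := by ring
      _ ≤ M ^ (s + 8) := hpow _ _ (by omega)
  have hMK : M ≤ M ^ K := Nat.le_self_pow (by omega) M
  have hnK : n ≤ M ^ K := by
    calc n ≤ 2 * (s + 1) := by omega
      _ ≤ M * M ^ s := Nat.mul_le_mul hM2 hs2
      _ = M ^ (s + 1) := by ring
      _ ≤ M ^ K := hpow _ _ (by omega)
  have key := total_le D n ((D + 1) ^ n) E Hc Dg (M ^ K) hZ (hD1.trans (hpow _ _ (by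
    have : s + 4 ≤ (s + 4) * (2 * s + 1) := Nat.le_mul_of_pos_right _ (by omega)
    omega))) hnK (hN1.trans (hpow _ _ (by omega))) (hE1.trans (hpow _ _ (by omega)))
    ((by omega : Hc + 1 ≤ M).trans hMK) ((by omega : Dg ≤ M).trans hMK)
  calc 2 ^ (Hc + 1) * BdD D n a ^ Dg
      ≤ 2 ^ (Hc + 1) * (2 ^ ((D + 1) ^ n * (D + 1) ^ n +
          ((D + E + 1) * (D * n + 1) + 1) * (D + 1) ^ n)) ^ Dg :=
        Nat.mul_le_mul_left _ (Nat.pow_le_pow_left (BdD_le D n a E ha) _)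
    _ = 2 ^ (Hc + 1 + ((D + 1) ^ n * (D + 1) ^ n +
          ((D + E + 1) * (D * n + 1) + 1) * (D + 1) ^ n) * Dg) := by
        rw [← pow_mul, ← pow_add]
    _ ≤ 2 ^ ((M ^ K) ^ 8) := Nat.pow_le_pow_right (by norm_num) key
    _ = 2 ^ (M ^ (K * 8)) := by rw [← pow_mul]

/-- On the (compact) coset a positive linear form is bounded from below. -/
theorem exists_min (p : ℕ) (c : Fin p → ℂ) (S : Set (Fin p → ℤ)) (ζ : (Fin p → ℤ) → ℂ)
    (hpos : ∀ x : Fin p → ℂ, (∀ i, ‖x i‖ = 1) → (∀ g ∈ S, ∏ i, x i ^ g i = ζ g) →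
      0 < (∑ i, c i * x i).re) :
    ∃ m : ℝ, 0 < m ∧ ∀ x : Fin p → ℂ, (∀ i, ‖x i‖ = 1) →
      (∀ g ∈ S, ∏ i, x i ^ g i = ζ g) → m ≤ (∑ i, c i * x i).re := by
  classical
  set K : Set (Fin p → Circle) := {y | ∀ g ∈ S, ∏ i, ((y i : Circle) : ℂ) ^ g i = ζ g} with hK
  have hKc : IsClosed K := by
    rw [hK, Set.ofPred_forall]
    refine isClosed_iInter fun g => ?_
    rw [Set.ofPred_forall]
    refine isClosed_iInter fun _ => ?_
    refine isClosed_eq ?_ continuous_const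
    refine continuous_finsetProd _ fun i _ => ?_
    refine Continuous.zpow₀ ?_ _ ?_
    · exact continuous_subtype_val.comp (continuous_apply i)
    · intro y
      exact Or.inl (Circle.coe_ne_zero _)
  have hKcomp : IsCompact K := hKc.isCompact
  have hf : Continuous fun y : Fin p → Circle => (∑ i, c i * ((y i : Circle) : ℂ)).re := by
    refine Complex.continuous_re.comp ?_
    refine continuous_finsetSum _ fun i _ => ?_
    exact continuous_const.mul (continuous_subtype_val.comp (continuous_apply i))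
  have hlift : ∀ x : Fin p → ℂ, (∀ i, ‖x i‖ = 1) →
      ∃ y : Fin p → Circle, ∀ i, ((y i : Circle) : ℂ) = x i := by
    intro x hx
    exact ⟨fun i => ⟨x i, by simp [Submonoid.unitSphere, hx i]⟩, fun i => rfl⟩
  rcases K.eq_empty_or_nonempty with he | hne
  · refine ⟨1, one_pos, ?_⟩
    intro x hx hx2
    obtain ⟨y, hy⟩ := hlift x hx
    exfalso
    have : y ∈ K := by
      intro g hg
      simp only [hy]
      exact hx2 g hg
    rw [he] at this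
    exact this
  · obtain ⟨y₀, hy₀, hmin⟩ := hKcomp.exists_isMinOn hne hf.continuousOn
    refine ⟨(∑ i, c i * ((y₀ i : Circle) : ℂ)).re, ?_, ?_⟩
    · exact hpos (fun i => ((y₀ i : Circle) : ℂ)) (fun i => Circle.norm_coe _) hy₀
    · intro x hx hx2
      obtain ⟨y, hy⟩ := hlift x hx
      have hyK : y ∈ K := by
        intro g hg
        simp only [hy]
        exact hx2 g hg
      have := hmin hyK
      simp only [Set.mem_ofPred_eq, hy] at this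
      exact this

/-- **Lower bound for the minimum.** -/
theorem elim_min (s : ℕ) : ∃ C : ℕ, ∀ (F : IntermediateField ℚ ℂ) [FiniteDimensional ℚ F]
    (_ : ∀ z ∈ F, (starRingEnd ℂ) z ∈ F) (_ : I ∈ F) (p B Dg Hc D0 : ℕ) (_ : p ≤ s)
    (_ : Module.finrank ℚ F ≤ Dg) (_ : 0 < D0) (_ : D0 ≤ 2 ^ Hc) (c : Fin p → F)
    (_ : ∀ i, IsIntegral ℤ ((D0 : ℂ) * (c i : ℂ)))
    (_ : ∀ i, ∀ φ : F →ₐ[ℚ] ℂ, ‖φ (c i)‖ ≤ 2 ^ Hc) (S : Set (Fin p → ℤ))
    (_ : ∀ g ∈ S, ∀ i, |g i| ≤ B) (ζ : (Fin p → ℤ) → F)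
    (_ : ∀ g ∈ S, ∃ n : ℕ, 0 < n ∧ ζ g ^ n = 1)
    (_ : ∀ x : Fin p → ℂ, (∀ i, ‖x i‖ = 1) → (∀ g ∈ S, ∏ i, x i ^ g i = (ζ g : ℂ)) →
      0 < (∑ i, (c i : ℂ) * x i).re),
    ∀ x : Fin p → ℂ, (∀ i, ‖x i‖ = 1) → (∀ g ∈ S, ∏ i, x i ^ g i = (ζ g : ℂ)) →
      1 / 2 ^ ((2 + B + Dg + Hc) ^ C) ≤ (∑ i, (c i : ℂ) * x i).re := by
  classical
  obtain ⟨C, hC⟩ := final_exp s
  refine ⟨C, ?_⟩
  intro F _ hconj hI p B Dg Hc D0 hp hDg hD0 hD0' c hcI hcb S hS ζ hζ hpos x hx hx2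
  have hfin : S.Finite := by
    refine (Set.finite_Icc (fun _ : Fin p => -(B : ℤ)) (fun _ => (B : ℤ))).subset ?_
    intro g hg
    rw [Set.mem_Icc, Pi.le_def, Pi.le_def]
    exact ⟨fun i => (abs_le.mp (hS g hg i)).1, fun i => (abs_le.mp (hS g hg i)).2⟩
  obtain ⟨h, hdeg, hmn, hnn, hzero⟩ := exists_system F hconj hI p B Hc D0 hD0 hD0' c hcI hcb
    hfin.toFinset (fun g hg => hS g (hfin.mem_toFinset.mp hg)) ζ
    (fun g hg => hζ g (hfin.mem_toFinset.mp hg))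
  obtain ⟨m, hm, hmin⟩ := exists_min p (fun i => (c i : ℂ)) S (fun g => (ζ g : ℂ)) hpos
  obtain ⟨q, hq0, hqN, hq⟩ := param_boundD (isNrm_NR (F := F)) (4 * (p * B + 1)) (by omega)
    ⟨2 * (p * B + 1), by ring⟩ h hdeg none
  have hcard : Fintype.card (Option (Fin p ⊕ Fin p)) = 2 * p + 1 := by
    rw [Fintype.card_option, Fintype.card_sum, Fintype.card_fin]
    ring
  rw [hcard] at hqN hq
  set Bd := BdD (4 * (p * B + 1)) (2 * p + 1) (mn (NR F) h) with hBd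
  have hD0r : (0 : ℝ) < D0 := by exact_mod_cast hD0
  have hq' := hq (RA F).subtype (fun a => abs_le_NR a) hnn (1 / (2 * D0 * m)) (by
    intro v hv
    obtain ⟨h1, h2, h3⟩ := (hzero v).mp hv
    have h4 : m ≤ (∑ i, (c i : ℂ) * ptx v i).re :=
      hmin (ptx v) h1 (fun g hg => h2 g (hfin.mem_toFinset.mpr hg))
    set f := (∑ i, (c i : ℂ) * ptx v i).re with hf
    have h5 : 0 < f := lt_of_lt_of_le hm h4
    have h6 : v none = 1 / (2 * D0 * f) := by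
      rw [eq_div_iff (by positivity)]
      exact h3
    rw [h6]
    exact one_div_le_one_div_of_le (by positivity) (mul_le_mul_of_nonneg_left h4 (by positivity)))
  have hfx := hpos x hx hx2
  set f := (∑ i, (c i : ℂ) * x i).re with hf
  let v : Option (Fin p ⊕ Fin p) → ℝ := fun o => match o with
    | none => 1 / (2 * D0 * f)
    | some (Sum.inl i) => (x i).re
    | some (Sum.inr i) => (x i).im
  have hpt : ptx v = x := by
    funext i
    exact Complex.re_add_im (x i)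
  have hv0 : h.eval₂ (RA F).subtype v = 0 := by
    rw [hzero v, hpt]
    refine ⟨hx, fun g hg => hx2 g (hfin.mem_toFinset.mp hg), ?_⟩
    show 1 / (2 * D0 * f) * (2 * D0 * f) = 1
    exact one_div_mul_cancel (by positivity)
  have h1 : |((RA F).subtype q : ℝ)| * (1 / (2 * D0 * f)) ≤ Bd := hq' v hv0
  have h2 := one_le_mul_NR q hq0 Dg hDg
  have hDg1 : 1 ≤ Dg := le_trans (Module.finrank_pos (R := ℚ) (M := F)) hDg
  have h3 : (NR F q : ℝ) ^ (Dg - 1) ≤ (Bd : ℝ) ^ (Dg - 1) :=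
    pow_le_pow_left₀ (Nat.cast_nonneg _) (by exact_mod_cast hqN) _
  have h4 : 1 ≤ |((RA F).subtype q : ℝ)| * (Bd : ℝ) ^ (Dg - 1) :=
    h2.trans (mul_le_mul_of_nonneg_left h3 (abs_nonneg _))
  have h5 : 1 / (2 * D0 * f) ≤ (Bd : ℝ) ^ Dg := by
    have h6 : (0 : ℝ) < 1 / (2 * D0 * f) := by positivity
    calc 1 / (2 * D0 * f) = 1 * (1 / (2 * D0 * f)) := (one_mul _).symm
      _ ≤ |((RA F).subtype q : ℝ)| * (Bd : ℝ) ^ (Dg - 1) * (1 / (2 * D0 * f)) :=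
          mul_le_mul_of_nonneg_right h4 h6.le
      _ = (Bd : ℝ) ^ (Dg - 1) * (|((RA F).subtype q : ℝ)| * (1 / (2 * D0 * f))) := by ring
      _ ≤ (Bd : ℝ) ^ (Dg - 1) * Bd := mul_le_mul_of_nonneg_left h1 (by positivity)
      _ = (Bd : ℝ) ^ Dg := by
          rw [← pow_succ]
          congr 1
          omega
  have h7 : (2 : ℝ) ^ (Hc + 1) * (Bd : ℝ) ^ Dg ≤ 2 ^ ((2 + B + Dg + Hc) ^ C) := by
    exact_mod_cast hC p B Dg Hc (mn (NR F) h) hp hmn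
  have h8 : (1 : ℝ) ≤ 2 ^ ((2 + B + Dg + Hc) ^ C) * f := by
    have h9 : 1 ≤ (Bd : ℝ) ^ Dg * (2 * D0 * f) := by
      have := mul_le_mul_of_nonneg_right h5 (by positivity : (0 : ℝ) ≤ 2 * D0 * f)
      rwa [one_div_mul_cancel (by positivity)] at this
    have h10 : (D0 : ℝ) ≤ 2 ^ Hc := by exact_mod_cast hD0'
    calc (1 : ℝ) ≤ (Bd : ℝ) ^ Dg * (2 * D0 * f) := h9
      _ ≤ (Bd : ℝ) ^ Dg * (2 * 2 ^ Hc * f) := by gcongr
      _ = 2 ^ (Hc + 1) * (Bd : ℝ) ^ Dg * f := by ring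
      _ ≤ 2 ^ ((2 + B + Dg + Hc) ^ C) * f := mul_le_mul_of_nonneg_right h7 hfx.le
  rw [div_le_iff₀ (by positivity), mul_comm]
  exact h8

end Pool.Agent.MX
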