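import Pool.Agent.RElim.PSup

/-! P1. The supremum of a coordinate on a real zero set: systems of arbitrary even degree. -/

set_option autoImplicit false

namespace Pool.Agent.MX

open Pool.Agent.RElim

/-- the bound -/
def BdD (D n a : ℕ) : ℕ :=
  ((D + 1) ^ n).factorial * (1 + (1 + D * a) ^ (D * n + 1)) ^ ((D + 1) ^ n)

section Aux

open Finset MvPolynomial

variable {σ : Type*} [Fintype σ] [DecidableEq σ]

/-- The value of a monomial with exponents below `D + 1`. -/
private def monD {D : ℕ} (v : σ → ℝ) (α : σ → Fin (D + 1)) : ℝ := ∏ i, v i ^ (α i : ℕ)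

private theorem exists_nfD (D : ℕ) {R : Type*} [CommRing R] {N : R → ℕ} (hN : IsNrm N) (E : σ → MvPolynomial σ R)
    (W : ℕ) (hW : 1 ≤ W) (hdeg : ∀ i, ∀ b ∈ (E i).support, b.degree ≤ D)
    (hE : ∀ i, mn N (E i) ≤ W) : ∀ (n : ℕ) (m : σ →₀ ℕ), m.degree ≤ n →
    ∃ c : (σ → Fin (D + 1)) → R, ∑ α, N (c α) ≤ W ^ n ∧
      ∀ (ev : R →+* ℝ) (v : σ → ℝ), (∀ i, v i ^ (D + 1) = (E i).eval₂ ev v) →
        ∏ i, v i ^ m i = ∑ α, ev (c α) * monD v α := by
  intro n
  induction n with
  | zero =>
    intro m hm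
    have hm0 : m = 0 := by
      rw [← Finsupp.degree_eq_zero_iff]
      omega
    subst hm0
    refine ⟨Pi.single (fun _ => 0) 1, ?_, fun ev v _ => ?_⟩
    · rw [Finset.sum_eq_single (fun _ => 0)]
      · simpa using hN.one
      · intro b _ hb
        rw [Pi.single_eq_of_ne hb, hN.zero]
      · intro h
        exact absurd (Finset.mem_univ _) h
    · rw [Finset.sum_eq_single (fun _ => 0)]
      · simp [monD]
      · intro b _ hb
        rw [Pi.single_eq_of_ne hb, map_zero, zero_mul]
      · intro h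
        exact absurd (Finset.mem_univ _) h
  | succ n ih =>
    intro m hm
    by_cases hall : ∀ i, m i < D + 1
    · refine ⟨Pi.single (fun i => ⟨m i, hall i⟩) 1, ?_, fun ev v _ => ?_⟩
      · rw [Finset.sum_eq_single (fun i => ⟨m i, hall i⟩)]
        · rw [Pi.single_eq_same]
          exact hN.one.trans (Nat.one_le_pow _ _ hW)
        · intro b _ hb
          rw [Pi.single_eq_of_ne hb, hN.zero]
        · intro h
          exact absurd (Finset.mem_univ _) h
      · rw [Finset.sum_eq_single (fun i => ⟨m i, hall i⟩)]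
        · rw [Pi.single_eq_same, map_one, one_mul]
          rfl
        · intro b _ hb
          rw [Pi.single_eq_of_ne hb, map_zero, zero_mul]
        · intro h
          exact absurd (Finset.mem_univ _) h
    · push Not at hall
      obtain ⟨i, hi⟩ := hall
      set m' : σ →₀ ℕ := m - Finsupp.single i (D + 1) with hm'
      have hmm' : m = m' + Finsupp.single i (D + 1) := by
        ext j
        rw [hm', Finsupp.add_apply, Finsupp.tsub_apply]
        by_cases hj : j = i
        · subst hj
          rw [Finsupp.single_eq_same]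
          omega
        · rw [Finsupp.single_eq_of_ne hj]
          omega
      have hdm : m'.degree + (D + 1) = m.degree := by
        conv_rhs => rw [hmm']
        rw [map_add, Finsupp.degree_single]
      have hdb : ∀ b ∈ (E i).support, (m' + b).degree ≤ n := by
        intro b hb
        rw [map_add]
        have := hdeg i b hb
        omega
      choose! c hc1 hc2 using fun b (hb : b ∈ (E i).support) => ih (m' + b) (hdb b hb)
      refine ⟨fun α => ∑ b ∈ (E i).support, (E i).coeff b * c b α, ?_, fun ev v hv => ?_⟩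
      · calc ∑ α, N (∑ b ∈ (E i).support, (E i).coeff b * c b α) ≤
              ∑ α, ∑ b ∈ (E i).support, N ((E i).coeff b) * N (c b α) :=
              Finset.sum_le_sum fun α _ => (hN.sum _ _).trans
                (Finset.sum_le_sum fun b _ => hN.mul _ _)
          _ = ∑ b ∈ (E i).support, N ((E i).coeff b) * ∑ α, N (c b α) := by
              rw [Finset.sum_comm]
              exact Finset.sum_congr rfl fun b _ => by rw [Finset.mul_sum]
          _ ≤ ∑ b ∈ (E i).support, N ((E i).coeff b) * W ^ n :=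
              Finset.sum_le_sum fun b hb => Nat.mul_le_mul_left _ (hc1 b hb)
          _ = mn N (E i) * W ^ n := by rw [mn, Finset.sum_mul]
          _ ≤ W * W ^ n := Nat.mul_le_mul_right _ (hE i)
          _ = W ^ (n + 1) := by rw [pow_succ]; ring
      · have h1 : ∏ j, v j ^ m j = v i ^ (D + 1) * ∏ j, v j ^ m' j := by
          conv_lhs => rw [hmm']
          have e0 : ∀ j, v j ^ ((m' + Finsupp.single i (D + 1)) j) =
              v j ^ m' j * v j ^ (Finsupp.single i (D + 1) j) := fun j => by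
            rw [Finsupp.add_apply, pow_add]
          simp only [e0]
          rw [Finset.prod_mul_distrib, mul_comm]
          congr 1
          rw [Finset.prod_eq_single i]
          · rw [Finsupp.single_eq_same]
          · intro j _ hj
            rw [Finsupp.single_eq_of_ne hj, pow_zero]
          · intro h
            exact absurd (Finset.mem_univ _) h
        rw [h1, hv i, MvPolynomial.eval₂_eq', Finset.sum_mul]
        have h2 : ∀ b ∈ (E i).support,
            ev ((E i).coeff b) * (∏ j, v j ^ b j) * ∏ j, v j ^ m' j =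
              ∑ α, ev ((E i).coeff b * c b α) * monD v α := by
          intro b hb
          have h3 := hc2 b hb ev v hv
          simp only [map_mul, mul_assoc]
          rw [← Finset.mul_sum, ← h3]
          congr 1
          simp only [Finsupp.add_apply, pow_add]
          rw [Finset.prod_mul_distrib, mul_comm]
        rw [Finset.sum_congr rfl h2, Finset.sum_comm]
        refine Finset.sum_congr rfl fun α _ => ?_
        rw [map_sum, Finset.sum_mul]

end Aux

end Pool.Agent.MX

namespace Pool.Agent.RElim.Par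

open Finset Filter Topology Pool.Agent.MX

variable {A : Type} [CommRing A] {NA : A → ℕ} {σ : Type*} [Fintype σ] [DecidableEq σ]

omit [Fintype σ] in
open MvPolynomial in
private theorem degree_EED (D : ℕ) (h : MvPolynomial σ A) (hdeg : ∀ b ∈ h.support, b.degree ≤ D) (t i : σ) :
    ∀ b ∈ (EE h t i).support, b.degree ≤ D := by
  intro b hb
  rw [EE, mem_support_iff, coeff_C_mul, coeff_sub, coeff_C_mul, coeff_map, coeff_C] at hb
  by_cases h0 : b = 0
  · subst h0; simp
  · rw [if_neg (Ne.symm h0)] at hb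
    have h1 : b ∈ (pderiv i h).support := by
      rw [mem_support_iff]
      intro h1
      apply hb
      rw [h1]
      simp
    have h2 := hdeg _ (coeff_pderiv_ne h1)
    rw [map_add, Finsupp.degree_single] at h2
    omega

omit [Fintype σ] in
open MvPolynomial in
private theorem mn_pderivD (D : ℕ) (hA : IsNrm NA) (h : MvPolynomial σ A)
    (hdeg : ∀ b ∈ h.support, b.degree ≤ D) (i : σ) :
    mn NA (pderiv i h) ≤ D * mn NA h := by
  classical
  rw [mn, mn, Finset.mul_sum]
  let f : (σ →₀ ℕ) → (σ →₀ ℕ) := fun b => b + Finsupp.single i 1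
  have hf : Function.Injective f := fun a b hab => add_right_cancel hab
  calc ∑ b ∈ (pderiv i h).support, NA (coeff b (pderiv i h)) ≤
        ∑ b ∈ (pderiv i h).support, D * NA (coeff (f b) h) := by
        refine Finset.sum_le_sum fun b hb => ?_
        have h1 := hdeg _ (coeff_pderiv_ne hb)
        rw [coeff_pderiv, mul_comm]
        have h2 : (b + Finsupp.single i 1 : σ →₀ ℕ) i ≤ (b + Finsupp.single i 1 : σ →₀ ℕ).degree :=
          Finsupp.le_degree i _
        rw [Finsupp.add_apply, Finsupp.single_eq_same] at h2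
        have h3 : NA ((b i : A) + 1) ≤ D := by
          have h4 := hA.natCast (b i + 1)
          push_cast at h4
          omega
        exact (hA.mul _ _).trans (Nat.mul_le_mul_right _ h3)
    _ = ∑ b ∈ (pderiv i h).support.image f, D * NA (coeff b h) := by
        rw [Finset.sum_image fun a _ b _ hab => hf hab]
    _ ≤ ∑ b ∈ h.support, D * NA (coeff b h) := by
        apply Finset.sum_le_sum_of_subset
        intro b hb
        rw [Finset.mem_image] at hb
        obtain ⟨a, ha, rfl⟩ := hb
        exact coeff_pderiv_ne ha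

omit [Fintype σ] in
open MvPolynomial in
private theorem mn_EED (D : ℕ) (hA : IsNrm NA) (h : MvPolynomial σ A) (hdeg : ∀ b ∈ h.support, b.degree ≤ D)
    (t i : σ) : mn (N0 NA) (EE h t i) ≤ 1 + D * mn NA h := by
  have hN := isNrm_N0 hA
  have hM := hN.mn (σ := σ)
  have hX : N0 NA (Polynomial.X : R0 A) ≤ 1 := pn_X hA.pn
  have hCX : N0 NA (Polynomial.C Polynomial.X : R0 A) ≤ 1 :=
    (pn_C hA.pn _).trans (pn_X hA)
  have hcast : ∀ a : A, N0 NA (cst A a) ≤ NA a := by
    intro a
    exact (pn_C hA.pn _).trans (pn_C hA _)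
  rw [EE]
  refine (hM.mul _ _).trans ?_
  have h1 : mn (N0 NA) (C (Polynomial.C Polynomial.X : R0 A) : MvPolynomial σ (R0 A)) ≤ 1 :=
    (mn_C hN _).trans hCX
  have h2 : mn (N0 NA) (C (if i = t then 1 else 0 : R0 A) - C (Polynomial.X : R0 A) *
      map (cst A) (pderiv i h) : MvPolynomial σ (R0 A)) ≤ 1 + D * mn NA h := by
    refine (hM.sub _ _).trans (Nat.add_le_add ?_ ?_)
    · refine (mn_C hN _).trans ?_
      split_ifs
      · exact hN.one
      · rw [hN.zero]; exact Nat.zero_le _
    · refine (hM.mul _ _).trans ?_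
      have h3 : mn (N0 NA) (C (Polynomial.X : R0 A) : MvPolynomial σ (R0 A)) ≤ 1 :=
        (mn_C hN _).trans hX
      have h4 : mn (N0 NA) (map (cst A) (pderiv i h)) ≤ mn NA (pderiv i h) :=
        mn_map hA hN _ hcast _
      calc _ ≤ 1 * (D * mn NA h) := Nat.mul_le_mul h3 (h4.trans (mn_pderivD D hA h hdeg i))
        _ = _ := one_mul _
  calc _ ≤ 1 * (1 + D * mn NA h) := Nat.mul_le_mul h1 h2
    _ = _ := one_mul _

open MvPolynomial in
/-- the characteristic relation satisfied by a coordinate of the critical points -/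
private theorem exists_chiD [Nontrivial A] (D : ℕ) (hA : IsNrm NA) (h : MvPolynomial σ A)
    (hdeg : ∀ b ∈ h.support, b.degree ≤ D) (t : σ) :
    ∃ χ : R3 A, χ ≠ 0 ∧
      N3 NA χ ≤ BdD D (Fintype.card σ) (mn NA h) ∧
      ∀ (e : A →+* ℝ) (τ K : ℝ) (v : σ → ℝ),
        (∀ i, v i ^ (D + 1) = τ * ((if i = t then 1 else 0) - K * (pderiv i h).eval₂ e v)) →
          ev3 e (v t) τ K χ = 0 := by
  classical
  have hN0 := isNrm_N0 hA
  have hN3 := isNrm_N3 hA
  set W := 1 + D * mn NA h with hW
  have hnf := exists_nfD D hN0 (EE h t) W (by omega) (degree_EED D h hdeg t) (mn_EED D hA h hdeg t)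
    (D * Fintype.card σ + 1)
  have hdα : ∀ α : σ → Fin (D + 1),
      (Finsupp.equivFunOnFinite.symm (fun i => (α i : ℕ)) + Finsupp.single t 1).degree ≤
        D * Fintype.card σ + 1 := by
    intro α
    rw [map_add, Finsupp.degree_single, Finsupp.degree_eq_sum]
    have : ∑ i, (Finsupp.equivFunOnFinite.symm (fun i => (α i : ℕ))) i ≤ ∑ _i : σ, D := by
      refine Finset.sum_le_sum fun i _ => ?_
      simp only [Finsupp.equivFunOnFinite_symm_apply_apply]
      have := (α i).2
      omega
    rw [Finset.sum_const, Finset.card_univ, smul_eq_mul, mul_comm] at this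
    omega
  choose c hc1 hc2 using fun α => hnf _ (hdα α)
  let M : Matrix (σ → Fin (D + 1)) (σ → Fin (D + 1)) (R0 A) := Matrix.of fun α β => c α β
  let Y : R3 A := Polynomial.C (Polynomial.C Polynomial.X)
  let χ : R3 A := (Matrix.diagonal (fun _ => Y) - M.map (incl A)).det
  refine ⟨χ, ?_, ?_, ?_⟩
  · -- nonzero
    let ψ : R3 A →+* Polynomial A :=
      Polynomial.eval₂RingHom (Polynomial.eval₂RingHom (RingHom.id (Polynomial A)) 0) 0
    let ψ0 : R0 A →+* A := Polynomial.eval₂RingHom (Polynomial.eval₂RingHom (RingHom.id A) 0) 0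
    have hψ : ∀ a : R0 A, ψ (incl A a) = Polynomial.C (ψ0 a) := by
      intro a
      have h : ψ.comp (incl A) = (Polynomial.C).comp ψ0 := by
        apply Polynomial.ringHom_ext
        · intro a
          have h2 : (ψ.comp (incl A)).comp Polynomial.C =
              ((Polynomial.C).comp ψ0).comp Polynomial.C := by
            apply Polynomial.ringHom_ext
            · intro z
              simp [ψ, ψ0, incl]
            · simp [ψ, ψ0, incl]
          exact RingHom.congr_fun h2 a
        · simp [ψ, ψ0, incl]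
      exact RingHom.congr_fun h a
    have h1 : ψ χ = (M.map ψ0).charpoly := by
      refine (RingHom.map_det ψ (Matrix.diagonal (fun _ => Y) - M.map (incl A))).trans ?_
      rw [Matrix.charpoly]
      congr 1
      refine Matrix.ext fun α β => ?_
      have e1 : ψ (Matrix.diagonal (fun _ => Y) α β - incl A (M α β)) =
          ψ (Matrix.diagonal (fun _ => Y) α β) - ψ (incl A (M α β)) := map_sub ψ _ _
      refine (e1.trans ?_)
      rw [hψ, Matrix.charmatrix_apply, Matrix.map_apply]
      by_cases hab : α = β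
      · subst hab
        simp [Y, ψ]
      · simp [hab]
    intro h0
    rw [h0, map_zero] at h1
    exact (Matrix.charpoly_monic _).ne_zero h1.symm
  · -- the size
    have h1 := hN3.det (Matrix.diagonal (fun _ => Y) - M.map (incl A))
      (1 + W ^ (D * Fintype.card σ + 1)) (fun α β => by
        rw [Matrix.sub_apply]
        refine (hN3.sub _ _).trans (Nat.add_le_add ?_ ?_)
        · rw [Matrix.diagonal_apply]
          split_ifs
          · exact (pn_C hA.pn.pn _).trans ((pn_C hA.pn _).trans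
              (pn_X hA))
          · rw [hN3.zero]; exact Nat.zero_le _
        · rw [Matrix.map_apply]
          refine (N3_incl hA _).trans ((Finset.single_le_sum (f := fun β => N0 NA (c α β))
            (fun _ _ => Nat.zero_le _) (Finset.mem_univ β)).trans (hc1 α)))
    simpa [BdD] using h1
  · -- the relation
    intro e τ K v hv
    have hv' : ∀ i, v i ^ (D + 1) = (EE h t i).eval₂ (ev2 e τ K) v := fun i => by
      rw [eval_EE]; exact hv i
    refine (RingHom.map_det (ev3 e (v t) τ K)
      (Matrix.diagonal (fun _ => Y) - M.map (incl A))).trans ?_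
    rw [RingHom.mapMatrix_apply]
    apply Matrix.exists_mulVec_eq_zero_iff.mp
    refine ⟨monD v, ?_, ?_⟩
    · intro h0
      have := congrFun h0 (fun _ => 0)
      simp [monD] at this
    · ext α
      have h1 := hc2 α (ev2 e τ K) v hv'
      have h2 : ∏ i, v i ^ (Finsupp.equivFunOnFinite.symm (fun i => (α i : ℕ)) +
          Finsupp.single t 1 : σ →₀ ℕ) i = v t * monD v α := by
        simp only [Finsupp.add_apply, pow_add, Finsupp.equivFunOnFinite_symm_apply_apply]
        rw [Finset.prod_mul_distrib, mul_comm]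
        congr 1
        rw [Finset.prod_eq_single t]
        · rw [Finsupp.single_eq_same, pow_one]
        · intro j _ hj
          rw [Finsupp.single_eq_of_ne hj, pow_zero]
        · intro h
          exact absurd (Finset.mem_univ _) h
      rw [h2] at h1
      simp only [Matrix.mulVec, dotProduct, Matrix.map_apply, Matrix.sub_apply, Pi.zero_apply]
      have e1 : ∀ β, ev3 e (v t) τ K (Matrix.diagonal (fun _ => Y) α β - incl A (M α β)) =
          ev3 e (v t) τ K (Matrix.diagonal (fun _ => Y) α β) - ev2 e τ K (c α β) := by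
        intro β
        refine (map_sub (ev3 e (v t) τ K) _ _).trans ?_
        rw [ev3_incl]
        rfl
      simp only [e1, sub_mul]
      rw [Finset.sum_sub_distrib]
      have h3 : ∑ β, ev3 e (v t) τ K (Matrix.diagonal (fun _ => Y) α β) * monD v β =
          v t * monD v α := by
        rw [Finset.sum_eq_single α]
        · rw [Matrix.diagonal_apply_eq]
          simp [Y, ev3, ev2, ev1]
        · intro β _ hβ
          rw [Matrix.diagonal_apply_ne _ (Ne.symm hβ), map_zero, zero_mul]
        · intro h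
          exact absurd (Finset.mem_univ _) h
      rw [h3, h1]
      exact sub_self _

/-- The penalised function. -/
private noncomputable def PhiD (D : ℕ) (e : A →+* ℝ) (h : MvPolynomial σ A) (t : σ) (τ K : ℝ) (v : σ → ℝ) : ℝ :=
  -v t + K * h.eval₂ e v + (∑ i, v i ^ (D + 2)) / (((D : ℝ) + 2) * τ)

open MvPolynomial in
private theorem critD (D : ℕ) (e : A →+* ℝ) (h : MvPolynomial σ A) (t : σ) (τ K : ℝ) (hτ : 0 < τ) (v : σ → ℝ)
    (hv : ∀ w, PhiD D e h t τ K v ≤ PhiD D e h t τ K w) (i : σ) :
    v i ^ (D + 1) = τ * ((if i = t then 1 else 0) - K * (pderiv i h).eval₂ e v) := by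
  have h1 : HasDerivAt (fun s => PhiD D e h t τ K (Function.update v i s))
      (-(if i = t then 1 else 0) + K * (pderiv i h).eval₂ e (Function.update v i (v i)) +
        (((D : ℝ) + 2) * v i ^ (D + 1)) / (((D : ℝ) + 2) * τ)) (v i) := by
    have ha : HasDerivAt (fun s => -(Function.update v i s t)) (-(if i = t then 1 else 0)) (v i) := by
      refine HasDerivAt.neg ?_
      by_cases hit : i = t
      · subst hit
        simpa using hasDerivAt_id' (v i)
      · rw [if_neg hit]
        simp only [Function.update_of_ne (Ne.symm hit)]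
        exact hasDerivAt_const _ _
    have hb := (hasDerivAt_update e h v i (v i)).const_mul K
    have hc : HasDerivAt (fun s => ∑ j, (Function.update v i s) j ^ (D + 2)) (((D : ℝ) + 2) * v i ^ (D + 1)) (v i) := by
      have hj : ∀ j ∈ (Finset.univ : Finset σ), HasDerivAt (fun s => (Function.update v i s) j ^ (D + 2))
          (if j = i then ((D : ℝ) + 2) * v i ^ (D + 1) else 0) (v i) := by
        intro j _
        by_cases hij : j = i
        · subst hij
          rw [if_pos rfl]
          simpa using (hasDerivAt_pow (D + 2) (v j))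
        · rw [if_neg hij]
          simp only [Function.update_of_ne hij]
          exact hasDerivAt_const _ _
      have := HasDerivAt.fun_sum hj
      simpa using this
    exact (ha.add hb).add (hc.div_const _)
  have h2 : IsLocalMin (fun s => PhiD D e h t τ K (Function.update v i s)) (v i) := by
    apply Filter.Eventually.of_forall
    intro s
    show PhiD D e h t τ K (Function.update v i (v i)) ≤ PhiD D e h t τ K (Function.update v i s)
    rw [Function.update_eq_self]
    exact hv _
  have h3 := h2.hasDerivAt_eq_zero h1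
  rw [Function.update_eq_self] at h3
  have h4 : (((D : ℝ) + 2) * v i ^ (D + 1)) / (((D : ℝ) + 2) * τ) = v i ^ (D + 1) / τ := by
    field_simp
  rw [h4] at h3
  have h5 : v i ^ (D + 1) / τ = (if i = t then 1 else 0) - K * (pderiv i h).eval₂ e v := by linarith
  rw [← h5]
  field_simp

omit [DecidableEq σ] in
private theorem continuous_PhiD (D : ℕ) (e : A →+* ℝ) (h : MvPolynomial σ A) (t : σ) (τ K : ℝ) :
    Continuous (PhiD D e h t τ K) := by
  unfold PhiD
  have := continuous_eval₂ e h
  fun_prop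

omit [DecidableEq σ] in
private theorem sum_nonnegD (D : ℕ) (hD : Even D) (v : σ → ℝ) : 0 ≤ ∑ i, v i ^ (D + 2) :=
  Finset.sum_nonneg fun i _ => (hD.add even_two).pow_nonneg _

omit [DecidableEq σ] in
/-- growth of the penalty -/
private theorem box_of_PhiD (D : ℕ) (hD : Even D) (e : A →+* ℝ) (h : MvPolynomial σ A) (hnn : ∀ v : σ → ℝ, 0 ≤ h.eval₂ e v) (t : σ)
    (τ K C : ℝ) (hτ : 0 < τ) (hK : 0 ≤ K) (v : σ → ℝ) (hv : PhiD D e h t τ K v ≤ C) :
    ∀ i, |v i| ≤ max 1 (max (2 * ((D : ℝ) + 2) * τ) C) := by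
  by_contra hcon
  push Not at hcon
  obtain ⟨i₀, hi₀⟩ := hcon
  obtain ⟨i, -, hi⟩ := Finset.exists_max_image Finset.univ (fun i => |v i|) ⟨i₀, Finset.mem_univ _⟩
  set r := |v i| with hr
  have hr0 : max 1 (max (2 * ((D : ℝ) + 2) * τ) C) < r := lt_of_lt_of_le hi₀ (hi i₀ (Finset.mem_univ _))
  have h1 : 1 < r := lt_of_le_of_lt (le_max_left _ _) hr0
  have h2 : 2 * ((D : ℝ) + 2) * τ < r := lt_of_le_of_lt ((le_max_left _ _).trans (le_max_right _ _)) hr0
  have h3 : C < r := lt_of_le_of_lt ((le_max_right _ _).trans (le_max_right _ _)) hr0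
  have h4 : -r ≤ -v t := by
    have := hi t (Finset.mem_univ _)
    have := le_abs_self (v t)
    linarith
  have h5 : r ^ (D + 2) ≤ ∑ j, v j ^ (D + 2) := by
    have : r ^ (D + 2) = v i ^ (D + 2) := by
      rw [hr]
      exact (hD.add even_two).pow_abs (v i)
    rw [this]
    exact Finset.single_le_sum (f := fun j => v j ^ (D + 2))
      (fun j _ => (hD.add even_two).pow_nonneg _) (Finset.mem_univ i)
  have h6 : 2 * r ≤ (∑ j, v j ^ (D + 2)) / (((D : ℝ) + 2) * τ) := by
    rw [le_div_iff₀ (by positivity)]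
    have h7 : r ^ 2 ≤ r ^ (D + 2) := pow_le_pow_right₀ h1.le (by omega)
    nlinarith
  have h7 : 0 ≤ K * h.eval₂ e v := mul_nonneg hK (hnn v)
  unfold PhiD at hv
  linarith

omit [DecidableEq σ] in
private theorem exists_minD (D : ℕ) (hD : Even D) (e : A →+* ℝ) (h : MvPolynomial σ A) (hnn : ∀ v : σ → ℝ, 0 ≤ h.eval₂ e v) (t : σ)
    (τ K : ℝ) (hτ : 0 < τ) (hK : 0 ≤ K) : ∃ v, ∀ w, PhiD D e h t τ K v ≤ PhiD D e h t τ K w := by
  apply (continuous_PhiD D e h t τ K).exists_forall_le' 0
  have hc : IsCompact (Set.pi Set.univ fun _ : σ =>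
      Set.Icc (-(max 1 (max (2 * ((D : ℝ) + 2) * τ) (PhiD D e h t τ K 0)))) (max 1 (max (2 * ((D : ℝ) + 2) * τ) (PhiD D e h t τ K 0)))) :=
    isCompact_univ_pi fun _ => isCompact_Icc
  filter_upwards [hc.compl_mem_cocompact] with v hv
  by_contra hcon
  push Not at hcon
  apply hv
  rw [Set.mem_univ_pi]
  intro i
  exact abs_le.mp (box_of_PhiD D hD e h hnn t τ K _ hτ hK v hcon.le i)

/-- for fixed `τ` -/
private theorem exists_tauD (D : ℕ) (hD : Even D) (e : A →+* ℝ) (h : MvPolynomial σ A) (hnn : ∀ v : σ → ℝ, 0 ≤ h.eval₂ e v) (t : σ)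
    (χ : R3 A) (hχ : ∀ (τ K : ℝ) (v : σ → ℝ),
        (∀ i, v i ^ (D + 1) = τ * ((if i = t then 1 else 0) -
          K * (MvPolynomial.pderiv i h).eval₂ e v)) →
          ev3 e (v t) τ K χ = 0) (τ : ℝ) (hτ : 0 < τ) (w₀ : σ → ℝ) (hw₀ : h.eval₂ e w₀ = 0) :
    ∃ v : σ → ℝ, h.eval₂ e v = 0 ∧ ev2 e (v t) τ χ.leadingCoeff = 0 ∧
      ∀ w, h.eval₂ e w = 0 → w t - (∑ i, w i ^ (D + 2)) / (((D : ℝ) + 2) * τ) ≤ v t := by
  choose V hV using fun K : ℕ => exists_minD D hD e h hnn t τ K hτ (Nat.cast_nonneg K)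
  set C := -w₀ t + (∑ i, w₀ i ^ (D + 2)) / (((D : ℝ) + 2) * τ) with hC
  have hVC : ∀ K : ℕ, PhiD D e h t τ K (V K) ≤ C := by
    intro K
    refine (hV K w₀).trans (le_of_eq ?_)
    rw [PhiD, hw₀, hC]
    ring
  set R := max 1 (max (2 * ((D : ℝ) + 2) * τ) C) with hR
  have hbox : ∀ K, V K ∈ Set.pi Set.univ fun _ : σ => Set.Icc (-R) R := by
    intro K
    rw [Set.mem_univ_pi]
    intro i
    exact abs_le.mp (box_of_PhiD D hD e h hnn t τ K C hτ (Nat.cast_nonneg K) (V K) (hVC K) i)
  have hc : IsCompact (Set.pi Set.univ fun _ : σ => Set.Icc (-R) R) :=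
    isCompact_univ_pi fun _ => isCompact_Icc
  obtain ⟨v, -, φ, hφ, hlim⟩ := hc.tendsto_subseq hbox
  have hlimi : ∀ i, Tendsto (fun j => V (φ j) i) atTop (𝓝 (v i)) := fun i =>
    (tendsto_pi_nhds.mp hlim) i
  have hφtop : Tendsto (fun j => ((φ j : ℕ) : ℝ)) atTop atTop :=
    tendsto_natCast_atTop_atTop.comp hφ.tendsto_atTop
  have hh : Tendsto (fun j => h.eval₂ e (V (φ j))) atTop
      (𝓝 (h.eval₂ e v)) := ((continuous_eval₂ e h).tendsto v).comp hlim
  have hv0 : h.eval₂ e v = 0 := by
    refine tendsto_nhds_unique hh ?_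
    have hup : ∀ᶠ j in atTop, h.eval₂ e (V (φ j)) ≤ (C + R) / (φ j : ℝ) := by
      filter_upwards [hφtop.eventually_gt_atTop 0] with j hj
      rw [le_div_iff₀ hj]
      have h1 := hVC (φ j)
      unfold PhiD at h1
      have h2 : V (φ j) t ≤ R := ((Set.mem_univ_pi.mp (hbox (φ j))) t).2
      have h3 : 0 ≤ (∑ i, V (φ j) i ^ (D + 2)) / (((D : ℝ) + 2) * τ) := by
        have : 0 ≤ ∑ i, V (φ j) i ^ (D + 2) := sum_nonnegD D hD _
        positivity
      rw [mul_comm]
      linarith
    have hlow : ∀ᶠ j in atTop, (0 : ℝ) ≤ h.eval₂ e (V (φ j)) :=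
      Filter.Eventually.of_forall fun j => hnn _
    exact tendsto_of_tendsto_of_tendsto_of_le_of_le' tendsto_const_nhds
      (hφtop.const_div_atTop (C + R)) hlow hup
  refine ⟨v, hv0, ?_, ?_⟩
  · exact lead_limit χ (fun j => ev2 e (V (φ j) t) τ) (ev2 e (v t) τ)
      (fun a => tendsto_ev2 e _ _ τ (hlimi t) a) (fun j => (φ j : ℝ)) hφtop (fun j =>
        hχ τ (φ j) (V (φ j)) (critD D e h t τ (φ j) hτ (V (φ j)) (hV (φ j))))
  · intro w hw
    have h1 : ∀ j, w t - (∑ i, w i ^ (D + 2)) / (((D : ℝ) + 2) * τ) ≤ V (φ j) t := by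
      intro j
      have h1 := hV (φ j) w
      unfold PhiD at h1
      rw [hw] at h1
      have h2 : 0 ≤ (φ j : ℝ) * h.eval₂ e (V (φ j)) :=
        mul_nonneg (Nat.cast_nonneg _) (hnn _)
      have h3 : 0 ≤ (∑ i, V (φ j) i ^ (D + 2)) / (((D : ℝ) + 2) * τ) := by
        have : 0 ≤ ∑ i, V (φ j) i ^ (D + 2) := sum_nonnegD D hD _
        positivity
      linarith
    exact ge_of_tendsto (hlimi t) (Filter.Eventually.of_forall h1)

end Pool.Agent.RElim.Par

namespace Pool.Agent.MX

open Pool.Agent.RElim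

open Finset Filter Topology Pool.Agent.RElim.Par in
open MvPolynomial in
/-- **The supremum of a coordinate on the real zero set of a nonnegative polynomial of degree at
most `D`** (`D` even): a copy of `Pool.Agent.RElim.Par.param_bound` with `4, 5, 6` replaced by
`D, D + 1, D + 2`. -/
theorem param_boundD {A : Type} [CommRing A] [Nontrivial A] {NA : A → ℕ} {σ : Type*} [Fintype σ]
    [DecidableEq σ] (hA : IsNrm NA) (D : ℕ) (hD0 : 0 < D) (hD : Even D) (h : MvPolynomial σ A)
    (hdeg : ∀ b ∈ h.support, b.degree ≤ D) (t : σ) :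
    ∃ q : A, q ≠ 0 ∧ NA q ≤ BdD D (Fintype.card σ) (mn NA h) ∧
      ∀ e : A →+* ℝ, (∀ a, |e a| ≤ NA a) → (∀ v : σ → ℝ, 0 ≤ h.eval₂ e v) →
        ∀ X : ℝ, (∀ v : σ → ℝ, h.eval₂ e v = 0 → v t ≤ X) →
          ∀ v : σ → ℝ, h.eval₂ e v = 0 → |e q| * v t ≤ BdD D (Fintype.card σ) (mn NA h) := by
  obtain ⟨χ, hχ0, hχN, hχ⟩ := exists_chiD D hA h hdeg t
  have h2 : pn NA χ.leadingCoeff.leadingCoeff ≤ N3 NA χ :=
    (leadingCoeff_le_pn hA.pn _).trans (leadingCoeff_le_pn hA.pn.pn _)
  refine ⟨χ.leadingCoeff.leadingCoeff.leadingCoeff,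
    Polynomial.leadingCoeff_ne_zero.mpr (Polynomial.leadingCoeff_ne_zero.mpr
      (Polynomial.leadingCoeff_ne_zero.mpr hχ0)),
    (leadingCoeff_le_pn hA _).trans (h2.trans hχN), ?_⟩
  intro e he hnn X hX v₀ hv₀
  choose V hV1 hV2 hV3 using fun j : ℕ => exists_tauD D hD e h hnn t χ (hχ e) ((j : ℝ) + 1)
    (by positivity) v₀ hv₀
  set S : Set ℝ := {y | ∃ v : σ → ℝ, h.eval₂ e v = 0 ∧ v t = y} with hS
  have hSne : S.Nonempty := ⟨_, v₀, hv₀, rfl⟩
  have hSb : BddAbove S := ⟨X, by rintro y ⟨v, hv, rfl⟩; exact hX v hv⟩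
  have hlim : Tendsto (fun j => V j t) atTop (𝓝 (sSup S)) := by
    rw [Metric.tendsto_atTop]
    intro ε hε
    obtain ⟨y, ⟨w, hw, rfl⟩, hy⟩ := exists_lt_of_lt_csSup hSne (show sSup S - ε / 2 < sSup S by linarith)
    obtain ⟨j₀, hj₀⟩ := exists_nat_gt ((∑ i, w i ^ (D + 2)) / ε)
    refine ⟨j₀, fun j hj => ?_⟩
    rw [Real.dist_eq, abs_lt]
    have h1 : V j t ≤ sSup S := le_csSup hSb ⟨V j, hV1 j, rfl⟩
    have h2 := hV3 j w hw
    have h3 : (∑ i, w i ^ (D + 2)) / (((D : ℝ) + 2) * ((j : ℝ) + 1)) ≤ ε / 2 := by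
      have hj' : (j₀ : ℝ) ≤ j := by exact_mod_cast hj
      rw [div_le_iff₀ (by positivity)]
      rw [div_lt_iff₀ (by positivity)] at hj₀
      have hD' : (0 : ℝ) ≤ D := Nat.cast_nonneg D
      have hj0 : (0 : ℝ) ≤ j := Nat.cast_nonneg j
      have e1 : (j₀ : ℝ) * ε ≤ (j : ℝ) * ε := mul_le_mul_of_nonneg_right hj' hε.le
      have e2 : 0 ≤ (D : ℝ) * (ε * ((j : ℝ) + 1)) := by positivity
      nlinarith
    constructor
    · linarith
    · linarith
  have hroot : ev1 e (sSup S) χ.leadingCoeff.leadingCoeff = 0 := by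
    refine lead_limit χ.leadingCoeff (fun j => ev1 e (V j t)) (ev1 e (sSup S))
      (fun a => tendsto_ev1 e _ _ hlim a) (fun j => (j : ℝ) + 1) ?_ hV2
    exact tendsto_atTop_add_const_right _ _ tendsto_natCast_atTop_atTop
  have h1 := root_mul_le hA _ e he _ hroot
  have h3 : v₀ t ≤ sSup S := le_csSup hSb ⟨v₀, hv₀, rfl⟩
  have h4 : ((pn NA χ.leadingCoeff.leadingCoeff : ℕ) : ℝ) ≤ (BdD D (Fintype.card σ) (mn NA h) : ℝ) :=
    Nat.cast_le.mpr (h2.trans hχN)
  have h5 := mul_le_mul_of_nonneg_left h3 (abs_nonneg (e χ.leadingCoeff.leadingCoeff.leadingCoeff))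
  linarith


end Pool.Agent.MX
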