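import Mathlib

/-! P3. The degree of a field generated by finitely many algebraic numbers. -/

set_option autoImplicit false

namespace Pool.Agent.MX

open Polynomial IntermediateField

theorem finrank_adjoin_le (S : Finset ℂ) (d : ℂ → ℕ)
    (h : ∀ z ∈ S, ∃ P : ℚ[X], P ≠ 0 ∧ aeval z P = 0 ∧ P.natDegree ≤ d z) :
    FiniteDimensional ℚ (adjoin ℚ (S : Set ℂ)) ∧
      Module.finrank ℚ (adjoin ℚ (S : Set ℂ)) ≤ ∏ z ∈ S, d z := by
  classical
  induction S using Finset.induction_on with
  | empty =>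
    rw [Finset.coe_empty, adjoin_empty, Finset.prod_empty]
    exact ⟨inferInstance, (IntermediateField.finrank_bot (F := ℚ) (E := ℂ)).le⟩
  | insert z S hz ih =>
    obtain ⟨h1, h2⟩ := ih fun w hw => h w (Finset.mem_insert_of_mem hw)
    obtain ⟨P, hP0, hPz, hPd⟩ := h z (Finset.mem_insert_self z S)
    have hint : IsIntegral ℚ z := by
      have halg : IsAlgebraic ℚ z := ⟨P, hP0, hPz⟩
      exact halg.isIntegral
    have h3 : FiniteDimensional ℚ (adjoin ℚ {z}) := adjoin.finiteDimensional hint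
    have h4 : Module.finrank ℚ (adjoin ℚ {z}) ≤ d z := by
      rw [adjoin.finrank hint]
      exact (natDegree_le_natDegree (minpoly.degree_le_of_ne_zero ℚ z hP0 hPz)).trans hPd
    have h5 : adjoin ℚ ((insert z S : Finset ℂ) : Set ℂ) =
        adjoin ℚ {z} ⊔ adjoin ℚ (S : Set ℂ) := by
      rw [Finset.coe_insert, Set.insert_eq, adjoin_union]
    rw [h5, Finset.prod_insert hz]
    exact ⟨finiteDimensional_sup _ _, (finrank_sup_le _ _).trans (Nat.mul_le_mul h4 h2)⟩

/-- a subfield generated by a set stable under conjugation is stable under conjugation -/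
theorem conj_mem_adjoin (S : Set ℂ) (h : ∀ z ∈ S, (starRingEnd ℂ) z ∈ adjoin ℚ S) :
    ∀ z ∈ adjoin ℚ S, (starRingEnd ℂ) z ∈ adjoin ℚ S := by
  intro z hz
  have h1 : adjoin ℚ S ≤ (adjoin ℚ S).comap (starRingEnd ℂ).toRatAlgHom :=
    adjoin_le_iff.2 fun w hw => h w hw
  exact h1 hz

end Pool.Agent.MX
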