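import Pool.Agent.DD7719.CertDef
import Pool.Agent.DD7719.RootBound
import Pool.Agent.MX.Fld

/-! P6. The torsion relations between a bounded number of roots are generated by small ones. -/

set_option autoImplicit false

namespace Pool.Agent.MX

open Pool.Agent.DD7719 Pool.Agent.DD7719.M Finset

/-- torsion relations -/
def Tors {p : ℕ} (l : Fin p → ℂ) (g : Fin p → ℤ) : Prop :=
  ∃ n : ℕ, 0 < n ∧ (∏ i, nz (l i) ^ g i) ^ n = 1

/-- the vector of rational numbers -/
def rv {p : ℕ} (g : Fin p → ℤ) : Fin p → ℚ := fun i => (g i : ℚ)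

lemma mem_span_of_dual {p : ℕ} (T : Set (Fin p → ℤ)) (g : Fin p → ℤ)
    (h : ∀ a : Fin p → ℤ, (∀ t ∈ T, ∑ i, a i * t i = 0) → ∑ i, a i * g i = 0) :
    rv g ∈ Submodule.span ℚ (rv '' T) := by
  classical
  by_contra hg
  obtain ⟨f, hf, hfT⟩ := Submodule.exists_dual_map_eq_bot_of_notMem hg inferInstance
  have hfx : ∀ x : Fin p → ℚ, f x = ∑ i, x i * f (Pi.single i 1) := by
    intro x
    conv_lhs => rw [← Finset.univ_sum_single x]
    rw [map_sum]
    refine Finset.sum_congr rfl fun i _ => ?_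
    have : (Pi.single i (x i) : Fin p → ℚ) = x i • Pi.single i 1 := by
      rw [← Pi.single_smul, smul_eq_mul, mul_one]
    rw [this, map_smul, smul_eq_mul]
  set b : Fin p → ℚ := fun i => f (Pi.single i 1) with hb
  set N : ℤ := ∏ j, ((b j).den : ℤ) with hN
  have hN0 : (N : ℚ) ≠ 0 := by
    rw [hN]
    push_cast
    exact Finset.prod_ne_zero_iff.2 fun j _ => by exact_mod_cast (b j).den_ne_zero
  let a : Fin p → ℤ := fun i => (b i).num * ∏ j ∈ univ.erase i, ((b j).den : ℤ)
  have ha : ∀ i, (a i : ℚ) = N * b i := by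
    intro i
    have h1 : (N : ℚ) = (b i).den * ∏ j ∈ univ.erase i, ((b j).den : ℚ) := by
      rw [hN]
      push_cast
      rw [← Finset.mul_prod_erase univ _ (mem_univ i)]
    have h2 : (b i : ℚ) * (b i).den = (b i).num := Rat.mul_den_eq_num (b i)
    simp only [a]
    push_cast
    rw [h1, ← h2]
    ring
  have hcast : ∀ x : Fin p → ℤ, ((∑ i, a i * x i : ℤ) : ℚ) = N * f (rv x) := by
    intro x
    rw [hfx, Finset.mul_sum]
    push_cast
    refine Finset.sum_congr rfl fun i _ => ?_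
    rw [ha, rv]
    ring
  have h1 : ∑ i, a i * g i = 0 := by
    apply h
    intro t ht
    have h2 : f (rv t) = 0 := by
      have h3 : f (rv t) ∈ (Submodule.span ℚ (rv '' T)).map f :=
        Submodule.mem_map_of_mem (Submodule.subset_span ⟨t, ht, rfl⟩)
      rw [hfT] at h3
      exact (Submodule.mem_bot ℚ).1 h3
    have h4 := hcast t
    rw [h2, mul_zero] at h4
    exact_mod_cast h4
  have h5 := hcast g
  rw [h1, Int.cast_zero] at h5
  exact (mul_ne_zero hN0 hf) h5.symm

lemma mem_closure_of_span {p : ℕ} (hp : 0 < p) (T : Set (Fin p → ℤ)) (R : ℕ)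
    (hT : ∀ t ∈ T, ∀ i, |t i| ≤ R) (G : AddSubgroup (Fin p → ℤ)) (hTG : T ⊆ G)
    (g : Fin p → ℤ) (hg : g ∈ G) (hs : rv g ∈ Submodule.span ℚ (rv '' T)) :
    g ∈ AddSubgroup.closure {h : Fin p → ℤ | (∀ i, |h i| ≤ (p * R : ℕ)) ∧ h ∈ G} := by
  classical
  obtain ⟨b, hb, hbs, hli⟩ := exists_linearIndependent ℚ (rv '' T)
  rw [← hbs, Finsupp.mem_span_iff_linearCombination] at hs
  obtain ⟨c, hc⟩ := hs
  have hcard : c.support.card ≤ p := by
    have h1 : LinearIndependent ℚ (fun v : {v // v ∈ c.support} => ((v : b) : Fin p → ℚ)) :=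
      hli.comp (fun v : {v // v ∈ c.support} => (v : b)) Subtype.val_injective
    have h2 := h1.fintype_card_le_finrank
    rw [Module.finrank_fin_fun, Fintype.card_coe] at h2
    exact h2
  choose t ht hrt using fun v : b => hb v.2
  set S : AddSubgroup (Fin p → ℤ) :=
    AddSubgroup.closure {h : Fin p → ℤ | (∀ i, |h i| ≤ (p * R : ℕ)) ∧ h ∈ G} with hS
  have htS : ∀ v, t v ∈ S := by
    intro v
    apply AddSubgroup.subset_closure
    refine ⟨fun i => (hT _ (ht v) i).trans ?_, hTG (ht v)⟩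
    exact_mod_cast Nat.le_mul_of_pos_left R hp
  set g' : Fin p → ℤ := ∑ v ∈ c.support, ⌊c v⌋ • t v with hg'
  have hg'S : g' ∈ S := AddSubgroup.sum_mem _ fun v _ => AddSubgroup.zsmul_mem _ (htS v) _
  have hg'G : g' ∈ G :=
    AddSubgroup.sum_mem _ fun v _ => AddSubgroup.zsmul_mem _ (hTG (ht v)) _
  have hrest : g - g' ∈ S := by
    apply AddSubgroup.subset_closure
    refine ⟨fun i => ?_, G.sub_mem hg hg'G⟩
    have h1 : ((g i : ℤ) : ℚ) = ∑ v ∈ c.support, c v * (t v i : ℚ) := by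
      have h2 := congrFun hc i
      rw [Finsupp.linearCombination_apply, Finsupp.sum, Finset.sum_apply] at h2
      rw [show (g i : ℚ) = rv g i from rfl, ← h2]
      refine Finset.sum_congr rfl fun v _ => ?_
      rw [Pi.smul_apply, smul_eq_mul, ← hrt v]
      rfl
    have h2 : ((g' i : ℤ) : ℚ) = ∑ v ∈ c.support, (⌊c v⌋ : ℚ) * (t v i : ℚ) := by
      rw [hg', Finset.sum_apply]
      push_cast
      refine Finset.sum_congr rfl fun v _ => ?_
      rw [Pi.smul_apply, smul_eq_mul]
      push_cast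
      rfl
    have h3 : (((g - g') i : ℤ) : ℚ) = ∑ v ∈ c.support, Int.fract (c v) * (t v i : ℚ) := by
      rw [Pi.sub_apply]
      push_cast
      rw [h1, h2, ← Finset.sum_sub_distrib]
      refine Finset.sum_congr rfl fun v _ => ?_
      rw [Int.fract]
      ring
    have h4 : |(((g - g') i : ℤ) : ℚ)| ≤ p * R := by
      rw [h3]
      calc |∑ v ∈ c.support, Int.fract (c v) * (t v i : ℚ)|
          ≤ ∑ v ∈ c.support, |Int.fract (c v) * (t v i : ℚ)| := Finset.abs_sum_le_sum_abs _ _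
        _ ≤ ∑ v ∈ c.support, (R : ℚ) := by
            refine Finset.sum_le_sum fun v _ => ?_
            rw [abs_mul]
            have h5 : |Int.fract (c v)| ≤ 1 := by
              rw [abs_of_nonneg (Int.fract_nonneg _)]
              exact (Int.fract_lt_one _).le
            have h6 : |(t v i : ℚ)| ≤ R := by exact_mod_cast hT _ (ht v) i
            calc |Int.fract (c v)| * |(t v i : ℚ)| ≤ 1 * R :=
                  mul_le_mul h5 h6 (abs_nonneg _) zero_le_one
              _ = R := one_mul _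
        _ = c.support.card * (R : ℚ) := by rw [Finset.sum_const, nsmul_eq_mul]
        _ ≤ p * R := by
            apply mul_le_mul_of_nonneg_right _ (Nat.cast_nonneg R)
            exact_mod_cast hcard
    have h7 : ((|(g - g') i| : ℤ) : ℚ) ≤ ((p * R : ℕ) : ℤ) := by
      push_cast
      exact h4
    exact_mod_cast h7
  have := AddSubgroup.add_mem _ hrest hg'S
  rwa [sub_add_cancel] at this


lemma nz_ne_zero (z : ℂ) : nz z ≠ 0 := by
  intro h
  have := norm_nz z
  rw [h, norm_zero] at this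
  exact zero_ne_one this

/-- the group of torsion relations -/
def torsG {p : ℕ} (l : Fin p → ℂ) : AddSubgroup (Fin p → ℤ) where
  carrier := {g | Tors l g}
  zero_mem' := ⟨1, Nat.one_pos, by simp⟩
  add_mem' := by
    rintro g h ⟨n, hn, hg⟩ ⟨m, hm, hh⟩
    refine ⟨n * m, Nat.mul_pos hn hm, ?_⟩
    have h1 : ∏ i, nz (l i) ^ (g + h) i = (∏ i, nz (l i) ^ g i) * ∏ i, nz (l i) ^ h i := by
      rw [← Finset.prod_mul_distrib]
      exact Finset.prod_congr rfl fun i _ => zpow_add₀ (nz_ne_zero _) _ _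
    rw [h1, mul_pow, pow_mul, hg, one_pow, one_mul, mul_comm n m, pow_mul, hh, one_pow]
  neg_mem' := by
    rintro g ⟨n, hn, hg⟩
    refine ⟨n, hn, ?_⟩
    have h1 : ∏ i, nz (l i) ^ (-g) i = (∏ i, nz (l i) ^ g i)⁻¹ := by
      rw [← Finset.prod_inv_distrib]
      exact Finset.prod_congr rfl fun i _ => zpow_neg _ _
    rw [h1, inv_pow, hg, inv_one]

lemma mem_torsG {p : ℕ} (l : Fin p → ℂ) (g : Fin p → ℤ) : g ∈ torsG l ↔ Tors l g := Iff.rfl

lemma rel_arith (s p L D e : ℕ) (hp0 : 0 < p) (hp : p ≤ s) (hD : D ≤ (2 + L) ^ (2 * s))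
    (he : e ≤ 2 * D ^ 2) :
    p * (e * (144 * p * D ^ 3 * (L * L + 1) + 1) ^ (p - 1)) ≤
      (2 + L) ^ (s + (1 + 4 * s) + (7 * s + 11) * s) := by
  set x := 2 + L with hx
  have hx2 : 2 ≤ x := by omega
  have hx1 : 1 ≤ x := by omega
  have hxs : s ≤ x ^ s := (Nat.lt_pow_self (by omega)).le
  have hps : p ≤ x ^ s := hp.trans hxs
  have hD3 : D ^ 3 ≤ x ^ (6 * s) := by
    calc D ^ 3 ≤ (x ^ (2 * s)) ^ 3 := Nat.pow_le_pow_left hD 3
      _ = x ^ (6 * s) := by rw [← pow_mul]; ring_nf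
  have hD2 : e ≤ x ^ (1 + 4 * s) := by
    calc e ≤ 2 * D ^ 2 := he
      _ ≤ x * (x ^ (2 * s)) ^ 2 := Nat.mul_le_mul hx2 (Nat.pow_le_pow_left hD 2)
      _ = x ^ (1 + 4 * s) := by rw [← pow_mul, pow_add, pow_one]; ring_nf
  have hL : L * L + 1 ≤ x ^ 2 := by rw [hx]; nlinarith
  have h8 : 144 ≤ x ^ 8 := by
    calc 144 ≤ 2 ^ 8 := by norm_num
      _ ≤ x ^ 8 := Nat.pow_le_pow_left hx2 8
  have hQ : 144 * p * D ^ 3 * (L * L + 1) + 1 ≤ x ^ (7 * s + 11) := by
    have h1 : 144 * p * D ^ 3 * (L * L + 1) ≤ x ^ 8 * x ^ s * x ^ (6 * s) * x ^ 2 := by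
      gcongr
    have h2 : x ^ 8 * x ^ s * x ^ (6 * s) * x ^ 2 = x ^ (7 * s + 10) := by
      rw [← pow_add, ← pow_add, ← pow_add]
      congr 1
      ring
    have h3 : x ^ (7 * s + 11) = x * x ^ (7 * s + 10) := by
      rw [← pow_succ']
    have h4 : 1 ≤ x ^ (7 * s + 10) := Nat.one_le_pow _ _ hx1
    calc _ ≤ x ^ (7 * s + 10) + 1 := by omega
      _ ≤ 2 * x ^ (7 * s + 10) := by omega
      _ ≤ x * x ^ (7 * s + 10) := Nat.mul_le_mul_right _ hx2
      _ = _ := h3.symm
  calc p * (e * (144 * p * D ^ 3 * (L * L + 1) + 1) ^ (p - 1))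
      ≤ x ^ s * (x ^ (1 + 4 * s) * (x ^ (7 * s + 11)) ^ s) := by
        refine Nat.mul_le_mul hps (Nat.mul_le_mul hD2 ?_)
        calc _ ≤ (x ^ (7 * s + 11)) ^ (p - 1) := Nat.pow_le_pow_left hQ _
          _ ≤ (x ^ (7 * s + 11)) ^ s :=
            Nat.pow_le_pow_right (Nat.one_le_pow _ _ hx1) (by omega)
    _ = _ := by
      rw [← pow_mul, ← pow_add, ← pow_add]
      congr 1
      ring

open Polynomial in
theorem rel_small (s : ℕ) : ∃ C : ℕ, ∀ (k : ℕ) (num : ℕ → ℤ) (den : ℕ → ℕ) (L : ℕ) (_ : k ≤ L)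
    (_ : ∀ t, t < k → 0 < den t) (_ : ∀ t, t < k → (num t).natAbs ≤ 2 ^ L)
    (_ : ∀ t, t < k → den t ≤ 2 ^ L) (p : ℕ) (_ : p ≤ s) (l : Fin p → ℂ)
    (_ : ∀ i, l i ^ k = ∑ t ∈ range k, ((num t : ℂ) / (den t : ℂ)) * l i ^ (k - 1 - t))
    (_ : ∀ i, l i ≠ 0) (g : Fin p → ℤ), Tors l g →
      g ∈ AddSubgroup.closure {h : Fin p → ℤ | (∀ i, |h i| ≤ ((2 + L) ^ C : ℕ)) ∧ Tors l h} := by
  classical
  refine ⟨s + (1 + 4 * s) + (7 * s + 11) * s, ?_⟩
  intro k num den L hkL hden0 hnum hden p hps l hl hl0 g hg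
  rcases Nat.eq_zero_or_pos p with rfl | hp
  · have : g = 0 := Subsingleton.elim _ _
    rw [this]
    exact AddSubgroup.zero_mem _
  have hk : 0 < k := by
    rcases Nat.eq_zero_or_pos k with rfl | h
    · have := hl ⟨0, hp⟩
      simp at this
    · exact h
  set pol := ipoly k num den with hpol
  have hpol0 : pol ≠ 0 := ipoly_ne_zero k num den hden0
  have hx : ∀ i, aeval (l i) pol = 0 := fun i => ipoly_aeval k num den hden0 _ (hl i)
  have hy : ∀ i, aeval ((starRingEnd ℂ) (l i)) pol = 0 := fun i =>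
    aeval_conj_eq_zero pol _ (hx i)
  have hA := ipoly_coeff_le k num den L hkL hnum hden
  rw [← hpol] at hA
  set S : Finset ℂ := univ.image l ∪ univ.image (fun i => (starRingEnd ℂ) (l i)) with hS
  have hSroot : ∀ z ∈ S, aeval z pol = 0 := by
    intro z hz
    rw [hS, Finset.mem_union, Finset.mem_image, Finset.mem_image] at hz
    rcases hz with ⟨i, _, rfl⟩ | ⟨i, _, rfl⟩
    · exact hx i
    · exact hy i
  have hScard : S.card ≤ 2 * p := by
    refine (Finset.card_union_le _ _).trans ?_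
    have h1 : (univ.image l).card ≤ p := by
      refine Finset.card_image_le.trans ?_
      rw [Finset.card_univ, Fintype.card_fin]
    have h2 : (univ.image (fun i => (starRingEnd ℂ) (l i))).card ≤ p := by
      refine Finset.card_image_le.trans ?_
      rw [Finset.card_univ, Fintype.card_fin]
    omega
  obtain ⟨hfin, hrank⟩ := finrank_adjoin_le S (fun _ => k) (by
    intro z hz
    refine ⟨pol.map (Int.castRingHom ℚ), ?_, ?_, ?_⟩
    · rw [Ne, Polynomial.map_eq_zero_iff (RingHom.injective_int _)]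
      exact hpol0
    · have := hSroot z hz
      rw [aeval_def, eval₂_map, ← this, aeval_def]
      congr 1
    · exact natDegree_map_le.trans (ipoly_natDegree k num den))
  set K := IntermediateField.adjoin ℚ (S : Set ℂ) with hK
  have hNF : NumberField K := ⟨⟩
  set D := Module.finrank ℚ K with hDdef
  have hD : D ≤ (2 + L) ^ (2 * s) := by
    refine hrank.trans ?_
    rw [Finset.prod_const]
    calc k ^ S.card ≤ k ^ (2 * s) := Nat.pow_le_pow_right hk (hScard.trans (by omega))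
      _ ≤ (2 + L) ^ (2 * s) := Nat.pow_le_pow_left (by omega) _
  have hDpos : 0 < D := Module.finrank_pos
  have hmem : ∀ z ∈ S, z ∈ K := fun z hz => IntermediateField.subset_adjoin _ _ hz
  let X : Fin p → K := fun i => ⟨l i, hmem _ (by
    rw [hS]
    exact Finset.mem_union_left _ (Finset.mem_image_of_mem _ (mem_univ i)))⟩
  let Y : Fin p → K := fun i => ⟨(starRingEnd ℂ) (l i), hmem _ (by
    rw [hS]
    exact Finset.mem_union_right _
      (Finset.mem_image_of_mem (fun i => (starRingEnd ℂ) (l i)) (mem_univ i)))⟩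
  have hX0 : ∀ i, X i ≠ 0 := fun i h => hl0 i (congrArg Subtype.val h)
  have hY0 : ∀ i, Y i ≠ 0 := fun i h => by
    have : (starRingEnd ℂ) (l i) = 0 := congrArg Subtype.val h
    exact hl0 i (by simpa using this)
  have hXr : ∀ i, aeval (X i) pol = 0 := fun i => by
    apply Subtype.val_injective
    have := Polynomial.aeval_algebraMap_apply ℂ (X i) pol
    have h2 : algebraMap K ℂ (aeval (X i) pol) = 0 := by
      rw [← this]; exact hx i
    exact h2
  have hYr : ∀ i, aeval (Y i) pol = 0 := fun i => by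
    apply Subtype.val_injective
    have := Polynomial.aeval_algebraMap_apply ℂ (Y i) pol
    have h2 : algebraMap K ℂ (aeval (Y i) pol) = 0 := by
      rw [← this]; exact hy i
    exact h2
  set β : Fin p → K := fun i => X i / Y i with hβdef
  have hβ0 : ∀ i, β i ≠ 0 := fun i => div_ne_zero (hX0 i) (hY0 i)
  have hcoe : ∀ g : Fin p → ℤ, ((∏ i, β i ^ g i : K) : ℂ) = (∏ i, nz (l i) ^ g i) ^ 2 := by
    intro g
    rw [← prod_nzr]
    push_cast
    refine Finset.prod_congr rfl fun i _ => ?_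
    have : nzr (l i) = l i := by
      unfold nzr
      rw [if_neg (hl0 i)]
    rw [this]
    exact map_zpow₀ (algebraMap K ℂ) (β i) (g i)
  have hiff : ∀ g : Fin p → ℤ, ∏ i, β i ^ g i = 1 ↔ (∏ i, nz (l i) ^ g i) ^ 2 = 1 := by
    intro g
    rw [← hcoe g]
    constructor
    · intro h; rw [h]; rfl
    · intro h; exact Subtype.val_injective h
  set A : ℕ := 2 ^ (L * L) with hAdef
  have hlogA : Real.log ((A : ℝ) + 1) ≤ L * L + 1 := by
    have h1 : (A : ℝ) + 1 ≤ 2 ^ (L * L + 1) := by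
      have h2 : (1 : ℝ) ≤ (2 : ℝ) ^ (L * L) := one_le_pow₀ (by norm_num)
      rw [hAdef]
      push_cast
      rw [pow_succ]
      linarith
    have h3 : Real.log ((A : ℝ) + 1) ≤ Real.log (2 ^ (L * L + 1)) :=
      Real.log_le_log (by positivity) h1
    rw [Real.log_pow] at h3
    have h4 : Real.log 2 ≤ 1 := by
      have := Real.log_two_lt_d9
      linarith
    have h5 : ((L * L + 1 : ℕ) : ℝ) * Real.log 2 ≤ ((L * L + 1 : ℕ) : ℝ) * 1 :=
      mul_le_mul_of_nonneg_left h4 (Nat.cast_nonneg _)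
    push_cast at h3 h5
    linarith
  have hheight : ∑ i, Height.logHeight₁ (β i) ≤ 6 * p * D * (L * L + 1) := by
    calc ∑ i, Height.logHeight₁ (β i) ≤ ∑ i : Fin p, (6 * D * (L * L + 1) : ℝ) := by
          refine Finset.sum_le_sum fun i _ => ?_
          have h1 := logHeight₁_root_le pol hpol0 A hA (X i) (hXr i)
          have h2 := logHeight₁_root_le pol hpol0 A hA (Y i) (hYr i)
          have h3 : Height.logHeight₁ (β i) ≤
              Height.logHeight₁ (X i) + Height.logHeight₁ (Y i) := by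
            rw [hβdef]
            simp only [div_eq_mul_inv]
            refine (Height.logHeight₁_mul_le _ _).trans ?_
            rw [Height.logHeight₁_inv]
          have h4 : (D : ℝ) * Real.log ((A : ℝ) + 1) ≤ D * (L * L + 1) :=
            mul_le_mul_of_nonneg_left hlogA (Nat.cast_nonneg _)
          rw [← hDdef] at h1 h2
          nlinarith
      _ = 6 * p * D * (L * L + 1) := by
          rw [Finset.sum_const, Finset.card_univ, Fintype.card_fin, nsmul_eq_mul]
          ring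
  set Q : ℕ := 144 * p * D ^ 3 * (L * L + 1) + 1 with hQdef
  have hQ : 24 * (D : ℝ) ^ 2 * (6 * p * D * (L * L + 1)) < (Q : ℝ) := by
    rw [hQdef]
    push_cast
    have : 24 * (D : ℝ) ^ 2 * (6 * p * D * (L * L + 1)) = 144 * p * D ^ 3 * (L * L + 1) := by ring
    rw [this]
    linarith
  set e := NumberField.Units.torsionOrder K with hedef
  have he0 : 0 < e := NumberField.Units.torsionOrder_pos _
  have hele : e ≤ 2 * D ^ 2 := torsionOrder_le K
  set T : Set (Fin p → ℤ) :=
    {h | (∀ i, |h i| ≤ (e * Q ^ (p - 1) : ℕ)) ∧ ∏ i, β i ^ h i = 1} with hT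
  have hspan1 : ∀ h : Fin p → ℤ, ∏ i, β i ^ h i = 1 →
      rv h ∈ Submodule.span ℚ (rv '' T) := by
    intro h hh
    apply mem_span_of_dual
    intro a ha
    exact relations_abstract β hβ0 _ hheight Q hQ e he0
      (fun z hz => pow_torsionOrder_eq_one K hz) a
      (fun g' hg' hrel => ha g' ⟨hg', hrel⟩) h hh
  obtain ⟨n, hn, hgn⟩ := hg
  have hspan : rv g ∈ Submodule.span ℚ (rv '' T) := by
    have h1 : ∏ i, β i ^ ((n : ℤ) • g) i = 1 := by
      rw [hiff]
      have h2 : ∏ i, nz (l i) ^ ((n : ℤ) • g) i = (∏ i, nz (l i) ^ g i) ^ n := by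
        rw [← Finset.prod_pow]
        apply Finset.prod_congr rfl
        intro i _
        rw [Pi.smul_apply, smul_eq_mul, mul_comm, zpow_mul, zpow_natCast]
      rw [h2, hgn, one_pow]
    have h3 := hspan1 _ h1
    have h4 : rv g = (n : ℚ)⁻¹ • rv ((n : ℤ) • g) := by
      funext i
      have hn' : (n : ℚ) ≠ 0 := by exact_mod_cast hn.ne'
      simp only [rv, Pi.smul_apply, smul_eq_mul]
      push_cast
      field_simp
    rw [h4]
    exact Submodule.smul_mem _ _ h3
  have key := mem_closure_of_span hp T (e * Q ^ (p - 1)) (fun t ht => ht.1) (torsG l)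
    (fun t ht => (mem_torsG l t).2 ⟨2, by norm_num, (hiff t).1 ht.2⟩) g ⟨n, hn, hgn⟩ hspan
  refine AddSubgroup.closure_mono ?_ key
  rintro h ⟨h1, h2⟩
  refine ⟨fun i => (h1 i).trans ?_, h2⟩
  exact_mod_cast rel_arith s p L D e hp hps hD hele

end Pool.Agent.MX
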