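import Pool.Agent.MX.CertDefs
import Pool.Agent.MX.RelSmall

/-! P19. The certified torus and the torsion coset of the roots of a level. -/

set_option autoImplicit false

namespace Pool.Agent.MX

open Complex Filter Topology Pool.Agent.DD7719 Pool.Agent.DD7719.M

variable {k p : ℕ}

/-- the base point of the coset -/
noncomputable def bpt (l : Fin k → ℂ) (ρ : ℝ) (q : ℕ) (r : Fin p → Fin k) (a : Fin p) : ℂ :=
  (l (r a) / (ρ : ℂ)) ^ q

/-- pushing exponents forward along `r` -/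
lemma prod_push (r : Fin p → Fin k) (g : Fin p → ℤ) (f : Fin k → ℂ) (hf : ∀ i, f i ≠ 0) :
    ∏ i, f i ^ (∑ a with r a = i, g a) = ∏ a, f (r a) ^ g a := by
  classical
  rw [← Finset.prod_fiberwise Finset.univ r (fun a => f (r a) ^ g a)]
  apply Finset.prod_congr rfl
  intro i _
  rw [← prod_zpow_sum _ _ (hf i)]
  apply Finset.prod_congr rfl
  intro a ha
  rw [(Finset.mem_filter.mp ha).2]

lemma nz_ne_zero2 (z : ℂ) : nz z ≠ 0 := by
  rw [← norm_pos_iff, norm_nz]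
  exact one_pos

lemma bpt_eq (l : Fin k → ℂ) (ρ : ℝ) (hρ : 0 < ρ) (q : ℕ) (r : Fin p → Fin k)
    (hr : ∀ a, ‖l (r a)‖ = ρ) (a : Fin p) : bpt l ρ q r a = nz (l (r a)) ^ q := by
  have h0 : l (r a) ≠ 0 := by
    rw [← norm_pos_iff, hr a]
    exact hρ
  rw [bpt, nz, if_neg h0, hr a]

/-- points of the certified torus give points of the coset (`cert_torus_rel`) -/
theorem coset_mem (l c : Fin k → ℂ) (ex : Fin k → ℕ) (R M Nb : ℕ) (ε δ : ℝ) (v : ℕ → ℝ)
    (hg : GoodD k l c ex R M ε δ v)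
    (n0 j : ℕ) (A H : Fin k → Fin k → ℤ) (D : ℤ) (s : ℕ) (w : Fin k → Fin k → ℝ)
    (τ : Fin k → ℝ) (ρ : ℝ) (d : ℕ)
    (hbase : BaseF k l c ex M Nb ε δ n0 j A H D s w τ ρ d) (hρ : 0 < ρ)
    (r : Fin p → Fin k) (hr : ∀ a, ‖l (r a)‖ = ρ) (z : Fin k → ℂ) (hz : ∀ t, ‖z t‖ = 1)
    (g : Fin p → ℤ) (hgT : Tors (fun a => l (r a)) g) (q : ℕ) :
    ∏ a, (bpt l ρ q r a * Wt A s z (r a)) ^ g a = ∏ a, bpt l ρ q r a ^ g a := by
  classical
  obtain ⟨_, _, _, _, _, hD, _, hHA, hA, hH, hδ', hw, hwε, _, _, _⟩ := hbase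
  have hWt0 : ∀ i, Wt A s z i ≠ 0 := fun i => by
    rw [← norm_pos_iff, norm_Wt A s z hz]
    exact one_pos
  have h1 := cert_torus_rel l R M n0 hg.hR hg.hM hg.hrb A H D s w τ ε δ hD hHA hA hH hδ' hw
    hwε hg.hε hg.hδ z hz (fun i => ∑ a with r a = i, g a) (by
      obtain ⟨n, hn, hn1⟩ := hgT
      refine ⟨n, hn, ?_⟩
      rw [prod_push r g (fun i => nz (l i)) (fun i => nz_ne_zero2 _)]
      exact hn1)
  have h2 : ∏ a, Wt A s z (r a) ^ g a = 1 := by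
    rw [← prod_push r g (fun i => Wt A s z i) hWt0]
    exact h1
  calc ∏ a, (bpt l ρ q r a * Wt A s z (r a)) ^ g a
      = ∏ a, (bpt l ρ q r a ^ g a * Wt A s z (r a) ^ g a) :=
        Finset.prod_congr rfl fun a _ => mul_zpow _ _ _
    _ = (∏ a, bpt l ρ q r a ^ g a) * ∏ a, Wt A s z (r a) ^ g a := Finset.prod_mul_distrib
    _ = ∏ a, bpt l ρ q r a ^ g a := by rw [h2, mul_one]

/-- points of the coset are limits of points given by the orbit (`kronecker`) -/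
theorem coset_limit (l : Fin k → ℂ) (n0 : ℕ) (hn0 : 0 < n0) (A : Fin k → Fin k → ℤ) (s : ℕ)
    (y : Fin k → ℝ) (hrep : Rep l n0 A s y) (ρ : ℝ) (hρ : 0 < ρ)
    (r : Fin p → Fin k) (hr : ∀ a, ‖l (r a)‖ = ρ) (q : ℕ) (x : Fin p → ℂ) (hx : ∀ a, ‖x a‖ = 1)
    (hrel : ∀ g : Fin p → ℤ, Tors (fun a => l (r a)) g →
      ∏ a, x a ^ g a = ∏ a, bpt l ρ q r a ^ g a) (η : ℝ) (hη : 0 < η) :
    ∃ m : ℕ, ∀ a, ‖bpt l ρ q r a * Wt A s (orb y m) (r a) - x a‖ < η := by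
  have hb : ∀ a, ‖bpt l ρ q r a‖ = 1 := fun a => by
    rw [bpt_eq l ρ hρ q r hr a, norm_pow, norm_nz, one_pow]
  have hb0 : ∀ a, bpt l ρ q r a ≠ 0 := fun a => by
    rw [← norm_pos_iff, hb a]
    exact one_pos
  obtain ⟨n, _, hn⟩ := kronecker (fun a => nz (l (r a))) (fun a => x a * (bpt l ρ q r a)⁻¹)
    (fun a => norm_nz _)
    (fun a => by rw [norm_mul, norm_inv, hb, hx, inv_one, mul_one])
    (fun g hg => by
      have h1 : ∏ a, (x a * (bpt l ρ q r a)⁻¹) ^ g a =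
          (∏ a, x a ^ g a) * (∏ a, bpt l ρ q r a ^ g a)⁻¹ := by
        rw [← Finset.prod_inv_distrib, ← Finset.prod_mul_distrib]
        apply Finset.prod_congr rfl
        intro a _
        rw [mul_zpow, inv_zpow]
      rw [h1, hrel g hg]
      refine mul_inv_cancel₀ ?_
      exact Finset.prod_ne_zero_iff.mpr fun a _ => zpow_ne_zero _ (hb0 a))
    n0 hn0 0 η hη
  refine ⟨n, fun a => ?_⟩
  have h1 : bpt l ρ q r a * Wt A s (orb y n) (r a) - x a =
      bpt l ρ q r a * (nz (l (r a)) ^ (n0 * n) - x a * (bpt l ρ q r a)⁻¹) := by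
    rw [hrep.Wt_orb n (r a), ← pow_mul, mul_sub, mul_left_comm, mul_inv_cancel₀ (hb0 a), mul_one]
  rw [h1, norm_mul, hb a, one_mul]
  exact hn a

/-- relations on a set of generators are enough -/
theorem rel_of_closure (x b : Fin p → ℂ) (hx : ∀ a, x a ≠ 0) (hb : ∀ a, b a ≠ 0)
    (S : Set (Fin p → ℤ)) (h : ∀ g ∈ S, ∏ a, x a ^ g a = ∏ a, b a ^ g a) (g : Fin p → ℤ)
    (hg : g ∈ AddSubgroup.closure S) : ∏ a, x a ^ g a = ∏ a, b a ^ g a := by
  induction hg using AddSubgroup.closure_induction with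
  | mem g hg => exact h g hg
  | zero => simp
  | add g g' _ _ ih ih' =>
    have h1 : ∀ y : Fin p → ℂ, (∀ a, y a ≠ 0) → ∏ a, y a ^ (g + g') a =
        (∏ a, y a ^ g a) * ∏ a, y a ^ g' a := by
      intro y hy
      rw [← Finset.prod_mul_distrib]
      apply Finset.prod_congr rfl
      intro a _
      rw [Pi.add_apply, zpow_add₀ (hy a)]
    rw [h1 x hx, h1 b hb, ih, ih']
  | neg g _ ih =>
    have h1 : ∀ y : Fin p → ℂ, ∏ a, y a ^ (-g) a = (∏ a, y a ^ g a)⁻¹ := by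
      intro y
      rw [← Finset.prod_inv_distrib]
      apply Finset.prod_congr rfl
      intro a _
      rw [Pi.neg_apply, zpow_neg]
    rw [h1 x, h1 b, ih]

end Pool.Agent.MX
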