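import Pool.Agent.DD7719.TCoef

/-! P8. The coefficients of root data are rational functions of the roots, compatibly with
conjugation. -/

set_option autoImplicit false

namespace Pool.Agent.MX

open Pool.Agent.DD7719 Pool.Agent.DD7719.M Finset Polynomial

/-- uniqueness of root data up to a permutation -/
private lemma coefR_perm {k : ℕ} {a u : ℕ → ℝ} {l c l' c' : ℕ → ℂ} {ex : ℕ → ℕ}
    (h : RootData k a u l c ex) (h' : RootData k a u l' c' ex) (i : Fin k) :
    ∃ i' : Fin k, l i' = l' i ∧ ex i' = ex i ∧ c i' = c' i := by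
  classical
  have hex : ∀ i : Fin k, ∃ i' : Fin k, l i' = l' i ∧ ex i' = ex i := fun i =>
    h.surj (l' i) (ex i) (h'.mem i)
  choose π hπ1 hπ2 using hex
  have hinj : Function.Injective π := by
    intro i j hij
    by_contra hne
    have hne' : (i : ℕ) ≠ j := fun h => hne (Fin.ext h)
    rcases h'.2.1 i i.2 j j.2 hne' with h1 | h1
    · exact h1 (by rw [← hπ1 i, ← hπ1 j, hij])
    · exact h1 (by rw [← hπ2 i, ← hπ2 j, hij])
  have hbij : Function.Bijective π := Finite.injective_iff_bijective.mp hinj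
  let e : Fin k ≃ Fin k := Equiv.ofBijective π hbij
  have hzero : (vmat k fun i => (l' i, ex i)).mulVec (fun i : Fin k => c' i - c (π i)) = 0 := by
    ext n
    have h3 := h'.2.2.2 n n.2
    have h4 := h.2.2.2 n n.2
    rw [Finset.sum_range] at h3 h4
    rw [← Equiv.sum_comp e] at h4
    simp only [Matrix.mulVec, dotProduct, vmat, Pi.zero_apply]
    have h5 : ∀ i : Fin k, ((n : ℕ).choose (ex i) : ℂ) * l' i ^ ((n : ℕ) - ex i) *
        (c' i - c (π i)) = c' i * ((n : ℕ).choose (ex i) : ℂ) * l' i ^ ((n : ℕ) - ex i) -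
        c (e i) * ((n : ℕ).choose (ex (e i)) : ℂ) * l (e i) ^ ((n : ℕ) - ex (e i)) := by
      intro i
      have e1 : e i = π i := rfl
      rw [e1, hπ1, hπ2]
      ring
    rw [Finset.sum_congr rfl fun i _ => h5 i, Finset.sum_sub_distrib, h3, h4, sub_self]
  have h0 := Matrix.eq_zero_of_mulVec_eq_zero h'.det_ne_zero hzero
  refine ⟨π i, hπ1 i, hπ2 i, ?_⟩
  have := congrFun h0 i
  simp only [Pi.zero_apply, sub_eq_zero] at this
  exact this.symm

/-- an element all of whose conjugates agree with it lies in the base field -/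
private lemma coefR_mem {F E : Type*} [Field F] [Field E] [Algebra F E] [CharZero F] [Algebra F ℂ]
    [Algebra E ℂ] [IsScalarTower F E ℂ] [Algebra.IsAlgebraic F E] (x : E)
    (hx : ∀ ψ : E →ₐ[F] ℂ, ψ x = algebraMap E ℂ x) : x ∈ (algebraMap F E).range := by
  classical
  have hint : IsIntegral F x := Algebra.IsIntegral.isIntegral x
  rw [← minpoly.natDegree_eq_one_iff]
  have hsep : (minpoly F x).Separable := (minpoly.irreducible hint).separable
  have hspl : ((minpoly F x).map (algebraMap F ℂ)).Splits := IsAlgClosed.splits _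
  have hcard := card_rootSet_eq_natDegree hsep hspl
  have hsub : (minpoly F x).rootSet ℂ ⊆ {algebraMap E ℂ x} := by
    intro y hy
    have hy' : aeval y (minpoly F x) = 0 :=
      (mem_rootSet.mp hy).2
    obtain ⟨ψ, hψ⟩ := IntermediateField.exists_algHom_of_splits_of_aeval
      (fun s : E => ⟨Algebra.IsIntegral.isIntegral s, IsAlgClosed.splits _⟩) hy'
    rw [Set.mem_singleton_iff, ← hψ, hx ψ]
  have h1 : Fintype.card ((minpoly F x).rootSet ℂ) ≤ 1 := by
    rw [Fintype.card_le_one_iff]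
    rintro ⟨y, hy⟩ ⟨z, hz⟩
    apply Subtype.ext
    have h2 := hsub hy
    have h3 := hsub hz
    rw [Set.mem_singleton_iff] at h2 h3
    show y = z
    rw [h2, h3]
  have h2 : 0 < (minpoly F x).natDegree := minpoly.natDegree_pos hint
  omega

theorem coef_poly (k : ℕ) (a u : ℕ → ℝ) (ha : ∀ t, t < k → ∃ q : ℚ, a t = q)
    (hu : ∀ t, t < k → ∃ q : ℚ, u t = q) (l c : ℕ → ℂ) (ex : ℕ → ℕ) (hrd : RootData k a u l c ex)
    (i : ℕ) (hi : i < k) :
    ∃ R : ℚ[X], c i = aeval (l i) R ∧
      ∀ z : ℂ, aeval z (minpoly ℚ (l i)) = 0 → ∃ i', i' < k ∧ aeval z R = c i' := by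
  classical
  choose! qa hqa using ha
  choose! qu hqu using hu
  have halg : ∀ j : Fin k, IsAlgebraic ℚ (l j) := by
    intro j
    refine ⟨cp k qa, (cp_monic k qa).ne_zero, ?_⟩
    have h1 := hrd.root j j.2
    rw [cp, map_sub, map_sum, map_pow, aeval_X, sub_eq_zero, h1]
    refine Finset.sum_congr rfl fun t ht => ?_
    rw [map_mul, aeval_C, map_pow, aeval_X, hqa t (Finset.mem_range.mp ht)]
    simp
  set E := algebraicClosure ℚ ℂ with hE
  have hEalg : Algebra.IsAlgebraic ℚ E := algebraicClosure.isAlgebraic ℚ ℂ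
  have hEint : Algebra.IsIntegral ℚ E := Algebra.isAlgebraic_iff_isIntegral.mp hEalg
  let lE : Fin k → E := fun j => ⟨l j, mem_algebraicClosure_iff.mpr (halg j)⟩
  have hlE : ∀ j, algebraMap E ℂ (lE j) = l j := fun j => rfl
  have hEinj : Function.Injective (algebraMap E ℂ) := (algebraMap E ℂ).injective
  let ME : Matrix (Fin k) (Fin k) E := fun n j =>
    ((n : ℕ).choose (ex j) : E) * lE j ^ ((n : ℕ) - ex j)
  have hMmap : (algebraMap E ℂ).mapMatrix ME = vmat k fun j => (l j, ex j) := by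
    ext n j
    simp only [ME, RingHom.mapMatrix_apply, Matrix.map_apply, vmat, map_mul, map_pow, map_natCast,
      hlE]
  have hMdet : ME.det ≠ 0 := by
    intro h0
    apply hrd.det_ne_zero
    rw [← hMmap, ← RingHom.map_det, h0, map_zero]
  let cE : Fin k → E := ME⁻¹.mulVec fun n : Fin k => algebraMap ℚ E (qu n)
  have hME : ME.mulVec cE = fun n : Fin k => algebraMap ℚ E (qu n) := by
    show ME.mulVec (ME⁻¹.mulVec fun n : Fin k => algebraMap ℚ E (qu n)) = _
    rw [Matrix.mulVec_mulVec, Matrix.mul_nonsing_inv _ (isUnit_iff_ne_zero.mpr hMdet),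
      Matrix.one_mulVec]
  have hE3 : ∀ j : Fin k, ∀ e, e ≤ ex j → (k.choose e : E) * lE j ^ (k - e) =
      ∑ t ∈ Finset.range k, algebraMap ℚ E (qa t) * ((k - 1 - t).choose e : E) *
        lE j ^ (k - 1 - t - e) := by
    intro j e he
    apply hEinj
    have h1 := hrd.2.2.1 j j.2 e he
    rw [map_mul, map_natCast, map_pow, hlE, h1, map_sum]
    refine Finset.sum_congr rfl fun t ht => ?_
    rw [map_mul, map_mul, map_pow, map_natCast, hlE, ← IsScalarTower.algebraMap_apply,
      hqa t (Finset.mem_range.mp ht)]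
    simp
  -- the transported root data
  have hψ : ∀ ψ : E →ₐ[ℚ] ℂ, RootData k a u (fun t => if h : t < k then ψ (lE ⟨t, h⟩) else 0)
      (fun t => if h : t < k then ψ (cE ⟨t, h⟩) else 0) ex := by
    intro ψ
    have hψinj : Function.Injective ψ := ψ.toRingHom.injective
    refine ⟨hrd.1, ?_, ?_, ?_⟩
    · intro j hj j' hj' hne
      rcases hrd.2.1 j hj j' hj' hne with h1 | h1
      · left
        intro h2
        simp only [hj, hj', dif_pos] at h2
        exact h1 (congrArg (algebraMap E ℂ) (hψinj h2))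
      · exact Or.inr h1
    · intro j hj e he
      have h1 := congrArg ψ (hE3 ⟨j, hj⟩ e he)
      simp only [hj, dif_pos]
      rw [map_mul, map_natCast, map_pow, map_sum] at h1
      rw [h1]
      refine Finset.sum_congr rfl fun t ht => ?_
      rw [map_mul, map_mul, map_pow, map_natCast, AlgHom.commutes,
        hqa t (Finset.mem_range.mp ht)]
      simp
    · intro n hn
      have h1 := congrArg ψ (congrFun hME ⟨n, hn⟩)
      rw [AlgHom.commutes] at h1
      simp only [Matrix.mulVec, dotProduct, ME, map_sum, map_mul, map_pow, map_natCast] at h1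
      rw [Finset.sum_range]
      simp only [Fin.is_lt, dif_pos, Fin.eta]
      rw [hqu n hn]
      have h2 : ((qu n : ℝ) : ℂ) = algebraMap ℚ ℂ (qu n) := by simp
      rw [h2, ← h1]
      refine Finset.sum_congr rfl fun j _ => ?_
      simp only [cE]
      ring
  have hkey : ∀ (ψ : E →ₐ[ℚ] ℂ) (j : Fin k), ∃ j' : Fin k, l j' = ψ (lE j) ∧ ex j' = ex j ∧
      c j' = ψ (cE j) := by
    intro ψ j
    have h1 := coefR_perm hrd (hψ ψ) j
    simpa only [Fin.is_lt, dif_pos, Fin.eta] using h1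
  have hfix : ∀ (ψ : E →ₐ[ℚ] ℂ) (j : Fin k), ψ (lE j) = l j → ψ (cE j) = c j := by
    intro ψ j hj
    obtain ⟨j', h1, h2, h3⟩ := hkey ψ j
    have h4 : j' = j := by
      by_contra hne
      have hne' : (j' : ℕ) ≠ j := fun h => hne (Fin.ext h)
      rcases hrd.2.1 j' j'.2 j j.2 hne' with h5 | h5
      · exact h5 (h1.trans hj)
      · exact h5 h2
    rw [← h3, h4]
  let i0 : Fin k := ⟨i, hi⟩
  have hcE : ∀ j, algebraMap E ℂ (cE j) = c j := by
    intro j
    exact hfix (IsScalarTower.toAlgHom ℚ E ℂ) j rfl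
  let F0 : IntermediateField ℚ E := IntermediateField.adjoin ℚ {lE i0}
  have hF0 : Algebra.IsAlgebraic F0 E := Algebra.IsAlgebraic.tower_top (K := ℚ) F0
  have hmem : cE i0 ∈ F0 := by
    have h1 : cE i0 ∈ (algebraMap F0 E).range := by
      apply coefR_mem
      intro ψ
      rw [hcE]
      have h2 : ψ (lE i0) = l i0 := by
        have h3 : lE i0 = algebraMap F0 E ⟨lE i0, IntermediateField.mem_adjoin_simple_self ℚ _⟩ :=
          rfl
        rw [h3, ψ.commutes]
        rfl
      exact hfix (ψ.restrictScalars ℚ) i0 h2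
    obtain ⟨y, hy⟩ := h1
    rw [← hy]
    exact y.2
  have hR : ∃ R : ℚ[X], cE i0 = aeval (lE i0) R := by
    have h1 : cE i0 ∈ F0.toSubalgebra := hmem
    have h2 : IsAlgebraic ℚ (lE i0) := Algebra.IsAlgebraic.isAlgebraic _
    rw [IntermediateField.adjoin_simple_toSubalgebra_of_isAlgebraic h2,
      Algebra.adjoin_singleton_eq_range_aeval] at h1
    obtain ⟨R, hR⟩ := h1
    exact ⟨R, hR.symm⟩
  obtain ⟨R, hR⟩ := hR
  refine ⟨R, ?_, ?_⟩
  · have h1 := congrArg (algebraMap E ℂ) hR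
    rw [hcE, ← aeval_algebraMap_apply, hlE] at h1
    exact h1
  · intro z hz
    have hz' : aeval z (minpoly ℚ (lE i0)) = 0 := by
      have h1 : minpoly ℚ (lE i0) = minpoly ℚ (l i) := by
        have h2 := minpoly.algebraMap_eq (A := ℚ) hEinj (lE i0)
        rw [← h2]
        rfl
      rw [h1]
      exact hz
    obtain ⟨ψ, hψz⟩ := IntermediateField.exists_algHom_of_splits_of_aeval
      (fun s : E => ⟨Algebra.IsIntegral.isIntegral s, IsAlgClosed.splits _⟩) hz'
    obtain ⟨j', h1, _, h3⟩ := hkey ψ i0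
    refine ⟨j', j'.2, ?_⟩
    rw [h3, hR, ← hψz, aeval_algHom_apply]

/-- membership in fields and conjugates -/
theorem coef_field (k : ℕ) (a u : ℕ → ℝ) (ha : ∀ t, t < k → ∃ q : ℚ, a t = q)
    (hu : ∀ t, t < k → ∃ q : ℚ, u t = q) (l c : ℕ → ℂ) (ex : ℕ → ℕ) (hrd : RootData k a u l c ex)
    (i : ℕ) (hi : i < k) (F : IntermediateField ℚ ℂ) (hF : l i ∈ F) :
    ∃ h : c i ∈ F, ∀ φ : F →ₐ[ℚ] ℂ, ∃ i', i' < k ∧ φ ⟨c i, h⟩ = c i' := by
  obtain ⟨R, hR1, hR2⟩ := coef_poly k a u ha hu l c ex hrd i hi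
  have h0 : algebraMap F ℂ (aeval (⟨l i, hF⟩ : F) R) = c i := by
    rw [← aeval_algebraMap_apply]
    exact hR1.symm
  have h : c i ∈ F := by
    rw [← h0]
    exact (aeval (⟨l i, hF⟩ : F) R).2
  refine ⟨h, fun φ => ?_⟩
  have h1 : (⟨c i, h⟩ : F) = aeval (⟨l i, hF⟩ : F) R := Subtype.ext h0.symm
  obtain ⟨i', hi', h2⟩ := hR2 (φ ⟨l i, hF⟩) (by
    have h3 : minpoly ℚ (l i) = minpoly ℚ (⟨l i, hF⟩ : F) :=
      minpoly.algebraMap_eq (A := ℚ) (algebraMap F ℂ).injective (⟨l i, hF⟩ : F)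
    rw [h3, aeval_algHom_apply, minpoly.aeval, map_zero])
  exact ⟨i', hi', by rw [h1, ← aeval_algHom_apply, h2]⟩

end Pool.Agent.MX
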