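import Pool.Agent.MX.Coset
import Pool.Agent.MX.ElimMin
import Pool.Agent.MX.CoefB
import Pool.Agent.MX.CoefR
import Pool.Agent.DD7719.NPoly

/-! P20. The minimum of the level function when the level has a bounded number of roots. -/

set_option autoImplicit false

namespace Pool.Agent.MX

open Complex Filter Topology Pool.Agent.DD7719 Pool.Agent.DD7719.M Finset

private lemma mg_ratP (P : Polynomial ℤ) (hP : P ≠ 0) (z : ℂ) (hz : Polynomial.aeval z P = 0)
    (n : ℕ) (hn : P.natDegree ≤ n) :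
    ∃ Q : Polynomial ℚ, Q ≠ 0 ∧ Polynomial.aeval z Q = 0 ∧ Q.natDegree ≤ n := by
  refine ⟨P.map (algebraMap ℤ ℚ), ?_, ?_, ?_⟩
  · rw [Ne, Polynomial.map_eq_zero_iff (algebraMap ℤ ℚ).injective_int]
    exact hP
  · rw [Polynomial.aeval_map_algebraMap]
    exact hz
  · exact Polynomial.natDegree_map_le.trans hn

private lemma mg_root (k : ℕ) (num : ℕ → ℤ) (den : ℕ → ℕ) (hden : ∀ t, t < k → 0 < den t) (z : ℂ)
    (hz : z ^ k = ∑ t ∈ range k, ((num t : ℂ) / (den t : ℂ)) * z ^ (k - 1 - t)) :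
    ∃ P : Polynomial ℤ, P ≠ 0 ∧ Polynomial.aeval z P = 0 ∧
      Polynomial.aeval ((starRingEnd ℂ) z) P = 0 ∧ P.natDegree ≤ k := by
  refine ⟨ipoly k num den, ipoly_ne_zero k num den hden, ipoly_aeval k num den hden z hz,
    ipoly_aeval k num den hden _ ?_, ipoly_natDegree k num den⟩
  have h := congrArg (starRingEnd ℂ) hz
  rw [map_pow, map_sum] at h
  rw [h]
  refine sum_congr rfl fun t _ => ?_
  rw [map_mul, map_pow, map_div₀, map_natCast, map_intCast]

private lemma mg_norm (k : ℕ) (z : ℂ) (P : Polynomial ℤ) (hP : P ≠ 0)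
    (h1 : Polynomial.aeval z P = 0) (h2 : Polynomial.aeval ((starRingEnd ℂ) z) P = 0)
    (hk : P.natDegree ≤ k) (ρ : ℝ) (hρ : ‖z‖ = ρ) :
    ∃ Q : Polynomial ℤ, Q ≠ 0 ∧ Polynomial.aeval (ρ : ℂ) Q = 0 ∧ Q.natDegree ≤ 2 * k * k := by
  have hfin : ∃ H : ℕ, ∀ i, (P.coeff i).natAbs ≤ H :=
    ⟨Pool.Agent.RElim.pn Int.natAbs P, fun i => coeff_le_pn P i⟩
  obtain ⟨H, hH⟩ := hfin
  obtain ⟨g, hg0, hg1, hg2, _⟩ := exists_prod_poly P P hP hP z _ h1 h2 H hH hH
  refine ⟨Polynomial.expand ℤ 2 g, (Polynomial.expand_ne_zero (by norm_num)).mpr hg0, ?_, ?_⟩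
  · rw [Polynomial.expand_aeval]
    have h3 : (ρ : ℂ) ^ 2 = z * (starRingEnd ℂ) z := by
      rw [← hρ, Complex.mul_conj']
    rw [h3]
    exact hg1
  · rw [Polynomial.natDegree_expand]
    have h3 : P.natDegree * P.natDegree ≤ k * k := Nat.mul_le_mul hk hk
    nlinarith

/-- the arithmetic of the exponents -/
private lemma mg_exp (s C C' : ℕ) : ∃ E : ℕ, ∀ L : ℕ,
    (2 + (2 + L) ^ C + (2 * L * L + 2) ^ (2 * s + 2) + pcf L) ^ C' + 3 * L * L ≤ (2 + L) ^ E := by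
  refine ⟨((C + 3 * (2 * s + 2) + 10) + 2) * C' + 5, fun L => ?_⟩
  set N := 2 + L with hN
  have hN2 : 2 ≤ N := by omega
  have hpow : ∀ i j : ℕ, i ≤ j → N ^ i ≤ N ^ j := fun i j h => Nat.pow_le_pow_right (by omega) h
  have hN4 : 4 ≤ N ^ 2 := by nlinarith
  set K := C + 3 * (2 * s + 2) + 10 with hK
  have h1 : 2 ≤ N ^ K := by
    calc 2 ≤ N := hN2
      _ ≤ N ^ K := Nat.le_self_pow (by omega) N
  have h2 : N ^ C ≤ N ^ K := hpow _ _ (by omega)
  have h3 : (2 * L * L + 2) ^ (2 * s + 2) ≤ N ^ K := by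
    have h4 : 2 * L * L + 2 ≤ N ^ 3 := by
      have h5 : 2 * L * L + 2 ≤ 2 * N ^ 2 := by rw [hN]; nlinarith
      calc 2 * L * L + 2 ≤ 2 * N ^ 2 := h5
        _ ≤ N * N ^ 2 := Nat.mul_le_mul_right _ hN2
        _ = N ^ 3 := by ring
    calc (2 * L * L + 2) ^ (2 * s + 2) ≤ (N ^ 3) ^ (2 * s + 2) := Nat.pow_le_pow_left h4 _
      _ = N ^ (3 * (2 * s + 2)) := by rw [← pow_mul]
      _ ≤ N ^ K := hpow _ _ (by omega)
  have h4 : pcf L ≤ N ^ K := by
    have h5 : (L + 1) ^ 4 ≤ N ^ 4 := Nat.pow_le_pow_left (by omega) _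
    have h6 : 20 ≤ N ^ 5 := by
      calc 20 ≤ 2 ^ 5 := by norm_num
        _ ≤ N ^ 5 := Nat.pow_le_pow_left hN2 _
    calc pcf L = 20 * (L + 1) ^ 4 := rfl
      _ ≤ N ^ 5 * N ^ 4 := Nat.mul_le_mul h6 h5
      _ = N ^ 9 := by rw [← pow_add]
      _ ≤ N ^ K := hpow _ _ (by omega)
  have h5 : 2 + N ^ C + (2 * L * L + 2) ^ (2 * s + 2) + pcf L ≤ N ^ (K + 2) := by
    have h6 : 4 * N ^ K ≤ N ^ 2 * N ^ K := Nat.mul_le_mul_right _ hN4
    have h7 : N ^ (K + 2) = N ^ 2 * N ^ K := by rw [pow_add, mul_comm]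
    rw [h7]
    omega
  have h6 : 3 * L * L ≤ N ^ 4 := by
    have h7 : L * L ≤ N ^ 2 := by rw [hN]; nlinarith
    calc 3 * L * L = 3 * (L * L) := by ring
      _ ≤ N ^ 2 * N ^ 2 := Nat.mul_le_mul (by omega) h7
      _ = N ^ 4 := by rw [← pow_add]
  calc (2 + N ^ C + (2 * L * L + 2) ^ (2 * s + 2) + pcf L) ^ C' + 3 * L * L
      ≤ (N ^ (K + 2)) ^ C' + N ^ 4 := add_le_add (Nat.pow_le_pow_left h5 _) h6
    _ = N ^ ((K + 2) * C') + N ^ 4 := by rw [← pow_mul]
    _ ≤ N ^ ((K + 2) * C' + 4) + N ^ ((K + 2) * C' + 4) :=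
        add_le_add (hpow _ _ (by omega)) (hpow _ _ (by omega))
    _ = 2 * N ^ ((K + 2) * C' + 4) := by ring
    _ ≤ N * N ^ ((K + 2) * C' + 4) := Nat.mul_le_mul_right _ hN2
    _ = N ^ ((K + 2) * C' + 5) := by ring

private lemma mg_final (L k d j X Y : ℕ) (hkL : k ≤ L) (hd : d < k) (hj : k ≤ j) (ρ f : ℝ)
    (hρ : 0 < ρ) (hρL : ρ ≤ 2 ^ (2 * L)) (hXY : X + 3 * L * L ≤ Y) (hf : 1 / 2 ^ X ≤ f) :
    1 / 2 ^ Y * d.factorial * ρ ^ j ≤ ρ ^ (j - d) * f := by
  have hdL : d ≤ L := by omega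
  have h1 : (d.factorial : ℝ) ≤ 2 ^ (L * L) := by
    have : d.factorial ≤ 2 ^ (L * L) := by
      calc d.factorial ≤ d ^ d := Nat.factorial_le_pow d
        _ ≤ (2 ^ d) ^ d := Nat.pow_le_pow_left Nat.lt_two_pow_self.le _
        _ = 2 ^ (d * d) := by rw [← pow_mul]
        _ ≤ 2 ^ (L * L) := Nat.pow_le_pow_right (by norm_num) (Nat.mul_le_mul hdL hdL)
    exact_mod_cast this
  have h2 : ρ ^ d ≤ 2 ^ (2 * L * L) := by
    calc ρ ^ d ≤ ((2 : ℝ) ^ (2 * L)) ^ d := pow_le_pow_left₀ hρ.le hρL _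
      _ ≤ ((2 : ℝ) ^ (2 * L)) ^ L := pow_le_pow_right₀ (one_le_pow₀ (by norm_num)) hdL
      _ = 2 ^ (2 * L * L) := by rw [← pow_mul]
  have h3 : ρ ^ j = ρ ^ (j - d) * ρ ^ d := by
    rw [← pow_add]
    congr 1
    omega
  have h4 : (d.factorial : ℝ) * ρ ^ d ≤ 2 ^ (3 * L * L) := by
    calc (d.factorial : ℝ) * ρ ^ d ≤ 2 ^ (L * L) * 2 ^ (2 * L * L) :=
          mul_le_mul h1 h2 (by positivity) (by positivity)
      _ = 2 ^ (3 * L * L) := by
          rw [← pow_add]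
          congr 1
          ring
  have h5 : 1 / 2 ^ Y * ((d.factorial : ℝ) * ρ ^ d) ≤ 1 / 2 ^ X := by
    rw [div_mul_eq_mul_div, one_mul, div_le_div_iff₀ (by positivity) (by positivity), one_mul]
    calc (d.factorial : ℝ) * ρ ^ d * 2 ^ X ≤ 2 ^ (3 * L * L) * 2 ^ X :=
          mul_le_mul_of_nonneg_right h4 (by positivity)
      _ = 2 ^ (X + 3 * L * L) := by rw [← pow_add, add_comm]
      _ ≤ 2 ^ Y := pow_le_pow_right₀ (by norm_num) hXY
  calc 1 / 2 ^ Y * d.factorial * ρ ^ j = ρ ^ (j - d) * (1 / 2 ^ Y * ((d.factorial : ℝ) * ρ ^ d)) := by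
        rw [h3]
        ring
    _ ≤ ρ ^ (j - d) * f := mul_le_mul_of_nonneg_left (h5.trans hf) (by positivity)

private lemma mg_dg (k L p s : ℕ) (hkL : k ≤ L) (hp : p ≤ s) :
    (2 * k * k + 2) ^ (2 * p + 2) ≤ (2 * L * L + 2) ^ (2 * s + 2) := by
  have h : k * k ≤ L * L := Nat.mul_le_mul hkL hkL
  calc (2 * k * k + 2) ^ (2 * p + 2) ≤ (2 * L * L + 2) ^ (2 * p + 2) := by
        refine Nat.pow_le_pow_left ?_ _
        nlinarith
    _ ≤ (2 * L * L + 2) ^ (2 * s + 2) := Nat.pow_le_pow_right (by omega) (by omega)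

/-- the field generated by the roots of the level, their conjugates, `ρ` and `I` -/
private lemma mg_field (k p : ℕ) (num : ℕ → ℤ) (den : ℕ → ℕ) (hden : ∀ t, t < k → 0 < den t)
    (l : Fin p → ℂ) (hl : ∀ a, l a ^ k = ∑ t ∈ range k, ((num t : ℂ) / (den t : ℂ)) * l a ^ (k - 1 - t))
    (ρ : ℝ) (hρ : ∀ a, ‖l a‖ = ρ) (hp : 0 < p) :
    ∃ F : IntermediateField ℚ ℂ, FiniteDimensional ℚ F ∧
      Module.finrank ℚ F ≤ (2 * k * k + 2) ^ (2 * p + 2) ∧
      (∀ z ∈ F, (starRingEnd ℂ) z ∈ F) ∧ I ∈ F ∧ (ρ : ℂ) ∈ F ∧ ∀ a, l a ∈ F := by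
  classical
  set S : Finset ℂ := univ.image l ∪ (univ.image fun a => (starRingEnd ℂ) (l a)) ∪ {(ρ : ℂ), I}
    with hS
  have hSc : S.card ≤ 2 * p + 2 := by
    have h1 : (univ.image l).card ≤ p := by
      have := Finset.card_image_le (s := (univ : Finset (Fin p))) (f := l)
      rwa [Finset.card_univ, Fintype.card_fin] at this
    have h2 : (univ.image fun a => (starRingEnd ℂ) (l a)).card ≤ p := by
      have := Finset.card_image_le (s := (univ : Finset (Fin p))) (f := fun a => (starRingEnd ℂ) (l a))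
      rwa [Finset.card_univ, Fintype.card_fin] at this
    have h3 : ({(ρ : ℂ), I} : Finset ℂ).card ≤ 2 := Finset.card_le_two
    have h4 := Finset.card_union_le (univ.image l ∪ (univ.image fun a => (starRingEnd ℂ) (l a)))
      ({(ρ : ℂ), I} : Finset ℂ)
    have h5 := Finset.card_union_le (univ.image l) (univ.image fun a => (starRingEnd ℂ) (l a))
    rw [hS]
    omega
  have hmem : ∀ z ∈ S, (∃ a, z = l a) ∨ (∃ a, z = (starRingEnd ℂ) (l a)) ∨ z = (ρ : ℂ) ∨ z = I := by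
    intro z hz
    rw [hS, mem_union, mem_union, mem_image, mem_image, mem_insert, mem_singleton] at hz
    rcases hz with (⟨a, _, h⟩ | ⟨a, _, h⟩) | h | h
    · exact Or.inl ⟨a, h.symm⟩
    · exact Or.inr (Or.inl ⟨a, h.symm⟩)
    · exact Or.inr (Or.inr (Or.inl h))
    · exact Or.inr (Or.inr (Or.inr h))
  have hl1 : ∀ a, l a ∈ S := fun a => by
    rw [hS, mem_union, mem_union, mem_image]
    exact Or.inl (Or.inl ⟨a, mem_univ _, rfl⟩)
  have hl2 : ∀ a, (starRingEnd ℂ) (l a) ∈ S := fun a => by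
    rw [hS, mem_union, mem_union, mem_image, mem_image]
    exact Or.inl (Or.inr ⟨a, mem_univ _, rfl⟩)
  have hρS : (ρ : ℂ) ∈ S := by
    rw [hS, mem_union, mem_insert]
    exact Or.inr (Or.inl rfl)
  have hIS : I ∈ S := by
    rw [hS, mem_union, mem_insert, mem_singleton]
    exact Or.inr (Or.inr rfl)
  have hdeg : ∀ z ∈ S, ∃ P : Polynomial ℚ, P ≠ 0 ∧ Polynomial.aeval z P = 0 ∧
      P.natDegree ≤ 2 * k * k + 2 := by
    intro z hz
    have hkk : k ≤ 2 * k * k + 2 := by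
      rcases Nat.eq_zero_or_pos k with h | h
      · omega
      · nlinarith
    rcases hmem z hz with ⟨a, rfl⟩ | ⟨a, rfl⟩ | rfl | rfl
    · obtain ⟨P, h1, h2, _, h4⟩ := mg_root k num den hden (l a) (hl a)
      exact mg_ratP P h1 _ h2 _ (h4.trans hkk)
    · obtain ⟨P, h1, _, h3, h4⟩ := mg_root k num den hden (l a) (hl a)
      exact mg_ratP P h1 _ h3 _ (h4.trans hkk)
    · obtain ⟨P, h1, h2, h3, h4⟩ := mg_root k num den hden (l ⟨0, hp⟩) (hl ⟨0, hp⟩)
      obtain ⟨Q, h5, h6, h7⟩ := mg_norm k (l ⟨0, hp⟩) P h1 h2 h3 h4 ρ (hρ _)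
      exact mg_ratP Q h5 _ h6 _ (by omega)
    · refine ⟨Polynomial.X ^ 2 + 1, ?_, ?_, ?_⟩
      · intro h
        have := congrArg (Polynomial.eval 0) h
        simp at this
      · simp
      · have : (Polynomial.X ^ 2 + 1 : Polynomial ℚ).natDegree ≤ 2 := by compute_degree
        omega
  obtain ⟨hfd, hfr⟩ := finrank_adjoin_le S (fun _ => 2 * k * k + 2) hdeg
  refine ⟨IntermediateField.adjoin ℚ (S : Set ℂ), hfd, ?_, ?_, ?_, ?_, ?_⟩
  · refine hfr.trans ?_
    rw [prod_const]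
    exact Nat.pow_le_pow_right (by omega) hSc
  · refine conj_mem_adjoin _ ?_
    intro z hz
    rcases hmem z (by exact_mod_cast hz) with ⟨a, rfl⟩ | ⟨a, rfl⟩ | rfl | rfl
    · exact IntermediateField.subset_adjoin _ _ (by exact_mod_cast hl2 a)
    · rw [Complex.conj_conj]
      exact IntermediateField.subset_adjoin _ _ (by exact_mod_cast hl1 a)
    · rw [Complex.conj_ofReal]
      exact IntermediateField.subset_adjoin _ _ (by exact_mod_cast hρS)
    · rw [Complex.conj_I]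
      exact neg_mem (IntermediateField.subset_adjoin _ _ (by exact_mod_cast hIS))
  · exact IntermediateField.subset_adjoin _ _ (by exact_mod_cast hIS)
  · exact IntermediateField.subset_adjoin _ _ (by exact_mod_cast hρS)
  · exact fun a => IntermediateField.subset_adjoin _ _ (by exact_mod_cast hl1 a)

open scoped Classical in
/-- **Lower bound for the minimum of the level function.** The field is generated by the roots of
the level, their conjugates, `ρ` and `I`. -/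
theorem level_margin (s : ℕ) : ∃ E : ℕ, ∀ (k L : ℕ) (_ : k ≤ L) (num numu : ℕ → ℤ)
    (den denu : ℕ → ℕ) (_ : ∀ t, t < k → 0 < den t) (_ : ∀ t, t < k → 0 < denu t)
    (_ : ∀ t, t < k → (num t).natAbs ≤ 2 ^ L) (_ : ∀ t, t < k → den t ≤ 2 ^ L)
    (_ : ∀ t, t < k → (numu t).natAbs ≤ 2 ^ L) (_ : ∀ t, t < k → denu t ≤ 2 ^ L)
    (a u : ℕ → ℝ) (_ : ∀ t, t < k → a t = (num t : ℝ) / (den t : ℝ))
    (_ : ∀ t, t < k → u t = (numu t : ℝ) / (denu t : ℝ))
    (l c : ℕ → ℂ) (ex : ℕ → ℕ) (_ : RootData k a u l c ex)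
    (R M Nb : ℕ) (ε δ : ℝ) (v : ℕ → ℝ)
    (_ : GoodD k (fun i => l i) (fun i => c i) (fun i => ex i) R M ε δ v)
    (n0 j : ℕ) (A H : Fin k → Fin k → ℤ) (D : ℤ) (s' : ℕ) (w : Fin k → Fin k → ℝ)
    (τ : Fin k → ℝ) (ρ : ℝ) (d : ℕ)
    (_ : BaseF k (fun i => l i) (fun i => c i) (fun i => ex i) M Nb ε δ n0 j A H D s' w τ ρ d)
    (_ : 0 < ρ) (y : Fin k → ℝ) (_ : Rep (fun i : Fin k => l i) n0 A s' y)
    (_ : (univ.filter fun i : Fin k => ‖l i‖ = ρ ∧ ex i = d).card ≤ s)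
    (_ : ∀ z : Fin k → ℂ, (∀ t, ‖z t‖ = 1) →
      0 < (LevF (fun i : Fin k => l i) (fun i => c i) (fun i => ex i) A s' j d ρ z).re),
    ∀ z : Fin k → ℂ, (∀ t, ‖z t‖ = 1) →
      1 / 2 ^ ((2 + L) ^ E) * d.factorial * ρ ^ j ≤
        (LevF (fun i : Fin k => l i) (fun i => c i) (fun i => ex i) A s' j d ρ z).re := by
  obtain ⟨C, hC⟩ := rel_small s
  obtain ⟨C', hC'⟩ := elim_min s
  obtain ⟨E, hE⟩ := mg_exp s C C'
  refine ⟨E, ?_⟩
  intro k L hkL num numu den denu hden0 hdenu0 hnum hden hnumu hdenu a u ha hu l c ex hrd R M Nb ε δ v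
    hgd n0 j A H D s' w τ ρ d hbase hρ y hrep hcard hpos z hz
  set lF : Fin k → ℂ := fun i => l i with hlF
  set cF : Fin k → ℂ := fun i => c i with hcF
  set eF : Fin k → ℕ := fun i => ex i with heF
  set T : Finset (Fin k) := univ.filter fun i : Fin k => ‖l i‖ = ρ ∧ ex i = d with hT
  set p := T.card with hp
  let e : Fin p ≃ T := T.equivFin.symm
  let r : Fin p → Fin k := fun b => (e b : Fin k)
  have hrT : ∀ b, r b ∈ T := fun b => (e b).2
  have hr : ∀ b, ‖lF (r b)‖ = ρ := fun b => (mem_filter.1 (hrT b)).2.1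
  have hkj : k ≤ j := hbase.2.2.1
  have hdk : d < k := by
    have h := hbase
    unfold BaseF at h
    exact h.2.2.2.2.2.2.2.2.2.2.2.2.2.2.1
  have hn0 : 0 < n0 := hbase.1
  have hρ0 : (ρ : ℂ) ≠ 0 := by exact_mod_cast hρ.ne'
  -- the roots
  have hrt : ∀ i : Fin k, (l i) ^ k =
      ∑ t ∈ Finset.range k, ((num t : ℂ) / (den t : ℂ)) * (l i) ^ (k - 1 - t) := by
    intro i
    have h0 := hrd.2.2.1 i i.2 0 (Nat.zero_le _)
    simp only [Nat.choose_zero_right, Nat.cast_one, one_mul, mul_one, Nat.sub_zero] at h0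
    rw [h0]
    apply Finset.sum_congr rfl
    intro t ht
    rw [ha t (Finset.mem_range.mp ht)]
    push_cast
    rfl
  -- the level function
  have hlev : ∀ z' : Fin k → ℂ, LevF lF cF eF A s' j d ρ z' =
      (ρ : ℂ) ^ (j - d) * ∑ b : Fin p, cF (r b) * (bpt lF ρ (j - d) r b * Wt A s' z' (r b)) := by
    intro z'
    unfold LevF
    rw [← sum_filter]
    have h1 : ∑ i ∈ T, cF i * lF i ^ (j - d) * Wt A s' z' i =
        ∑ b : Fin p, cF (r b) * lF (r b) ^ (j - d) * Wt A s' z' (r b) := by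
      rw [← Finset.sum_coe_sort T]
      exact (Equiv.sum_comp e fun i : T => cF i * lF i ^ (j - d) * Wt A s' z' i).symm
    refine Eq.trans h1 ?_
    rw [mul_sum]
    refine sum_congr rfl fun b _ => ?_
    unfold bpt
    rw [div_pow]
    field_simp
  have hp0 : 0 < p := by
    by_contra h
    have h0 : p = 0 := by omega
    have h1 := hpos z hz
    rw [hlev z] at h1
    have h2 : ∑ b : Fin p, cF (r b) * (bpt lF ρ (j - d) r b * Wt A s' z (r b)) = 0 := by
      apply Finset.sum_eq_zero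
      intro b _
      exact absurd b.2 (by omega)
    rw [h2, mul_zero, Complex.zero_re] at h1
    exact lt_irrefl _ h1
  have hρL : ρ ≤ 2 ^ (2 * L) := by
    rw [← hr ⟨0, hp0⟩]
    exact root_norm_le k num den L hkL hden0 hnum _ (hrt _)
  -- the field
  obtain ⟨F, hfd, hfr, hconj, hIF, hρF, hlmem⟩ := mg_field k p num den hden0 (fun b => lF (r b))
    (fun b => hrt (r b)) ρ hr hp0
  obtain ⟨hcb, D0, hD0, hD0le, hD0i⟩ := coef_bound k L hkL num numu den denu hden0 hdenu0 hnum hden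
    hnumu hdenu a u ha hu l c ex hrd
  have hcf : ∀ b : Fin p, ∃ h : c (r b) ∈ F, ∀ φ : F →ₐ[ℚ] ℂ, ∃ i', i' < k ∧ φ ⟨c (r b), h⟩ = c i' :=
    fun b => coef_field k a u
      (fun t ht => ⟨(num t : ℚ) / (den t : ℚ), by rw [ha t ht]; push_cast; rfl⟩)
      (fun t ht => ⟨(numu t : ℚ) / (denu t : ℚ), by rw [hu t ht]; push_cast; rfl⟩)
      l c ex hrd (r b) (r b).2 F (hlmem b)
  choose hcm hcφ using hcf
  have hbu : ∀ b, ‖bpt lF ρ (j - d) r b‖ = 1 := by
    intro b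
    unfold bpt
    rw [norm_pow, norm_div, hr b, Complex.norm_real, Real.norm_eq_abs, abs_of_pos hρ,
      div_self hρ.ne', one_pow]
  have hb0 : ∀ b, bpt lF ρ (j - d) r b ≠ 0 := fun b h => by
    have := hbu b
    rw [h, norm_zero] at this
    exact zero_ne_one this
  have hbnz : ∀ b, bpt lF ρ (j - d) r b = nz (lF (r b)) ^ (j - d) := by
    intro b
    have h0 : lF (r b) ≠ 0 := by
      intro h
      have := hr b
      rw [h, norm_zero] at this
      exact hρ.ne this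
    unfold bpt nz
    rw [if_neg h0, hr b]
  set S : Set (Fin p → ℤ) := {h : Fin p → ℤ | (∀ i, |h i| ≤ ((2 + L) ^ C : ℕ)) ∧
    Tors (fun b => lF (r b)) h} with hS
  let ζ : (Fin p → ℤ) → F := fun g =>
    ∏ b, ((⟨lF (r b), hlmem b⟩ / ⟨(ρ : ℂ), hρF⟩ : F) ^ (j - d)) ^ g b
  have hζ : ∀ g, ((ζ g : F) : ℂ) = ∏ b, bpt lF ρ (j - d) r b ^ g b := by
    intro g
    simp only [ζ, bpt]
    push_cast
    rfl
  have hl0 : ∀ b, lF (r b) ≠ 0 := by
    intro b h
    have := hr b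
    rw [h, norm_zero] at this
    exact hρ.ne this
  -- positivity on the coset
  have hposx : ∀ x : Fin p → ℂ, (∀ i, ‖x i‖ = 1) → (∀ g ∈ S, ∏ i, x i ^ g i = (ζ g : ℂ)) →
      0 < (∑ i, ((⟨c (r i), hcm i⟩ : F) : ℂ) * x i).re := by
    intro x hx hxS
    obtain ⟨μ, hμ, hμb⟩ := exists_torus_bound lF cF eF A s' j d ρ hpos
    have hrelx : ∀ g : Fin p → ℤ, Tors (fun b => lF (r b)) g →
        ∏ b, x b ^ g b = ∏ b, bpt lF ρ (j - d) r b ^ g b := by
      intro g hgt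
      have hcl := hC k num den L hkL hden0 hnum hden p hcard (fun b => lF (r b))
        (fun b => hrt (r b)) hl0 g hgt
      refine rel_of_closure x _ (fun b h => ?_) hb0 S ?_ g hcl
      · have := hx b
        rw [h, norm_zero] at this
        exact zero_ne_one this
      · intro g' hg'
        rw [hxS g' hg', hζ]
    set m0 := μ / ρ ^ (j - d) with hm0
    have hm0pos : 0 < m0 := div_pos hμ (pow_pos hρ _)
    have key : m0 ≤ (∑ i, ((⟨c (r i), hcm i⟩ : F) : ℂ) * x i).re := by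
      refine le_of_forall_pos_le_add fun η hη => ?_
      set Cs : ℝ := ∑ b : Fin p, ‖cF (r b)‖ + 1 with hCs
      have hCs0 : 0 < Cs := by
        have : 0 ≤ ∑ b : Fin p, ‖cF (r b)‖ := sum_nonneg fun _ _ => norm_nonneg _
        linarith
      obtain ⟨m, hm⟩ := coset_limit lF n0 hn0 A s' y hrep ρ hρ r hr (j - d) x hx hrelx (η / Cs)
        (div_pos hη hCs0)
      have h1 := hμb (orb y m) (fun t => norm_orb y m t)
      rw [hlev] at h1
      have h2 : ((ρ : ℂ) ^ (j - d) * ∑ b : Fin p, cF (r b) *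
          (bpt lF ρ (j - d) r b * Wt A s' (orb y m) (r b))).re = ρ ^ (j - d) *
          (∑ b : Fin p, cF (r b) * (bpt lF ρ (j - d) r b * Wt A s' (orb y m) (r b))).re := by
        rw [← Complex.ofReal_pow, Complex.re_ofReal_mul]
      rw [h2] at h1
      have h3 : m0 ≤ (∑ b : Fin p, cF (r b) *
          (bpt lF ρ (j - d) r b * Wt A s' (orb y m) (r b))).re := by
        rw [hm0, div_le_iff₀ (pow_pos hρ _), mul_comm]
        exact h1
      have h4 : (∑ b : Fin p, cF (r b) * (bpt lF ρ (j - d) r b * Wt A s' (orb y m) (r b))).re -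
          (∑ i, cF (r i) * x i).re ≤ η := by
        rw [← Complex.sub_re, ← sum_sub_distrib]
        refine (Complex.re_le_norm _).trans ((norm_sum_le _ _).trans ?_)
        calc ∑ b : Fin p, ‖cF (r b) * (bpt lF ρ (j - d) r b * Wt A s' (orb y m) (r b)) -
              cF (r b) * x b‖ ≤ ∑ b : Fin p, ‖cF (r b)‖ * (η / Cs) := by
              refine sum_le_sum fun b _ => ?_
              rw [← mul_sub, norm_mul]
              exact mul_le_mul_of_nonneg_left (hm b).le (norm_nonneg _)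
          _ = (∑ b : Fin p, ‖cF (r b)‖) * (η / Cs) := by rw [sum_mul]
          _ ≤ Cs * (η / Cs) := by
              refine mul_le_mul_of_nonneg_right ?_ (div_pos hη hCs0).le
              rw [hCs]
              linarith
          _ = η := mul_div_cancel₀ _ hCs0.ne'
      have h5 : (∑ i, ((⟨c (r i), hcm i⟩ : F) : ℂ) * x i) = ∑ i, cF (r i) * x i := rfl
      rw [h5]
      linarith
    exact lt_of_lt_of_le hm0pos key
  -- the bound
  have hDg : Module.finrank ℚ F ≤ (2 * L * L + 2) ^ (2 * s + 2) := by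
    exact hfr.trans (mg_dg k L p s hkL hcard)
  have hmain := hC' F hconj hIF p ((2 + L) ^ C) ((2 * L * L + 2) ^ (2 * s + 2)) (pcf L) D0 hcard
    hDg hD0 hD0le (fun b => ⟨c (r b), hcm b⟩) (fun b => hD0i (r b) (r b).2) (by
      intro b φ
      obtain ⟨i', hi', h⟩ := hcφ b φ
      rw [h]
      exact hcb i' hi') S (fun g hg => hg.1) ζ (by
      intro g hg
      obtain ⟨n, hn, h⟩ := hg.2
      refine ⟨n, hn, ?_⟩
      apply Subtype.ext
      push_cast
      rw [hζ]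
      have h1 : ∏ b, bpt lF ρ (j - d) r b ^ g b = (∏ b, nz (lF (r b)) ^ g b) ^ (j - d) := by
        rw [← prod_pow_zpow]
        exact prod_congr rfl fun b _ => by rw [hbnz b]
      rw [h1, ← pow_mul, mul_comm, pow_mul, h, one_pow]) hposx
    (fun b => bpt lF ρ (j - d) r b * Wt A s' z (r b)) (by
      intro b
      rw [norm_mul, hbu b, norm_Wt A s' z hz, one_mul]) (by
      intro g hg
      rw [hζ]
      exact coset_mem lF cF eF R M Nb ε δ v hgd n0 j A H D s' w τ ρ d hbase hρ r hr z hz g hg.2 (j - d))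
  rw [hlev z, ← Complex.ofReal_pow, Complex.re_ofReal_mul]
  exact mg_final L k d j _ _ hkL hdk hkj ρ _ hρ hρL (hE L) hmain

end Pool.Agent.MX
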