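import Pool.Agent.DD7719.TComplete
import Pool.Agent.MX.Sizes

/-! P12. Explicit positivity of a class of level `(ρ, d)` (adapt `class_pos` in `TComplete.lean`). -/

set_option autoImplicit false

namespace Pool.Agent.DD7719.M

open Complex Filter Topology GS

variable {k : ℕ}

private lemma choose_le_two_mul {n e d k : ℕ} (he : e < d) (hd : d < k) (hn : 2 * k ≤ n) :
    (n.choose e : ℝ) * n ≤ (n.choose d : ℝ) * (2 * k) := by
  have h1 : n.choose e * (n - e) = n.choose (e + 1) * (e + 1) :=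
    (Nat.choose_succ_right_eq n e).symm
  have h2 : ∀ a, e + 1 + a < k → n.choose (e + 1) ≤ n.choose (e + 1 + a) := by
    intro a
    induction a with
    | zero => intro _; exact le_refl _
    | succ a ih =>
      intro h
      exact (ih (by omega)).trans (Nat.choose_le_succ_of_lt_half_left (by omega))
  have h2 : n.choose (e + 1) ≤ n.choose d := by
    have h5 := h2 (d - (e + 1)) (by omega)
    rwa [show e + 1 + (d - (e + 1)) = d by omega] at h5
  have h3 : n.choose e * n ≤ n.choose d * (2 * k) := by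
    have h4 : n ≤ 2 * (n - e) := by omega
    calc n.choose e * n ≤ n.choose e * (2 * (n - e)) := Nat.mul_le_mul_left _ h4
      _ = 2 * (n.choose (e + 1) * (e + 1)) := by rw [← h1]; ring
      _ ≤ 2 * (n.choose d * k) := by
          apply Nat.mul_le_mul_left
          exact Nat.mul_le_mul h2 (by omega)
      _ = n.choose d * (2 * k) := by ring
  exact_mod_cast h3

theorem class_pos_d (l c : Fin k → ℂ) (ex : Fin k → ℕ) (hex : ∀ i, ex i < k) (n0 j : ℕ)
    (hj : k ≤ j) (v : ℕ → ℝ)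
    (hv : ∀ n, ∑ i, c i * (n.choose (ex i) : ℂ) * l i ^ (n - ex i) = (v n : ℂ))
    (ρ : ℝ) (hρ : 0 < ρ) (d : ℕ) (hd : d < k)
    (hvan : open scoped Classical in ∀ m, ∑ i, (if Above ρ d (l i) (ex i) then
          c i * ((j + n0 * m).choose (ex i) : ℂ) * l i ^ (j + n0 * m - ex i) else 0) = 0)
    (μ γ W : ℝ) (hγ0 : 0 ≤ γ) (hγ : γ ≤ 1) (hW1 : 1 ≤ W) (hW : ∀ e, e < k → 1 ≤ W * ρ ^ e)
    (hgap : ∀ i, ‖l i‖ < ρ → ‖l i‖ ≤ (1 - γ) * ρ) (m : ℕ)
    (hμ : μ * ρ ^ j ≤ (levelSum l c ex n0 j ρ d m).re) (hkn : 2 * k ≤ j + n0 * m)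
    (hbig1 : (∑ i, ‖c i‖) * W * 2 ^ (k + 3) < μ * ((j + n0 * m : ℕ) : ℝ))
    (hbig2 : (∑ i, ‖c i‖) * W * 2 ^ (k + 3) * ((j + n0 * m : ℕ) : ℝ) ^ k *
      (1 - γ) ^ (j + n0 * m - k) < μ) :
    0 < v (j + n0 * m) := by
  classical
  set n := j + n0 * m with hn
  set low : ℂ := ∑ i, (if ‖l i‖ < ρ ∨ (‖l i‖ = ρ ∧ ex i < d) then
    c i * (n.choose (ex i) : ℂ) * l i ^ (n - ex i) else 0) with hlow
  have hγ1 : 0 ≤ 1 - γ := by linarith
  have hkpos : 0 < k := by omega
  have hnpos : (0 : ℝ) < n := by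
    have : 0 < n := by omega
    exact_mod_cast this
  have hS : 0 ≤ ∑ i, ‖c i‖ := Finset.sum_nonneg fun i _ => norm_nonneg _
  have h1 : (v n : ℂ) = (((n.choose d : ℝ) * ρ ^ (n0 * m) : ℝ) : ℂ) *
      levelSum l c ex n0 j ρ d m + low := by
    have key : ∑ i, c i * (n.choose (ex i) : ℂ) * l i ^ (n - ex i) =
        (∑ i, (((n.choose d : ℝ) * ρ ^ (n0 * m) : ℝ) : ℂ) * (if ‖l i‖ = ρ ∧ ex i = d then
          c i * l i ^ (j - d) * (nz (l i) ^ n0) ^ m else 0) + low) +
        ∑ i, (if Above ρ d (l i) (ex i) then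
          c i * ((j + n0 * m).choose (ex i) : ℂ) * l i ^ (j + n0 * m - ex i) else 0) := by
      rw [hlow, ← Finset.sum_add_distrib, ← Finset.sum_add_distrib]
      apply Finset.sum_congr rfl
      intro i _
      by_cases hA : Above ρ d (l i) (ex i)
      · have h3 : ¬ (‖l i‖ = ρ ∧ ex i = d) := by
          rintro ⟨h4, h5⟩
          rcases hA with h6 | ⟨_, _, h6⟩
          · exact h6.ne' h4
          · omega
        have h4 : ¬ (‖l i‖ < ρ ∨ (‖l i‖ = ρ ∧ ex i < d)) := by
          rintro (h4 | ⟨h4, h5⟩)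
          · rcases hA with h6 | ⟨h6, _, _⟩
            · exact h6.le.not_gt h4
            · exact h6.ge.not_gt h4
          · rcases hA with h6 | ⟨_, _, h6⟩
            · exact h6.ne' h4
            · omega
        rw [if_pos hA, if_neg h3, if_neg h4]
        ring
      · by_cases hL : ‖l i‖ = ρ ∧ ex i = d
        · obtain ⟨h5, h6⟩ := hL
          have h7 : ¬ (‖l i‖ < ρ ∨ (‖l i‖ = ρ ∧ ex i < d)) := by
            rintro (h7 | ⟨_, h7⟩)
            · exact h7.ne h5
            · omega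
          have h8 : n - d = (j - d) + n0 * m := by omega
          rw [if_neg hA, if_pos ⟨h5, h6⟩, if_neg h7, h6, h8, pow_add, pow_mul (l i),
            ← nz_pow_eq n0, h5]
          push_cast
          rw [mul_pow, ← pow_mul]
          ring
        · have h5 : ‖l i‖ < ρ ∨ (‖l i‖ = ρ ∧ ex i < d) := by
            unfold Above at hA
            push Not at hA
            rcases lt_or_eq_of_le hA.1 with h6 | h6
            · exact Or.inl h6
            · right
              refine ⟨h6, ?_⟩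
              have h7 := hA.2 h6 hρ
              have h8 : ex i ≠ d := fun h => hL ⟨h6, h⟩
              omega
          rw [if_neg hA, if_neg hL, if_pos h5]
          ring
    rw [← hv n, key, hvan m, add_zero, levelSum, Finset.mul_sum]
  have hCd : (1 : ℝ) ≤ n.choose d := by
    have : 0 < n.choose d := Nat.choose_pos (by omega)
    exact_mod_cast this
  have hnk : (0 : ℝ) ≤ (1 - γ) ^ (n - k) := by positivity
  set B : ℝ := W * ρ ^ n * ((n.choose d : ℝ) * (2 * k) / n + (n : ℝ) ^ k * (1 - γ) ^ (n - k))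
    with hB
  have hρn : 0 < ρ ^ n := by positivity
  have hρe : ∀ e, e < k → ρ ^ (n - e) ≤ W * ρ ^ n := by
    intro e he
    have h3 : ρ ^ n = ρ ^ (n - e) * ρ ^ e := by
      rw [← pow_add]
      congr 1
      omega
    rw [h3]
    have h4 : 0 < ρ ^ (n - e) := by positivity
    nlinarith [hW e he]
  have hW0 : 0 < W := by linarith
  have h2 : ‖low‖ ≤ (∑ i, ‖c i‖) * B := by
    rw [hlow]
    refine (norm_sum_le _ _).trans ?_
    rw [Finset.sum_mul]
    apply Finset.sum_le_sum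
    intro i _
    have hB1 : 0 ≤ W * ρ ^ n * ((n.choose d : ℝ) * (2 * k) / n) := by positivity
    have hB2 : 0 ≤ W * ρ ^ n * ((n : ℝ) ^ k * (1 - γ) ^ (n - k)) := by positivity
    have hB0 : 0 ≤ B := by
      rw [hB, mul_add]
      exact add_nonneg hB1 hB2
    split_ifs with hi
    · rw [norm_mul, norm_mul, norm_pow, Complex.norm_natCast, mul_assoc]
      apply mul_le_mul_of_nonneg_left _ (norm_nonneg _)
      rcases hi with hi | ⟨hi, hid⟩
      · have e1 : (n.choose (ex i) : ℝ) ≤ (n : ℝ) ^ k := by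
          have h3 : n.choose (ex i) ≤ n ^ (ex i) := Nat.choose_le_pow n (ex i)
          have h4 : n ^ (ex i) ≤ n ^ k :=
            Nat.pow_le_pow_right (by omega) (hex i).le
          exact_mod_cast h3.trans h4
        have e2 : ‖l i‖ ^ (n - ex i) ≤ (1 - γ) ^ (n - k) * (W * ρ ^ n) := by
          have hexi := hex i
          calc ‖l i‖ ^ (n - ex i) ≤ ((1 - γ) * ρ) ^ (n - ex i) :=
                pow_le_pow_left₀ (norm_nonneg _) (hgap i hi) _
            _ = (1 - γ) ^ (n - ex i) * ρ ^ (n - ex i) := mul_pow _ _ _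
            _ ≤ (1 - γ) ^ (n - k) * (W * ρ ^ n) := by
                apply mul_le_mul _ (hρe _ (hex i)) (by positivity) hnk
                exact pow_le_pow_of_le_one hγ1 (by linarith) (by omega)
        calc (n.choose (ex i) : ℝ) * ‖l i‖ ^ (n - ex i)
            ≤ (n : ℝ) ^ k * ((1 - γ) ^ (n - k) * (W * ρ ^ n)) :=
              mul_le_mul e1 e2 (by positivity) (by positivity)
          _ = W * ρ ^ n * ((n : ℝ) ^ k * (1 - γ) ^ (n - k)) := by ring
          _ ≤ B := by
              rw [hB, mul_add]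
              linarith
      · rw [hi]
        have e1 : (n.choose (ex i) : ℝ) ≤ (n.choose d : ℝ) * (2 * k) / n := by
          rw [le_div_iff₀ hnpos]
          exact choose_le_two_mul hid hd hkn
        calc (n.choose (ex i) : ℝ) * ρ ^ (n - ex i)
            ≤ ((n.choose d : ℝ) * (2 * k) / n) * (W * ρ ^ n) :=
              mul_le_mul e1 (hρe _ (hex i)) (by positivity) (by positivity)
          _ = W * ρ ^ n * ((n.choose d : ℝ) * (2 * k) / n) := by ring
          _ ≤ B := by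
              rw [hB, mul_add]
              linarith
    · rw [norm_zero]
      exact mul_nonneg (norm_nonneg _) hB0
  have h3 : v n = (n.choose d : ℝ) * ρ ^ (n0 * m) * (levelSum l c ex n0 j ρ d m).re + low.re := by
    have h4 := congrArg Complex.re h1
    rw [ofReal_re, add_re, re_ofReal_mul] at h4
    exact h4
  have h4 : -‖low‖ ≤ low.re := neg_le_of_abs_le (abs_re_le_norm _)
  have h5 : (n.choose d : ℝ) * ρ ^ n * μ ≤
      (n.choose d : ℝ) * ρ ^ (n0 * m) * (levelSum l c ex n0 j ρ d m).re := by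
    have h6 : (n.choose d : ℝ) * ρ ^ n * μ = (n.choose d : ℝ) * ρ ^ (n0 * m) * (μ * ρ ^ j) := by
      rw [hn, pow_add]
      ring
    rw [h6]
    exact mul_le_mul_of_nonneg_left hμ (by positivity)
  have hk2 : (k : ℝ) ≤ 2 ^ k := by
    exact_mod_cast (Nat.lt_two_pow_self (n := k)).le
  have h2k : (0 : ℝ) < 2 ^ k := by positivity
  have hp : (2 : ℝ) ^ (k + 3) = 8 * 2 ^ k := by rw [pow_add]; ring
  rw [hp] at hbig1 hbig2
  have hX : 0 ≤ (∑ i, ‖c i‖) * W := by positivity
  have hμ0 : 0 < μ := by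
    refine lt_of_le_of_lt ?_ hbig2
    positivity
  -- the two parts of the bound
  have h7 : (∑ i, ‖c i‖) * W * ((n.choose d : ℝ) * (2 * k) / n) ≤ (n.choose d : ℝ) * μ / 4 := by
    rw [← mul_div_assoc, div_le_div_iff₀ hnpos (by norm_num : (0 : ℝ) < 4)]
    have h8 : (∑ i, ‖c i‖) * W * (8 * k) ≤ μ * n := by
      refine le_trans ?_ hbig1.le
      apply mul_le_mul_of_nonneg_left _ hX
      linarith
    have h9 := mul_le_mul_of_nonneg_left h8 (by linarith : (0 : ℝ) ≤ n.choose d)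
    nlinarith [h9]
  have h8 : (∑ i, ‖c i‖) * W * ((n : ℝ) ^ k * (1 - γ) ^ (n - k)) ≤ (n.choose d : ℝ) * μ / 8 := by
    have h9 : (∑ i, ‖c i‖) * W * ((n : ℝ) ^ k * (1 - γ) ^ (n - k)) * 8 ≤ μ := by
      refine le_trans ?_ hbig2.le
      have h10 : 0 ≤ (∑ i, ‖c i‖) * W * ((n : ℝ) ^ k * (1 - γ) ^ (n - k)) := by positivity
      have h11 : (1 : ℝ) ≤ 2 ^ k := one_le_pow₀ (by norm_num)
      calc (∑ i, ‖c i‖) * W * ((n : ℝ) ^ k * (1 - γ) ^ (n - k)) * 8
          ≤ (∑ i, ‖c i‖) * W * ((n : ℝ) ^ k * (1 - γ) ^ (n - k)) * 8 * 2 ^ k :=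
            le_mul_of_one_le_right (by positivity) h11
        _ = (∑ i, ‖c i‖) * W * (8 * 2 ^ k) * (n : ℝ) ^ k * (1 - γ) ^ (n - k) := by ring
    have h12 : μ ≤ (n.choose d : ℝ) * μ := le_mul_of_one_le_left hμ0.le hCd
    linarith
  have h9 : (∑ i, ‖c i‖) * B ≤ ρ ^ n * ((n.choose d : ℝ) * μ / 4 + (n.choose d : ℝ) * μ / 8) := by
    have h10 : (∑ i, ‖c i‖) * B = ρ ^ n * ((∑ i, ‖c i‖) * W * ((n.choose d : ℝ) * (2 * k) / n) +
        (∑ i, ‖c i‖) * W * ((n : ℝ) ^ k * (1 - γ) ^ (n - k))) := by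
      rw [hB]
      ring
    rw [h10]
    exact mul_le_mul_of_nonneg_left (add_le_add h7 h8) hρn.le
  have h10 : 0 < ρ ^ n * ((n.choose d : ℝ) * μ) := by positivity
  rw [h3]
  nlinarith [h2, h4, h5, h9, h10]

end Pool.Agent.DD7719.M
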