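import Pool.Agent.DD7719.TArith
import Pool.Agent.MX.Sizes

/-! P13. A lower bound for the nonzero roots, and the arithmetic of the threshold `pthM`. -/

set_option autoImplicit false

namespace Pool.Agent.DD7719.M

open Finset

/-- nonzero roots are not too small -/
theorem root_norm_ge (k : ℕ) (num : ℕ → ℤ) (den : ℕ → ℕ) (L : ℕ) (hkL : k ≤ L)
    (hden0 : ∀ t, t < k → 0 < den t)
    (hnum : ∀ t, t < k → (num t).natAbs ≤ 2 ^ L) (hden : ∀ t, t < k → den t ≤ 2 ^ L) (z : ℂ)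
    (hz0 : z ≠ 0)
    (hz : z ^ k = ∑ t ∈ range k, ((num t : ℂ) / (den t : ℂ)) * z ^ (k - 1 - t)) :
    1 ≤ 2 ^ (L * L + 1) * ‖z‖ := by
  classical
  by_contra hcon
  push Not at hcon
  set P := ipoly k num den with hP
  have hP0 : P ≠ 0 := ipoly_ne_zero k num den hden0
  have hPz : Polynomial.aeval z P = 0 := ipoly_aeval k num den hden0 z hz
  have hPd : P.natDegree ≤ k := ipoly_natDegree k num den
  have hPc : ∀ i, |(P.coeff i : ℝ)| ≤ 2 ^ (L * L) := by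
    intro i
    have h := ipoly_coeff_le k num den L hkL hnum hden i
    exact_mod_cast h
  have hex : ∃ i, P.coeff i ≠ 0 := by
    by_contra h
    push Not at h
    exact hP0 (Polynomial.ext fun i => by rw [h i, Polynomial.coeff_zero])
  set t := Nat.find hex with ht
  have htne : P.coeff t ≠ 0 := Nat.find_spec hex
  have htmin : ∀ i < t, P.coeff i = 0 := by
    intro i hi
    have := Nat.find_min hex hi
    push Not at this
    exact this
  have htk : t ≤ k := by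
    by_contra h
    exact htne (Polynomial.coeff_eq_zero_of_natDegree_lt (by omega))
  set r := ‖z‖ with hr
  have hr0 : 0 < r := norm_pos_iff.2 hz0
  have hB : (1 : ℝ) ≤ 2 ^ (L * L) := one_le_pow₀ (by norm_num)
  have hBr : 2 * (2 ^ (L * L) * r) < 1 := by
    calc 2 * (2 ^ (L * L) * r) = 2 ^ (L * L + 1) * r := by rw [pow_succ]; ring
      _ < 1 := hcon
  have hr2 : r < 1 / 2 := by nlinarith
  -- the sum
  rw [Polynomial.aeval_eq_sum_range' (n := k + 1) (by omega)] at hPz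
  have hsplit : ∑ i ∈ range (k + 1), P.coeff i • z ^ i =
      P.coeff t • z ^ t + ∑ i ∈ Finset.Ico (t + 1) (k + 1), P.coeff i • z ^ i := by
    rw [← Finset.sum_range_add_sum_Ico _ (show t + 1 ≤ k + 1 by omega), Finset.sum_range_succ]
    congr 1
    rw [Finset.sum_eq_zero, zero_add]
    intro i hi
    rw [htmin i (Finset.mem_range.1 hi), zero_smul]
  rw [hsplit] at hPz
  have h1 : ‖P.coeff t • z ^ t‖ ≤ ∑ i ∈ Finset.Ico (t + 1) (k + 1), 2 ^ (L * L) * r ^ i := by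
    rw [eq_neg_of_add_eq_zero_left hPz, norm_neg]
    refine (norm_sum_le _ _).trans (Finset.sum_le_sum fun i _ => ?_)
    rw [zsmul_eq_mul, norm_mul, norm_pow, Complex.norm_intCast]
    exact mul_le_mul_of_nonneg_right (hPc i) (by positivity)
  have h2 : ‖P.coeff t • z ^ t‖ = |(P.coeff t : ℝ)| * r ^ t := by
    rw [zsmul_eq_mul, norm_mul, norm_pow, Complex.norm_intCast]
  have h3 : (1 : ℝ) ≤ |(P.coeff t : ℝ)| := by
    have : (1 : ℤ) ≤ |P.coeff t| := Int.one_le_abs htne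
    exact_mod_cast this
  have h4 : ∑ i ∈ Finset.Ico (t + 1) (k + 1), r ^ i ≤ r ^ (t + 1) / (1 - r) :=
    geom_sum_Ico_le_of_lt_one hr0.le (by linarith)
  rw [h2, ← Finset.mul_sum] at h1
  have h5 : r ^ (t + 1) / (1 - r) ≤ 2 * r ^ (t + 1) := by
    rw [div_le_iff₀ (by linarith)]
    have : 0 < r ^ (t + 1) := by positivity
    nlinarith
  have h6 : r ^ t ≤ 2 ^ (L * L) * (2 * r ^ (t + 1)) := by
    calc r ^ t ≤ |(P.coeff t : ℝ)| * r ^ t := le_mul_of_one_le_left (by positivity) h3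
      _ ≤ _ := h1
      _ ≤ _ := mul_le_mul_of_nonneg_left (h4.trans h5) (by positivity)
  have h7 : 2 ^ (L * L) * (2 * r ^ (t + 1)) = (2 * (2 ^ (L * L) * r)) * r ^ t := by
    rw [pow_succ]
    ring
  rw [h7] at h6
  have h8 : 0 < r ^ t := by positivity
  nlinarith

/-- the first condition of `class_pos_d` -/
theorem thr1 (k L p n : ℕ) (hkL : k ≤ L) (hn : 2 ^ pthM L p ≤ n) (C : ℝ)
    (hC : C ≤ k * 2 ^ pcf L) :
    C * 2 ^ pw L * 2 ^ (k + 3) < 1 / 2 ^ p * (n : ℝ) := by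
  have hk : (k : ℝ) ≤ 2 ^ L := by exact_mod_cast le_two_pow_of_le hkL
  have hn' : (2 : ℝ) ^ pthM L p ≤ n := by exact_mod_cast hn
  have h1 : C * 2 ^ pw L * 2 ^ (k + 3) ≤ 2 ^ (L + pcf L + pw L + (L + 3)) := by
    calc C * 2 ^ pw L * 2 ^ (k + 3) ≤ (k * 2 ^ pcf L) * 2 ^ pw L * 2 ^ (k + 3) := by gcongr
      _ ≤ (2 ^ L * 2 ^ pcf L) * 2 ^ pw L * 2 ^ (L + 3) := by
          gcongr
          norm_num
      _ = 2 ^ (L + pcf L + pw L + (L + 3)) := by rw [← pow_add, ← pow_add, ← pow_add]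
  refine h1.trans_lt ?_
  rw [one_div, inv_mul_eq_div, lt_div_iff₀ (by positivity), ← pow_add]
  refine lt_of_lt_of_le (pow_lt_pow_right₀ (by norm_num) ?_) hn'
  unfold pthM
  omega

/-- the second condition of `class_pos_d` -/
theorem thr2 (k L p n : ℕ) (hkL : k ≤ L) (hn : 2 ^ pthM L p ≤ n) (C : ℝ)
    (hC : C ≤ k * 2 ^ pcf L) :
    C * 2 ^ pw L * 2 ^ (k + 3) * (n : ℝ) ^ k * (1 - 1 / 2 ^ pg L) ^ (n - k) < 1 / 2 ^ p := by
  have hk : (k : ℝ) ≤ 2 ^ L := by exact_mod_cast le_two_pow_of_le hkL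
  have h0 : (0 : ℝ) ≤ 1 - 1 / 2 ^ pg L := by
    have : 1 / (2 : ℝ) ^ pg L ≤ 1 := by
      rw [div_le_one (by positivity)]
      exact one_le_pow₀ (by norm_num)
    linarith
  have hj : k ≤ 2 ^ pbn L := by
    refine hkL.trans (Nat.lt_two_pow_self.le.trans (two_pow_mono ?_))
    unfold pbn
    have : L ≤ (pdl L + 3) * L := Nat.le_mul_of_pos_left _ (by omega)
    omega
  have hth : pth L p (pcf L + L + pw L + 2) = pthM L p := by
    unfold pth pthM
    omega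
  have hexp : L + pcf L + pw L + (L + 3) ≤ 2 ^ (pcf L + L + pw L + 2) := by
    have h1 := Nat.lt_two_pow_self (n := pcf L + L + pw L)
    have h2 : 2 ^ (pcf L + L + pw L + 2) = 2 ^ (pcf L + L + pw L) * 4 := by
      rw [pow_add]
      norm_num
    omega
  have hC' : (k * 2 ^ pcf L : ℝ) * 2 ^ pw L * 2 ^ (k + 3) ≤ 2 ^ 2 ^ (pcf L + L + pw L + 2) := by
    calc (k * 2 ^ pcf L : ℝ) * 2 ^ pw L * 2 ^ (k + 3)
        ≤ (2 ^ L * 2 ^ pcf L) * 2 ^ pw L * 2 ^ (L + 3) := by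
          gcongr
          norm_num
      _ = 2 ^ (L + pcf L + pw L + (L + 3)) := by rw [← pow_add, ← pow_add, ← pow_add]
      _ ≤ 2 ^ 2 ^ (pcf L + L + pw L + 2) := pow_le_pow_right₀ (by norm_num) hexp
  have key := threshold_ineq k L p (pcf L + L + pw L + 2) n k hkL (by rw [hth]; exact hn) hj _ hC'
  have h1 : C * 2 ^ pw L * 2 ^ (k + 3) * (n : ℝ) ^ k * (1 - 1 / 2 ^ pg L) ^ (n - k) ≤
      (k * 2 ^ pcf L : ℝ) * 2 ^ pw L * 2 ^ (k + 3) * (n : ℝ) ^ k * ((2 : ℝ) ^ (2 * L)) ^ k *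
        (1 - 1 / 2 ^ pg L) ^ (n - k) := by
    have h2 : (1 : ℝ) ≤ ((2 : ℝ) ^ (2 * L)) ^ k := one_le_pow₀ (one_le_pow₀ (by norm_num))
    refine mul_le_mul_of_nonneg_right ?_ (by positivity)
    calc C * 2 ^ pw L * 2 ^ (k + 3) * (n : ℝ) ^ k
        ≤ (k * 2 ^ pcf L : ℝ) * 2 ^ pw L * 2 ^ (k + 3) * (n : ℝ) ^ k := by gcongr
      _ ≤ _ := le_mul_of_one_le_right (by positivity) h2
  refine (h1.trans_lt key).trans_le ?_
  apply one_div_le_one_div_of_le (by positivity)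
  have h3 : p ≤ 2 ^ p := Nat.lt_two_pow_self.le
  have h4 : (2 : ℝ) ^ p ≤ 2 ^ 2 ^ p := pow_le_pow_right₀ (by norm_num) h3
  linarith

theorem two_mul_le_of_thr (k L p n : ℕ) (hkL : k ≤ L) (hn : 2 ^ pthM L p ≤ n) : 2 * k ≤ n := by
  have h1 : 2 * k ≤ 2 ^ (L + 1) := by
    rw [pow_succ]
    have := le_two_pow_of_le hkL
    omega
  refine h1.trans (le_trans (two_pow_mono ?_) hn)
  unfold pthM
  omega

end Pool.Agent.DD7719.M
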