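import Pool.Agent.MX.Defs2
import Pool.Agent.MX.Thr1
import Pool.Agent.MX.Thr2
import Pool.Agent.MX.CoefB

/-! P14. Explicit positivity of the classes with margin, for instances. -/

set_option autoImplicit false
set_option linter.unusedSectionVars false

namespace Pool.Agent.UltPos

open Pool.Agent.PT Pool.Agent.AllR Pool.Agent.DD7719.M Pool.Agent.DD7719 Finset

section
variable (I : Inst) (L : ℕ) (hkL : I.k ≤ L)
    (hb : ∀ i, (I.aNum i).natAbs ≤ 2 ^ L ∧ I.aDen i ≤ 2 ^ L)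
    (hbu : ∀ i, (I.uNum i).natAbs ≤ 2 ^ L ∧ I.uDen i ≤ 2 ^ L) (aR uR : ℕ → ℝ)
    (ha : ∀ t (h : t < I.k), aR t = (I.a ⟨t, h⟩ : ℝ)) (hu : ∀ t (h : t < I.k), uR t = (I.u ⟨t, h⟩ : ℝ))
    (v : ℕ → ℚ) (hv : I.IsSeq v)

include hkL hb hbu ha hu in
/-- bounds for the coefficients of an instance -/
theorem Inst.coef_bound {l c : ℕ → ℂ} {ex : ℕ → ℕ} (hrd : RootData I.k aR uR l c ex) :
    (∀ i, i < I.k → ‖c i‖ ≤ 2 ^ pcf L) ∧
    ∃ D0 : ℕ, 0 < D0 ∧ D0 ≤ 2 ^ pcf L ∧ ∀ i, i < I.k → IsIntegral ℤ ((D0 : ℂ) * c i) := by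
  have hnumu : ∀ t, t < I.k → ((if h : t < I.k then I.uNum ⟨t, h⟩ else 0 : ℤ)).natAbs ≤ 2 ^ L := by
    intro t ht
    simp only [ht, dif_pos]
    exact (hbu _).1
  have hdenu : ∀ t, t < I.k → (if h : t < I.k then I.uDen ⟨t, h⟩ else 1 : ℕ) ≤ 2 ^ L := by
    intro t ht
    simp only [ht, dif_pos]
    exact (hbu _).2
  have hdenu0 : ∀ t, t < I.k → 0 < (if h : t < I.k then I.uDen ⟨t, h⟩ else 1 : ℕ) := by
    intro t ht
    simp only [ht, dif_pos]
    exact I.uDen_pos _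
  exact Pool.Agent.MX.coef_bound I.k L hkL I.num
    (fun t => if h : t < I.k then I.uNum ⟨t, h⟩ else 0) I.den
    (fun t => if h : t < I.k then I.uDen ⟨t, h⟩ else 1) I.den_pos' hdenu0
    (I.num_le' L hb) (I.den_le' L hb) hnumu hdenu aR uR
    (by
      intro t ht
      rw [ha t ht]
      simp only [Inst.num, Inst.den, ht, dif_pos, Inst.a]
      push_cast
      rfl)
    (by
      intro t ht
      rw [hu t ht]
      simp only [ht, dif_pos, Inst.u]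
      push_cast
      rfl) l c ex hrd

include hkL hb hbu ha hu hv in
theorem Inst.clsM_pos {l c : ℕ → ℂ} {ex : ℕ → ℕ} (hrd : RootData I.k aR uR l c ex)
    (n0 j : ℕ) (hn0 : 0 < n0) (hj : I.k ≤ j) (M Nb : ℕ) (ε δ : ℝ) (p : ℕ)
    (h : ClsM I.k (fun i => l i) (fun i => c i) (fun i => ex i) M Nb ε δ n0 j (1 / 2 ^ p))
    (m : ℕ) (hn : 2 ^ pthM L p ≤ j + n0 * m) : 0 < v (j + n0 * m) := by
  obtain ⟨A, H, D, s, w, τ, x, i0, hrep, hbase, hi0, hd0, -, hlow, hvan⟩ := h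
  have hρ : 0 < ‖l i0‖ := norm_pos_iff.mpr hi0
  have hW : ∀ e, e < I.k → (1 : ℝ) ≤ 2 ^ pw L * ‖l i0‖ ^ e := by
    intro e he
    have h1 : (1 : ℝ) ≤ 2 ^ (L * L + 1) * ‖l i0‖ :=
      root_norm_ge I.k I.num I.den L hkL I.den_pos' (I.num_le' L hb) (I.den_le' L hb) (l i0) hi0
        (I.root_eq' aR uR ha hrd i0)
    have h2 : (1 : ℝ) ≤ (2 ^ (L * L + 1) * ‖l i0‖) ^ e := one_le_pow₀ h1
    rw [mul_pow, ← pow_mul] at h2
    refine h2.trans (mul_le_mul_of_nonneg_right ?_ (by positivity))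
    apply pow_le_pow_right₀ (by norm_num)
    unfold pw
    exact Nat.mul_le_mul_left _ (by omega)
  have hC : ∑ i : Fin I.k, ‖c i‖ ≤ (I.k : ℝ) * 2 ^ pcf L := by
    obtain ⟨h1, -⟩ := I.coef_bound L hkL hb hbu aR uR ha hu hrd
    calc ∑ i : Fin I.k, ‖c i‖ ≤ ∑ _i : Fin I.k, (2 : ℝ) ^ pcf L :=
          Finset.sum_le_sum fun i _ => h1 i i.2
      _ = (I.k : ℝ) * 2 ^ pcf L := by
          rw [Finset.sum_const, Finset.card_univ, Fintype.card_fin, nsmul_eq_mul]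
  have hfin := class_pos_d (k := I.k) (fun i => l i) (fun i => c i) (fun i => ex i)
    (fun i => hrd.1 i i.2) n0 j hj (fun n => ((v n : ℚ) : ℝ)) (I.all' aR uR ha hu v hv hrd)
    ‖l i0‖ hρ (ex i0) (hrd.1 i0 i0.2) hvan (1 / 2 ^ p) (1 / 2 ^ pg L) (2 ^ pw L) (by positivity)
    (by
      rw [div_le_one (by positivity)]
      exact one_le_pow₀ (by norm_num)) (one_le_pow₀ (by norm_num)) hW
    (fun i hi => gap_of_roots I.k I.num I.den L hkL I.den_pos' (I.num_le' L hb) (I.den_le' L hb)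
      (l i) (l i0) (I.root_eq' aR uR ha hrd i) (I.root_eq' aR uR ha hrd i0) hi) m
    (by
      rw [levelSum_eq (fun i : Fin I.k => l i) (fun i => c i) (fun i => ex i) n0 j (ex i0)
        ‖l i0‖ s A x hrep.1 hrep.2 m]
      refine le_trans ?_ (hlow _ fun t => Complex.norm_exp_ofReal_mul_I _)
      apply mul_le_mul_of_nonneg_right _ (by positivity)
      have h1 : (1 : ℝ) ≤ (ex i0).factorial := by exact_mod_cast (ex i0).factorial_pos
      exact le_mul_of_one_le_right (by positivity) h1)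
    (two_mul_le_of_thr I.k L p _ hkL hn)
    (thr1 I.k L p _ hkL hn _ hC) (thr2 I.k L p _ hkL hn _ hC)
  exact_mod_cast hfin

end

end Pool.Agent.UltPos
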