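import Pool.Agent.MX.Asm
import Pool.Agent.MX.Thr3

/-! P17. Positivity beyond the threshold for instances without certificates of non-regularity
(adapt `DD7719/NPos.lean`). -/

set_option autoImplicit false
set_option linter.unusedSectionVars false

namespace Pool.Agent.UltPos

open Pool.Agent.PT Pool.Agent.AllR Pool.Agent.DD7719.M Pool.Agent.DD7719 Finset

section
variable (I : Inst) (L : ℕ) (hkL : I.k ≤ L)
    (hb : ∀ i, (I.aNum i).natAbs ≤ 2 ^ L ∧ I.aDen i ≤ 2 ^ L)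
    (hbu : ∀ i, (I.uNum i).natAbs ≤ 2 ^ L ∧ I.uDen i ≤ 2 ^ L) (aR uR : ℕ → ℝ)
    (ha : ∀ t (h : t < I.k), aR t = (I.a ⟨t, h⟩ : ℝ)) (hu : ∀ t (h : t < I.k), uR t = (I.u ⟨t, h⟩ : ℝ))
    (v : ℕ → ℚ) (hv : I.IsSeq v)

include hkL hb ha hu hv in
/-- **The lower bound for the level function along the sequence.** -/
theorem Inst.level_lower0 (C : ℕ) (hC : GapC C) (P : ℕ) (t0 : ℝ) (hno : ¬ I.NN0 L aR uR t0)
    {l c : ℕ → ℂ} {ex : ℕ → ℕ} (hrd : RootData I.k aR uR l c ex) (hsort : Sorted I.k l)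
    (n0 j : ℕ) (hn0 : 0 < n0)
    (A H : Fin I.k → Fin I.k → ℤ) (D : ℤ) (s : ℕ) (w : Fin I.k → Fin I.k → ℝ)
    (τ : Fin I.k → ℝ) (x : Fin I.k → ℝ) (i0 : Fin I.k)
    (hrep : Rep (fun i : Fin I.k => l i) n0 A s x)
    (hbase : BaseF I.k (fun i => l i) (fun i => c i) (fun i => ex i) (2 ^ pmh L)
      (2 ^ (1 + 2 * L * L + (pdl L + 3) * L)) (2 / ((2 ^ pq L : ℕ) : ℝ)) (1 / 2 ^ pdl L) n0 j
      A H D s w τ ‖l i0‖ 0) (hi0 : l i0 ≠ 0)
    (z' : Fin I.k → ℂ) (hz' : ∀ t, ‖z' t‖ = 1)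
    (hne : (LevF (fun i : Fin I.k => l i) (fun i => c i) (fun i => ex i) A s j 0 ‖l i0‖ z').re ≠ 0)
    (hF : ∀ z : Fin I.k → ℂ, (∀ t, ‖z t‖ = 1) →
      0 ≤ (LevF (fun i : Fin I.k => l i) (fun i => c i) (fun i => ex i) A s j 0 ‖l i0‖ z).re)
    (hvan : open scoped Classical in ∀ m, ∑ i : Fin I.k, (if Above ‖l i0‖ 0 (l i) (ex i) then
            c i * ((j + n0 * m).choose (ex i) : ℂ) * l i ^ (j + n0 * m - ex i) else 0) = 0)
    (i i' : Fin I.k) (hii : ‖l i‖ = ‖l i'‖) (hpne : l i ^ n0 ≠ l i' ^ n0)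
    (hnt : ∀ n : ℕ, 0 < n → l i ^ n ≠ l i' ^ n)
    (hfin : ((fun z : Fin I.k → ℂ => (l i / l i') ^ j * (Wt A s z i / Wt A s z i')) ''
        {z | (∀ t, ‖z t‖ = 1) ∧ (LevF (fun i : Fin I.k => l i) (fun i => c i) (fun i => ex i) A s j
          0 ‖l i0‖ z).re = 0}).Finite)
    (hP : ElimP P (fun t y => I.RR L aR uR (v6 t y (i : ℕ) (i' : ℕ) n0 j))) (m : ℕ)
    (hm : (2 + pgd L + 2 ^ (P + 2) + 2 ^ (pg L + 1)) ^ C ≤ n0 * m) :
    Real.exp (-((n0 * m : ℕ) : ℝ) / ((2 ^ (pg L + 1) : ℕ) : ℝ)) / 2 ^ 2 ^ P / 2 ^ 2 ^ P ≤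
      (LevF (fun i : Fin I.k => l i) (fun i => c i) (fun i => ex i) A s j 0 ‖l i0‖ (orb x m)).re := by
  classical
  set lF : Fin I.k → ℂ := fun i => l i with hlF
  set cF : Fin I.k → ℂ := fun i => c i with hcF
  set eF : Fin I.k → ℕ := fun i => ex i with heF
  have hρ : 0 < ‖l i0‖ := norm_pos_iff.mpr hi0
  have hi' : l i' ≠ 0 := by
    intro h0
    rw [h0, norm_zero, norm_eq_zero] at hii
    apply hpne
    rw [hii, h0]
  have hγ : ‖l i / l i'‖ = 1 := unit_of_ratio _ _ hii hi'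
  have hγnt : ∀ n : ℕ, 0 < n → (l i / l i') ^ n ≠ 1 := by
    intro n hn h1
    rw [div_pow, div_eq_one_iff_eq (pow_ne_zero _ hi')] at h1
    exact hnt n hn h1
  have hexj : ∀ i, eF i ≤ j := fun i => ((hrd.1 i i.2).le.trans hbase.2.2.1)
  have hJ : j = j % n0 + n0 * (j / n0) := (Nat.mod_add_div j n0).symm
  -- finitely many contact values
  have hcf : (contact (fun n => ((v n : ℚ) : ℝ)) n0 (j % n0) (‖l i0‖ ^ n0) (l i / l i')).Finite :=
    hfin.subset (contact_subset lF cF eF n0 j hn0 hexj _ (I.all' aR uR ha hu v hv hrd) ‖l i0‖ hρ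
      hvan A s x hrep i i' hii hi' (j % n0) (j / n0) hJ)
  obtain ⟨B, hB⟩ := cls_bound lF cF eF n0 j hn0 hexj _ (I.all' aR uR ha hu v hv hrd) ‖l i0‖ hρ
    hvan (j % n0) (j / n0) hJ
  set Y : Set ℝ := (fun ζ : ℂ => (ζ / (l i / l i') ^ j).re) ''
    contact (fun n => ((v n : ℚ) : ℝ)) n0 (j % n0) (‖l i0‖ ^ n0) (l i / l i') with hY
  have hYf : Y.Finite := hcf.image _
  obtain ⟨q, hq0, hqd, hqc, hq⟩ := hP
  -- the specific certificate
  have hRR : ∀ (z : Fin I.k → ℂ), (∀ t, ‖z t‖ = 1) → ∀ t : ℝ,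
      t * (LevF lF cF eF A s j 0 ‖l i0‖ z).re ≤ 1 →
      I.RR L aR uR (v6 t (Wt A s z i / Wt A s z i').re (i : ℕ) (i' : ℕ) n0 j) := by
    intro z hz t ht
    refine ⟨l, c, ex, hrd, n0, j, ext2 0 A, ext2 0 H, D, s, ext2 0 w, ext1 0 τ, ext1 1 z,
      ext1 1 z', fun _ _ => 1, fun _ _ => 1, ‖l i0‖, 0, hbase.toN (two_pow_lt_pbm L)
      (two_pow_lt_pbn L), ?_, ?_, ?_⟩
    · rw [forall_fin]
      intro t
      rw [ext1_fin]
      exact hz t
    · rw [forall_fin]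
      intro t
      rw [ext1_fin]
      exact hz' t
    · unfold QR
      rw [levF_ext l c ex A s j 0 ‖l i0‖ z (ext1 1 z) (ext1_fin 1 z),
        levF_ext l c ex A s j 0 ‖l i0‖ z' (ext1 1 z') (ext1_fin 1 z')]
      refine ⟨hρ, rfl, hne, hsort, ⟨rfl, rfl⟩, ht, i, i.2, i', i'.2, ⟨rfl, rfl⟩, ?_⟩
      rw [wtN_ext A s z (ext1 1 z) (ext1_fin 1 z) i, wtN_ext A s z (ext1 1 z) (ext1_fin 1 z) i']
      rfl
  -- boundedness along the good fibres
  have hbdd : ∀ y : ℝ, y ∉ Y → ∃ X : ℝ, ∀ t, I.RR L aR uR (v6 t y (i : ℕ) (i' : ℕ) n0 j) →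
      t ≤ X := by
    intro y hy
    obtain ⟨X, hX⟩ := ybound (k := I.k) (fun n => ((v n : ℚ) : ℝ)) (2 ^ pr L) (2 ^ pbm L)
      (2 ^ pbn L) (2 / ((2 ^ pq L : ℕ) : ℝ)) (1 / 2 ^ pdl L) n0 hn0 (‖l i0‖ ^ n0) (by positivity)
      B n0 j hB (l i / l i') hγnt hcf y (fun ζ hζ he => hy ⟨ζ, hζ, he⟩)
    refine ⟨X, ?_⟩
    rintro t ⟨l1, c1, ex1, hrd1, n1, j1, A1, H1, D1, s1, w1, τ1, z1, z1', Z1, Z2, ρ1, d1, hb1, hz1,
      hz1', hQ⟩
    obtain ⟨g1, g2, g3, g4, ⟨g5, g6⟩, g7, a, haK, a', ha'K, ⟨g8, g9⟩, g10⟩ := hQ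
    have e5 : n1 = n0 := by
      have : (n1 : ℝ) = (n0 : ℝ) := g5
      exact_mod_cast this
    have e6 : j1 = j := by
      have : (j1 : ℝ) = (j : ℝ) := g6
      exact_mod_cast this
    have e8 : a = i := by
      have : (a : ℝ) = ((i : ℕ) : ℝ) := g8
      exact_mod_cast this
    have e9 : a' = i' := by
      have : (a' : ℝ) = ((i' : ℕ) : ℝ) := g9
      exact_mod_cast this
    subst e5 e6 e8 e9
    have hl1 : ∀ b, b < I.k → l1 b = l b := fun b hbk => sorted_unique hrd1 g4 hrd hsort b hbk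
    subst g2
    have hnn := fun z hz => I.nonneg_of_no_NN0 L aR uR t0 hno hrd1 hb1 z1' hz1' g3 z hz
    rw [lev_eq_levF] at g3 g7
    have g10' := g10
    rw [wtN_eq I.k s1 A1 z1 i, wtN_eq I.k s1 A1 z1 i'] at g10'
    exact hX t (fun i => l1 i) (fun i => c1 i) (fun i => ex1 i)
      (I.goodD L hkL hb aR uR ha hu v hv hrd1) (fun i t => A1 i t) (fun i t => H1 i t) D1 s1
      (fun i t => w1 i t) (fun i => τ1 i) ρ1 0 (fun t => z1 t) (fun t => z1' t) hb1.toF g1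
      (fun t => hz1 t t.2) (fun t => hz1' t t.2) g3 hnn i i' (by rw [hl1 i i.2, hl1 i' i'.2])
      (by rw [hl1 i i.2, hl1 i' i'.2]; exact hii) (by rw [hl1 i' i'.2]; exact hi') g10' g7
  -- the inequality on the good fibres
  have hineq : ∀ z : Fin I.k → ℂ, (∀ t, ‖z t‖ = 1) → (Wt A s z i / Wt A s z i').re ∉ Y →
      |Polynomial.aeval (Wt A s z i / Wt A s z i').re q| ≤
        2 ^ 2 ^ P * (LevF lF cF eF A s j 0 ‖l i0‖ z).re := by
    intro z hz hy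
    have hbd := hbdd _ hy
    have hyle : |(Wt A s z i / Wt A s z i').re| ≤ 2 := by
      refine (Complex.abs_re_le_norm _).trans ?_
      rw [norm_div, norm_Wt A s z hz, norm_Wt A s z hz]
      norm_num
    have hpos : 0 < (LevF lF cF eF A s j 0 ‖l i0‖ z).re := by
      refine lt_of_le_of_ne (hF z hz) (fun h0 => ?_)
      obtain ⟨X, hX⟩ := hbd
      have := hX (X + 1) (hRR z hz (X + 1) (by rw [← h0]; simp))
      linarith
    have h1 := hq _ hyle hbd (1 / (LevF lF cF eF A s j 0 ‖l i0‖ z).re)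
      (hRR z hz _ (by rw [one_div, inv_mul_cancel₀ hpos.ne']))
    rw [mul_one_div, div_le_iff₀ hpos] at h1
    exact h1
  have hall := fibre_dense lF cF eF n0 j 0 ‖l i0‖ A s x hrep i i' hii hpne
    (fun y => |Polynomial.aeval y q|) (by fun_prop) (2 ^ 2 ^ P) Y hYf hineq (orb x m)
    (norm_orb x m)
  rw [hrep.chi_orb m i i' hii hi'] at hall
  obtain ⟨g, hg0, hg, hgd, hgc⟩ := exists_ratio_poly I.k I.num I.den L hkL I.den_pos'
    (I.num_le' L hb) (I.den_le' L hb) (l i) (l i') (I.root_eq' aR uR ha hrd i)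
    (I.root_eq' aR uR ha hrd i') hi'
  have hlow := trig_lower C hC P (pgd L) (2 ^ (pg L + 1)) (n0 * m) q hq0 hqd hqc (l i / l i') hγ
    hγnt g hg0 hg hgd hgc (by positivity) hm
  rw [div_le_iff₀ (by positivity)]
  exact hlow.trans (hall.trans_eq (mul_comm _ _))

include hkL hb ha hu hv in
/-- tameness when all classes have positive level functions or a margin -/
theorem Inst.tm2_of_cls {l c : ℕ → ℂ} {ex : ℕ → ℕ} (hrd : RootData I.k aR uR l c ex)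
    (n0 : ℕ) (hn0 : 0 < n0) (M Nb : ℕ) (ε δ : ℝ)
    (μ0 : ℝ) (hμ0 : 0 < μ0)
    (h : ∀ j, I.k ≤ j → j < I.k + n0 → (∃ (A H : Fin I.k → Fin I.k → ℤ) (D : ℤ) (s : ℕ)
      (w : Fin I.k → Fin I.k → ℝ) (τ : Fin I.k → ℝ) (x : Fin I.k → ℝ) (i0 : Fin I.k),
      Rep (fun i : Fin I.k => l i) n0 A s x ∧
      BaseF I.k (fun i => l i) (fun i => c i) (fun i => ex i) M Nb ε δ n0 j A H D s w τ ‖l i0‖ 0 ∧
      l i0 ≠ 0 ∧
      (∀ z : Fin I.k → ℂ, (∀ t, ‖z t‖ = 1) → 0 < (LevF (fun i : Fin I.k => l i) (fun i => c i)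
        (fun i => ex i) A s j 0 ‖l i0‖ z).re) ∧
      (open scoped Classical in ∀ m, ∑ i : Fin I.k, (if Above ‖l i0‖ 0 (l i) (ex i) then
            c i * ((j + n0 * m).choose (ex i) : ℂ) * l i ^ (j + n0 * m - ex i) else 0) = 0)) ∨
      ClsM I.k (fun i => l i) (fun i => c i) (fun i => ex i) M Nb ε δ n0 j μ0) :
    Tm2 (fun n => ((v n : ℚ) : ℝ)) := by
  classical
  refine ⟨n0, hn0, fun J hJ => ?_⟩
  obtain ⟨q, hq1, hq2⟩ := exists_cls_rep I.k n0 J hn0 hJ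
  rcases h (J + n0 * q) hq1 hq2 with h0 | h0
  swap
  · right
    exact ⟨μ0, hμ0, classMargin_of_clsM (k := I.k) (fun i => l i) (fun i => c i)
      (fun i => ex i) (fun i => hrd.1 i i.2) M Nb ε δ n0 hn0 (fun n => ((v n : ℚ) : ℝ))
      (I.all' aR uR ha hu v hv hrd) J q hq1 μ0 h0⟩
  left
  obtain ⟨A, H, D, s, w, τ, x, i0, hrep, hbase, hi0, hpos, hvan⟩ := h0
  have hρ : 0 < ‖l i0‖ := norm_pos_iff.mpr hi0
  obtain ⟨μ, hμ, hμb⟩ := exists_torus_bound (fun i : Fin I.k => l i) (fun i => c i)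
    (fun i => ex i) A s (J + n0 * q) 0 ‖l i0‖ hpos
  have hexj : ∀ i : Fin I.k, ex i ≤ J + n0 * q := fun i => ((hrd.1 i i.2).le.trans hq1)
  have hall := I.all' aR uR ha hu v hv hrd
  have hlev := GS.level_asym (fun i : Fin I.k => l i) (fun i => c i)
    (fun i => ex i) n0 (J + n0 * q) hn0 hexj ‖l i0‖ 0 hρ hvan
  have hasym : Filter.Tendsto (fun M : ℕ => ((((v (J + n0 * q + n0 * M) : ℚ) : ℝ)) : ℂ) /
        ((‖l i0‖ ^ (n0 * M) * (M : ℝ) ^ 0 : ℝ) : ℂ) -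
      ((((J + n0 * q + n0 * M).choose 0 : ℝ) / (M : ℝ) ^ 0 : ℝ) : ℂ) *
        GS.levelSum (fun i : Fin I.k => l i) (fun i => c i) (fun i => ex i) n0 (J + n0 * q)
          ‖l i0‖ 0 M) Filter.atTop (nhds 0) := by
    refine hlev.congr fun M => ?_
    rw [hall]
  obtain ⟨⟨B, hB⟩, -, -, h4⟩ := GS.level_data (fun i : Fin I.k => l i) (fun i => c i)
    (fun i => ex i) n0 (J + n0 * q) hn0 (fun n => ((v n : ℚ) : ℝ)) ‖l i0‖ 0 hρ hasym
  obtain ⟨b, hb, hb'⟩ := h4 μ hμ (fun M => by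
    rw [levelSum_eq (fun i : Fin I.k => l i) (fun i => c i) (fun i => ex i) n0 (J + n0 * q) 0
      ‖l i0‖ s A x hrep.1 hrep.2 M]
    exact hμb _ (norm_orb x M))
  set ρ := ‖l i0‖
  have hρn : 0 < ρ ^ n0 := by positivity
  refine ⟨ρ ^ n0, b / (ρ ^ n0) ^ q, B / (ρ ^ n0) ^ q, hρn, by positivity, ?_⟩
  have hsub : Filter.Tendsto (fun m : ℕ => m - q) Filter.atTop Filter.atTop :=
    Filter.tendsto_sub_atTop_nat q
  filter_upwards [hsub.eventually hB, hsub.eventually hb', Filter.eventually_ge_atTop q]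
    with m h1 h2 hm
  have e1 : J + n0 * q + n0 * (m - q) = n0 * m + J := by
    obtain ⟨r, rfl⟩ := Nat.exists_eq_add_of_le hm
    rw [Nat.add_sub_cancel_left]
    ring
  have e2 : (ρ ^ n0) ^ m = (ρ ^ n0) ^ q * (ρ ^ n0) ^ (m - q) := by
    rw [← pow_add, Nat.add_sub_cancel' hm]
  rw [e1, pow_zero, mul_one] at h1 h2
  constructor
  · calc b / (ρ ^ n0) ^ q * (ρ ^ n0) ^ m = b * (ρ ^ n0) ^ (m - q) := by
          rw [e2]
          field_simp
      _ ≤ _ := h2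
  · calc ((v (n0 * m + J) : ℚ) : ℝ) ≤ |((v (n0 * m + J) : ℚ) : ℝ)| := le_abs_self _
      _ ≤ B * (ρ ^ n0) ^ (m - q) := h1
      _ = B / (ρ ^ n0) ^ q * (ρ ^ n0) ^ m := by
          rw [e2]
          field_simp

include hkL hb hbu ha hu hv in
/-- **Explicit threshold.** Cases as in `Inst.pos_of_no_NN`: if all classes with `d = 0` have
positive level functions, use `Tm2` and `hP0`; otherwise there is a ratio that is not a root of
unity, and the classes with `d = 0` are treated by (a copy of) `Inst.level_lower`. The classes with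
`d ≥ 1` are treated by `Inst.clsM_pos`. -/
theorem Inst.pos_of_no_reg (C : ℕ) (hC : GapC C) (P P0 P2 p : ℕ) (t0 : ℝ) (ht0 : 0 < t0)
    (hno : ¬ I.NN0 L aR uR t0) (hno2 : ¬ I.MG L aR uR (1 / 2 ^ p))
    (hP : ∀ p0 p1 p2 p3 : ℕ, p0 ≤ 2 ^ (pbn L + L) → p1 ≤ 2 ^ (pbn L + L) →
      p2 ≤ 2 ^ (pbn L + L) → p3 ≤ 2 ^ (pbn L + L) →
      ElimP P (fun t y => I.RR L aR uR (v6 t y p0 p1 p2 p3)))
    (hP0 : Tm2 (fun n => ((v n : ℚ) : ℝ)) →
      ∀ t, (∃ (l c : ℕ → ℂ) (ex : ℕ → ℕ), RootData I.k aR uR l c ex ∧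
      CertBN I.k l c ex (pbm L) (pbn L) (2 / ((2 ^ pq L : ℕ) : ℝ)) (1 / 2 ^ pdl L) (PR t)) →
      t ≤ 2 ^ 2 ^ P0)
    (hP2 : ∀ t, (∃ (l c : ℕ → ℂ) (ex : ℕ → ℕ), RootData I.k aR uR l c ex ∧
      t ≤ ∑ i ∈ range I.k, ‖c i‖) → t ≤ 2 ^ 2 ^ P2) (n : ℕ)
    (hn : 2 ^ (pth L P0 P2 + pthN C L P P2 + pthM L p) ≤ n) :
    0 < v n := by
  classical
  obtain ⟨l, c, ex, hrd, hsort⟩ := exists_sorted (I.exists_rootData' aR uR ha hu)
  obtain ⟨n0, hn0, hn0Nb, htor, hcls⟩ :=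
    I.exists_cls2 L hkL hb aR uR ha hu v hv hrd t0 ht0 hno (1 / 2 ^ p) hno2
  have hp0 : (0 : ℝ) < 1 / 2 ^ p := by positivity
  have hn1 : 2 ^ pth L P0 P2 ≤ n :=
    le_trans (Nat.pow_le_pow_right (by norm_num) (by omega)) hn
  have hn2 : 2 ^ pthN C L P P2 ≤ n :=
    le_trans (Nat.pow_le_pow_right (by norm_num) (by omega)) hn
  have hnM : 2 ^ pthM L p ≤ n :=
    le_trans (Nat.pow_le_pow_right (by norm_num) (by omega)) hn
  have hn3 : 2 ^ pth2 L (P + 1) P2 ≤ n := by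
    refine le_trans (Nat.pow_le_pow_right (by norm_num) ?_) hn2
    unfold pthN
    exact Nat.le_add_right _ _
  -- the class of `n`
  have hpbn : 2 ^ (1 + 2 * L * L + (pdl L + 3) * L) + 2 ^ (1 + 2 * L * L + (pdl L + 3) * L) =
      2 ^ pbn L := by
    rw [pbn, pow_succ]
    ring
  have hk1 : I.k ≤ 2 ^ (1 + 2 * L * L + (pdl L + 3) * L) := by
    refine hkL.trans (Nat.lt_two_pow_self.le.trans (Nat.pow_le_pow_right (by norm_num) ?_))
    have : L ≤ (pdl L + 3) * L := Nat.le_mul_of_pos_left _ (by omega)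
    omega
  have hkn : I.k ≤ n := by
    refine hkL.trans (Nat.lt_two_pow_self.le.trans (le_trans ?_ hn3))
    apply Nat.pow_le_pow_right (by norm_num)
    unfold pth2
    omega
  obtain ⟨j, m, hj, hj', hjm⟩ : ∃ j m, I.k ≤ j ∧ j < I.k + n0 ∧ n = j + n0 * m := by
    refine ⟨I.k + (n - I.k) % n0, (n - I.k) / n0, Nat.le_add_right _ _,
      Nat.add_lt_add_left (Nat.mod_lt _ hn0) _, ?_⟩
    have := Nat.mod_add_div (n - I.k) n0
    omega
  have hjN : j ≤ 2 ^ pbn L := by omega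
  have hCc : ∑ i : Fin I.k, ‖c i‖ ≤ 2 ^ 2 ^ P2 := by
    apply hP2
    refine ⟨l, c, ex, hrd, ?_⟩
    rw [Finset.sum_range]
  by_cases hcM : ClsM I.k (fun i => l i) (fun i => c i) (fun i => ex i)
        (2 ^ pmh L) (2 ^ (1 + 2 * L * L + (pdl L + 3) * L)) (2 / ((2 ^ pq L : ℕ) : ℝ))
        (1 / 2 ^ pdl L) n0 j (1 / 2 ^ p)
  · rw [hjm] at hnM ⊢
    exact I.clsM_pos L hkL hb hbu aR uR ha hu v hv hrd n0 j hn0 hj _ _ _ _ p hcM m hnM
  by_cases hA : ∀ j, I.k ≤ j → j < I.k + n0 → (∃ (A H : Fin I.k → Fin I.k → ℤ) (D : ℤ) (s : ℕ)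
      (w : Fin I.k → Fin I.k → ℝ) (τ : Fin I.k → ℝ) (x : Fin I.k → ℝ) (i0 : Fin I.k),
      Rep (fun i : Fin I.k => l i) n0 A s x ∧
      BaseF I.k (fun i => l i) (fun i => c i) (fun i => ex i) (2 ^ pmh L)
        (2 ^ (1 + 2 * L * L + (pdl L + 3) * L)) (2 / ((2 ^ pq L : ℕ) : ℝ)) (1 / 2 ^ pdl L) n0 j
        A H D s w τ ‖l i0‖ 0 ∧
      l i0 ≠ 0 ∧
      (∀ z : Fin I.k → ℂ, (∀ t, ‖z t‖ = 1) → 0 < (LevF (fun i : Fin I.k => l i) (fun i => c i)
        (fun i => ex i) A s j 0 ‖l i0‖ z).re) ∧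
      (∀ m, ∑ i : Fin I.k, (if Above ‖l i0‖ 0 (l i) (ex i) then
            c i * ((j + n0 * m).choose (ex i) : ℂ) * l i ^ (j + n0 * m - ex i) else 0) = 0)) ∨
      ClsM I.k (fun i => l i) (fun i => c i) (fun i => ex i)
        (2 ^ pmh L) (2 ^ (1 + 2 * L * L + (pdl L + 3) * L)) (2 / ((2 ^ pq L : ℕ) : ℝ))
        (1 / 2 ^ pdl L) n0 j (1 / 2 ^ p)
  · have hT := I.tm2_of_cls L hkL hb aR uR ha hu v hv hrd n0 hn0 _ _ _ _ (1 / 2 ^ p) hp0 hA
    have hP1 := hP0 hT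
    obtain ⟨A, H, D, s, w, τ, x, i0, hrep, hbase, hi0, hpos, hvan⟩ :=
      (hA j hj hj').resolve_right hcM
    have hz := norm_orb x m
    have hμ : 1 / (2 ^ 2 ^ P0 + 1) ≤ (LevF (fun i : Fin I.k => l i) (fun i => c i)
        (fun i => ex i) A s j 0 ‖l i0‖ (orb x m)).re := by
      by_contra hcon
      push Not at hcon
      have ht := hP1 (2 ^ 2 ^ P0 + 1) ⟨l, c, ex, hrd, CertBF.toN (M := 2 ^ pmh L)
        (Nb := 2 ^ (1 + 2 * L * L + (pdl L + 3) * L)) ⟨n0, j, A, H, D, s, w, τ, ‖l i0‖, 0,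
          orb x m, orb x m, hbase, hz, hz, norm_pos_iff.mpr hi0, rfl, (hpos _ hz).ne', by
            have h0 : (0 : ℝ) < 2 ^ 2 ^ P0 + 1 := by positivity
            rw [lt_div_iff₀ h0] at hcon
            linarith⟩ (two_pow_lt_pbm L) (two_pow_lt_pbn L)⟩
      linarith
    have hfin := class_pos (k := I.k) (fun i => l i) (fun i => c i) (fun i => ex i)
      (fun i => hrd.1 i i.2) n0 j hj (fun n => ((v n : ℚ) : ℝ)) (I.all' aR uR ha hu v hv hrd)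
      ‖l i0‖ (norm_pos_iff.mpr hi0) hvan (1 / (2 ^ 2 ^ P0 + 1)) (1 / 2 ^ pg L) (2 ^ (2 * L)) (by
        rw [div_le_one (by positivity)]
        exact one_le_pow₀ (by norm_num)) (one_le_pow₀ (by norm_num))
      (fun i => root_norm_le I.k I.num I.den L hkL I.den_pos' (I.num_le' L hb) (l i)
        (I.root_eq' aR uR ha hrd i))
      (fun i hi => gap_of_roots I.k I.num I.den L hkL I.den_pos' (I.num_le' L hb) (I.den_le' L hb)
        (l i) (l i0) (I.root_eq' aR uR ha hrd i) (I.root_eq' aR uR ha hrd i0) hi) m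
      (by
        rw [levelSum_eq (fun i : Fin I.k => l i) (fun i => c i) (fun i => ex i) n0 j 0
          ‖l i0‖ s A x hrep.1 hrep.2 m]
        exact hμ) (by
        have h1 := threshold_ineq I.k L P0 P2 n j hkL hn1 hjN _ hCc
        have h2 : n - j = n0 * m := by omega
        rw [h2] at h1
        rw [← hjm]
        exact h1)
    rw [← hjm] at hfin
    exact_mod_cast hfin
  · -- there is a ratio that is not a root of unity
    obtain ⟨a, a', haa, hane⟩ : ∃ a a' : Fin I.k, ‖l a‖ = ‖l a'‖ ∧ l a ^ n0 ≠ l a' ^ n0 := by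
      by_contra hcon
      push Not at hcon
      apply hA
      intro j hj hj'
      rcases hcls j hj hj' with hD | hM
      swap
      · exact Or.inr hM
      left
      obtain ⟨A, H, D, s, w, τ, x, i0, hrep, hbase, hi0, -, -, hcase, hvan⟩ := hD
      refine ⟨A, H, D, s, w, τ, x, i0, hrep, hbase, hi0, ?_, hvan⟩
      rcases hcase with h | ⟨i, i', h1, h2, -⟩
      · exact h
      · exact absurd (hcon i i' h1) h2
    obtain ⟨A, H, D, s, w, τ, x, i0, hrep, hbase, hi0, ⟨z', hz', hne⟩, hF, hcase, hvan⟩ :=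
      (hcls j hj hj').resolve_right hcM
    obtain ⟨i, i', hii, hpne, hfin⟩ : ∃ i i' : Fin I.k, ‖l i‖ = ‖l i'‖ ∧ l i ^ n0 ≠ l i' ^ n0 ∧
        ((fun z : Fin I.k → ℂ => (l i / l i') ^ j * (Wt A s z i / Wt A s z i')) ''
        {z | (∀ t, ‖z t‖ = 1) ∧ (LevF (fun i : Fin I.k => l i) (fun i => c i) (fun i => ex i) A s j
          0 ‖l i0‖ z).re = 0}).Finite := by
      rcases hcase with h | ⟨i, i', h1, h2, h3⟩
      · refine ⟨a, a', haa, hane, ?_⟩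
        have h5 : {z : Fin I.k → ℂ | (∀ t, ‖z t‖ = 1) ∧ (LevF (fun i : Fin I.k => l i)
            (fun i => c i) (fun i => ex i) A s j 0 ‖l i0‖ z).re = 0} = ∅ := by
          ext z
          simp only [Set.mem_ofPred_eq, Set.mem_empty_iff_false, iff_false, not_and]
          intro hz
          exact (h z hz).ne'
        rw [h5, Set.image_empty]
        exact Set.finite_empty
      · exact ⟨i, i', h1, h2, h3⟩
    have hsmall : ∀ b : ℕ, b ≤ 2 ^ pbn L → b ≤ 2 ^ (pbn L + L) := fun b hb =>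
      hb.trans (Nat.pow_le_pow_right (by norm_num) (Nat.le_add_right _ _))
    have hsmall2 : ∀ b : Fin I.k, (b : ℕ) ≤ 2 ^ (pbn L + L) := fun b =>
      (b.2.le.trans hkL).trans (Nat.lt_two_pow_self.le.trans
        (Nat.pow_le_pow_right (by norm_num) (Nat.le_add_left _ _)))
    have hgt := gap_threshold C L P P2 n j hn2 hjN
    have hnj : n - j = n0 * m := by omega
    rw [hnj] at hgt
    have hlow := I.level_lower0 L hkL hb aR uR ha hu v hv C hC P t0 hno hrd hsort n0 j hn0 A H D s w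
      τ x i0 hrep hbase hi0 z' hz' hne hF hvan i i' hii hpne (htor i i' hii hpne) hfin
      (hP i i' n0 j (hsmall2 i) (hsmall2 i') (hsmall n0 (by omega)) (hsmall j hjN)) m hgt
    have hfinal := class_pos (k := I.k) (fun i => l i) (fun i => c i) (fun i => ex i)
      (fun i => hrd.1 i i.2) n0 j hj (fun n => ((v n : ℚ) : ℝ)) (I.all' aR uR ha hu v hv hrd)
      ‖l i0‖ (norm_pos_iff.mpr hi0) hvan
      (Real.exp (-((n0 * m : ℕ) : ℝ) / ((2 ^ (pg L + 1) : ℕ) : ℝ)) / 2 ^ 2 ^ P / 2 ^ 2 ^ P)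
      (1 / 2 ^ pg L) (2 ^ (2 * L)) (by
        rw [div_le_one (by positivity)]
        exact one_le_pow₀ (by norm_num)) (one_le_pow₀ (by norm_num))
      (fun i => root_norm_le I.k I.num I.den L hkL I.den_pos' (I.num_le' L hb) (l i)
        (I.root_eq' aR uR ha hrd i))
      (fun i hi => gap_of_roots I.k I.num I.den L hkL I.den_pos' (I.num_le' L hb) (I.den_le' L hb)
        (l i) (l i0) (I.root_eq' aR uR ha hrd i) (I.root_eq' aR uR ha hrd i0) hi) m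
      (by
        rw [levelSum_eq (fun i : Fin I.k => l i) (fun i => c i) (fun i => ex i) n0 j 0
          ‖l i0‖ s A x hrep.1 hrep.2 m]
        exact hlow) (by
        have h1 := threshold_ineq2 I.k L (P + 1) P2 n j hkL hn3 hjN _ hCc
        have h2 := decay_le (pg L) (n0 * m)
        rw [hnj] at h1
        rw [← hjm]
        have h3 : 0 < Real.exp (-((n0 * m : ℕ) : ℝ) / ((2 ^ (pg L + 1) : ℕ) : ℝ)) := Real.exp_pos _
        have h4 : (0 : ℝ) ≤ (∑ i : Fin I.k, ‖c i‖) * (n : ℝ) ^ I.k * ((2 : ℝ) ^ (2 * L)) ^ j := by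
          positivity
        have h5 : (1 : ℝ) / 2 ^ 2 ^ (P + 1) = 1 / 2 ^ 2 ^ P / 2 ^ 2 ^ P := by
          rw [pow_succ 2 P, mul_two, pow_add]
          field_simp
        calc (∑ i : Fin I.k, ‖c i‖) * (n : ℝ) ^ I.k * ((2 : ℝ) ^ (2 * L)) ^ j *
              (1 - 1 / 2 ^ pg L) ^ (n0 * m)
            ≤ (∑ i : Fin I.k, ‖c i‖) * (n : ℝ) ^ I.k * ((2 : ℝ) ^ (2 * L)) ^ j *
              (Real.exp (-((n0 * m : ℕ) : ℝ) / 2 ^ (pg L + 1)) *
                Real.exp (-((n0 * m : ℕ) : ℝ) / ((2 ^ (pg L + 1) : ℕ) : ℝ))) :=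
              mul_le_mul_of_nonneg_left h2 h4
          _ = ((∑ i : Fin I.k, ‖c i‖) * (n : ℝ) ^ I.k * ((2 : ℝ) ^ (2 * L)) ^ j *
              Real.exp (-((n0 * m : ℕ) : ℝ) / 2 ^ (pg L + 1))) *
                Real.exp (-((n0 * m : ℕ) : ℝ) / ((2 ^ (pg L + 1) : ℕ) : ℝ)) := by ring
          _ < 1 / 2 ^ 2 ^ (P + 1) *
                Real.exp (-((n0 * m : ℕ) : ℝ) / ((2 ^ (pg L + 1) : ℕ) : ℝ)) :=
              mul_lt_mul_of_pos_right h1 h3
          _ = _ := by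
              rw [h5]
              ring)
    rw [← hjm] at hfinal
    exact_mod_cast hfinal

end

end Pool.Agent.UltPos
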