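import Pool.Agent.DD7719.N3Inst
import Pool.Agent.DD7719.Final
import Pool.Agent.MX.Asm

/-! P23. Positive instances with at most eight roots on each circle: regular means not critical. -/

set_option autoImplicit false
set_option linter.unusedSectionVars false

namespace Pool.Agent.UltPos

open Pool.Agent.PT Pool.Agent.AllR Pool.Agent.DD7719.M Pool.Agent.DD7719 Finset

section
variable (I : Inst) (L : ℕ) (hkL : I.k ≤ L)
    (hb : ∀ i, (I.aNum i).natAbs ≤ 2 ^ L ∧ I.aDen i ≤ 2 ^ L) (aR uR : ℕ → ℝ)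
    (ha : ∀ t (h : t < I.k), aR t = (I.a ⟨t, h⟩ : ℝ)) (hu : ∀ t (h : t < I.k), uR t = (I.u ⟨t, h⟩ : ℝ))
    (v : ℕ → ℚ) (hv : I.IsSeq v)

include hkL hb ha hu hv in
/-- regularity when the level functions of the levels with `d ≥ 1` are positive (adapt
`Inst.nar_of_eight`: `class_data0`, `zeros_eight` for `d = 0`, compactness for `d ≥ 1`, and
`Inst.regular_of_cls`) -/
theorem Inst.regular_of_eight (hpos : ∀ n, 0 < v n) (h8 : I.EightPerCircle)
    {l c : ℕ → ℂ} {ex : ℕ → ℕ} (hrd : RootData I.k aR uR l c ex)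
    (hd : ∀ (n0 j : ℕ) (A H : Fin I.k → Fin I.k → ℤ) (D : ℤ) (s : ℕ) (w : Fin I.k → Fin I.k → ℝ)
      (τ : Fin I.k → ℝ) (ρ : ℝ) (d : ℕ),
      BaseF I.k (fun i => l i) (fun i => c i) (fun i => ex i) (2 ^ pmh L)
        (2 ^ (1 + 2 * L * L + (pdl L + 3) * L)) (2 / ((2 ^ pq L : ℕ) : ℝ)) (1 / 2 ^ pdl L) n0 j
        A H D s w τ ρ d → 0 < ρ → 0 < d →
      (∃ z' : Fin I.k → ℂ, (∀ t, ‖z' t‖ = 1) ∧ (LevF (fun i : Fin I.k => l i) (fun i => c i)
        (fun i => ex i) A s j d ρ z').re ≠ 0) →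
      ∀ z : Fin I.k → ℂ, (∀ t, ‖z t‖ = 1) → 0 < (LevF (fun i : Fin I.k => l i) (fun i => c i)
        (fun i => ex i) A s j d ρ z).re) :
    ∃ μ : ℝ, 0 < μ ∧ IsRegular μ (fun n => ((v n : ℚ) : ℝ)) I.rootSet := by
  classical
  have hg := (I.goodD L hkL hb aR uR ha hu v hv hrd).mono (M' := 2 ^ pmh L) Nat.one_le_two_pow
    (Nat.pow_le_pow_right (by norm_num) (by unfold pbm; omega)) (by positivity)
  obtain ⟨e, he0, hele, htor⟩ := torsion_of_roots I.k I.num I.den I.den_pos' (fun i => l i)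
    (I.root_eq' aR uR ha hrd)
  obtain ⟨n0, hn0, hn0Nb, hen0, hcls⟩ := class_data0 (k := I.k) (fun i => l i) (fun i => c i)
      (fun i => ex i) (2 ^ pr L)
      (2 ^ pq L) (2 ^ pmh L) (2 ^ (pdl L + 3)) e (2 ^ (1 + 2 * L * L + (pdl L + 3) * L)) I.kpos
      (fun i => hrd.1 i i.2) Nat.one_le_two_pow
      (le_trans (by
        have : 2 * I.k * 2 ^ pr L ≤ 8 * I.k * 2 ^ pr L := by
          gcongr
          norm_num
        exact this) (pQ_le hkL)) (pMH_le hkL) (1 / 2 ^ pdl L) (by positivity) (pd2 hkL) (pd4 hkL)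
      (pd3 hkL) (by positivity) (pd5 L) he0 (pNb_le hkL hele) (I.relBound' L hkL hb aR uR ha hrd)
      (fun n => ((v n : ℚ) : ℝ)) (I.all' aR uR ha hu v hv hrd)
  have hrange : Set.range (fun i : Fin I.k => l i) = I.rootSet := by
    ext z
    constructor
    · rintro ⟨i, rfl⟩
      exact I.root_mem aR uR ha hrd i
    · intro hz
      obtain ⟨i, hi⟩ := I.root_surj aR uR ha hrd z hz
      exact ⟨i, hi⟩
  have hconj : ∀ i : Fin I.k, ∃ i' : Fin I.k, l i' = (starRingEnd ℂ) (l i) := fun i =>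
    I.root_surj aR uR ha hrd _ (I.conj_mem aR ha _ (I.root_mem aR uR ha hrd i))
  have hU : ∀ r : ℝ, ({z | z ∈ Set.range (fun i : Fin I.k => l i) ∧ ‖z‖ = r}).ncard ≤ 8 := by
    intro r
    rw [hrange]
    have h4 := h8 r
    have h5 : ({z | z ∈ I.rootSet ∧ ‖z‖ = r}).Finite := by
      rw [← hrange]
      exact (Set.finite_range _).subset fun z hz => hz.1
    rw [← h5.cast_ncard_eq] at h4
    exact_mod_cast h4
  have htor' : ∀ i i' : Fin I.k, ‖l i‖ = ‖l i'‖ → l i ^ n0 ≠ l i' ^ n0 →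
      ∀ n : ℕ, 0 < n → l i ^ n ≠ l i' ^ n := by
    intro i i' hii hne n hn heq
    have hi' : l i' ≠ 0 := by
      intro h0
      rw [h0, norm_zero, norm_eq_zero] at hii
      apply hne
      rw [hii, h0]
    have hi : l i ≠ 0 := by
      intro h0
      rw [h0, norm_zero] at hii
      exact hi' (norm_eq_zero.mp hii.symm)
    have h1 := htor i i' hi hi' ⟨n, hn, by rw [div_pow, heq, div_self (pow_ne_zero _ hi')]⟩
    apply hne
    obtain ⟨r, hr⟩ := hen0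
    rw [div_pow, div_eq_one_iff_eq (pow_ne_zero _ hi')] at h1
    rw [hr, pow_mul, pow_mul, h1]
  have hvpos : ∀ n, (0 : ℝ) < ((v n : ℚ) : ℝ) := fun n => by exact_mod_cast hpos n
  -- class data with some margin
  have hkey : ∀ j, I.k ≤ j → j < I.k + n0 → ∃ μ : ℝ, 0 < μ ∧ ∀ μ', μ' ≤ μ →
      (ClsD I.k (fun i => l i) (fun i => c i) (fun i => ex i) (2 ^ pmh L)
        (2 ^ (1 + 2 * L * L + (pdl L + 3) * L)) (2 / ((2 ^ pq L : ℕ) : ℝ)) (1 / 2 ^ pdl L) n0 j ∨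
      ClsM I.k (fun i => l i) (fun i => c i) (fun i => ex i) (2 ^ pmh L)
        (2 ^ (1 + 2 * L * L + (pdl L + 3) * L)) (2 / ((2 ^ pq L : ℕ) : ℝ)) (1 / 2 ^ pdl L)
        n0 j μ') := by
    intro j hj hj'
    obtain ⟨A, H, D, s, w, τ, x, hrep, hcase⟩ := hcls j hj hj'
    rcases hcase with hbase | ⟨i0, hbase, hi0, ⟨z', hz', hne⟩, hvan⟩
    · exact absurd (base_rho_ne_zero _ _ _ _ _ _ _ _ _ hvpos hg _ _ _ _ _ _ _ _ _ _ hbase)
        (lt_irrefl _)
    · rcases Nat.eq_zero_or_pos (ex i0) with hd0 | hd0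
      · refine ⟨1, one_pos, fun μ' _ => Or.inl ?_⟩
        simp only [hd0] at hbase hne hvan
        obtain ⟨hF, hz3⟩ := zeros_eight (k := I.k) (fun i => l i) (fun i => c i) (fun i => ex i)
          (2 ^ pr L) (2 ^ pmh L) (2 ^ (1 + 2 * L * L + (pdl L + 3) * L))
          (2 / ((2 ^ pq L : ℕ) : ℝ)) (1 / 2 ^ pdl L) (fun n => ((v n : ℚ) : ℝ)) hg hvpos hconj hU
          n0 j A H D s w τ ‖l i0‖ hbase (norm_pos_iff.mpr hi0) z' hz' hne
        exact ⟨A, H, D, s, w, τ, x, i0, hrep, hbase, hi0, ⟨z', hz', hne⟩, hF, hz3, hvan⟩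
      · have hρ : 0 < ‖l i0‖ := norm_pos_iff.mpr hi0
        obtain ⟨μ0, hμ0, hmin⟩ := exists_torus_bound (fun i : Fin I.k => l i) (fun i => c i)
          (fun i => ex i) A s j (ex i0) ‖l i0‖
          (hd n0 j A H D s w τ ‖l i0‖ (ex i0) hbase hρ hd0 ⟨z', hz', hne⟩)
        have hfac : (0 : ℝ) < (ex i0).factorial := by exact_mod_cast (ex i0).factorial_pos
        have hP : 0 < ((ex i0).factorial : ℝ) * ‖l i0‖ ^ j := by positivity
        refine ⟨μ0 / ((ex i0).factorial * ‖l i0‖ ^ j), div_pos hμ0 hP, fun μ' hμ' => Or.inr ?_⟩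
        refine ⟨A, H, D, s, w, τ, x, i0, hrep, hbase, hi0, hd0, ⟨z', hz', hne⟩, fun z hz => ?_, hvan⟩
        refine le_trans ?_ (hmin z hz)
        rw [le_div_iff₀ hP] at hμ'
        rw [mul_assoc]
        exact hμ'
  choose! μf hμf hcl using hkey
  obtain ⟨μ, hμ, hle⟩ : ∃ μ : ℝ, 0 < μ ∧ ∀ j ∈ Finset.Ico I.k (I.k + n0), μ ≤ μf j := by
    have hne : (Finset.Ico I.k (I.k + n0)).Nonempty := ⟨I.k, by simp [hn0]⟩
    obtain ⟨j0, hj0, hmin⟩ := Finset.exists_min_image (Finset.Ico I.k (I.k + n0)) μf hne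
    refine ⟨μf j0, ?_, hmin⟩
    rw [Finset.mem_Ico] at hj0
    exact hμf j0 hj0.1 hj0.2
  refine ⟨μ, hμ, I.regular_of_cls L hkL hb aR uR ha hu v hv hrd n0 hn0 htor' (2 ^ pmh L)
    (2 ^ (1 + 2 * L * L + (pdl L + 3) * L)) (2 / ((2 ^ pq L : ℕ) : ℝ)) (1 / 2 ^ pdl L) μ
    fun j hj hj' => hcl j hj hj' μ (hle j (Finset.mem_Ico.mpr ⟨hj, hj'⟩))⟩

include hkL hb ha hu hv in
/-- a regular positive sequence has no certificate for criticality -/
private theorem Inst.no_certF (hpos : ∀ n, 0 < v n) (μ : ℝ) (hμ : 0 < μ)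
    (hreg : IsRegular μ (fun n => ((v n : ℚ) : ℝ)) I.rootSet)
    {l c : ℕ → ℂ} {ex : ℕ → ℕ} (hrd : RootData I.k aR uR l c ex)
    (hc : CertF I.k (fun i => l i) (fun i => c i) (fun i => ex i) (2 ^ pbm L) (2 ^ pbn L)
      (2 / ((2 ^ pq L : ℕ) : ℝ)) (1 / 2 ^ pdl L)) : False := by
  classical
  have hg := I.goodD L hkL hb aR uR ha hu v hv hrd
  have hvpos : ∀ n, (0 : ℝ) < ((v n : ℚ) : ℝ) := fun n => by exact_mod_cast hpos n
  obtain ⟨n0, j, A, H, D, s, w, τ, z, z', ρ, d, h1, h2, h3, h4, h5, h6, h7, h8, h9, h10, h11, h12,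
    h13, hz, hz', h16, h17, h18, hlast⟩ := hc
  have hbase : BaseF I.k (fun i => l i) (fun i => c i) (fun i => ex i) (2 ^ pbm L) (2 ^ pbn L)
      (2 / ((2 ^ pq L : ℕ) : ℝ)) (1 / 2 ^ pdl L) n0 j A H D s w τ ρ d :=
    ⟨h1, h2, h3, h4, h5, h6, h7, h8, h9, h10, h11, h12, h13, h16, h17, h18⟩
  have hρ : 0 < ρ := base_rho_ne_zero _ _ _ _ _ _ _ _ _ hvpos hg _ _ _ _ _ _ _ _ _ _ hbase
  have hlast' : (LevF (fun i : Fin I.k => l i) (fun i => c i) (fun i => ex i) A s j d ρ z).re < 0 ∨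
      (0 < d ∧ (LevF (fun i : Fin I.k => l i) (fun i => c i) (fun i => ex i) A s j d ρ z).re ≤ 0 ∧
        (LevF (fun i : Fin I.k => l i) (fun i => c i) (fun i => ex i) A s j d ρ z').re ≠ 0) :=
    hlast.resolve_left hρ.ne'
  rcases hlast' with hneg | ⟨hd0, hle, hne⟩
  · obtain ⟨u, hu', -, happ⟩ := nar_core _ _ _ _ _ _ _ _ hg.hk hg.hex hg.hdc hg.hR hg.hM hg.hrb
      hg.hε hg.hδ _ hg.hv n0 j A H D s w τ ρ d hbase hρ 1 one_pos
    obtain ⟨n, -, h20, -⟩ := happ z hz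
      (-((LevF (fun i : Fin I.k => l i) (fun i => c i) (fun i => ex i) A s j d ρ z).re) / 2)
      (by linarith) 0
    have h21 := (abs_le.mp h20).2
    have h22 := hu' n
    have h23 := hvpos (j + n0 * (1 * n))
    rw [h22] at h23
    have h24 : (0 : ℝ) < ρ ^ (n0 * (1 * n)) * ((j + n0 * (1 * n)).choose d : ℝ) := by
      have : 0 < (j + n0 * (1 * n)).choose d := Nat.choose_pos (by omega)
      positivity
    have h25 : 0 < u n := (pos_iff_pos_of_mul_pos h23).mp h24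
    linarith
  · obtain ⟨N, hN, hJ⟩ := hreg
    rcases hJ (j % N) (Nat.mod_lt _ hN) with hnar | hmar
    · obtain ⟨ρJ, hρJ, ⟨B, hB⟩, hnar⟩ := hnar
      obtain ⟨X, hX⟩ := nn_sound_cls (k := I.k) (fun n => ((v n : ℚ) : ℝ)) hvpos I.rootSet
        (2 ^ pr L) (2 ^ pbm L) (2 ^ pbn L) (2 / ((2 ^ pq L : ℕ) : ℝ)) (1 / 2 ^ pdl L)
        N hN (j % N) ρJ hρJ B hB hnar
      have := hX (X + 1) _ _ _ hg (I.root_surj aR uR ha hrd) n0 j A H D s w τ ρ d z z' hbase hz hz'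
        (Or.inr ⟨hne, Or.inl hd0⟩) rfl
      linarith
    · obtain ⟨-, h20⟩ := margin_sound _ _ _ _ _ _ _ _ _ hg n0 j A H D s w τ ρ d hbase hρ z' hz' hne
        N hN μ hμ hmar
      have h21 := h20 z hz
      have hfac : (0 : ℝ) < d.factorial := by exact_mod_cast d.factorial_pos
      have : 0 < μ * d.factorial * ρ ^ j := by positivity
      linarith

include hkL hb ha hu hv in
/-- a positive sequence with at most eight roots on each circle that is not critical is regular -/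
private theorem Inst.regular_of_noncrit (hpos : ∀ n, 0 < v n) (h8 : I.EightPerCircle)
    (hcr : ¬ DD7719.M.Critical (fun n => ((v n : ℚ) : ℝ))) :
    ∃ μ : ℝ, 0 < μ ∧ IsRegular μ (fun n => ((v n : ℚ) : ℝ)) I.rootSet := by
  classical
  obtain ⟨l, c, ex, hrd⟩ := I.exists_rootData' aR uR ha hu
  have hg := (I.goodD L hkL hb aR uR ha hu v hv hrd).mono (M' := 2 ^ pmh L) Nat.one_le_two_pow
    (Nat.pow_le_pow_right (by norm_num) (by unfold pbm; omega)) (by positivity)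
  have hvpos : ∀ n, (0 : ℝ) < ((v n : ℚ) : ℝ) := fun n => by exact_mod_cast hpos n
  refine I.regular_of_eight L hkL hb aR uR ha hu v hv hpos h8 hrd ?_
  intro n0 j A H D s w τ ρ d hbase hρ hd0 ⟨z', hz', hne⟩ z hz
  by_contra hcon
  push Not at hcon
  obtain ⟨h1, h2, h3, h4, h5, h6, h7, h9, h10, h11, h12, h13, h14, h16, h17, h18⟩ := hbase
  have hF : CertF I.k (fun i => l i) (fun i => c i) (fun i => ex i) (2 ^ pmh L)
      (2 ^ (1 + 2 * L * L + (pdl L + 3) * L)) (2 / ((2 ^ pq L : ℕ) : ℝ)) (1 / 2 ^ pdl L) :=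
    ⟨n0, j, A, H, D, s, w, τ, z, z', ρ, d, h1, h2, h3, h4, h5, h6, h7, h9, h10, h11, h12, h13, h14,
      hz, hz', h16, h17, h18, Or.inr (Or.inr ⟨hd0, hcon, hne⟩)⟩
  exact certF_sound _ _ _ _ _ _ _ _ hg.hk hg.hex hg.hdc hg.hR hg.hM hg.hrb hg.hε hg.hδ _ hg.hv hF
    ⟨⟨0, fun n _ => hvpos n⟩, hcr⟩

end

/-- **Regular means not critical** (`certF_sound` for one direction; for the other, `margin_sound`
and `nar_cls` exclude all certificates `CertF`, then `certF_complete`). -/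
theorem Inst.regular_iff_of_eight {I : Inst} (hP : I.Positive) (h8 : I.EightPerCircle) :
    I.Regular ↔ ¬ I.Critical := by
  classical
  obtain ⟨v, hv, -⟩ := I.exists_unique_seq
  set L : ℕ := I.k + ∑ i, ((I.aNum i).natAbs + I.aDen i) with hL
  have hb : ∀ i, (I.aNum i).natAbs ≤ 2 ^ L ∧ I.aDen i ≤ 2 ^ L := by
    intro i
    have h1 : (I.aNum i).natAbs + I.aDen i ≤ ∑ i, ((I.aNum i).natAbs + I.aDen i) :=
      Finset.single_le_sum (f := fun i => (I.aNum i).natAbs + I.aDen i)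
        (fun _ _ => Nat.zero_le _) (Finset.mem_univ i)
    have h2 : L ≤ 2 ^ L := Nat.lt_two_pow_self.le
    constructor <;> omega
  have hkL : I.k ≤ L := by omega
  have haR : ∀ t (h : t < I.k), ((I.aQ t : ℚ) : ℝ) = (I.a ⟨t, h⟩ : ℝ) := fun t h => by
    simp only [Inst.aQ, h, dif_pos]
  have huR : ∀ t (h : t < I.k), ((I.uQ t : ℚ) : ℝ) = (I.u ⟨t, h⟩ : ℝ) := fun t h => by
    simp only [Inst.uQ, h, dif_pos]
  have hpos := hP v hv
  constructor
  · rintro ⟨μ, hμ, v', hv', hreg⟩ hcr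
    rw [I.exists_unique_seq.unique hv' hv] at hreg
    obtain ⟨l, c, ex, hrd, hcert⟩ := (I.cert_iff L hkL hb (fun t => ((I.aQ t : ℚ) : ℝ))
      (fun t => ((I.uQ t : ℚ) : ℝ)) haR huR).mp (fun h => h.2 (Inst.critical_toM hcr))
    exact I.no_certF L hkL hb (fun t => ((I.aQ t : ℚ) : ℝ)) (fun t => ((I.uQ t : ℚ) : ℝ)) haR huR
      v hv hpos μ hμ hreg hrd hcert.toF
  · intro hcr
    have hcr' : ¬ DD7719.M.Critical (fun n => ((v n : ℚ) : ℝ)) := fun h =>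
      hcr ⟨v, hv, isCritical_of_M ⟨0, fun n _ => by exact_mod_cast hpos n⟩ h⟩
    obtain ⟨μ, hμ, h⟩ := I.regular_of_noncrit L hkL hb (fun t => ((I.aQ t : ℚ) : ℝ))
      (fun t => ((I.uQ t : ℚ) : ℝ)) haR huR v hv hpos h8 hcr'
    exact ⟨μ, hμ, v, hv, h⟩

end Pool.Agent.UltPos
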