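import Pool.Agent.MX.Final

/-! Positivity for recurrences of order at most five. -/

set_option autoImplicit false

namespace Pool.Agent.UltPos

open Pool.Agent.PT Pool.Agent.AllR Pool.Agent.DD7719.M Pool.Agent.DD7719 Pool.Agent.MX Finset

/-- **Positivity of recurrences of order at most five is in `∀ℝ`.** -/
theorem inForallR_five :
    InForallR {w : List ISym | ∃ I : Inst, w = I.enc ∧ I.Positive ∧ I.k ≤ 5} := by
  obtain ⟨kk, fR, hkk, hfR, hk, hf⟩ := exists_coefR
  obtain ⟨E, hE⟩ := Inst.regularWith_of_perCircle 8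
  have h := inForallR_regular_and (fun w => (2 + w.length) ^ E)
    (((UF.const 2).add UF.len).pow E) (fun x => 5 < kk x) (RE.up (UP.lt (UF.const 5) hkk))
  have hset : {w : List ISym | ∃ I : Inst, w = I.enc ∧ I.Positive ∧ I.k ≤ 5} =
      {w : List ISym | ∃ I : Inst, w = I.enc ∧ I.Positive ∧
        I.RegularWith (1 / 2 ^ (2 + w.length) ^ E) ∧ ¬ 5 < kk w} := by
    ext w
    constructor
    · rintro ⟨I, rfl, h1, h2⟩
      have h3 : I.EightPerCircle := Inst.eight_of_order (by omega)
      exact ⟨I, rfl, h1, hE I h1 (Inst.regular_of_twoMultiple h1 h3 (Inst.twoMultiple_of_order h2))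
        (I.eight_iff_perCircle.mp h3), by rw [hk]; omega⟩
    · rintro ⟨I, rfl, h1, h2, h3⟩
      rw [hk] at h3
      exact ⟨I, rfl, h1, by omega⟩
  rw [hset]
  exact h

end Pool.Agent.UltPos
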