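import Pool.Agent.RElim.Nrm

/-! P2. Real algebraic integers of a number field, with the house as a size. -/

set_option autoImplicit false

namespace Pool.Agent.MX

open Pool.Agent.RElim

/-- the real algebraic integers of a subfield of `ℂ` -/
def RA (F : IntermediateField ℚ ℂ) : Subring ℝ where
  carrier := {x | (x : ℂ) ∈ F ∧ IsIntegral ℤ (x : ℂ)}
  mul_mem' := fun ha hb => ⟨by simpa using F.mul_mem ha.1 hb.1, by simpa using ha.2.mul hb.2⟩
  one_mem' := ⟨by simp, by simpa using isIntegral_one⟩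
  add_mem' := fun ha hb => ⟨by simpa using F.add_mem ha.1 hb.1, by simpa using ha.2.add hb.2⟩
  zero_mem' := ⟨by simp, by simpa using isIntegral_zero⟩
  neg_mem' := fun ha => ⟨by simpa using F.neg_mem ha.1, by simpa using ha.2.neg⟩

/-- an element of `RA F` as an element of `F` -/
def toF {F : IntermediateField ℚ ℂ} (x : RA F) : F := ⟨((x : ℝ) : ℂ), x.2.1⟩

/-- the size of a real algebraic integer: the house, rounded up -/
noncomputable def NR (F : IntermediateField ℚ ℂ) (x : RA F) : ℕ :=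
  ⌈⨆ φ : F →ₐ[ℚ] ℂ, ‖φ (toF x)‖⌉₊

variable {F : IntermediateField ℚ ℂ} [FiniteDimensional ℚ F]

private theorem toF_add (a b : RA F) : toF (a + b) = toF a + toF b := by
  apply Subtype.ext
  simp [toF]

private theorem toF_mul (a b : RA F) : toF (a * b) = toF a * toF b := by
  apply Subtype.ext
  simp [toF]

private theorem toF_neg (a : RA F) : toF (-a) = -toF a := by
  apply Subtype.ext
  simp [toF]

private theorem toF_zero : toF (0 : RA F) = 0 := by
  apply Subtype.ext
  simp [toF]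

private theorem toF_one : toF (1 : RA F) = 1 := by
  apply Subtype.ext
  simp [toF]

theorem NR_le (x : RA F) (B : ℕ) (h : ∀ φ : F →ₐ[ℚ] ℂ, ‖φ (toF x)‖ ≤ B) : NR F x ≤ B := by
  have : Nonempty (F →ₐ[ℚ] ℂ) := ⟨F.val⟩
  unfold NR
  exact Nat.ceil_le.2 (ciSup_le h)

theorem le_NR (x : RA F) (φ : F →ₐ[ℚ] ℂ) : ‖φ (toF x)‖ ≤ NR F x := by
  have hb : BddAbove (Set.range fun φ : F →ₐ[ℚ] ℂ => ‖φ (toF x)‖) :=
    (Set.finite_range _).bddAbove
  exact (le_ciSup hb φ).trans (Nat.le_ceil _)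

theorem isNrm_NR : IsNrm (NR F) := by
  refine ⟨?_, ?_, ?_, ?_, ?_⟩
  · refine Nat.le_zero.1 (NR_le 0 0 fun φ => ?_)
    rw [toF_zero, map_zero, norm_zero, Nat.cast_zero]
  · refine NR_le 1 1 fun φ => ?_
    rw [toF_one, map_one, norm_one, Nat.cast_one]
  · intro a b
    refine NR_le _ _ fun φ => ?_
    rw [toF_add, map_add, Nat.cast_add]
    exact (norm_add_le _ _).trans (add_le_add (le_NR a φ) (le_NR b φ))
  · intro a
    refine NR_le _ _ fun φ => ?_
    rw [toF_neg, map_neg, norm_neg]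
    exact le_NR a φ
  · intro a b
    refine NR_le _ _ fun φ => ?_
    rw [toF_mul, map_mul, norm_mul, Nat.cast_mul]
    exact mul_le_mul (le_NR a φ) (le_NR b φ) (norm_nonneg _) (Nat.cast_nonneg _)

private theorem norm_val (x : RA F) : ‖F.val (toF x)‖ = |((RA F).subtype x : ℝ)| := by
  show ‖((x : ℝ) : ℂ)‖ = |(x : ℝ)|
  exact Complex.norm_real _

theorem abs_le_NR (x : RA F) : |((RA F).subtype x : ℝ)| ≤ NR F x := by
  rw [← norm_val]
  exact le_NR x F.val

/-- Liouville: the product of the conjugates of a nonzero algebraic integer is at least `1`. -/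
theorem one_le_mul_NR (x : RA F) (hx : x ≠ 0) (Dg : ℕ) (hDg : Module.finrank ℚ F ≤ Dg) :
    1 ≤ |((RA F).subtype x : ℝ)| * (NR F x : ℝ) ^ (Dg - 1) := by
  classical
  have hx0 : toF x ≠ 0 := by
    intro h
    apply hx
    have h1 : ((x : ℝ) : ℂ) = 0 := congrArg Subtype.val h
    exact Subtype.ext (Complex.ofReal_eq_zero.1 h1)
  have hint : IsIntegral ℤ (toF x) := by
    have h1 : IsIntegral ℤ (F.val (toF x)) := x.2.2
    exact (isIntegral_algHom_iff (F.val.restrictScalars ℤ) F.val.injective).1 h1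
  have hN : IsIntegral ℤ (Algebra.norm ℚ (toF x)) := Algebra.isIntegral_norm ℚ hint
  obtain ⟨n, hn⟩ := IsIntegrallyClosed.isIntegral_iff.1 hN
  have hN0 : Algebra.norm ℚ (toF x) ≠ 0 := Algebra.norm_ne_zero_iff.2 hx0
  have hn0 : n ≠ 0 := by
    rintro rfl
    apply hN0
    rw [← hn, map_zero]
  have h1 : (1 : ℝ) ≤ ‖algebraMap ℚ ℂ (Algebra.norm ℚ (toF x))‖ := by
    rw [← hn]
    have : algebraMap ℚ ℂ (algebraMap ℤ ℚ n) = ((n : ℝ) : ℂ) := by simp
    rw [this, Complex.norm_real, Real.norm_eq_abs]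
    exact_mod_cast Int.one_le_abs hn0
  rw [Algebra.norm_eq_prod_embeddings ℚ ℂ, norm_prod,
    ← Finset.mul_prod_erase Finset.univ (fun φ : F →ₐ[ℚ] ℂ => ‖φ (toF x)‖)
      (Finset.mem_univ F.val)] at h1
  have h2 : ∏ φ ∈ Finset.univ.erase F.val, ‖φ (toF x)‖ ≤ (NR F x : ℝ) ^ (Dg - 1) := by
    have h3 : (1 : ℝ) ≤ NR F x := by
      have h4 : 0 < (NR F x : ℝ) := by
        refine lt_of_lt_of_le ?_ (le_NR x F.val)
        rw [norm_pos_iff]
        intro h
        exact hx0 (F.val.injective (h.trans (map_zero _).symm))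
      exact_mod_cast h4
    calc ∏ φ ∈ Finset.univ.erase F.val, ‖φ (toF x)‖
        ≤ ∏ _φ ∈ Finset.univ.erase F.val, (NR F x : ℝ) :=
          Finset.prod_le_prod (fun _ _ => norm_nonneg _) fun φ _ => le_NR x φ
      _ = (NR F x : ℝ) ^ (Module.finrank ℚ F - 1) := by
          rw [Finset.prod_const, Finset.card_erase_of_mem (Finset.mem_univ _), Finset.card_univ,
            AlgHom.card]
      _ ≤ (NR F x : ℝ) ^ (Dg - 1) := pow_le_pow_right₀ h3 (by omega)
  exact h1.trans (mul_le_mul (le_of_eq (norm_val x)) h2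
    (Finset.prod_nonneg fun _ _ => norm_nonneg _) (abs_nonneg _))

end Pool.Agent.MX
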