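import Pool.Agent.MX.Defs2

/-! P9. The last clauses `QNN0` and `QMG`: closure proofs and conversions (adapt `DD7719/NQ.lean`). -/

set_option autoImplicit false

namespace Pool.Agent.DD7719.M

open Complex Filter Topology GS Pool.Agent.PT Pool.Agent.AllR

theorem qNN0_congr (k : ℕ) (tt : ℝ) : QCongr k (QNN0 k tt) := by
  intro l c ex ex' n0 j A A' s d ρ z z' Z1 Z2 hex hA h
  unfold QNN0 at h ⊢
  simp only [lev_congr hex hA]
  rcases h with h | ⟨h1, h0, h2 | ⟨h2, h3⟩⟩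
  · exact Or.inl h
  · exact Or.inr ⟨h1, h0, Or.inl h2⟩
  · refine Or.inr ⟨h1, h0, Or.inr ⟨h2, fun i hi i' hi' => ?_⟩⟩
    rw [wtN_congr hi hA, wtN_congr hi' hA, wtN_congr hi hA, wtN_congr hi' hA]
    exact h3 i hi i' hi'

theorem qMG_congr (k : ℕ) (μ : ℝ) : QCongr k (QMG k μ) := by
  intro l c ex ex' n0 j A A' s d ρ z z' Z1 Z2 hex hA h
  unfold QMG at h ⊢
  simp only [lev_congr hex hA]
  exact h

section
variable {Γ : Type} (kk bm bn : List Γ → ℕ)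
  (hk : UF (fun x _ => kk x)) (hbm : UF (fun x _ => bm x)) (hbn : UF (fun x _ => bn x))

include hk hbm hbn in
theorem re_QNN0 : RE (fun x e α => QNN0 (kk x) (α 0) (rl (fun v => α (2 * v + 1)))
      (rc (fun v => α (2 * v + 1))) (rex (kk x) (fun v => α (2 * v + 1)))
      (rn0 (bn x) (fun v => α (2 * v + 1))) (rj (bn x + kk x) (fun v => α (2 * v + 1)))
      (rA (bm x) (fun v => α (2 * v + 1))) (e 1) (e 0) (rρ (fun v => α (2 * v + 1)))
      (rz (fun v => α (2 * v + 1))) (rz' (fun v => α (2 * v + 1)))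
      (rz1 (fun v => α (2 * v + 1))) (rz2 (fun v => α (2 * v + 1)))) := by
  unfold QNN0
  have hL := cf_lev kk bm bn hk hbm hbn (zr := rz) cf_rz
  have hL' := cf_lev kk bm bn hk hbm hbn (zr := rz') cf_rz'
  have hL1 := cf_lev2 kk bm bn hk hbm hbn (zr := rz1) cf_rz1
  have hL2 := cf_lev2 kk bm bn hk hbm hbn (zr := rz2) cf_rz2
  have hn0 : NF (Γ := Γ) (fun x e α => rn0 (bn x) α) := nf_rn0 hbn
  have hW1 := cf_wt2 kk bm hk hbm (zr := rz1) cf_rz1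
  have hW2 := cf_wt2 kk bm hk hbm (zr := rz2) cf_rz2
  refine RE.or (RE.aff (RE.eq rf_rρ RF.zero) 2 1) (RE.and (RE.aff (RE.ne hL'.re RF.zero) 2 1)
    (RE.and (RE.up (UP.eq (UF.var 0) (UF.const 0))) (RE.or (RE.aff (RE.lt hL.re RF.zero) 2 1)
    (RE.and (RE.aff (RE.le hL.re RF.zero) 2 1) (RE.ball hk (RE.ball hk ?_))))))
  refine RE.or (RE.aff (RE.ne (cf_rl (UF.var 1)).norm (cf_rl (UF.var 0)).norm) 2 1)
    (RE.or (RE.aff (RE.ceq (CF.npow (cf_rl (UF.var 1)) hn0) (CF.npow (cf_rl (UF.var 0)) hn0)) 2 1)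
    (RE.and ?_ (RE.and ?_ (RE.and ?_ (RE.and ?_ (RE.and ?_ ?_))))))
  · refine RE.aff (R := fun x e α => ∀ t, t < kk x → ‖rz1 α (Nat.pair (e 1) (e 0)) t‖ = 1) ?_ 2 1
    exact RE.ball hk (RE.eq (cf_rz1 (uf_pair (UF.var 2) (UF.var 1)) (UF.var 0)).norm RF.one)
  · refine RE.aff (R := fun x e α => ∀ t, t < kk x → ‖rz2 α (Nat.pair (e 1) (e 0)) t‖ = 1) ?_ 2 1
    exact RE.ball hk (RE.eq (cf_rz2 (uf_pair (UF.var 2) (UF.var 1)) (UF.var 0)).norm RF.one)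
  · exact RE.aff (RE.le hL1.re RF.zero) 2 1
  · exact RE.aff (RE.le hL2.re RF.zero) 2 1
  · exact RE.aff (RE.cne ((hW1 1).div (hW1 0)) ((hW2 1).div (hW2 0))) 2 1
  · exact RE.le ((RF.var (UF.const 0)).mul
      (RF.aff ((((hW1 1).div (hW1 0)).sub ((hW2 1).div (hW2 0))).norm) 2 1)) RF.one

include hk hbm hbn in
theorem re_QMG (mR : List Γ → ℝ) (hm : RF (fun x _ _ => mR x)) :
    RE (fun x e α => QMG (kk x) (mR x) (rl (fun v => α (2 * v + 1)))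
      (rc (fun v => α (2 * v + 1))) (rex (kk x) (fun v => α (2 * v + 1)))
      (rn0 (bn x) (fun v => α (2 * v + 1))) (rj (bn x + kk x) (fun v => α (2 * v + 1)))
      (rA (bm x) (fun v => α (2 * v + 1))) (e 1) (e 0) (rρ (fun v => α (2 * v + 1)))
      (rz (fun v => α (2 * v + 1))) (rz' (fun v => α (2 * v + 1)))
      (rz1 (fun v => α (2 * v + 1))) (rz2 (fun v => α (2 * v + 1)))) := by
  unfold QMG
  have hL := cf_lev kk bm bn hk hbm hbn (zr := rz) cf_rz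
  have hL' := cf_lev kk bm bn hk hbm hbn (zr := rz') cf_rz'
  have hj : NF (Γ := Γ) (fun x e α => rj (bn x + kk x) α) := nf_rj (hbn.add hk)
  have hfac : RF (Γ := Γ) (fun x e α => ((e 0).factorial : ℝ)) := by
    refine (RF.prod (b := fun _ e => e 0) (f := fun _ _ _ i => ((i + 1 : ℕ) : ℝ)) (UF.var 0)
      (RF.nat ((UF.var 0).add (UF.const 1)))).congr fun x e α => ?_
    rw [← Nat.cast_prod, Finset.prod_range_add_one_eq_factorial]
  have hpow : RF (Γ := Γ) (fun x e α => rρ α ^ rj (bn x + kk x) α) := by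
    refine (CF.npow (CF.ofReal rf_rρ) hj).re.congr fun x e α => ?_
    rw [← Complex.ofReal_pow, Complex.ofReal_re]
  exact RE.and (RE.aff (RE.lt RF.zero rf_rρ) 2 1) (RE.and (RE.up (UP.lt (UF.const 0) (UF.var 0)))
    (RE.and (RE.aff (RE.ne hL'.re RF.zero) 2 1) (RE.lt (RF.aff hL.re 2 1)
      ((hm.mul hfac).mul (RF.aff hpow 2 1)))))

end

/-! ### Conversions -/

theorem certQNN0_toF {k : ℕ} {l c : ℕ → ℂ} {ex : ℕ → ℕ} {bm bn : ℕ} {ε δ tt : ℝ}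
    (h : CertQN k l c ex bm bn ε δ (QNN0 k tt)) :
    CertNF0 k (fun i => l i) (fun i => c i) (fun i => ex i) (2 ^ bm) (2 ^ bn) ε δ tt := by
  obtain ⟨n0, j, A, H, D, s, w, τ, z, z', Z1, Z2, ρ, d, hbase, hz, hz', hQ⟩ := h
  refine ⟨n0, j, fun i t => A i t, fun i t => H i t, D, s, fun i t => w i t, fun i => τ i, ρ, d,
    fun t => z t, fun t => z' t, hbase.toF, fun t => hz t t.2, fun t => hz' t t.2, ?_⟩
  unfold QNN0 at hQ
  simp only [lev_eq_levF] at hQ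
  rcases hQ with h | ⟨h1, h0, h2 | ⟨h2, h3⟩⟩
  · exact Or.inl h
  · exact Or.inr ⟨h1, h0, Or.inl h2⟩
  · refine Or.inr ⟨h1, h0, Or.inr ⟨h2, fun i i' hii hne => ?_⟩⟩
    rcases h3 i i.2 i' i'.2 with h4 | h4 | ⟨g1, g2, g3, g4, g5, g6⟩
    · exact absurd hii h4
    · exact absurd h4 hne
    · simp only [wtN_eq] at g5 g6
      exact ⟨fun t => Z1 (Nat.pair i i') t, fun t => Z2 (Nat.pair i i') t, fun t => g1 t t.2,
        fun t => g2 t t.2, g3, g4, g5, g6⟩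

theorem CertNF0.toN {k : ℕ} {l c : ℕ → ℂ} {ex : ℕ → ℕ} {M Nb bm bn : ℕ} {ε δ tt : ℝ}
    (h : CertNF0 k (fun i => l i) (fun i => c i) (fun i => ex i) M Nb ε δ tt)
    (hM : M < 2 ^ bm) (hN : Nb < 2 ^ bn) :
    CertQN k l c ex bm bn ε δ (QNN0 k tt) := by
  classical
  obtain ⟨n0, j, A, H, D, s, w, τ, ρ, d, z, z', hbase, hz, hz', hQ⟩ := h
  -- choose the families
  have hch : ∀ i i' : Fin k, ∃ y1 y2 : Fin k → ℂ,
      (∃ z1 z2 : Fin k → ℂ, (∀ t, ‖z1 t‖ = 1) ∧ (∀ t, ‖z2 t‖ = 1) ∧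
      (LevF (fun i : Fin k => l i) (fun i => c i) (fun i => ex i) A s j d ρ z1).re ≤ 0 ∧
      (LevF (fun i : Fin k => l i) (fun i => c i) (fun i => ex i) A s j d ρ z2).re ≤ 0 ∧
      Wt A s z1 i / Wt A s z1 i' ≠ Wt A s z2 i / Wt A s z2 i' ∧
      tt * ‖Wt A s z1 i / Wt A s z1 i' - Wt A s z2 i / Wt A s z2 i'‖ ≤ 1) →
      (∀ t, ‖y1 t‖ = 1) ∧ (∀ t, ‖y2 t‖ = 1) ∧
      (LevF (fun i : Fin k => l i) (fun i => c i) (fun i => ex i) A s j d ρ y1).re ≤ 0 ∧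
      (LevF (fun i : Fin k => l i) (fun i => c i) (fun i => ex i) A s j d ρ y2).re ≤ 0 ∧
      Wt A s y1 i / Wt A s y1 i' ≠ Wt A s y2 i / Wt A s y2 i' ∧
      tt * ‖Wt A s y1 i / Wt A s y1 i' - Wt A s y2 i / Wt A s y2 i'‖ ≤ 1 := by
    intro i i'
    by_cases hex : ∃ z1 z2 : Fin k → ℂ, (∀ t, ‖z1 t‖ = 1) ∧ (∀ t, ‖z2 t‖ = 1) ∧
      (LevF (fun i : Fin k => l i) (fun i => c i) (fun i => ex i) A s j d ρ z1).re ≤ 0 ∧
      (LevF (fun i : Fin k => l i) (fun i => c i) (fun i => ex i) A s j d ρ z2).re ≤ 0 ∧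
      Wt A s z1 i / Wt A s z1 i' ≠ Wt A s z2 i / Wt A s z2 i' ∧
      tt * ‖Wt A s z1 i / Wt A s z1 i' - Wt A s z2 i / Wt A s z2 i'‖ ≤ 1
    · obtain ⟨z1, z2, h⟩ := hex
      exact ⟨z1, z2, fun _ => h⟩
    · exact ⟨fun _ => 1, fun _ => 1, fun h => absurd h hex⟩
  choose Y1 Y2 hY using hch
  let Z1 : ℕ → ℕ → ℂ := fun p => if h : (Nat.unpair p).1 < k ∧ (Nat.unpair p).2 < k then
    ext1 1 (Y1 ⟨_, h.1⟩ ⟨_, h.2⟩) else fun _ => 1
  let Z2 : ℕ → ℕ → ℂ := fun p => if h : (Nat.unpair p).1 < k ∧ (Nat.unpair p).2 < k then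
    ext1 1 (Y2 ⟨_, h.1⟩ ⟨_, h.2⟩) else fun _ => 1
  have hZ1 : ∀ i i' t : Fin k, Z1 (Nat.pair i i') t = Y1 i i' t := by
    intro i i' t
    simp only [Z1, Nat.unpair_pair, i.2, i'.2, and_self, dif_pos]
    exact ext1_fin _ _ _
  have hZ2 : ∀ i i' t : Fin k, Z2 (Nat.pair i i') t = Y2 i i' t := by
    intro i i' t
    simp only [Z2, Nat.unpair_pair, i.2, i'.2, and_self, dif_pos]
    exact ext1_fin _ _ _
  refine ⟨n0, j, ext2 0 A, ext2 0 H, D, s, ext2 0 w, ext1 0 τ, ext1 1 z, ext1 1 z', Z1, Z2, ρ, d,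
    hbase.toN hM hN, ?_, ?_, ?_⟩
  · rw [forall_fin]
    intro t
    rw [ext1_fin]
    exact hz t
  · rw [forall_fin]
    intro t
    rw [ext1_fin]
    exact hz' t
  · unfold QNN0
    rw [levF_ext l c ex A s j d ρ z (ext1 1 z) (ext1_fin 1 z),
      levF_ext l c ex A s j d ρ z' (ext1 1 z') (ext1_fin 1 z')]
    rcases hQ with h | ⟨h1, h0, h2 | ⟨h2, h3⟩⟩
    · exact Or.inl h
    · exact Or.inr ⟨h1, h0, Or.inl h2⟩
    · refine Or.inr ⟨h1, h0, Or.inr ⟨h2, ?_⟩⟩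
      rw [forall_fin]
      intro i
      rw [forall_fin]
      intro i'
      by_cases hii : ‖l i‖ = ‖l i'‖
      · by_cases hne : l i ^ n0 = l i' ^ n0
        · exact Or.inr (Or.inl hne)
        · right
          right
          obtain ⟨g1, g2, g3, g4, g5, g6⟩ := hY i i' (h3 i i' hii hne)
          rw [levF_ext l c ex A s j d ρ (Y1 i i') (Z1 (Nat.pair i i')) (hZ1 i i'),
            levF_ext l c ex A s j d ρ (Y2 i i') (Z2 (Nat.pair i i')) (hZ2 i i'),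
            wtN_ext A s (Y1 i i') (Z1 (Nat.pair i i')) (hZ1 i i') i,
            wtN_ext A s (Y1 i i') (Z1 (Nat.pair i i')) (hZ1 i i') i',
            wtN_ext A s (Y2 i i') (Z2 (Nat.pair i i')) (hZ2 i i') i,
            wtN_ext A s (Y2 i i') (Z2 (Nat.pair i i')) (hZ2 i i') i']
          refine ⟨?_, ?_, g3, g4, g5, g6⟩
          · rw [forall_fin]
            intro t
            rw [hZ1]
            exact g1 t
          · rw [forall_fin]
            intro t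
            rw [hZ2]
            exact g2 t
      · exact Or.inl hii

theorem certQMG_toF {k : ℕ} {l c : ℕ → ℂ} {ex : ℕ → ℕ} {bm bn : ℕ} {ε δ μ : ℝ}
    (h : CertQN k l c ex bm bn ε δ (QMG k μ)) :
    CertMF k (fun i => l i) (fun i => c i) (fun i => ex i) (2 ^ bm) (2 ^ bn) ε δ μ := by
  obtain ⟨n0, j, A, H, D, s, w, τ, z, z', Z1, Z2, ρ, d, hbase, hz, hz', hQ⟩ := h
  refine ⟨n0, j, fun i t => A i t, fun i t => H i t, D, s, fun i t => w i t, fun i => τ i, ρ, d,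
    fun t => z t, fun t => z' t, hbase.toF, fun t => hz t t.2, fun t => hz' t t.2, ?_⟩
  unfold QMG at hQ
  simp only [lev_eq_levF] at hQ
  exact hQ

theorem CertMF.toN {k : ℕ} {l c : ℕ → ℂ} {ex : ℕ → ℕ} {M Nb bm bn : ℕ} {ε δ μ : ℝ}
    (h : CertMF k (fun i => l i) (fun i => c i) (fun i => ex i) M Nb ε δ μ)
    (hM : M < 2 ^ bm) (hN : Nb < 2 ^ bn) :
    CertQN k l c ex bm bn ε δ (QMG k μ) := by
  classical
  obtain ⟨n0, j, A, H, D, s, w, τ, ρ, d, z, z', hbase, hz, hz', hQ⟩ := h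
  refine ⟨n0, j, ext2 0 A, ext2 0 H, D, s, ext2 0 w, ext1 0 τ, ext1 1 z, ext1 1 z',
    fun _ _ => 1, fun _ _ => 1, ρ, d, hbase.toN hM hN, ?_, ?_, ?_⟩
  · rw [forall_fin]
    intro t
    rw [ext1_fin]
    exact hz t
  · rw [forall_fin]
    intro t
    rw [ext1_fin]
    exact hz' t
  · unfold QMG
    rw [levF_ext l c ex A s j d ρ z (ext1 1 z) (ext1_fin 1 z),
      levF_ext l c ex A s j d ρ z' (ext1 1 z') (ext1_fin 1 z')]
    exact hQ

end Pool.Agent.DD7719.M
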