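import Pool.Agent.MX.Defs

/-! Instances with the coefficients of a given one and initial values on a grid. -/

set_option autoImplicit false

namespace Pool.Agent.UltPos

/-- The coefficients of `I` and the initial values `b i / q`. -/
def Inst.withInit (I : Inst) (b : Fin I.k → ℤ) (q : ℕ) (hq : 0 < q) : Inst where
  k := I.k
  kpos := I.kpos
  aNum := I.aNum
  aDen := I.aDen
  aDen_pos := I.aDen_pos
  uNum := b
  uDen := fun _ => q
  uDen_pos := fun _ => hq

/-- The length of the code of the coefficients of `I` with initial values zero. -/
def Inst.coefLength (I : Inst) : ℕ := (I.withInit (fun _ => 0) 1 Nat.one_pos).enc.length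

end Pool.Agent.UltPos
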