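import Pool.Agent.MX.SmMain
import Pool.Agent.MX.Final
import Pool.Agent.DD7719.Final

/-! Positivity and Ultimate Positivity for almost all initial values. -/

set_option autoImplicit false

namespace Pool.Agent.UltPos

open Pool.Agent.PT Pool.Agent.AllR Pool.Agent.DD7719.M Pool.Agent.DD7719 Pool.Agent.MX Finset

theorem Inst.Positive.ultimatelyPositive {I : Inst} (h : I.Positive) : I.UltimatelyPositive :=
  fun v hv => ⟨0, fun n _ => h v hv n⟩

theorem exists_almost_all : ∃ P U : Set (List ISym), InForallR P ∧ InForallR U ∧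
    (∀ w ∈ P, ∃ I : Inst, w = I.enc ∧ I.Positive) ∧
    (∀ w ∈ U, ∃ I : Inst, w = I.enc ∧ I.UltimatelyPositive) ∧
    ∃ c : ℕ, ∀ (I : Inst) (b : Fin I.k → ℤ) (q : ℕ) (hq : 0 < q) (p : ℕ),
      Nat.card {w : Fin I.k → Fin (2 ^ p) //
        ¬ ((I.withInit (fun i => b i + ((w i : ℕ) : ℤ)) q hq).Positive ↔
          (I.withInit (fun i => b i + ((w i : ℕ) : ℤ)) q hq).enc ∈ P) ∨
        ¬ ((I.withInit (fun i => b i + ((w i : ℕ) : ℤ)) q hq).UltimatelyPositive ↔
          (I.withInit (fun i => b i + ((w i : ℕ) : ℤ)) q hq).enc ∈ U)} * 2 ^ p ≤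
      2 ^ (I.coefLength ^ c + c) * (2 ^ p) ^ I.k := by
  obtain ⟨c, hc⟩ := exists_smoothed
  refine ⟨_, _, inForallR_regularWith 1, inForallR_noncritical, ?_, ?_, c, ?_⟩
  · rintro w ⟨I, rfl, h1, -⟩
    exact ⟨I, rfl, h1⟩
  · rintro w ⟨I, rfl, h1, -⟩
    exact ⟨I, rfl, h1⟩
  · intro I b q hq p
    refine le_trans (Nat.mul_le_mul_right _ ?_) (hc I b q hq p)
    refine Nat.card_le_card_of_injective (fun w => ⟨w.1, ?_⟩) ?_
    · obtain ⟨w, hw⟩ := w
      rcases hw with hw | hw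
      · have hP : (I.withInit (fun i => b i + ((w i : ℕ) : ℤ)) q hq).Positive := by
          by_contra hP
          apply hw
          refine ⟨fun h => absurd h hP, ?_⟩
          rintro ⟨J, hJ, h1, -⟩
          rwa [enc_injective hJ]
        refine ⟨hP.ultimatelyPositive, Or.inr fun hR => hw ⟨fun _ => ⟨_, rfl, hP, hR⟩, fun _ => hP⟩⟩
      · have hP : (I.withInit (fun i => b i + ((w i : ℕ) : ℤ)) q hq).UltimatelyPositive := by
          by_contra hP
          apply hw
          refine ⟨fun h => absurd h hP, ?_⟩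
          rintro ⟨J, hJ, h1, -⟩
          rwa [enc_injective hJ]
        refine ⟨hP, Or.inl ?_⟩
        by_contra hR
        exact hw ⟨fun _ => ⟨_, rfl, hP, hR⟩, fun _ => hP⟩
    · rintro ⟨w, hw⟩ ⟨w', hw'⟩ h
      simpa using h

end Pool.Agent.UltPos
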