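import Pool.Agent.MX.CoefB
import Pool.Agent.MX.SmDefs
import Pool.Agent.DD7719.Assemble

/-! S3. Root data for all initial values at once. -/

set_option autoImplicit false

namespace Pool.Agent.UltPos

open Pool.Agent.DD7719.M Pool.Agent.DD7719 Finset

private lemma coefLength_facts (I : Inst) : I.k ≤ I.coefLength ∧
    ∀ i : Fin I.k, (I.aNum i).natAbs ≤ 2 ^ I.coefLength ∧ I.aDen i ≤ 2 ^ I.coefLength := by
  obtain ⟨kk, sg, nb, db, -, -, -, -, hI⟩ := exists_parser
  obtain ⟨-, h1, -, -, -, -, h2⟩ := hI (I.withInit (fun _ => 0) 1 Nat.one_pos)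
  exact ⟨h1, fun i => ⟨(h2 i).1.le, (h2 i).2.1.le⟩⟩

/-- Root data whose coefficients depend linearly on the initial values, with bounds (`C` is the
inverse of the confluent Vandermonde matrix `vmat`; the bounds come from `coef_bound` with the unit
vectors as initial values). -/
theorem Inst.exists_common (I : Inst) : ∃ (l : ℕ → ℂ) (ex : ℕ → ℕ) (C : ℕ → ℕ → ℂ),
    (∀ i, i < I.k → ‖l i‖ ≤ 2 ^ (2 * I.coefLength)) ∧
    (∀ i, i < I.k → ∀ n, n < I.k → ‖C i n‖ ≤ 2 ^ pcf I.coefLength) ∧
    (∀ i, i < I.k → ∃ n, n < I.k ∧ C i n ≠ 0) ∧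
    ∀ x : ℕ → ℝ, RootData I.k (fun t => (I.aQ t : ℝ)) x l
      (fun i => ∑ n ∈ range I.k, C i n * (x n : ℂ)) ex := by
  classical
  obtain ⟨hkL, hb⟩ := coefLength_facts I
  obtain ⟨l, c0, ex, hrd0, -, -⟩ := exists_rootData I.k I.aQ (fun _ => 0)
  set M := vmat I.k fun i => (l i, ex i) with hM
  have hdet : M.det ≠ 0 := hrd0.det_ne_zero
  have hunit : IsUnit M.det := isUnit_iff_ne_zero.2 hdet
  let C : ℕ → ℕ → ℂ := fun i n =>
    if h : i < I.k ∧ n < I.k then M⁻¹ ⟨i, h.1⟩ ⟨n, h.2⟩ else 0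
  have hC : ∀ i n : Fin I.k, C i n = M⁻¹ i n := by
    intro i n
    simp only [C]
    rw [dif_pos ⟨i.2, n.2⟩]
  have hrd : ∀ x : ℕ → ℝ, RootData I.k (fun t => (I.aQ t : ℝ)) x l
      (fun i => ∑ n ∈ range I.k, C i n * (x n : ℂ)) ex := by
    intro x
    refine ⟨hrd0.1, hrd0.2.1, hrd0.2.2.1, ?_⟩
    intro n hn
    have h1 : (M * M⁻¹).mulVec (fun m : Fin I.k => (x m : ℂ)) ⟨n, hn⟩ = (x n : ℂ) := by
      rw [Matrix.mul_nonsing_inv M hunit, Matrix.one_mulVec]
    rw [← Matrix.mulVec_mulVec] at h1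
    rw [← h1, Finset.sum_range]
    simp only [Matrix.mulVec, dotProduct]
    apply Finset.sum_congr rfl
    intro i _
    rw [Finset.sum_range]
    have e1 : ∀ m : Fin I.k, C i m * (x m : ℂ) = M⁻¹ i m * (x m : ℂ) := by
      intro m
      rw [hC]
    rw [Finset.sum_congr rfl fun m _ => e1 m]
    have e2 : M ⟨n, hn⟩ i = (n.choose (ex i) : ℂ) * l i ^ (n - ex i) := rfl
    rw [e2]
    ring
  refine ⟨l, ex, C, ?_, ?_, ?_, hrd⟩
  · intro i hi
    refine root_norm_le I.k I.num I.den I.coefLength hkL ?_ ?_ (l i) ?_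
    · intro t ht
      simp only [Inst.den, ht, dif_pos]
      exact I.aDen_pos _
    · intro t ht
      simp only [Inst.num, ht, dif_pos]
      exact (hb _).1
    · rw [hrd0.root i hi]
      apply Finset.sum_congr rfl
      intro t ht
      rw [Finset.mem_range] at ht
      simp only [Inst.num, Inst.den, Inst.aQ, ht, dif_pos, Inst.a]
      push_cast
      rfl
  · intro i hi n hn
    have h1 := (Pool.Agent.MX.coef_bound I.k I.coefLength hkL I.num
      (fun t => if t = n then 1 else 0) I.den (fun _ => 1) ?_ (fun _ _ => one_pos) ?_ ?_ ?_ ?_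
      (fun t => (I.aQ t : ℝ)) (fun t => if t = n then 1 else 0) ?_ ?_ l _ ex
      (hrd (fun t => if t = n then 1 else 0))).1 i hi
    · have e : ∑ m ∈ range I.k, C i m * (((if m = n then 1 else 0 : ℝ)) : ℂ) = C i n := by
        rw [Finset.sum_eq_single n]
        · simp
        · intro m _ hm
          simp [hm]
        · intro h
          exact absurd (Finset.mem_range.2 hn) h
      simp only [e] at h1
      exact h1
    · intro t ht
      simp only [Inst.den, ht, dif_pos]
      exact I.aDen_pos _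
    · intro t ht
      simp only [Inst.num, ht, dif_pos]
      exact (hb _).1
    · intro t ht
      simp only [Inst.den, ht, dif_pos]
      exact (hb _).2
    · intro t _
      have : 1 ≤ 2 ^ I.coefLength := Nat.one_le_two_pow
      split_ifs
      · simpa using this
      · simp
    · intro t _
      exact Nat.one_le_two_pow
    · intro t ht
      simp only [Inst.num, Inst.den, Inst.aQ, ht, dif_pos, Inst.a]
      push_cast
      rfl
    · intro t _
      split_ifs <;> simp
  · intro i hi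
    by_contra hcon
    push Not at hcon
    have h1 : (M⁻¹ * M) ⟨i, hi⟩ ⟨i, hi⟩ = 1 := by
      rw [Matrix.nonsing_inv_mul M hunit, Matrix.one_apply_eq]
    rw [Matrix.mul_apply] at h1
    have h2 : ∀ m : Fin I.k, M⁻¹ ⟨i, hi⟩ m = 0 := by
      intro m
      rw [← hC]
      exact hcon m m.2
    simp [h2] at h1

theorem Inst.k_le_coefLength (I : Inst) : I.k ≤ I.coefLength := (coefLength_facts I).1

/-- the denominator is bounded by the length of the code -/
theorem Inst.withInit_den (I : Inst) (b : Fin I.k → ℤ) (q : ℕ) (hq : 0 < q) :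
    q ≤ 2 ^ (I.withInit b q hq).enc.length := by
  obtain ⟨kk, sg, nb, db, -, -, -, -, hI⟩ := exists_parser
  obtain ⟨-, -, -, -, -, -, h2⟩ := hI (I.withInit b q hq)
  exact (h2 ⟨0, I.kpos⟩).2.2.2.le

end Pool.Agent.UltPos
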