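import Pool.Agent.MX.SmTop

/-! S2b. No real positive root on the top level. -/

set_option autoImplicit false

namespace Pool.Agent.DD7719.M

open Complex Filter Topology

variable {k : ℕ}

private lemma mean_geom (w : ℂ) (hw : ‖w‖ = 1) :
    Tendsto (fun n : ℕ => ((n : ℝ))⁻¹ • ∑ m ∈ Finset.range n, w ^ m) atTop
      (𝓝 (if w = 1 then 1 else 0)) := by
  split_ifs with h
  · subst h
    apply tendsto_nhds_of_eventually_eq
    filter_upwards [eventually_gt_atTop 0] with n hn
    simp only [one_pow, Finset.sum_const, Finset.card_range, nsmul_eq_mul, mul_one]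
    rw [real_smul]
    have : (n : ℂ) ≠ 0 := by exact_mod_cast hn.ne'
    push_cast
    field_simp
  · rw [tendsto_zero_iff_norm_tendsto_zero]
    have h5 : Tendsto (fun n : ℕ => ((n : ℝ))⁻¹ * (2 / ‖w - 1‖)) atTop (𝓝 0) := by
      have := (tendsto_inv_atTop_nhds_zero_nat (𝕜 := ℝ)).mul_const (2 / ‖w - 1‖)
      rwa [zero_mul] at this
    refine squeeze_zero (fun n => norm_nonneg _) (fun n => ?_) h5
    rw [norm_smul, norm_inv, Real.norm_of_nonneg (Nat.cast_nonneg n)]
    apply mul_le_mul_of_nonneg_left _ (by positivity)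
    rw [geom_sum_eq h, norm_div]
    apply div_le_div_of_nonneg_right _ (norm_nonneg _)
    calc ‖w ^ n - 1‖ ≤ ‖w ^ n‖ + ‖(1 : ℂ)‖ := norm_sub_le _ _
      _ = 2 := by rw [norm_pow, hw, one_pow, norm_one]; norm_num

private lemma mean_sum (g w : Fin k → ℂ) (hw : ∀ i, ‖w i‖ = 1) :
    Tendsto (fun n : ℕ => ((n : ℝ))⁻¹ • ∑ m ∈ Finset.range n, ∑ i, g i * w i ^ m) atTop
      (𝓝 (∑ i, g i * (if w i = 1 then 1 else 0))) := by
  have h : ∀ i, Tendsto (fun n : ℕ => g i * (((n : ℝ))⁻¹ • ∑ m ∈ Finset.range n, w i ^ m)) atTop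
      (𝓝 (g i * (if w i = 1 then 1 else 0))) := fun i => (mean_geom (w i) (hw i)).const_mul _
  refine (tendsto_finsetSum Finset.univ fun i _ => h i).congr fun n => ?_
  rw [Finset.sum_comm, Finset.smul_sum]
  refine Finset.sum_congr rfl fun i _ => ?_
  rw [← Finset.mul_sum, mul_smul_comm]

section
variable (l c : Fin k → ℂ) (ex : Fin k → ℕ) (hex : ∀ i, ex i < k) (v : ℕ → ℝ)
  (hv : ∀ n, ∑ i, c i * (n.choose (ex i) : ℂ) * l i ^ (n - ex i) = (v n : ℂ))
  (ρ : ℝ) (d : ℕ) (hρ : 0 < ρ) (htop : ∀ i, ‖l i‖ < ρ ∨ (‖l i‖ = ρ ∧ ex i ≤ d))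

include hex hv hρ htop in
/-- without a real positive root on the top level, a sequence that is ultimately positive has
vanishing top coefficients (Cesàro means: the mean of the leading term is `0`, so the mean of
`|normVal|` tends to `0`, and so does the mean of the leading term times `nz (l i)⁻¹ ^ m`, whose
limit is the coefficient; cf. `ap_zero` in `DD7719/GBase.lean`) -/
theorem top_mean (hinj : ∀ i i', i ≠ i' → l i ≠ l i' ∨ ex i ≠ ex i')
    (hno : ∀ i, ex i = d → l i ≠ (ρ : ℂ)) (hpos : ∀ᶠ n : ℕ in atTop, 0 < v n)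
    (i : Fin k) (hi : ‖l i‖ = ρ) (hi2 : ex i = d) : c i = 0 := by
  classical
  set g : Fin k → ℂ := fun i => if ‖l i‖ = ρ ∧ ex i = d then c i * (l i ^ d)⁻¹ else 0 with hg
  set u : Fin k → ℂ := fun i => nz (l i) with hu
  set N : ℕ → ℝ := fun m => UltPos.normVal v 1 0 ρ d m with hN
  have hl : ∀ j, ‖l j‖ = ρ → l j = (ρ : ℂ) * u j := by
    intro j hj
    rw [hu, ← hj]
    exact (nz_mul_norm (l j)).symm
  have hA : Tendsto (fun m : ℕ => (N m : ℂ) - (1 / (d.factorial : ℂ)) * ∑ i, g i * u i ^ m)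
      atTop (𝓝 0) := by
    refine (top_asym l c ex hex v hv ρ d hρ htop).congr fun m => ?_
    congr 2
    refine Finset.sum_congr rfl fun j _ => ?_
    simp only [hg, hu]
    split_ifs with h
    · rfl
    · rw [zero_mul]
  have hnorm : ∀ j, ‖u j‖ = 1 := fun j => norm_nz (l j)
  -- the mean of `N` tends to zero
  have h1 : Tendsto (fun n : ℕ => ((n : ℝ))⁻¹ • ∑ m ∈ Finset.range n, (N m : ℂ)) atTop (𝓝 0) := by
    have h2 := hA.cesaro_smul
    have h3 := (mean_sum g u hnorm).const_mul (1 / (d.factorial : ℂ))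
    have h4 : ∑ i, g i * (if u i = 1 then 1 else 0) = 0 := by
      refine Finset.sum_eq_zero fun j _ => ?_
      by_cases hj : ‖l j‖ = ρ ∧ ex j = d
      · have : u j ≠ 1 := by
          intro h
          apply hno j hj.2
          rw [hl j hj.1, h, mul_one]
        rw [if_neg this, mul_zero]
      · simp only [hg, if_neg hj, zero_mul]
    rw [h4, mul_zero] at h3
    have h5 := h2.add h3
    rw [add_zero] at h5
    refine h5.congr fun n => ?_
    rw [mul_smul_comm, Finset.mul_sum, ← smul_add, ← Finset.sum_add_distrib]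
    congr 1
    refine Finset.sum_congr rfl fun m _ => ?_
    ring
  have h1' : Tendsto (fun n : ℕ => ((n : ℝ))⁻¹ • ∑ m ∈ Finset.range n, N m) atTop (𝓝 0) := by
    have h2 : Tendsto (fun n : ℕ => (((n : ℝ))⁻¹ • ∑ m ∈ Finset.range n, (N m : ℂ)).re) atTop
        (𝓝 (0 : ℂ).re) := (continuous_re.tendsto _).comp h1
    refine h2.congr fun n => ?_
    rw [smul_re, re_sum]
    simp
  -- the mean of `|N|`
  have hev : ∀ᶠ m : ℕ in atTop, |N m| - N m = 0 := by
    filter_upwards [hpos, eventually_gt_atTop 0] with m hm hm0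
    have : 0 ≤ N m := by
      simp only [hN, UltPos.normVal, one_mul, add_zero]
      positivity
    rw [abs_of_nonneg this, sub_self]
  have h6 : Tendsto (fun n : ℕ => ((n : ℝ))⁻¹ • ∑ m ∈ Finset.range n, |N m|) atTop (𝓝 0) := by
    have h2 : Tendsto (fun m : ℕ => |N m| - N m) atTop (𝓝 0) := tendsto_nhds_of_eventually_eq hev
    have h3 := h2.cesaro_smul.add h1'
    rw [add_zero] at h3
    refine h3.congr fun n => ?_
    rw [← smul_add, ← Finset.sum_add_distrib]
    congr 1
    refine Finset.sum_congr rfl fun m _ => ?_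
    ring
  have hui : u i ≠ 0 := by
    rw [← norm_pos_iff, hnorm]
    exact one_pos
  have hwn : ‖(u i)⁻¹‖ = 1 := by rw [norm_inv, hnorm, inv_one]
  have h7 : Tendsto (fun n : ℕ => ((n : ℝ))⁻¹ • ∑ m ∈ Finset.range n, (N m : ℂ) * (u i)⁻¹ ^ m)
      atTop (𝓝 0) := by
    rw [tendsto_zero_iff_norm_tendsto_zero]
    refine squeeze_zero (fun n => norm_nonneg _) (fun n => ?_) h6
    rw [norm_smul, norm_inv, Real.norm_of_nonneg (Nat.cast_nonneg n), smul_eq_mul]
    apply mul_le_mul_of_nonneg_left _ (by positivity)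
    refine (norm_sum_le _ _).trans (Finset.sum_le_sum fun m _ => ?_)
    rw [norm_mul, norm_pow, hwn, one_pow, mul_one, norm_real, Real.norm_eq_abs]
  -- the other mean
  have h8 : Tendsto (fun n : ℕ => ((n : ℝ))⁻¹ • ∑ m ∈ Finset.range n,
      ((N m : ℂ) - (1 / (d.factorial : ℂ)) * ∑ i, g i * u i ^ m) * (u i)⁻¹ ^ m) atTop (𝓝 0) := by
    refine Filter.Tendsto.cesaro_smul ?_
    rw [tendsto_zero_iff_norm_tendsto_zero] at hA ⊢
    refine hA.congr fun m => ?_
    rw [norm_mul, norm_pow, hwn, one_pow, mul_one]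
  have h9 := (mean_sum g (fun j => u j * (u i)⁻¹) (fun j => by
    rw [norm_mul, hnorm, hwn, mul_one])).const_mul (1 / (d.factorial : ℂ))
  have h10 : ∑ j, g j * (if u j * (u i)⁻¹ = 1 then 1 else 0) = g i := by
    rw [Finset.sum_eq_single i]
    · rw [mul_inv_cancel₀ hui, if_pos rfl, mul_one]
    · intro j _ hji
      by_cases hj : ‖l j‖ = ρ ∧ ex j = d
      · have : u j * (u i)⁻¹ ≠ 1 := by
          intro h
          rw [mul_inv_eq_one₀ hui] at h
          rcases hinj j i hji with h' | h'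
          · apply h'
            rw [hl j hj.1, hl i hi, h]
          · exact h' (hj.2.trans hi2.symm)
        rw [if_neg this, mul_zero]
      · simp only [hg, if_neg hj, zero_mul]
    · intro h
      exact absurd (Finset.mem_univ i) h
  rw [h10] at h9
  have h11 := h8.add h9
  rw [zero_add] at h11
  have h12 : (1 / (d.factorial : ℂ)) * g i = 0 := by
    refine tendsto_nhds_unique h11 (h7.congr fun n => ?_)
    rw [mul_smul_comm, Finset.mul_sum, ← smul_add, ← Finset.sum_add_distrib]
    congr 1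
    refine Finset.sum_congr rfl fun m _ => ?_
    have : ∑ j, g j * (u j * (u i)⁻¹) ^ m = (∑ j, g j * u j ^ m) * (u i)⁻¹ ^ m := by
      rw [Finset.sum_mul]
      refine Finset.sum_congr rfl fun j _ => ?_
      rw [mul_pow]
      ring
    rw [this]
    ring
  have hd : (d.factorial : ℂ) ≠ 0 := by exact_mod_cast d.factorial_ne_zero
  have hli : l i ≠ 0 := by
    rw [← norm_pos_iff, hi]
    exact hρ
  have h13 : g i = 0 := by
    rcases mul_eq_zero.1 h12 with h | h
    · exact absurd h (one_div_ne_zero hd)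
    · exact h
  simp only [hg, if_pos (And.intro hi hi2)] at h13
  rcases mul_eq_zero.1 h13 with h | h
  · exact h
  · exact absurd h (inv_ne_zero (pow_ne_zero _ hli))

end

end Pool.Agent.DD7719.M
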