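import Pool.Agent.MX.SmLin
import Pool.Agent.MX.SmMean

/-! S4. A short integer direction along which ultimately positive instances gain a margin. -/

set_option autoImplicit false

namespace Pool.Agent.UltPos

open Pool.Agent.DD7719.M Pool.Agent.DD7719 Finset Filter Topology

/-- The real sequence with the coefficients of `I` and the integer initial values `x`. -/
noncomputable def Inst.seqR (I : Inst) (x : Fin I.k → ℤ) (n : ℕ) : ℝ :=
  ((I.withInit x 1 Nat.one_pos).exists_unique_seq.choose n : ℝ)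

/-- number of bits of the direction -/
def pE (L : ℕ) : ℕ := 4 * (pcf L + (L + 1) ^ 3 + 10)

private lemma seqR_init (I : Inst) (x : Fin I.k → ℤ) (i : Fin I.k) :
    I.seqR x i = x i := by
  have h := (I.withInit x 1 Nat.one_pos).exists_unique_seq.choose_spec.1.1 i
  unfold Inst.seqR
  rw [h]
  simp [Inst.u, Inst.withInit]

private lemma seqR_rec (I : Inst) (x : Fin I.k → ℤ) (n : ℕ) (hn : I.k ≤ n) :
    I.seqR x n = ∑ i : Fin I.k, (I.a i : ℝ) * I.seqR x (n - 1 - i) := by
  have h := (I.withInit x 1 Nat.one_pos).exists_unique_seq.choose_spec.1.2 n hn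
  unfold Inst.seqR
  rw [h]
  push_cast
  rfl

theorem Inst.seqR_add_smul (I : Inst) (x E : Fin I.k → ℤ) (t : ℕ) (n : ℕ) :
    I.seqR (fun i => x i + t * E i) n = I.seqR x n + t * I.seqR E n := by
  induction n using Nat.strong_induction_on with
  | _ n ih =>
    rcases Nat.lt_or_ge n I.k with h | h
    · have h1 := seqR_init I (fun i => x i + t * E i) ⟨n, h⟩
      have h2 := seqR_init I x ⟨n, h⟩
      have h3 := seqR_init I E ⟨n, h⟩
      simp only at h1 h2 h3
      rw [h1, h2, h3]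
      push_cast
      ring
    · rw [seqR_rec I _ n h, seqR_rec I x n h, seqR_rec I E n h, Finset.mul_sum,
        ← Finset.sum_add_distrib]
      apply Finset.sum_congr rfl
      intro i _
      rw [ih (n - 1 - i) (by have := I.kpos; omega)]
      ring

/-- the sequences of the instances `withInit` -/
theorem Inst.seq_withInit (I : Inst) (x : Fin I.k → ℤ) (q : ℕ) (hq : 0 < q) (v : ℕ → ℚ)
    (hv : (I.withInit x q hq).IsSeq v) (n : ℕ) : (v n : ℝ) = I.seqR x n / q := by
  induction n using Nat.strong_induction_on with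
  | _ n ih =>
    rcases Nat.lt_or_ge n I.k with h | h
    · have h1 := hv.1 ⟨n, h⟩
      have h2 := seqR_init I x ⟨n, h⟩
      simp only at h1 h2
      rw [h1, h2]
      simp [Inst.u, Inst.withInit]
    · have h1 := hv.2 n h
      have h2 : (v n : ℝ) = ∑ i : Fin I.k, (I.a i : ℝ) * (v (n - 1 - i) : ℝ) := by
        rw [h1]
        push_cast
        rfl
      rw [h2, seqR_rec I x n h, Finset.sum_div]
      apply Finset.sum_congr rfl
      intro i _
      rw [ih (n - 1 - i) (by have := I.kpos; omega)]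
      ring

/-- an ultimately positive sequence with small margin -/
def Inst.BadAt (I : Inst) (ρ : ℝ) (d : ℕ) (x : Fin I.k → ℤ) : Prop :=
  (∀ᶠ n : ℕ in atTop, 0 < I.seqR x n) ∧
    ¬ ∀ᶠ m : ℕ in atTop, 3 / 4 ≤ normVal (I.seqR x) 1 0 ρ d m

/-- the initial values as a sequence -/
private noncomputable def xR {k : ℕ} (x : Fin k → ℤ) (n : ℕ) : ℝ :=
  if h : n < k then (x ⟨n, h⟩ : ℝ) else 0

/-- the coefficients -/
private noncomputable def cf {k : ℕ} (C : ℕ → ℕ → ℂ) (x : Fin k → ℤ) (i : ℕ) : ℂ :=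
  ∑ n ∈ range k, C i n * (xR x n : ℂ)

private lemma rep (I : Inst) {l : ℕ → ℂ} {ex : ℕ → ℕ} {C : ℕ → ℕ → ℂ}
    (hRD : ∀ x : ℕ → ℝ, RootData I.k (fun t => (I.aQ t : ℝ)) x l
      (fun i => ∑ n ∈ range I.k, C i n * (x n : ℂ)) ex) (x : Fin I.k → ℤ) (n : ℕ) :
    ∑ i : Fin I.k, cf C x i * (n.choose (ex i) : ℂ) * l i ^ (n - ex i) = (I.seqR x n : ℂ) := by
  apply (hRD (xR x)).all (I.seqR x)
  · intro n hn
    rw [xR, dif_pos hn]
    exact seqR_init I x ⟨n, hn⟩
  · intro n hn
    rw [seqR_rec I x n hn, Finset.sum_range]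
    apply Finset.sum_congr rfl
    intro t _
    simp only [Inst.aQ, t.2, dif_pos]

/-- `normVal` is positive for positive sequences -/
private lemma normVal_pos {v : ℕ → ℝ} {ρ : ℝ} (hρ : 0 < ρ) (d : ℕ)
    (h : ∀ᶠ n : ℕ in atTop, 0 < v n) : ∀ᶠ m : ℕ in atTop, 0 < normVal v 1 0 ρ d m := by
  filter_upwards [h, eventually_gt_atTop 0] with m hm hm0
  unfold normVal
  have h1 : 1 * m + 0 = m := by ring
  rw [h1]
  have h2 : (0 : ℝ) < (m : ℝ) := by exact_mod_cast hm0
  positivity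

private lemma normVal_add_smul (I : Inst) (x E : Fin I.k → ℤ) (t : ℕ) (ρ : ℝ) (d m : ℕ) :
    normVal (I.seqR fun i => x i + t * E i) 1 0 ρ d m =
      normVal (I.seqR x) 1 0 ρ d m + t * normVal (I.seqR E) 1 0 ρ d m := by
  unfold normVal
  rw [I.seqR_add_smul]
  ring

/-- the coefficients of the sequence `C(n, ex i0) l i0 ^ (n - ex i0)` -/
private lemma dual (k : ℕ) {a : ℕ → ℝ} {l : ℕ → ℂ} {ex : ℕ → ℕ} {C : ℕ → ℕ → ℂ}
    (hRD : ∀ x : ℕ → ℝ, RootData k a x l (fun i => ∑ n ∈ range k, C i n * (x n : ℂ)) ex)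
    (i i0 : Fin k) :
    ∑ n ∈ range k, C i n * ((n.choose (ex i0) : ℂ) * l i0 ^ (n - ex i0)) =
      if i = i0 then 1 else 0 := by
  classical
  set V : Matrix (Fin k) (Fin k) ℂ := fun n i => (((n : ℕ).choose (ex i) : ℕ) : ℂ) *
    l i ^ ((n : ℕ) - ex i) with hV
  set D : Matrix (Fin k) (Fin k) ℂ := fun i n => C i n with hD
  have h1 : V * D = 1 := by
    ext n m
    rw [Matrix.mul_apply, Matrix.one_apply]
    have h2 := (hRD (fun j => if j = m then 1 else 0)).2.2.2 n n.2
    rw [Finset.sum_range] at h2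
    have h3 : ∀ i : Fin k, (∑ j ∈ range k, C i j * (((if j = (m : ℕ) then (1 : ℝ) else 0) : ℝ) : ℂ))
        = D i m := by
      intro i
      rw [Finset.sum_eq_single (m : ℕ)]
      · simp [hD]
      · intro b _ hb
        simp [hb]
      · intro hm
        exact absurd (Finset.mem_range.2 m.2) hm
    simp only [h3] at h2
    have h4 : ((if (n : ℕ) = (m : ℕ) then (1 : ℝ) else 0 : ℝ) : ℂ) = if n = m then 1 else 0 := by
      by_cases hnm : n = m
      · subst hnm
        simp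
      · have : (n : ℕ) ≠ (m : ℕ) := fun h => hnm (Fin.ext h)
        simp [hnm, this]
    rw [← h4, ← h2]
    apply Finset.sum_congr rfl
    intro i _
    simp only [hV]
    ring
  have h5 : D * V = 1 := mul_eq_one_comm.1 h1
  have h6 := congrFun (congrFun h5 i) i0
  rw [Matrix.mul_apply, Matrix.one_apply] at h6
  rw [← h6, Finset.sum_range]

private lemma pE_bound (L k n d : ℕ) (hk : k ≤ L) (hn : n < k) (hd : d < k) (ρ : ℝ) (hρ : 0 < ρ)
    (hρ2 : ρ ≤ 2 ^ (2 * L)) :
    ((k : ℝ) ^ 2 * 2 ^ pcf L + d.factorial * ρ ^ d) * ((n.choose d : ℝ) * ρ ^ (n - d)) + 1 ≤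
      2 ^ pE L := by
  have two1 : (1 : ℝ) ≤ 2 := by norm_num
  have hB1 : (1 : ℝ) ≤ 2 ^ (2 * L) := one_le_pow₀ two1
  have hpow : ∀ j, j ≤ L → ρ ^ j ≤ 2 ^ (2 * L * L) := by
    intro j hj
    calc ρ ^ j ≤ (2 ^ (2 * L)) ^ j := pow_le_pow_left₀ hρ.le hρ2 j
      _ ≤ (2 ^ (2 * L)) ^ L := pow_le_pow_right₀ hB1 hj
      _ = 2 ^ (2 * L * L) := by rw [← pow_mul]
  have h1 : (k : ℝ) ^ 2 ≤ 2 ^ (2 * L) := by
    have h : (k : ℝ) ≤ 2 ^ L := by
      have : k ≤ 2 ^ L := hk.trans Nat.lt_two_pow_self.le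
      exact_mod_cast this
    calc (k : ℝ) ^ 2 ≤ (2 ^ L) ^ 2 := pow_le_pow_left₀ (Nat.cast_nonneg k) h 2
      _ = 2 ^ (2 * L) := by rw [← pow_mul, mul_comm]
  have h2 : (d.factorial : ℝ) ≤ 2 ^ (L * L) := by
    have : d.factorial ≤ 2 ^ (L * L) := by
      calc d.factorial ≤ d ^ d := Nat.factorial_le_pow d
        _ ≤ (2 ^ d) ^ d := Nat.pow_le_pow_left Nat.lt_two_pow_self.le d
        _ = 2 ^ (d * d) := by rw [← pow_mul]
        _ ≤ 2 ^ (L * L) := Nat.pow_le_pow_right (by norm_num)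
            (Nat.mul_le_mul (by omega) (by omega))
    exact_mod_cast this
  have h3 : (n.choose d : ℝ) ≤ 2 ^ L := by
    have : n.choose d ≤ 2 ^ L := (Nat.choose_le_two_pow n d).trans
      (Nat.pow_le_pow_right (by norm_num) (by omega))
    exact_mod_cast this
  have h4 := hpow d (by omega)
  have h5 := hpow (n - d) (by omega)
  set X := 2 * L + pcf L + 3 * L * L with hX
  have h6 : (k : ℝ) ^ 2 * 2 ^ pcf L ≤ 2 ^ X := by
    calc (k : ℝ) ^ 2 * 2 ^ pcf L ≤ 2 ^ (2 * L) * 2 ^ pcf L :=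
          mul_le_mul_of_nonneg_right h1 (by positivity)
      _ = 2 ^ (2 * L + pcf L) := by rw [← pow_add]
      _ ≤ 2 ^ X := pow_le_pow_right₀ two1 (by omega)
  have h7 : (d.factorial : ℝ) * ρ ^ d ≤ 2 ^ X := by
    calc (d.factorial : ℝ) * ρ ^ d ≤ 2 ^ (L * L) * 2 ^ (2 * L * L) :=
          mul_le_mul h2 h4 (by positivity) (by positivity)
      _ = 2 ^ (L * L + 2 * L * L) := by rw [← pow_add]
      _ ≤ 2 ^ X := pow_le_pow_right₀ two1 (by
          have : L * L + 2 * L * L = 3 * L * L := by ring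
          omega)
  have h8 : (n.choose d : ℝ) * ρ ^ (n - d) ≤ 2 ^ (L + 2 * L * L) := by
    calc (n.choose d : ℝ) * ρ ^ (n - d) ≤ 2 ^ L * 2 ^ (2 * L * L) :=
          mul_le_mul h3 h5 (by positivity) (by positivity)
      _ = 2 ^ (L + 2 * L * L) := by rw [← pow_add]
  have h9 : ((k : ℝ) ^ 2 * 2 ^ pcf L + d.factorial * ρ ^ d) *
      ((n.choose d : ℝ) * ρ ^ (n - d)) ≤ 2 ^ (X + 1 + (L + 2 * L * L)) := by
    calc ((k : ℝ) ^ 2 * 2 ^ pcf L + d.factorial * ρ ^ d) * ((n.choose d : ℝ) * ρ ^ (n - d))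
        ≤ (2 ^ X + 2 ^ X) * 2 ^ (L + 2 * L * L) :=
          mul_le_mul (add_le_add h6 h7) h8 (by positivity) (by positivity)
      _ = 2 ^ (X + 1 + (L + 2 * L * L)) := by
          rw [pow_add _ (X + 1), pow_succ]
          ring
  have h10 : (1 : ℝ) ≤ 2 ^ (X + 1 + (L + 2 * L * L)) := one_le_pow₀ two1
  calc _ ≤ (2 : ℝ) ^ (X + 1 + (L + 2 * L * L)) + 2 ^ (X + 1 + (L + 2 * L * L)) :=
        add_le_add h9 h10
    _ = 2 ^ (X + 1 + (L + 2 * L * L) + 1) := by rw [pow_succ]; ring
    _ ≤ 2 ^ pE L := by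
        apply pow_le_pow_right₀ two1
        rw [hX, pE]
        have h11 : (L + 1) ^ 3 = L ^ 3 + 3 * (L * L) + 3 * L + 1 := by ring
        have h12 : 3 * L * L = 3 * (L * L) := by ring
        have h13 : 2 * L * L = 2 * (L * L) := by ring
        rw [h11, h12, h13]
        omega

theorem Inst.exists_direction (I : Inst) : ∃ (E : Fin I.k → ℤ) (ρ : ℝ) (d : ℕ), 0 < ρ ∧
    (∀ i, |E i| ≤ 2 ^ pE I.coefLength) ∧
    (∀ x : Fin I.k → ℤ, ∃ B : ℝ, ∀ m : ℕ, 0 < m → |normVal (I.seqR x) 1 0 ρ d m| ≤ B) ∧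
    ∀ x : Fin I.k → ℤ, I.BadAt ρ d x → ∀ t : ℕ, 0 < t → ¬ I.BadAt ρ d (fun i => x i + t * E i) := by
  classical
  obtain ⟨l, ex, C, hl, hC, hC0, hRD⟩ := I.exists_common
  have hk := I.kpos
  have hex : ∀ i : Fin I.k, ex i < I.k := fun i => (hRD fun _ => 0).1 i i.2
  have hinj : ∀ i i' : Fin I.k, i ≠ i' → l i ≠ l i' ∨ ex i ≠ ex i' := fun i i' h =>
    (hRD fun _ => 0).2.1 i i.2 i' i'.2 fun h' => h (Fin.ext h')
  by_cases hall : ∀ i : Fin I.k, l i = 0
  · -- all roots are zero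
    refine ⟨fun _ => 0, 1, 0, one_pos, fun i => by simp, ?_, ?_⟩
    · intro x
      exact top_bounded (fun i : Fin I.k => l i) (fun i : Fin I.k => cf C x i)
        (fun i : Fin I.k => ex i) hex (I.seqR x) (rep I hRD x) 1 0 one_pos
        (fun i => by left; simp [hall i])
    · intro x hx
      exfalso
      obtain ⟨n, hn, hn2⟩ := (hx.1.and (eventually_ge_atTop I.k)).exists
      have h1 := rep I hRD x n
      have h2 : (I.seqR x n : ℂ) = 0 := by
        rw [← h1]
        apply Finset.sum_eq_zero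
        intro i _
        have h3 : n - ex i ≠ 0 := by
          have := hex i
          omega
        rw [hall i, zero_pow h3, mul_zero]
      have h3 : I.seqR x n = 0 := by exact_mod_cast h2
      rw [h3] at hn
      exact lt_irrefl _ hn
  push Not at hall
  obtain ⟨i₁, hi₁⟩ := hall
  -- the top level
  obtain ⟨i₂, -, hi₂⟩ := (Finset.univ : Finset (Fin I.k)).exists_max_image (fun i => ‖l i‖)
    ⟨i₁, Finset.mem_univ _⟩
  set ρ : ℝ := ‖l i₂‖ with hρdef
  have hρ : 0 < ρ := lt_of_lt_of_le (norm_pos_iff.2 hi₁) (hi₂ i₁ (Finset.mem_univ _))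
  obtain ⟨i₃, hi₃, hi₃'⟩ := (Finset.univ.filter fun i : Fin I.k => ‖l i‖ = ρ).exists_max_image
    (fun i : Fin I.k => ex i) ⟨i₂, by simp [hρdef]⟩
  set d : ℕ := ex i₃ with hd
  have hi3 : ‖l i₃‖ = ρ := (Finset.mem_filter.1 hi₃).2
  have htop : ∀ i : Fin I.k, ‖l i‖ < ρ ∨ (‖l i‖ = ρ ∧ ex i ≤ d) := by
    intro i
    rcases (hi₂ i (Finset.mem_univ _)).lt_or_eq with h | h
    · exact Or.inl h
    · exact Or.inr ⟨h, hi₃' i (Finset.mem_filter.2 ⟨Finset.mem_univ _, h⟩)⟩
  have hbdd : ∀ x : Fin I.k → ℤ, ∃ B : ℝ, ∀ m : ℕ, 0 < m → |normVal (I.seqR x) 1 0 ρ d m| ≤ B :=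
    fun x => top_bounded (fun i : Fin I.k => l i) (fun i : Fin I.k => cf C x i)
        (fun i : Fin I.k => ex i) hex (I.seqR x) (rep I hRD x) ρ d hρ htop
  have hdk : d < I.k := hex i₃
  by_cases hreal : ∃ i0 : Fin I.k, l i0 = (ρ : ℂ) ∧ ex i0 = d
  · obtain ⟨i0, h0, hd0⟩ := hreal
    set P : ℝ := 2 ^ pcf I.coefLength with hP
    set M : ℝ := (I.k : ℝ) ^ 2 * P + d.factorial * ρ ^ d with hM
    have hP0 : 0 < P := by positivity
    have hM0 : 0 < M := by positivity
    set w : ℕ → ℝ := fun n => (n.choose d : ℝ) * ρ ^ (n - d) with hw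
    set E : Fin I.k → ℤ := fun n => ⌊M * w n⌋ with hE
    have hw0 : ∀ n, 0 ≤ w n := fun n => by positivity
    refine ⟨E, ρ, d, hρ, ?_, hbdd, ?_⟩
    · intro i
      have h1 : 0 ≤ E i := Int.floor_nonneg.2 (mul_nonneg hM0.le (hw0 i))
      rw [abs_of_nonneg h1]
      have h2 : ((E i : ℤ) : ℝ) ≤ M * w i := Int.floor_le _
      have h3 : ρ ≤ 2 ^ (2 * I.coefLength) := hl i₂ i₂.2
      have h4 := pE_bound I.coefLength I.k i d I.k_le_coefLength i.2 hdk ρ hρ h3
      have h5 : ((E i : ℤ) : ℝ) ≤ 2 ^ pE I.coefLength := by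
        refine h2.trans ?_
        rw [← hP, ← hM] at h4
        exact (le_add_of_nonneg_right zero_le_one).trans h4
      exact_mod_cast h5
    · intro x hx t ht hx'
      -- the direction has margin `7 / 8`
      have hcf : ∀ i : Fin I.k, ‖cf C E i - (if i = i0 then (M : ℂ) else 0)‖ ≤ I.k * P := by
        intro i
        have h1 := dual I.k hRD i i0
        have h2 : (if i = i0 then (M : ℂ) else 0) = ∑ n ∈ range I.k, C i n * ((M * w n : ℝ) : ℂ) := by
          have h3 : (if i = i0 then (M : ℂ) else 0) = (M : ℂ) * (if i = i0 then 1 else 0) := by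
            split_ifs <;> simp
          rw [h3, ← h1, Finset.mul_sum]
          apply Finset.sum_congr rfl
          intro n _
          rw [h0, hd0, hw]
          push_cast
          ring
        rw [h2, cf, ← Finset.sum_sub_distrib]
        have h3 : ∀ n ∈ range I.k, ‖C i n * (xR E n : ℂ) - C i n * ((M * w n : ℝ) : ℂ)‖ ≤ P := by
          intro n hn
          have hn' := Finset.mem_range.1 hn
          rw [← mul_sub, norm_mul]
          have h4 : ‖((xR E n : ℝ) : ℂ) - ((M * w n : ℝ) : ℂ)‖ ≤ 1 := by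
            rw [← Complex.ofReal_sub, Complex.norm_real, Real.norm_eq_abs, xR, dif_pos hn', hE]
            have h5 := Int.floor_le (M * w n)
            have h6 := Int.lt_floor_add_one (M * w n)
            rw [abs_le]
            constructor <;> simp only <;> linarith
          calc ‖C i n‖ * ‖((xR E n : ℝ) : ℂ) - ((M * w n : ℝ) : ℂ)‖ ≤ P * 1 :=
                mul_le_mul (hC i i.2 n hn') h4 (norm_nonneg _) hP0.le
            _ = P := mul_one _
        calc ‖∑ n ∈ range I.k, (C i n * (xR E n : ℂ) - C i n * ((M * w n : ℝ) : ℂ))‖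
            ≤ ∑ n ∈ range I.k, P := norm_sum_le_of_le _ h3
          _ = I.k * P := by rw [Finset.sum_const, Finset.card_range, nsmul_eq_mul]
      have hlow := top_lower (fun i : Fin I.k => l i) (fun i : Fin I.k => cf C E i)
        (fun i : Fin I.k => ex i) hex (I.seqR E) (rep I hRD E) ρ d hρ htop i0 h0 hd0 hinj M
        (I.k * P) hcf (1 / 8) (by norm_num)
      have hval : (M - I.k * (I.k * P)) / (d.factorial * ρ ^ d) = 1 := by
        have h1 : M - I.k * (I.k * P) = d.factorial * ρ ^ d := by rw [hM]; ring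
        rw [h1, div_self]
        positivity
      rw [hval] at hlow
      apply hx'.2
      filter_upwards [hlow, normVal_pos hρ d hx.1] with m hm1 hm2
      rw [normVal_add_smul]
      have ht1 : (1 : ℝ) ≤ t := by exact_mod_cast ht
      nlinarith
  · -- no real positive root on the top level
    push Not at hreal
    obtain ⟨n₁, hn₁, hCn⟩ := hC0 i₃ i₃.2
    refine ⟨fun n => if (n : ℕ) = n₁ then 1 else 0, ρ, d, hρ, ?_, hbdd, ?_⟩
    · intro i
      have h1 : (1 : ℤ) ≤ 2 ^ pE I.coefLength := one_le_pow₀ (by norm_num)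
      show |if (i : ℕ) = n₁ then (1 : ℤ) else 0| ≤ _
      split_ifs
      · simpa using h1
      · simp
    · intro x hx t ht hx'
      have hno : ∀ i : Fin I.k, ex i = d → l i ≠ (ρ : ℂ) := fun i hi hi' => hreal i hi' hi
      have hz : ∀ y : Fin I.k → ℤ, (∀ᶠ n : ℕ in atTop, 0 < I.seqR y n) → cf C y i₃ = 0 := by
        intro y hy
        exact top_mean (fun i : Fin I.k => l i) (fun i : Fin I.k => cf C y i)
          (fun i : Fin I.k => ex i) hex (I.seqR y) (rep I hRD y) ρ d hρ htop hinj hno hy i₃ hi3 rfl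
      have h1 := hz _ hx.1
      have h2 := hz _ hx'.1
      have h3 : cf C (fun i => x i + t * (if (i : ℕ) = n₁ then 1 else 0)) i₃ =
          cf C x i₃ + t * C i₃ n₁ := by
        unfold cf
        have h4 : (t : ℂ) * C i₃ n₁ = ∑ n ∈ range I.k, C i₃ n *
            ((t : ℂ) * (if n = n₁ then 1 else 0)) := by
          rw [Finset.sum_eq_single n₁]
          · simp [mul_comm]
          · intro b _ hb
            simp [hb]
          · intro h
            exact absurd (Finset.mem_range.2 hn₁) h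
        rw [h4, ← Finset.sum_add_distrib]
        apply Finset.sum_congr rfl
        intro n hn
        have hn' := Finset.mem_range.1 hn
        simp only [xR, dif_pos hn']
        push_cast
        split_ifs <;> push_cast <;> ring
      rw [h3, h1, zero_add] at h2
      rcases mul_eq_zero.1 h2 with h4 | h4
      · exact ht.ne' (by exact_mod_cast h4)
      · exact hCn h4

end Pool.Agent.UltPos
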