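import Pool.Agent.MX.SmPack
import Pool.Agent.MX.SmVec
import Pool.Agent.UltPos.Critical
import Pool.Agent.UltPos.Positive

/-! S5. All but an exponentially small fraction of the initial values. -/

set_option autoImplicit false

namespace Pool.Agent.UltPos

open Pool.Agent.DD7719.M Pool.Agent.DD7719 Finset Filter Topology

private lemma sm_cobdd {u : ℕ → ℝ} {B : ℝ} (hB : ∀ m : ℕ, 0 < m → |u m| ≤ B) :
    IsCoboundedUnder (· ≥ ·) atTop u := by
  refine IsBoundedUnder.isCoboundedUnder_ge ?_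
  refine ⟨B, ?_⟩
  rw [eventually_map]
  filter_upwards [eventually_gt_atTop 0] with m hm
  exact (abs_le.1 (hB m hm)).2

private lemma sm_norm_div (I : Inst) (x : Fin I.k → ℤ) (q : ℕ) (hq : 0 < q) {v : ℕ → ℚ}
    (hv : (I.withInit x q hq).IsSeq v) (N J : ℕ) (ρ : ℝ) (d m : ℕ) :
    normVal (fun n => (v n : ℝ)) N J ρ d m = normVal (I.seqR x) N J ρ d m / q := by
  unfold normVal
  have h := I.seq_withInit x q hq v hv (N * m + J)
  show (v (N * m + J) : ℝ) / _ = _
  rw [h]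
  ring

/-- a sequence with margin with respect to one level is regular -/
theorem Inst.regularWith_of_not_bad (I : Inst) (x : Fin I.k → ℤ) (q : ℕ) (hq : 0 < q) (ρ : ℝ)
    (d : ℕ) (hρ : 0 < ρ) (hB : ∃ B : ℝ, ∀ m : ℕ, 0 < m → |normVal (I.seqR x) 1 0 ρ d m| ≤ B)
    (hpos : ∀ᶠ n : ℕ in atTop, 0 < I.seqR x n) (hbad : ¬ I.BadAt ρ d x) :
    (I.withInit x q hq).RegularWith (1 / (2 * q)) := by
  have hq' : (0 : ℝ) < q := by exact_mod_cast hq
  have hlow : ∀ᶠ m : ℕ in atTop, 3 / 4 ≤ normVal (I.seqR x) 1 0 ρ d m := by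
    by_contra h
    exact hbad ⟨hpos, h⟩
  obtain ⟨v, hv, _⟩ := (I.withInit x q hq).exists_unique_seq
  obtain ⟨B, hB⟩ := hB
  have hB' : ∀ m : ℕ, 0 < m → |normVal (fun n => (v n : ℝ)) 1 0 ρ d m| ≤ B / q := by
    intro m hm
    rw [sm_norm_div I x q hq hv, abs_div, abs_of_pos hq']
    exact div_le_div_of_nonneg_right (hB m hm) hq'.le
  have hlim : 3 / 4 / (q : ℝ) ≤ liminf (normVal (fun n => (v n : ℝ)) 1 0 ρ d) atTop := by
    refine le_liminf_of_le (sm_cobdd hB') ?_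
    filter_upwards [hlow] with m hm
    rw [sm_norm_div I x q hq hv]
    exact div_le_div_of_nonneg_right hm hq'.le
  refine ⟨v, hv, 1, one_pos, ?_⟩
  intro J hJ
  have hJ0 : J = 0 := by omega
  subst hJ0
  rcases Nat.eq_zero_or_pos d with hd | hd
  · left
    subst hd
    have hn : ∀ m, normVal (fun n => (v n : ℝ)) 1 0 ρ 0 m = (v (1 * m + 0) : ℝ) / ρ ^ m := by
      intro m
      simp [normVal]
    refine ⟨ρ, hρ, ⟨max (B / q) |(v 0 : ℝ)|, ?_⟩, Or.inl ?_⟩
    · intro m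
      rcases Nat.eq_zero_or_pos m with hm | hm
      · subst hm
        simp
      · have h1 := hB' m hm
        rw [hn, abs_div, abs_of_pos (pow_pos hρ m), div_le_iff₀ (pow_pos hρ m)] at h1
        exact h1.trans (mul_le_mul_of_nonneg_right (le_max_left _ _) (pow_pos hρ m).le)
    · have h1 : (fun m : ℕ => (v (1 * m + 0) : ℝ) / ρ ^ m) =
          normVal (fun n => (v n : ℝ)) 1 0 ρ 0 := by
        funext m
        rw [hn]
      show liminf (fun m : ℕ => (v (1 * m + 0) : ℝ) / ρ ^ m) atTop ≠ 0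
      rw [h1]
      have : 0 < 3 / 4 / (q : ℝ) := by positivity
      exact (this.trans_le hlim).ne'
  · right
    refine ⟨ρ, d, hρ, hd, ⟨B / q, hB'⟩, ?_⟩
    refine le_trans ?_ hlim
    rw [div_div, div_le_div_iff₀ (by positivity) (by positivity)]
    linarith

/-- comparison of growth -/
private lemma sm_growth {a ρ R : ℝ} (ha : 0 < a) (hρ : 0 < ρ) {d e : ℕ} {r : ℕ → ℝ} {A B : ℝ}
    (h1 : ∀ᶠ m : ℕ in atTop, a * (R ^ m * (m : ℝ) ^ d) ≤ r m * (ρ ^ m * (m : ℝ) ^ e))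
    (h2 : ∀ᶠ m : ℕ in atTop, r m * (ρ ^ m * (m : ℝ) ^ e) ≤ A * (R ^ m * (m : ℝ) ^ d))
    (hR : 0 < R) (hB : ∀ᶠ m : ℕ in atTop, r m ≤ B)
    (h0 : ¬ Tendsto r atTop (𝓝 0)) : ∃ c : ℝ, 0 < c ∧ ∀ᶠ m : ℕ in atTop, c ≤ r m := by
  set s : ℝ := R / ρ with hs
  have hs0 : 0 < s := div_pos hR hρ
  have hRs : R = s * ρ := by rw [hs, div_mul_cancel₀ _ hρ.ne']
  -- reduced inequalities
  have g1 : ∀ᶠ m : ℕ in atTop, a * (s ^ m * (m : ℝ) ^ d) ≤ r m * (m : ℝ) ^ e := by
    filter_upwards [h1] with m hm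
    rw [hRs, mul_pow] at hm
    have hp := pow_pos hρ m
    have : a * (s ^ m * (m : ℝ) ^ d) * ρ ^ m ≤ r m * (m : ℝ) ^ e * ρ ^ m := by
      calc a * (s ^ m * (m : ℝ) ^ d) * ρ ^ m = a * (s ^ m * ρ ^ m * (m : ℝ) ^ d) := by ring
        _ ≤ r m * (ρ ^ m * (m : ℝ) ^ e) := hm
        _ = _ := by ring
    exact le_of_mul_le_mul_right this hp
  have g2 : ∀ᶠ m : ℕ in atTop, r m * (m : ℝ) ^ e ≤ A * (s ^ m * (m : ℝ) ^ d) := by
    filter_upwards [h2] with m hm
    rw [hRs, mul_pow] at hm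
    have hp := pow_pos hρ m
    have : r m * (m : ℝ) ^ e * ρ ^ m ≤ A * (s ^ m * (m : ℝ) ^ d) * ρ ^ m := by
      calc r m * (m : ℝ) ^ e * ρ ^ m = r m * (ρ ^ m * (m : ℝ) ^ e) := by ring
        _ ≤ A * (s ^ m * ρ ^ m * (m : ℝ) ^ d) := hm
        _ = _ := by ring
    exact le_of_mul_le_mul_right this hp
  have hrpos : ∀ᶠ m : ℕ in atTop, 0 ≤ r m := by
    filter_upwards [g1, eventually_gt_atTop 0] with m hm hm0
    have hm' : (0 : ℝ) < m := by exact_mod_cast hm0
    have h3 : 0 ≤ r m * (m : ℝ) ^ e := le_trans (by positivity) hm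
    exact nonneg_of_mul_nonneg_left h3 (by positivity)
  rcases lt_trichotomy s 1 with hs1 | hs1 | hs1
  · -- tends to zero
    exfalso
    apply h0
    have h3 : Tendsto (fun m : ℕ => A * ((m : ℝ) ^ d * s ^ m)) atTop (𝓝 (A * 0)) :=
      (tendsto_pow_const_mul_const_pow_of_lt_one d hs0.le hs1).const_mul A
    rw [mul_zero] at h3
    refine squeeze_zero' hrpos ?_ h3
    filter_upwards [g2, eventually_gt_atTop 0, hrpos] with m hm hm0 hr
    have hm' : (1 : ℝ) ≤ m := by exact_mod_cast hm0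
    calc r m = r m * 1 := (mul_one _).symm
      _ ≤ r m * (m : ℝ) ^ e := mul_le_mul_of_nonneg_left (one_le_pow₀ hm') hr
      _ ≤ A * (s ^ m * (m : ℝ) ^ d) := hm
      _ = A * ((m : ℝ) ^ d * s ^ m) := by ring
  · rw [hs1] at g1 g2
    simp only [one_pow, one_mul] at g1 g2
    rcases lt_trichotomy d e with hde | hde | hde
    · exfalso
      apply h0
      have h3 : Tendsto (fun m : ℕ => A * ((m : ℝ))⁻¹) atTop (𝓝 (A * 0)) :=
        (tendsto_inv_atTop_nhds_zero_nat (𝕜 := ℝ)).const_mul A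
      rw [mul_zero] at h3
      refine squeeze_zero' hrpos ?_ h3
      filter_upwards [g2, eventually_gt_atTop 0, hrpos] with m hm hm0 hr
      have hm' : (1 : ℝ) ≤ m := by exact_mod_cast hm0
      have hm'' : (0 : ℝ) < m := by linarith
      have h4 : r m * (m : ℝ) ^ (d + 1) ≤ A * (m : ℝ) ^ d :=
        le_trans (mul_le_mul_of_nonneg_left (pow_le_pow_right₀ hm' hde) hr) hm
      rw [pow_succ, ← mul_assoc, mul_right_comm] at h4
      have h5 : r m * m ≤ A := le_of_mul_le_mul_right h4 (by positivity)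
      rw [← div_eq_mul_inv, le_div_iff₀ hm'']
      exact h5
    · refine ⟨a, ha, ?_⟩
      subst hde
      filter_upwards [g1, eventually_gt_atTop 0] with m hm hm0
      have hm'' : (0 : ℝ) < m := by exact_mod_cast hm0
      exact le_of_mul_le_mul_right hm (by positivity)
    · exfalso
      obtain ⟨m, ⟨hm1, hm2⟩, hm3, hm4⟩ := ((g1.and hB).and ((eventually_gt_atTop 0).and
        (tendsto_natCast_atTop_atTop.eventually_gt_atTop (B / a)))).exists
      have hm' : (1 : ℝ) ≤ m := by exact_mod_cast hm3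
      have hm'' : (0 : ℝ) < m := by linarith
      have h4 : a * (m : ℝ) ^ (e + 1) ≤ B * (m : ℝ) ^ e :=
        le_trans (mul_le_mul_of_nonneg_left (pow_le_pow_right₀ hm' hde) ha.le)
          (hm1.trans (mul_le_mul_of_nonneg_right hm2 (by positivity)))
      rw [pow_succ, ← mul_assoc, mul_right_comm] at h4
      have h5 : a * m ≤ B := le_of_mul_le_mul_right h4 (by positivity)
      rw [div_lt_iff₀ ha] at hm4
      linarith
  · exfalso
    have h3 : Tendsto (fun m : ℕ => B * ((m : ℝ) ^ e / s ^ m)) atTop (𝓝 (B * 0)) :=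
      (tendsto_pow_const_div_const_pow_of_one_lt e hs1).const_mul B
    rw [mul_zero] at h3
    obtain ⟨m, ⟨hm1, hm2⟩, hm3, hm4⟩ := ((g1.and hB).and ((eventually_gt_atTop 0).and
      (h3.eventually_lt_const ha))).exists
    have hm' : (1 : ℝ) ≤ m := by exact_mod_cast hm3
    have hm'' : (0 : ℝ) < m := by linarith
    have h4 : a * (s ^ m * 1) ≤ B * (m : ℝ) ^ e :=
      le_trans (mul_le_mul_of_nonneg_left (mul_le_mul_of_nonneg_left (one_le_pow₀ hm')
        (pow_pos hs0 m).le) ha.le) (hm1.trans (mul_le_mul_of_nonneg_right hm2 (by positivity)))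
    rw [mul_one] at h4
    rw [← mul_div_assoc, div_lt_iff₀ (pow_pos hs0 m)] at hm4
    linarith

/-- ... and not critical -/
theorem Inst.not_critical_of_not_bad (I : Inst) (x : Fin I.k → ℤ) (q : ℕ) (hq : 0 < q) (ρ : ℝ)
    (d : ℕ) (hρ : 0 < ρ) (hB : ∃ B : ℝ, ∀ m : ℕ, 0 < m → |normVal (I.seqR x) 1 0 ρ d m| ≤ B)
    (hpos : ∀ᶠ n : ℕ in atTop, 0 < I.seqR x n) (hbad : ¬ I.BadAt ρ d x) :
    ¬ (I.withInit x q hq).Critical := by
  have hq' : (0 : ℝ) < q := by exact_mod_cast hq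
  have hlow : ∀ᶠ m : ℕ in atTop, 3 / 4 ≤ normVal (I.seqR x) 1 0 ρ d m := by
    by_contra h
    exact hbad ⟨hpos, h⟩
  obtain ⟨B, hB⟩ := hB
  rintro ⟨v, hv, N, J, e, σ, hN, he, hσ, ⟨B', hB'⟩, hnt, hlim⟩
  -- bounds for v n
  have hb1 : ∀ᶠ n : ℕ in atTop, 3 / 4 / q * (ρ ^ n * (n : ℝ) ^ d) ≤ (v n : ℝ) := by
    filter_upwards [hlow, eventually_gt_atTop 0] with n hn hn0
    have hn' : (0 : ℝ) < n := by exact_mod_cast hn0
    have h1 : 3 / 4 / (q : ℝ) ≤ normVal (fun n => (v n : ℝ)) 1 0 ρ d n := by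
      rw [sm_norm_div I x q hq hv]
      exact div_le_div_of_nonneg_right hn hq'.le
    unfold normVal at h1
    rw [one_mul, add_zero, le_div_iff₀ (by positivity)] at h1
    exact h1
  have hb2 : ∀ᶠ n : ℕ in atTop, (v n : ℝ) ≤ B / q * (ρ ^ n * (n : ℝ) ^ d) := by
    filter_upwards [eventually_gt_atTop 0] with n hn0
    have hn' : (0 : ℝ) < n := by exact_mod_cast hn0
    have h1 : normVal (fun n => (v n : ℝ)) 1 0 ρ d n ≤ B / q := by
      rw [sm_norm_div I x q hq hv]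
      exact div_le_div_of_nonneg_right ((abs_le.1 (hB n hn0)).2) hq'.le
    unfold normVal at h1
    rw [one_mul, add_zero, div_le_iff₀ (by positivity)] at h1
    exact h1
  have hlimN : Tendsto (fun m : ℕ => N * m + J) atTop atTop := by
    refine tendsto_atTop_mono (fun m => ?_) tendsto_id
    have h1 : m ≤ N * m := Nat.le_mul_of_pos_left m hN
    show m ≤ N * m + J
    omega
  have hR : 0 < ρ ^ N := pow_pos hρ N
  have hNr : (1 : ℝ) ≤ N := by exact_mod_cast hN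
  set r : ℕ → ℝ := fun m => (v (N * m + J) : ℝ) / (σ ^ m * (m : ℝ) ^ e) with hr
  have hrm : ∀ m : ℕ, 0 < m → r m * (σ ^ m * (m : ℝ) ^ e) = v (N * m + J) := by
    intro m hm
    have hm' : (0 : ℝ) < m := by exact_mod_cast hm
    exact div_mul_cancel₀ _ (by positivity)
  have key := sm_growth (a := 3 / 4 / q * ρ ^ J) (ρ := σ) (R := ρ ^ N) (d := d) (e := e) (r := r)
    (A := |B| / q * ρ ^ J * ((N : ℝ) + J) ^ d) (B := B') (by positivity) hσ ?_ ?_ hR ?_ ?_
  · obtain ⟨c, hc, hcr⟩ := key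
    have h1 : c ≤ liminf r atTop := by
      refine le_liminf_of_le (sm_cobdd (B := B') ?_) hcr
      intro m hm
      have hm' : (0 : ℝ) < m := by exact_mod_cast hm
      rw [hr]
      simp only
      rw [abs_div, abs_of_pos (show 0 < σ ^ m * (m : ℝ) ^ e by positivity),
        div_le_iff₀ (by positivity)]
      exact hB' m hm
    have h2 : liminf r atTop = 0 := hlim
    linarith
  · filter_upwards [hlimN.eventually hb1, eventually_gt_atTop 0] with m hm hm0
    have hm' : (0 : ℝ) < m := by exact_mod_cast hm0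
    rw [hrm m hm0]
    refine le_trans ?_ hm
    rw [pow_add, pow_mul]
    have h3 : (m : ℝ) ^ d ≤ ((N * m + J : ℕ) : ℝ) ^ d := by
      refine pow_le_pow_left₀ hm'.le ?_ d
      push_cast
      have : (0 : ℝ) ≤ J := Nat.cast_nonneg _
      nlinarith
    calc 3 / 4 / (q : ℝ) * ρ ^ J * ((ρ ^ N) ^ m * (m : ℝ) ^ d)
        = 3 / 4 / (q : ℝ) * ((ρ ^ N) ^ m * ρ ^ J * (m : ℝ) ^ d) := by ring
      _ ≤ 3 / 4 / (q : ℝ) * ((ρ ^ N) ^ m * ρ ^ J * ((N * m + J : ℕ) : ℝ) ^ d) :=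
          mul_le_mul_of_nonneg_left (mul_le_mul_of_nonneg_left h3 (by positivity)) (by positivity)
  · filter_upwards [hlimN.eventually hb2, eventually_gt_atTop 0] with m hm hm0
    have hm' : (1 : ℝ) ≤ m := by exact_mod_cast hm0
    rw [hrm m hm0]
    refine le_trans hm ?_
    rw [pow_add, pow_mul]
    have h3 : ((N * m + J : ℕ) : ℝ) ^ d ≤ (((N : ℝ) + J) * m) ^ d := by
      refine pow_le_pow_left₀ (Nat.cast_nonneg _) ?_ d
      push_cast
      have : (0 : ℝ) ≤ J := Nat.cast_nonneg _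
      nlinarith
    rw [mul_pow] at h3
    calc B / (q : ℝ) * ((ρ ^ N) ^ m * ρ ^ J * ((N * m + J : ℕ) : ℝ) ^ d)
        ≤ |B| / (q : ℝ) * ((ρ ^ N) ^ m * ρ ^ J * ((N * m + J : ℕ) : ℝ) ^ d) :=
          mul_le_mul_of_nonneg_right (div_le_div_of_nonneg_right (le_abs_self B) hq'.le)
            (by positivity)
      _ ≤ |B| / (q : ℝ) * ((ρ ^ N) ^ m * ρ ^ J * (((N : ℝ) + J) ^ d * (m : ℝ) ^ d)) :=
          mul_le_mul_of_nonneg_left (mul_le_mul_of_nonneg_left h3 (by positivity)) (by positivity)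
      _ = |B| / (q : ℝ) * ρ ^ J * ((N : ℝ) + J) ^ d * ((ρ ^ N) ^ m * (m : ℝ) ^ d) := by ring
  · filter_upwards [eventually_gt_atTop 0] with m hm
    have hm' : (0 : ℝ) < m := by exact_mod_cast hm
    rw [hr]
    simp only
    rw [div_le_iff₀ (by positivity)]
    exact (abs_le.1 (hB' m hm)).2
  · intro h
    refine hnt 1 0 one_pos ?_
    refine h.congr fun m => ?_
    rw [hr]
    simp

private lemma sm_regular_mono {I : Inst} {μ μ' : ℝ} (h : μ' ≤ μ) (hI : I.RegularWith μ) :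
    I.RegularWith μ' := by
  obtain ⟨v, hv, N, hN, hJ⟩ := hI
  refine ⟨v, hv, N, hN, fun J hJN => ?_⟩
  rcases hJ J hJN with h1 | ⟨ρ, d, h1, h2, h3, h4⟩
  · exact Or.inl h1
  · exact Or.inr ⟨ρ, d, h1, h2, h3, h.trans h4⟩

private lemma sm_arith (L : ℕ) : (pE L + 2) * L ≤ L ^ 5000 + 5000 := by
  rcases Nat.lt_or_ge L 2 with h | h
  · interval_cases L
    · simp
    · unfold pE pcf
      norm_num
  · have h1 : pE L + 2 ≤ 134 * (L + 1) ^ 4 := by
      unfold pE pcf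
      have h2 : (L + 1) ^ 3 ≤ (L + 1) ^ 4 := Nat.pow_le_pow_right (by omega) (by norm_num)
      have h3 : 16 ≤ (L + 1) ^ 4 := by
        calc 16 = 2 ^ 4 := by norm_num
          _ ≤ (L + 1) ^ 4 := Nat.pow_le_pow_left (by omega) 4
      omega
    have h2 : (L + 1) ^ 4 ≤ (2 * L) ^ 4 := Nat.pow_le_pow_left (by omega) 4
    have h3 : 134 * 16 ≤ L ^ 12 := by
      calc 134 * 16 ≤ 2 ^ 12 := by norm_num
        _ ≤ L ^ 12 := Nat.pow_le_pow_left h 12
    calc (pE L + 2) * L ≤ 134 * (2 * L) ^ 4 * L := Nat.mul_le_mul_right _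
          (h1.trans (Nat.mul_le_mul_left _ h2))
      _ = 134 * 16 * L ^ 5 := by ring
      _ ≤ L ^ 12 * L ^ 5 := Nat.mul_le_mul_right _ h3
      _ = L ^ 17 := by rw [← pow_add]
      _ ≤ L ^ 5000 := Nat.pow_le_pow_right (by omega) (by norm_num)
      _ ≤ L ^ 5000 + 5000 := Nat.le_add_right _ _

/-- The number of grid points whose instance is ultimately positive but critical or of small
margin. -/
theorem exists_smoothed : ∃ c : ℕ, ∀ (I : Inst) (b : Fin I.k → ℤ) (q : ℕ) (hq : 0 < q) (p : ℕ),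
    Nat.card {w : Fin I.k → Fin (2 ^ p) //
      (I.withInit (fun i => b i + ((w i : ℕ) : ℤ)) q hq).UltimatelyPositive ∧
      ((I.withInit (fun i => b i + ((w i : ℕ) : ℤ)) q hq).Critical ∨
        ¬ (I.withInit (fun i => b i + ((w i : ℕ) : ℤ)) q hq).RegularWith
          (1 / 2 ^ ((I.withInit (fun i => b i + ((w i : ℕ) : ℤ)) q hq).enc.length ^ 1 + 1)))} *
      2 ^ p ≤ 2 ^ (I.coefLength ^ c + c) * (2 ^ p) ^ I.k := by
  refine ⟨5000, ?_⟩
  intro I b q hq p
  have hq' : (0 : ℝ) < q := by exact_mod_cast hq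
  obtain ⟨E, ρ, d, hρ, hE, hB, hd⟩ := I.exists_direction
  have h1 := Pool.Agent.MX.pack_card I.k (2 ^ p) (2 ^ pE I.coefLength) E (by
    intro i
    exact_mod_cast hE i) b (fun x => I.BadAt ρ d x) hd
  have h2 : Nat.card {w : Fin I.k → Fin (2 ^ p) //
      (I.withInit (fun i => b i + ((w i : ℕ) : ℤ)) q hq).UltimatelyPositive ∧
      ((I.withInit (fun i => b i + ((w i : ℕ) : ℤ)) q hq).Critical ∨
        ¬ (I.withInit (fun i => b i + ((w i : ℕ) : ℤ)) q hq).RegularWith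
          (1 / 2 ^ ((I.withInit (fun i => b i + ((w i : ℕ) : ℤ)) q hq).enc.length ^ 1 + 1)))} ≤
      Nat.card {w : Fin I.k → Fin (2 ^ p) // I.BadAt ρ d (fun i => b i + ((w i : ℕ) : ℤ))} := by
    refine Nat.card_le_card_of_injective (fun w => ⟨w.1, ?_⟩) ?_
    · obtain ⟨w, hUP, hor⟩ := w
      show I.BadAt ρ d (fun i => b i + ((w i : ℕ) : ℤ))
      by_contra hbad
      set x : Fin I.k → ℤ := fun i => b i + ((w i : ℕ) : ℤ) with hx
      have hpos : ∀ᶠ n : ℕ in atTop, 0 < I.seqR x n := by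
        obtain ⟨v, hv, _⟩ := (I.withInit x q hq).exists_unique_seq
        obtain ⟨N, hN⟩ := hUP v hv
        filter_upwards [eventually_ge_atTop N] with n hn
        have h3 : (0 : ℝ) < (v n : ℝ) := by exact_mod_cast hN n hn
        rw [I.seq_withInit x q hq v hv, div_pos_iff_of_pos_right hq'] at h3
        exact h3
      rcases hor with h3 | h3
      · exact I.not_critical_of_not_bad x q hq ρ d hρ (hB x) hpos hbad h3
      · apply h3
        refine sm_regular_mono ?_ (I.regularWith_of_not_bad x q hq ρ d hρ (hB x) hpos hbad)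
        have h4 := I.withInit_den x q hq
        have h5 : (q : ℝ) ≤ 2 ^ (I.withInit x q hq).enc.length := by exact_mod_cast h4
        rw [pow_one]
        refine one_div_le_one_div_of_le (by positivity) ?_
        rw [pow_succ]
        linarith
    · intro w w' h
      exact Subtype.ext (congrArg (fun z => z.1) h)
  have h3 : (2 * 2 ^ pE I.coefLength + 1) ^ I.k ≤ 2 ^ (I.coefLength ^ 5000 + 5000) := by
    have h4 : 2 * 2 ^ pE I.coefLength + 1 ≤ 2 ^ (pE I.coefLength + 2) := by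
      have : 1 ≤ 2 ^ pE I.coefLength := Nat.one_le_two_pow
      rw [pow_add]
      omega
    calc (2 * 2 ^ pE I.coefLength + 1) ^ I.k ≤ (2 ^ (pE I.coefLength + 2)) ^ I.k :=
          Nat.pow_le_pow_left h4 _
      _ ≤ (2 ^ (pE I.coefLength + 2)) ^ I.coefLength :=
          Nat.pow_le_pow_right (by positivity) I.k_le_coefLength
      _ = 2 ^ ((pE I.coefLength + 2) * I.coefLength) := by rw [← pow_mul]
      _ ≤ 2 ^ (I.coefLength ^ 5000 + 5000) :=
          Nat.pow_le_pow_right (by norm_num) (sm_arith _)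
  calc _ ≤ Nat.card {w : Fin I.k → Fin (2 ^ p) //
        I.BadAt ρ d (fun i => b i + ((w i : ℕ) : ℤ))} * 2 ^ p := Nat.mul_le_mul_right _ h2
    _ ≤ ((2 * 2 ^ pE I.coefLength + 1) * 2 ^ p) ^ I.k := h1
    _ = (2 * 2 ^ pE I.coefLength + 1) ^ I.k * (2 ^ p) ^ I.k := by rw [mul_pow]
    _ ≤ 2 ^ (I.coefLength ^ 5000 + 5000) * (2 ^ p) ^ I.k := Nat.mul_le_mul_right _ h3

end Pool.Agent.UltPos
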