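import Mathlib

/-! S1. A packing bound: a set of grid points that meets every line in a given integer direction in
at most one point is small. -/

set_option autoImplicit false

namespace Pool.Agent.MX

/-- If no two points of `Bad` differ by a positive multiple of `E`, `|E i| ≤ S`, then a cube of side
`P` contains at most `((2S+1)P)^k / P` points of `Bad` (the map `(w, t) ↦ b + w + tE`, `t < P`, is
injective with values in a cube of side `(2S+1)P`). -/
theorem pack_card (k P S : ℕ) (E : Fin k → ℤ) (hE : ∀ i, |E i| ≤ S) (b : Fin k → ℤ)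
    (Bad : (Fin k → ℤ) → Prop)
    (hd : ∀ x, Bad x → ∀ t : ℕ, 0 < t → ¬ Bad (fun i => x i + t * E i)) :
    Nat.card {w : Fin k → Fin P // Bad (fun i => b i + ((w i : ℕ) : ℤ))} * P ≤
      ((2 * S + 1) * P) ^ k := by
  classical
  have hP : Nat.card {w : Fin k → Fin P // Bad (fun i => b i + ((w i : ℕ) : ℤ))} * P =
      Nat.card ({w : Fin k → Fin P // Bad (fun i => b i + ((w i : ℕ) : ℤ))} × Fin P) := by
    rw [Nat.card_prod, Nat.card_fin]
  have hN : ((2 * S + 1) * P) ^ k = Nat.card (Fin k → Fin ((2 * S + 1) * P)) := by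
    simp
  rw [hP, hN]
  have hb : ∀ (w t : Fin P) (i : Fin k), 0 ≤ ((w : ℕ) : ℤ) + (t : ℕ) * E i + S * P ∧
      ((w : ℕ) : ℤ) + (t : ℕ) * E i + S * P < ((2 * S + 1) * P : ℕ) := by
    intro w t i
    have h1 := abs_le.1 (hE i)
    have hw : ((w : ℕ) : ℤ) + 1 ≤ P := by
      have := w.2
      omega
    have ht : ((t : ℕ) : ℤ) + 1 ≤ P := by
      have := t.2
      omega
    have ht0 : (0 : ℤ) ≤ (t : ℕ) := by positivity
    have hw0 : (0 : ℤ) ≤ (w : ℕ) := by positivity
    have hS : (0 : ℤ) ≤ S := by positivity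
    push_cast
    constructor
    · nlinarith [mul_le_mul_of_nonneg_left h1.1 ht0]
    · nlinarith [mul_le_mul_of_nonneg_left h1.2 ht0]
  let f : {w : Fin k → Fin P // Bad (fun i => b i + ((w i : ℕ) : ℤ))} × Fin P →
      (Fin k → Fin ((2 * S + 1) * P)) := fun p i =>
    ⟨(((p.1.1 i : ℕ) : ℤ) + (p.2 : ℕ) * E i + S * P).toNat, by
      have := hb (p.1.1 i) p.2 i
      omega⟩
  have hf : ∀ p i, (((f p i : Fin _) : ℕ) : ℤ) = ((p.1.1 i : ℕ) : ℤ) + (p.2 : ℕ) * E i + S * P := by
    intro p i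
    exact Int.toNat_of_nonneg (hb (p.1.1 i) p.2 i).1
  have key : ∀ p q, f p = f q → ¬ (p.2 : ℕ) < (q.2 : ℕ) := by
    intro p q h hlt
    refine hd _ q.1.2 ((q.2 : ℕ) - (p.2 : ℕ)) (by omega) ?_
    have h2 : (fun i => b i + ((q.1.1 i : ℕ) : ℤ) + (((q.2 : ℕ) - (p.2 : ℕ) : ℕ) : ℤ) * E i) =
        fun i => b i + ((p.1.1 i : ℕ) : ℤ) := by
      funext i
      have h3 := hf p i
      have h4 := hf q i
      rw [h] at h3
      rw [Nat.cast_sub hlt.le]
      linarith [h3.symm.trans h4]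
    rw [h2]
    exact p.1.2
  refine Nat.card_le_card_of_injective f ?_
  intro p q h
  have h1 : (p.2 : ℕ) = (q.2 : ℕ) := by
    have := key p q h
    have := key q p h.symm
    omega
  have h2 : p.2 = q.2 := Fin.ext h1
  refine Prod.ext (Subtype.ext ?_) h2
  funext i
  have h3 := hf p i
  have h4 := hf q i
  rw [h, h1] at h3
  refine Fin.ext ?_
  have := h3.symm.trans h4
  have h5 : ((p.1.1 i : ℕ) : ℤ) = ((q.1.1 i : ℕ) : ℤ) := by linarith
  exact_mod_cast h5

end Pool.Agent.MX
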