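import Pool.Agent.DD7719.GSimple
import Pool.Agent.DD7719.GBase
import Pool.Agent.MX.Defs

/-! S2. The leading term of a sequence with respect to the top level of its recurrence. -/

set_option autoImplicit false

namespace Pool.Agent.DD7719.M

open Complex Filter Topology

variable {k : ℕ}

section
variable (l c : Fin k → ℂ) (ex : Fin k → ℕ) (hex : ∀ i, ex i < k) (v : ℕ → ℝ)
  (hv : ∀ n, ∑ i, c i * (n.choose (ex i) : ℂ) * l i ^ (n - ex i) = (v n : ℂ))
  (ρ : ℝ) (d : ℕ) (hρ : 0 < ρ) (htop : ∀ i, ‖l i‖ < ρ ∨ (‖l i‖ = ρ ∧ ex i ≤ d))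

lemma smtop_norm_level (j : ℕ) (M : ℕ) :
    ‖GS.levelSum l c ex 1 j ρ d M‖ ≤ ∑ i, ‖c i * l i ^ (j - d)‖ := by
  classical
  unfold GS.levelSum
  refine (norm_sum_le _ _).trans (Finset.sum_le_sum fun i _ => ?_)
  split_ifs with h
  · rw [norm_mul, pow_one, norm_pow, norm_nz, one_pow, mul_one]
  · rw [norm_zero]
    exact norm_nonneg _

include hex hv hρ htop in
/-- the leading term (use `GS.level_asym` with `n0 = 1`, `j = k + d`, or prove it directly) -/
theorem top_asym : open scoped Classical in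
    Tendsto (fun m : ℕ => ((UltPos.normVal v 1 0 ρ d m : ℝ) : ℂ) - (1 / (d.factorial : ℂ)) *
      ∑ i, (if ‖l i‖ = ρ ∧ ex i = d then c i * (l i ^ d)⁻¹ * nz (l i) ^ m else 0))
      atTop (𝓝 0) := by
  classical
  have hvan : ∀ m : ℕ, ∑ i, (if Above ρ d (l i) (ex i) then
      c i * ((k + 1 * m).choose (ex i) : ℂ) * l i ^ (k + 1 * m - ex i) else 0) = 0 := by
    intro m
    apply Finset.sum_eq_zero
    intro i _
    rw [if_neg]
    intro hA
    unfold Above at hA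
    rcases htop i with h | ⟨h, h'⟩
    · rcases hA with hA | ⟨hA, -⟩
      · linarith
      · linarith
    · rcases hA with hA | ⟨-, -, hA⟩
      · linarith
      · omega
  have hlev := GS.level_asym l c ex 1 k one_pos (fun i => (hex i).le) ρ d hρ hvan
  have hch := GS.choose_asym k 1 d one_pos
  -- the correction factor
  have hr : Tendsto (fun M : ℕ => (M : ℝ) ^ d / (ρ ^ k * ((k + M : ℕ) : ℝ) ^ d)) atTop
      (𝓝 (ρ ^ k)⁻¹) := by
    have h1 : Tendsto (fun M : ℕ => ((k : ℝ) / M + 1)⁻¹ ^ d * (ρ ^ k)⁻¹) atTop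
        (𝓝 ((0 + 1)⁻¹ ^ d * (ρ ^ k)⁻¹)) := by
      apply Tendsto.mul_const
      apply Tendsto.pow
      apply Tendsto.inv₀
      · exact (tendsto_const_div_atTop_nhds_zero_nat (k : ℝ)).add_const _
      · norm_num
    rw [zero_add, inv_one, one_pow, one_mul] at h1
    refine h1.congr' ?_
    filter_upwards [eventually_gt_atTop 0] with M hM
    have hM' : (M : ℝ) ≠ 0 := by positivity
    have hkM : (k : ℝ) + M ≠ 0 := by positivity
    push_cast
    rw [← inv_pow, inv_pow]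
    have h2 : ((k : ℝ) / M + 1) = ((k : ℝ) + M) / M := by field_simp
    rw [h2, div_pow]
    field_simp
    rw [one_div, inv_pow, inv_mul_cancel₀ (by positivity)]
  have hrC : Tendsto (fun M : ℕ => (((M : ℝ) ^ d / (ρ ^ k * ((k + M : ℕ) : ℝ) ^ d) : ℝ) : ℂ)) atTop
      (𝓝 (((ρ ^ k)⁻¹ : ℝ) : ℂ)) := (continuous_ofReal.tendsto _).comp hr
  have hA := hrC.mul hlev
  rw [mul_zero] at hA
  have hrb : Tendsto (fun M : ℕ => (M : ℝ) ^ d / (ρ ^ k * ((k + M : ℕ) : ℝ) ^ d) *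
      (((k + 1 * M).choose d : ℝ) / (M : ℝ) ^ d) - (ρ ^ k)⁻¹ * (1 / (d.factorial : ℝ))) atTop
      (𝓝 0) := by
    have h1 := hr.mul hch
    rw [Nat.cast_one, one_pow] at h1
    have h2 := h1.sub_const ((ρ ^ k)⁻¹ * (1 / (d.factorial : ℝ)))
    rwa [sub_self] at h2
  have hB : Tendsto (fun M : ℕ => (((M : ℝ) ^ d / (ρ ^ k * ((k + M : ℕ) : ℝ) ^ d) *
      (((k + 1 * M).choose d : ℝ) / (M : ℝ) ^ d) - (ρ ^ k)⁻¹ * (1 / (d.factorial : ℝ)) : ℝ) : ℂ) *
      GS.levelSum l c ex 1 k ρ d M) atTop (𝓝 0) := by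
    have h1 := (hrb.abs).mul_const (∑ i, ‖c i * l i ^ (k - d)‖)
    rw [abs_zero, zero_mul] at h1
    refine squeeze_zero_norm (fun M => ?_) h1
    rw [norm_mul, norm_real, Real.norm_eq_abs]
    exact mul_le_mul_of_nonneg_left (smtop_norm_level l c ex ρ d k M) (abs_nonneg _)
  have hAB := hA.add hB
  rw [add_zero] at hAB
  rw [← tendsto_add_atTop_iff_nat k]
  refine hAB.congr' ?_
  filter_upwards [eventually_gt_atTop 0] with M hM
  have hM' : (M : ℝ) ≠ 0 := by positivity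
  have hMC : (M : ℂ) ≠ 0 := by exact_mod_cast hM.ne'
  have hρC : (ρ : ℂ) ≠ 0 := by exact_mod_cast hρ.ne'
  have hkMC : ((k : ℂ) + M) ≠ 0 := by exact_mod_cast (by omega : k + M ≠ 0)
  have hs : ∑ i, c i * ((k + 1 * M).choose (ex i) : ℂ) * l i ^ (k + 1 * M - ex i) =
      (v (k + 1 * M) : ℂ) := hv _
  rw [hs]
  have hL : ∑ i, (if ‖l i‖ = ρ ∧ ex i = d then c i * (l i ^ d)⁻¹ * nz (l i) ^ (M + k) else 0) =
      (((ρ ^ k)⁻¹ : ℝ) : ℂ) * GS.levelSum l c ex 1 k ρ d M := by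
    unfold GS.levelSum
    rw [Finset.mul_sum]
    apply Finset.sum_congr rfl
    intro i _
    split_ifs with h
    · obtain ⟨h1, h2⟩ := h
      have hdk : d < k := h2 ▸ hex i
      have h4 := nz_mul_norm (l i)
      rw [h1] at h4
      have hl0 : l i ≠ 0 := by
        intro h0
        rw [h0, norm_zero] at h1
        exact hρ.ne h1
      have h5 : l i ^ k = (ρ : ℂ) ^ k * nz (l i) ^ k := by
        conv_lhs => rw [← h4]
        rw [mul_pow]
      have h6 : l i ^ k = l i ^ (k - d) * l i ^ d := by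
        rw [← pow_add]
        congr 1
        omega
      have h7 : (l i ^ d) ≠ 0 := pow_ne_zero _ hl0
      have h8 : l i ^ (k - d) = (ρ : ℂ) ^ k * nz (l i) ^ k * (l i ^ d)⁻¹ := by
        rw [← h5, h6]
        field_simp
      rw [h8, pow_one, pow_add]
      push_cast
      field_simp
    · rw [mul_zero]
  rw [hL]
  have hn : (UltPos.normVal v 1 0 ρ d (M + k) : ℝ) =
      v (k + 1 * M) / (ρ ^ (k + M) * ((k + M : ℕ) : ℝ) ^ d) := by
    unfold UltPos.normVal
    have e1 : 1 * (M + k) + 0 = k + M := by omega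
    have e2 : k + 1 * M = k + M := by omega
    rw [e1, e2]
  rw [hn]
  push_cast
  rw [pow_add]
  simp only [one_mul]
  field_simp
  ring

omit hex hv hρ htop in
open scoped Classical in
lemma smtop_norm_lead (m : ℕ) :
    ‖(1 / (d.factorial : ℂ)) *
      ∑ i, (if ‖l i‖ = ρ ∧ ex i = d then c i * (l i ^ d)⁻¹ * nz (l i) ^ m else 0)‖ ≤
    (1 / (d.factorial : ℝ)) * ∑ i, ‖c i * (l i ^ d)⁻¹‖ := by
  rw [norm_mul, norm_div, norm_one, norm_natCast]
  apply mul_le_mul_of_nonneg_left _ (by positivity)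
  refine (norm_sum_le _ _).trans (Finset.sum_le_sum fun i _ => ?_)
  split_ifs with h
  · rw [norm_mul, norm_pow, norm_nz, one_pow, mul_one]
  · rw [norm_zero]
    exact norm_nonneg _

include hex hv hρ htop in
theorem top_bounded : ∃ B : ℝ, ∀ m : ℕ, 0 < m → |UltPos.normVal v 1 0 ρ d m| ≤ B := by
  classical
  have h := top_asym l c ex hex v hv ρ d hρ htop
  have h1 : ∀ᶠ m : ℕ in atTop, ‖((UltPos.normVal v 1 0 ρ d m : ℝ) : ℂ) - (1 / (d.factorial : ℂ)) *
      ∑ i, (if ‖l i‖ = ρ ∧ ex i = d then c i * (l i ^ d)⁻¹ * nz (l i) ^ m else 0)‖ < 1 := by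
    have := h.norm
    rw [norm_zero] at this
    exact this.eventually (gt_mem_nhds one_pos)
  obtain ⟨N0, hN0⟩ := eventually_atTop.mp h1
  refine ⟨(1 + (1 / (d.factorial : ℝ)) * ∑ i, ‖c i * (l i ^ d)⁻¹‖) +
    ∑ m ∈ Finset.range N0, |UltPos.normVal v 1 0 ρ d m|, fun m _ => ?_⟩
  have hnn : 0 ≤ ∑ m ∈ Finset.range N0, |UltPos.normVal v 1 0 ρ d m| :=
    Finset.sum_nonneg fun _ _ => abs_nonneg _
  have hnn2 : 0 ≤ (1 / (d.factorial : ℝ)) * ∑ i, ‖c i * (l i ^ d)⁻¹‖ := by positivity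
  rcases lt_or_ge m N0 with hm | hm
  · have h2 : |UltPos.normVal v 1 0 ρ d m| ≤ ∑ m ∈ Finset.range N0, |UltPos.normVal v 1 0 ρ d m| :=
      Finset.single_le_sum (f := fun m => |UltPos.normVal v 1 0 ρ d m|)
        (fun _ _ => abs_nonneg _) (Finset.mem_range.mpr hm)
    linarith
  · have h2 := hN0 m hm
    have h3 := smtop_norm_lead l c ex ρ d m
    have h4 : |UltPos.normVal v 1 0 ρ d m| = ‖((UltPos.normVal v 1 0 ρ d m : ℝ) : ℂ)‖ := by
      rw [norm_real, Real.norm_eq_abs]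
    rw [h4]
    have h5 := norm_sub_norm_le ((UltPos.normVal v 1 0 ρ d m : ℝ) : ℂ) ((1 / (d.factorial : ℂ)) *
      ∑ i, (if ‖l i‖ = ρ ∧ ex i = d then c i * (l i ^ d)⁻¹ * nz (l i) ^ m else 0))
    linarith

include hex hv hρ htop in
/-- a dominating term with real positive root -/
theorem top_lower (i0 : Fin k) (h0 : l i0 = (ρ : ℂ)) (hd0 : ex i0 = d)
    (hinj : ∀ i i', i ≠ i' → l i ≠ l i' ∨ ex i ≠ ex i') (M δ : ℝ)
    (hc : ∀ i, ‖c i - (if i = i0 then (M : ℂ) else 0)‖ ≤ δ) (η : ℝ) (hη : 0 < η) :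
    ∀ᶠ m : ℕ in atTop, (M - k * δ) / (d.factorial * ρ ^ d) - η ≤ UltPos.normVal v 1 0 ρ d m := by
  classical
  have h := top_asym l c ex hex v hv ρ d hρ htop
  have h1 : ∀ᶠ m : ℕ in atTop, ‖((UltPos.normVal v 1 0 ρ d m : ℝ) : ℂ) - (1 / (d.factorial : ℂ)) *
      ∑ i, (if ‖l i‖ = ρ ∧ ex i = d then c i * (l i ^ d)⁻¹ * nz (l i) ^ m else 0)‖ < η := by
    have := h.norm
    rw [norm_zero] at this
    exact this.eventually (gt_mem_nhds hη)
  have hρn : ‖l i0‖ = ρ := by rw [h0, norm_real, Real.norm_of_nonneg hρ.le]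
  have hnz0 : nz (l i0) = 1 := by
    have h4 := nz_mul_norm (l i0)
    rw [hρn, h0] at h4
    have hρC : (ρ : ℂ) ≠ 0 := by exact_mod_cast hρ.ne'
    rw [h0]
    have h5 : (ρ : ℂ) * nz (ρ : ℂ) = (ρ : ℂ) * 1 := by
      rw [mul_one]
      first
        | exact h4
        | (rw [mul_comm]; exact h4)
    exact mul_left_cancel₀ hρC h5
  filter_upwards [h1] with m hm
  have hre := (abs_re_le_norm _).trans hm.le
  rw [sub_re, ofReal_re] at hre
  have h6 := (abs_le.mp hre).1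
  -- the real part of the leading term
  have hterm : ∀ i, (if i = i0 then M else 0) / ρ ^ d - δ / ρ ^ d ≤
      ((if ‖l i‖ = ρ ∧ ex i = d then c i * (l i ^ d)⁻¹ * nz (l i) ^ m else 0 : ℂ)).re := by
    intro i
    have hδ : 0 ≤ δ := (norm_nonneg _).trans (hc i)
    have hρd : 0 < ρ ^ d := by positivity
    by_cases hi : i = i0
    · subst hi
      rw [if_pos rfl, if_pos ⟨hρn, hd0⟩, hnz0, one_pow, mul_one, h0]
      have h7 := hc i
      rw [if_pos rfl] at h7
      have h8 : (c i * ((ρ : ℂ) ^ d)⁻¹).re = (c i).re / ρ ^ d := by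
        have : ((ρ : ℂ) ^ d)⁻¹ = (((ρ ^ d)⁻¹ : ℝ) : ℂ) := by push_cast; rfl
        rw [this, re_mul_ofReal, div_eq_mul_inv]
      rw [h8]
      have h9 := (abs_re_le_norm _).trans h7
      rw [sub_re, ofReal_re] at h9
      have h10 := (abs_le.mp h9).1
      rw [← sub_div]
      apply div_le_div_of_nonneg_right _ hρd.le
      linarith
    · rw [if_neg hi, zero_div, zero_sub]
      have h7 := hc i
      rw [if_neg hi, sub_zero] at h7
      split_ifs with h8
      · obtain ⟨h8, h9⟩ := h8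
        have h10 : ‖c i * (l i ^ d)⁻¹ * nz (l i) ^ m‖ ≤ δ / ρ ^ d := by
          rw [norm_mul, norm_pow, norm_nz, one_pow, mul_one, norm_mul, norm_inv, norm_pow, h8,
            div_eq_mul_inv]
          exact mul_le_mul_of_nonneg_right h7 (by positivity)
        have h11 := (abs_re_le_norm _).trans h10
        exact (abs_le.mp h11).1
      · rw [zero_re]
        have : 0 ≤ δ / ρ ^ d := by positivity
        linarith
  have hsum : (M - k * δ) / ρ ^ d ≤
      (∑ i, (if ‖l i‖ = ρ ∧ ex i = d then c i * (l i ^ d)⁻¹ * nz (l i) ^ m else 0 : ℂ)).re := by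
    rw [re_sum]
    refine le_trans (le_of_eq ?_) (Finset.sum_le_sum fun i _ => hterm i)
    rw [Finset.sum_sub_distrib, ← Finset.sum_div, Finset.sum_ite_eq' Finset.univ i0,
      if_pos (Finset.mem_univ _), Finset.sum_const, Finset.card_univ, Fintype.card_fin, nsmul_eq_mul]
    ring
  have hfac : (0 : ℝ) < d.factorial := by positivity
  have h12 : ((1 / (d.factorial : ℂ)) *
      ∑ i, (if ‖l i‖ = ρ ∧ ex i = d then c i * (l i ^ d)⁻¹ * nz (l i) ^ m else 0 : ℂ)).re =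
      (1 / (d.factorial : ℝ)) *
      (∑ i, (if ‖l i‖ = ρ ∧ ex i = d then c i * (l i ^ d)⁻¹ * nz (l i) ^ m else 0 : ℂ)).re := by
    have : (1 / (d.factorial : ℂ)) = ((1 / (d.factorial : ℝ) : ℝ) : ℂ) := by push_cast; rfl
    rw [this, re_ofReal_mul]
  rw [h12] at h6
  have h13 : (M - k * δ) / (d.factorial * ρ ^ d) = (1 / (d.factorial : ℝ)) * ((M - k * δ) / ρ ^ d) := by
    field_simp
  rw [h13]
  have h14 := mul_le_mul_of_nonneg_left hsum (by positivity : 0 ≤ 1 / (d.factorial : ℝ))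
  linarith

end

end Pool.Agent.DD7719.M
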